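import Pool.Agent.Lib.MP_c5b475_co.Few.DefsB

set_option autoImplicit false

/-!
# From a placement to a closed labelling
-/

namespace Pool.Agent.Lib.MP_c5b475_co

open Finset

/-- AS. From a placement to a closed labelling, the remaining types being taken by leaves of the
root. -/
theorem closed_of_placed {U : Type*} [Fintype U] [DecidableEq U] {T : SimpleGraph U} (R : RT T)
    (A : Finset U) (hA : ∀ u, u ∉ A → R.par u ∈ A ∧ (R.dep u : ZMod 2) = 1) (m : ℕ) [NeZero m]
    (lab : U → ZMod m) (hP : R.Placed A lab)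
    (hl : m + 1 ≤ A.card + (univ.filter (fun u => u ∉ A ∧ R.par u = R.c)).card) :
    ClosedMod T m := by
  classical
  obtain ⟨W, hW⟩ : ∃ W : Finset (ZMod m),
      W = (A.erase R.c).image (fun u => lab u + lab (R.par u)) := ⟨_, rfl⟩
  have hWcard : W.card = A.card - 1 := by
    rw [hW, Finset.card_image_of_injOn, Finset.card_erase_of_mem hP.root_mem]
    intro u hu v hv h
    have hu' := Finset.mem_erase.1 (Finset.mem_coe.1 hu)
    have hv' := Finset.mem_erase.1 (Finset.mem_coe.1 hv)
    exact hP.ty_inj u hu'.2 v hv'.2 hu'.1 hv'.1 h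
  have hApos : 0 < A.card := Finset.card_pos.2 ⟨_, hP.root_mem⟩
  have hWle : W.card ≤ m := by
    have := Finset.card_le_univ W
    rwa [ZMod.card] at this
  have hMcard : Wᶜ.card = m + 1 - A.card := by
    rw [Finset.card_compl, ZMod.card]
    omega
  obtain ⟨S, hSL, hScard⟩ := Finset.exists_subset_card_eq
    (s := univ.filter (fun u => u ∉ A ∧ R.par u = R.c)) (n := Wᶜ.card) (by omega)
  let b : S ≃ (Wᶜ : Finset (ZMod m)) := Finset.equivOfCardEq hScard
  let lab' : U → ZMod m := fun w => if h : w ∈ S then (b ⟨w, h⟩ : ZMod m) else lab w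
  have hSA : ∀ w ∈ S, w ∉ A := fun w hw => (Finset.mem_filter.1 (hSL hw)).2.1
  have hSc : ∀ w ∈ S, R.par w = R.c := fun w hw => (Finset.mem_filter.1 (hSL hw)).2.2
  have hAS : ∀ w ∈ A, w ∉ S := fun w hw h => hSA w h hw
  have labA : ∀ w ∈ A, lab' w = lab w := fun w hw => dif_neg (hAS w hw)
  have labS : ∀ w ∈ S, lab' w ∉ W := by
    intro w hw
    have h1 : lab' w = b ⟨w, hw⟩ := dif_pos hw
    rw [h1]
    exact Finset.mem_compl.1 (b ⟨w, hw⟩).2
  have labS_inj : ∀ u ∈ S, ∀ v ∈ S, lab' u = lab' v → u = v := by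
    intro u hu v hv h
    have h1 : lab' u = b ⟨u, hu⟩ := dif_pos hu
    have h2 : lab' v = b ⟨v, hv⟩ := dif_pos hv
    rw [h1, h2] at h
    have h3 := b.injective (Subtype.ext h)
    exact congrArg Subtype.val h3
  have hc0 : lab' R.c = 0 := by rw [labA _ hP.root_mem, hP.root_lab]
  have tyA : ∀ u ∈ A, u ≠ R.c → lab' u + lab' (R.par u) = lab u + lab (R.par u) := by
    intro u hu hne
    rw [labA u hu, labA _ (hP.par_mem u hu hne)]
  have tyS : ∀ u ∈ S, lab' u + lab' (R.par u) = lab' u := by
    intro u hu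
    rw [hSc u hu, hc0, add_zero]
  have tyW : ∀ u ∈ A, u ≠ R.c → lab u + lab (R.par u) ∈ W := by
    intro u hu hne
    rw [hW]
    exact Finset.mem_image.2 ⟨u, Finset.mem_erase.2 ⟨hne, hu⟩, rfl⟩
  have oddW : ∀ v ∈ A, (R.dep v : ZMod 2) = 1 → lab v ∈ W := by
    intro v hv hd
    obtain ⟨u, hu, hne, h⟩ := hP.closed v hv hd
    rw [← h]
    exact tyW u hu hne
  refine ⟨R, A ∪ S, lab', Finset.mem_union_left _ hP.root_mem, ?_, ?_, ?_, ?_, ?_⟩
  · intro u hu hne
    rcases Finset.mem_union.1 hu with h | h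
    · exact Finset.mem_union_left _ (hP.par_mem u h hne)
    · rw [hSc u h]
      exact Finset.mem_union_left _ hP.root_mem
  · intro u hu
    have h1 := hA u (fun h => hu (Finset.mem_union_left _ h))
    exact ⟨Finset.mem_union_left _ h1.1, h1.2⟩
  · intro u hu v hv hd h
    rcases Finset.mem_union.1 hu with hu | hu <;> rcases Finset.mem_union.1 hv with hv | hv
    · rw [labA u hu, labA v hv] at h
      exact hP.inj u hu v hv hd h
    · exfalso
      apply labS v hv
      rw [← h, labA u hu]
      exact oddW u hu (hd.trans (hA v (hSA v hv)).2)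
    · exfalso
      apply labS u hu
      rw [h, labA v hv]
      exact oddW v hv (hd.symm.trans (hA u (hSA u hu)).2)
    · exact labS_inj u hu v hv h
  · intro u hu v hv hune hvne h
    rcases Finset.mem_union.1 hu with hu | hu <;> rcases Finset.mem_union.1 hv with hv | hv
    · rw [tyA u hu hune, tyA v hv hvne] at h
      exact hP.ty_inj u hu v hv hune hvne h
    · exfalso
      rw [tyA u hu hune, tyS v hv] at h
      exact labS v hv (h ▸ tyW u hu hune)
    · exfalso
      rw [tyS u hu, tyA v hv hvne] at h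
      exact labS u hu (h ▸ tyW v hv hvne)
    · rw [tyS u hu, tyS v hv] at h
      exact labS_inj u hu v hv h
  · rw [Finset.card_union_of_disjoint (Finset.disjoint_left.2 hAS), hScard, hMcard]
    omega

end Pool.Agent.Lib.MP_c5b475_co
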