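import Pool.Agent.Lib.MP_c5b475_co.Defs
import Pool.Agent.Lib.MP_c5b475_co.Rooted

set_option autoImplicit false

/-!
# Frames: cores with partial closure
-/

namespace Pool.Agent.Lib.MP_c5b475_co

open Finset

section

variable {U : Type*} [Fintype U] [DecidableEq U] {T : SimpleGraph U} (R : RT T)

/-- The vertices outside `I` whose depth has parity `a`. -/
def RT.out (I : Finset U) (a : ZMod 2) : Finset U :=
  (univ \ I).filter (fun w => (R.dep w : ZMod 2) = a)

/-- The types of the edges of the core. -/
def RT.types (I : Finset U) (lab : U → ℕ) : Finset ℕ :=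
  (I.erase R.c).image (fun u => lab u + lab (R.par u))

/-- The types which are forbidden for the outer vertices of parity `a`. -/
def RT.forb (I : Finset U) (lab : U → ℕ) (a : ZMod 2) : Finset ℕ :=
  (R.out I a ×ˢ I.filter (fun u => (R.dep u : ZMod 2) = a)).image
    (fun p => lab (R.par p.1) + lab p.2)

end

/-- A tree is `K`-framed: it has a core `I` with labels such that all sums of labels of core
vertices of different parity are below `K`, labels are injective on each parity class, the edges
of the core have different types, and the forbidden types of the two classes of outer leaves which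
are not types of the core are disjoint and not too many. -/
def Framed {U : Type*} [Fintype U] [DecidableEq U] (T : SimpleGraph U) (K : ℕ) : Prop :=
  ∃ (R : RT T) (I : Finset U) (lab : U → ℕ), R.c ∈ I ∧
    (∀ u ∈ I, u ≠ R.c → R.par u ∈ I) ∧ (∀ u, u ∉ I → R.par u ∈ I) ∧
    (∀ u ∈ I, ∀ v ∈ I, (R.dep u : ZMod 2) = R.dep v → lab u = lab v → u = v) ∧
    (∀ u ∈ I, ∀ v ∈ I, (R.dep u : ZMod 2) ≠ R.dep v → lab u + lab v < K) ∧
    (∀ u ∈ I, ∀ v ∈ I, u ≠ R.c → v ≠ R.c →
      lab u + lab (R.par u) = lab v + lab (R.par v) → u = v) ∧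
    Disjoint (R.forb I lab 0 \ R.types I lab) (R.forb I lab 1 \ R.types I lab) ∧
    (R.forb I lab 0 \ R.types I lab).card ≤ (R.out I 1).card ∧
    (R.forb I lab 1 \ R.types I lab).card ≤ (R.out I 0).card

/-- Closed labelling with `r` closed rows and `L` columns: the core `I` contains all vertices of even
depth (their labels are the rows `row u`) and all inner vertices; the labels of the vertices of odd
depth of `I` are below `L` and injective; the types of the core edges are injective and below
`L + (r - 1)`, and `I` has `L + r` vertices (so the types are exactly `0, …, L + r - 2`). -/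
structure RT.Closed {U : Type*} [DecidableEq U] {T : SimpleGraph U} (R : RT T) (r L : ℕ)
    (row : U → ℕ) (I : Finset U) (lab : U → ℕ) : Prop where
  even_mem : ∀ u, (R.dep u : ZMod 2) = 0 → u ∈ I
  inner_mem : ∀ u, IsInner T u → u ∈ I
  lab_even : ∀ u, (R.dep u : ZMod 2) = 0 → lab u = row u
  lab_odd : ∀ u ∈ I, (R.dep u : ZMod 2) = 1 → lab u < L
  inj_odd : ∀ u ∈ I, ∀ v ∈ I, (R.dep u : ZMod 2) = 1 → (R.dep v : ZMod 2) = 1 →
    lab u = lab v → u = v
  type_lt : ∀ u ∈ I, u ≠ R.c → lab u + lab (R.par u) < L + (r - 1)
  type_inj : ∀ u ∈ I, ∀ v ∈ I, u ≠ R.c → v ≠ R.c →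
    lab u + lab (R.par u) = lab v + lab (R.par v) → u = v
  card_eq : I.card = L + r

open Classical in
/-- The leaves adjacent to `u`. -/
noncomputable def lf {U : Type*} [Fintype U] (T : SimpleGraph U) (u : U) : Finset U :=
  univ.filter (fun w => T.Adj u w ∧ ¬ IsInner T w)

end Pool.Agent.Lib.MP_c5b475_co
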