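import Pool.Agent.Lib.MP_c5b475_co.Few.Fill
import Pool.Agent.Lib.MP_c5b475_co.Few.Defs
import Pool.Agent.Lib.MP_c5b475_co.Lobster

set_option autoImplicit false

/-!
# B1a: the first stage (spaced clusters for the odd inner vertices, filled by leaves of `Rb`)
-/

namespace Pool.Agent.Lib.MP_c5b475_co

open Finset

theorem stage1_zmod (a : ZMod 2) : a = 0 ∨ a = 1 := by
  revert a; decide

/-- an enumeration of `Y` with prescribed first and last element -/
theorem stage1_idx {U : Type*} [DecidableEq U] (Y : Finset U) {y z : U} (hy : y ∈ Y) (hz : z ∈ Y)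
    (hyz : y = z → ∀ w ∈ Y, w = y) :
    ∃ idx : U → ℕ, idx y = 0 ∧ idx z + 1 = Y.card ∧
      (∀ u ∈ Y, ∀ v ∈ Y, idx u = idx v → u = v) ∧ ∀ u ∈ Y, idx u < Y.card := by
  by_cases h : y = z
  · have h1 : Y = {y} := by
      ext w
      rw [mem_singleton]
      exact ⟨hyz h w, fun e => e ▸ hy⟩
    refine ⟨fun _ => 0, rfl, ?_, ?_, ?_⟩
    · rw [h1, card_singleton]
    · intro u hu v hv _
      rw [hyz h u hu, hyz h v hv]
    · intro u hu
      exact card_pos.mpr ⟨u, hu⟩
  · set Y' := (Y.erase y).erase z with hY'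
    have hzy : z ∈ Y.erase y := mem_erase.mpr ⟨fun e => h e.symm, hz⟩
    have hc : Y'.card + 2 = Y.card := by
      have h1 := card_erase_add_one hy
      have h2 := card_erase_add_one hzy
      rw [← hY'] at h2
      omega
    let e := Y'.equivFin
    let idx : U → ℕ := fun w => if w = y then 0 else if w = z then Y'.card + 1 else
      if hw : w ∈ Y' then (e ⟨w, hw⟩ : ℕ) + 1 else 0
    have iy : idx y = 0 := if_pos rfl
    have iz : idx z = Y'.card + 1 := by
      change (if z = y then 0 else if z = z then Y'.card + 1 else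
        if hw : z ∈ Y' then (e ⟨z, hw⟩ : ℕ) + 1 else 0) = _
      rw [if_neg (fun e => h e.symm), if_pos rfl]
    have iw : ∀ w (hw : w ∈ Y'), idx w = (e ⟨w, hw⟩ : ℕ) + 1 := by
      intro w hw
      have hw' := hw
      rw [hY', mem_erase, mem_erase] at hw'
      simp only [idx]
      rw [if_neg hw'.2.1, if_neg hw'.1, dif_pos hw]
    have hcase : ∀ w ∈ Y, w = y ∨ w = z ∨ w ∈ Y' := by
      intro w hw
      by_cases h1 : w = y
      · exact Or.inl h1
      by_cases h2 : w = z
      · exact Or.inr (Or.inl h2)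
      · exact Or.inr (Or.inr (mem_erase.mpr ⟨h2, mem_erase.mpr ⟨h1, hw⟩⟩))
    have hlt : ∀ w (hw : w ∈ Y'), (e ⟨w, hw⟩ : ℕ) < Y'.card := fun w hw => (e ⟨w, hw⟩).2
    refine ⟨idx, iy, by omega, ?_, ?_⟩
    · intro u hu v hv huv
      rcases hcase u hu with rfl | rfl | hu'
      · rcases hcase v hv with rfl | rfl | hv'
        · rfl
        · omega
        · rw [iy, iw v hv'] at huv
          omega
      · rcases hcase v hv with rfl | rfl | hv'
        · omega
        · rfl
        · rw [iz, iw v hv'] at huv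
          have := hlt v hv'
          omega
      · rcases hcase v hv with rfl | rfl | hv'
        · rw [iy, iw u hu'] at huv
          omega
        · rw [iz, iw u hu'] at huv
          have := hlt u hu'
          omega
        · rw [iw u hu', iw v hv'] at huv
          have h3 : e ⟨u, hu'⟩ = e ⟨v, hv'⟩ := Fin.ext (by omega)
          exact congrArg Subtype.val (e.injective h3)
    · intro u hu
      rcases hcase u hu with rfl | rfl | hu'
      · omega
      · omega
      · rw [iw u hu']
        have := hlt u hu'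
        omega

theorem stage1_divmod {N a b i j : ℕ} (ha : a < N) (hb : b < N) (h : a + i * N = b + j * N) :
    a = b ∧ i = j := by
  have hN : 0 < N := by omega
  have h1 : (a + i * N) % N = (b + j * N) % N := by rw [h]
  rw [Nat.add_mul_mod_self_right, Nat.add_mul_mod_self_right, Nat.mod_eq_of_lt ha,
    Nat.mod_eq_of_lt hb] at h1
  refine ⟨h1, ?_⟩
  rw [h1] at h
  exact Nat.eq_of_mul_eq_mul_right hN (Nat.add_left_cancel h)

/-- the arithmetic of the first stage -/
theorem stage1_arith {U : Type*} [DecidableEq U] (X Y : Finset U) (E : U → U → Prop) (r : ℕ)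
    (hr : 2 ≤ r) (hrX : r ≤ X.card) (row idx : U → ℕ) (row_inj : ∀ u ∈ X, ∀ v ∈ X, row u = row v → u = v)
    (row_lt : ∀ u ∈ X, row u < X.card)
    (idx_inj : ∀ u ∈ Y, ∀ v ∈ Y, idx u = idx v → u = v) (idx_lt : ∀ u ∈ Y, idx u < Y.card)
    {y z : U} (hy : y ∈ Y) (hz : z ∈ Y) (hy0 : idx y = 0) (hz0 : idx z + 1 = Y.card)
    (hyu : ∃ u ∈ X, E u y ∧ row u = 0) (hzu : ∃ u ∈ X, E u z ∧ r ≤ row u + 1)
    (htwo : ∀ w ∈ Y, ∃ u ∈ X, ∃ v ∈ X, E u w ∧ E v w ∧ u ≠ v)
    (S : Finset ℕ) (hS : ∀ t, t ∈ S ↔ ∃ u ∈ X, ∃ w ∈ Y, E u w ∧ t = row u + idx w * X.card)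
    (hScard : S.card + 1 = X.card + Y.card) :
    ∃ (D : Finset ℕ) (g : ℕ → ℕ), (∀ z ∈ D, z < Y.card * X.card ∧
        (∀ w ∈ Y, z ≠ idx w * X.card) ∧ z ≤ g z ∧ g z < z + r) ∧
      (∀ z ∈ D, ∀ z' ∈ D, g z = g z' → z = z') ∧ (∀ z ∈ D, g z ∉ S) ∧
      (∀ z ∈ D, g z < Y.card * X.card + (r - 1)) ∧
      D.card + S.card = Y.card * X.card + (r - 1) ∧ ∀ t ∈ S, t < Y.card * X.card := by
  set N := X.card with hN
  have hN0 : 0 < N := by omega
  set B : Finset ℕ := Y.image (fun w => idx w * N) with hBdef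
  have hBinj : ∀ u ∈ Y, ∀ v ∈ Y, idx u * N = idx v * N → u = v := by
    intro u hu v hv h
    exact idx_inj u hu v hv (Nat.eq_of_mul_eq_mul_right hN0 h)
  have hBcard : B.card = Y.card := card_image_of_injOn (fun u hu v hv h => hBinj u hu v hv h)
  have hmul : ∀ w ∈ Y, idx w * N + N ≤ Y.card * N := by
    intro w hw
    have := idx_lt w hw
    calc idx w * N + N = (idx w + 1) * N := by ring
      _ ≤ Y.card * N := Nat.mul_le_mul_right _ this
  have hStype : ∀ t ∈ S, t < Y.card * N := by
    intro t ht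
    obtain ⟨u, hu, w, hw, -, rfl⟩ := (hS t).mp ht
    have h1 := row_lt u hu
    have h2 := hmul w hw
    omega
  have hmem : ∀ u ∈ X, ∀ w ∈ Y, E u w → row u + idx w * N ∈ S := fun u hu w hw h =>
    (hS _).mpr ⟨u, hu, w, hw, h, rfl⟩
  obtain ⟨D, g, hD1, hD2, hD3⟩ := fill r (Y.card * N) hr B S (by
      intro β hβ
      obtain ⟨w, hw, rfl⟩ := mem_image.mp hβ
      have := hmul w hw
      change idx w * N < _
      omega) hStype (by
      obtain ⟨u, hu, h1, h2⟩ := hyu
      have := hmem u hu y hy h1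
      rwa [h2, hy0, zero_mul] at this) (by omega) (by
      intro τ
      set P := Y.filter (fun w => τ ≤ idx w * N + (r - 1)) with hP
      have h1 : (B.filter (fun β => τ ≤ β + (r - 1))).card ≤ P.card := by
        refine (card_le_card ?_).trans (card_image_le (s := P) (f := fun w => idx w * N))
        intro β hβ
        rw [mem_filter] at hβ
        obtain ⟨w, hw, hwβ⟩ := mem_image.mp hβ.1
        rw [mem_image]
        refine ⟨w, ?_, hwβ⟩
        rw [hP, mem_filter]
        refine ⟨hw, ?_⟩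
        have h3 := hβ.2
        rw [← hwβ] at h3
        exact h3
      refine h1.trans ?_
      rcases P.eq_empty_or_nonempty with h2 | h2
      · rw [h2]; simp
      obtain ⟨w₀, hw₀, hmin⟩ := exists_min_image P idx h2
      have hzP : z ∈ P := by
        rw [hP, mem_filter] at hw₀ ⊢
        refine ⟨hz, hw₀.2.trans ?_⟩
        have h3 := idx_lt w₀ hw₀.1
        have h4 : idx w₀ * N ≤ idx z * N := Nat.mul_le_mul_right _ (by omega)
        omega
      have h3 : P.card ≤ 1 ∨ 2 ≤ P.card := by omega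
      rcases h3 with h3 | h3
      · refine h3.trans ?_
        rw [Nat.one_le_iff_ne_zero, ← Nat.pos_iff_ne_zero, card_pos]
        obtain ⟨u, hu, h4, h5⟩ := hzu
        refine ⟨row u + idx z * N, ?_⟩
        rw [mem_filter]
        refine ⟨hmem u hu z hz h4, ?_⟩
        have h6 := (mem_filter.mp hzP).2
        omega
      · choose! p hp q hq hpE hqE hpq using htwo
        have h4 : ((P.erase w₀).biUnion
            (fun w => {row (p w) + idx w * N, row (q w) + idx w * N})) ⊆
            S.filter (fun t => τ ≤ t) := by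
          intro t ht
          rw [mem_biUnion] at ht
          obtain ⟨w, hw, htw⟩ := ht
          rw [mem_erase] at hw
          have hwP := (mem_filter.mp hw.2)
          have hw₀P := (mem_filter.mp hw₀)
          have h5 : idx w₀ < idx w := by
            refine lt_of_le_of_ne (hmin w hw.2) fun e => hw.1 ?_
            exact idx_inj w hwP.1 w₀ hw₀P.1 e.symm
          have h6 : idx w₀ * N + N ≤ idx w * N := by
            calc idx w₀ * N + N = (idx w₀ + 1) * N := by ring
              _ ≤ idx w * N := Nat.mul_le_mul_right _ h5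
          rw [mem_insert, mem_singleton] at htw
          rw [mem_filter]
          have h7 := hw₀P.2
          rcases htw with rfl | rfl
          · exact ⟨hmem _ (hp w hwP.1) w hwP.1 (hpE w hwP.1), by omega⟩
          · exact ⟨hmem _ (hq w hwP.1) w hwP.1 (hqE w hwP.1), by omega⟩
        have h5 : ((P.erase w₀).biUnion
            (fun w => {row (p w) + idx w * N, row (q w) + idx w * N})).card =
            ∑ w ∈ P.erase w₀, 2 := by
          rw [card_biUnion]
          · refine sum_congr rfl fun w hw => ?_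
            have hwY := (mem_filter.mp (mem_erase.mp hw).2).1
            rw [card_pair]
            intro e
            apply hpq w hwY
            apply row_inj _ (hp w hwY) _ (hq w hwY)
            omega
          · intro w hw w' hw' hne
            have hwY := (mem_filter.mp (mem_erase.mp hw).2).1
            have hwY' := (mem_filter.mp (mem_erase.mp hw').2).1
            rw [Function.onFun, disjoint_left]
            intro t ht ht'
            rw [mem_insert, mem_singleton] at ht ht'
            apply hne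
            apply idx_inj w hwY w' hwY'
            have e1 := row_lt _ (hp w hwY)
            have e2 := row_lt _ (hq w hwY)
            have e3 := row_lt _ (hp w' hwY')
            have e4 := row_lt _ (hq w' hwY')
            rcases ht with ht | ht <;> rcases ht' with ht' | ht'
            · exact (stage1_divmod e1 e3 (ht.symm.trans ht')).2
            · exact (stage1_divmod e1 e4 (ht.symm.trans ht')).2
            · exact (stage1_divmod e2 e3 (ht.symm.trans ht')).2
            · exact (stage1_divmod e2 e4 (ht.symm.trans ht')).2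
        have h6 := card_le_card h4
        rw [h5, sum_const, card_erase_of_mem hw₀, smul_eq_mul] at h6
        omega) (by
      intro β hβ
      obtain ⟨w, hw, rfl⟩ := mem_image.mp hβ
      obtain ⟨u, hu, v, hv, h1, h2, h3⟩ := htwo w hw
      have key : ∀ u ∈ X, E u w → 0 < row u → ∃ t ∈ S, idx w * N < t ∧
          ∀ β' ∈ B, idx w * N < β' → t < β' := by
        intro u hu h1 h4
        refine ⟨_, hmem u hu w hw h1, by omega, ?_⟩
        intro β' hβ' h5
        obtain ⟨w', hw', rfl⟩ := mem_image.mp hβ'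
        change idx w * N < idx w' * N at h5
        have h6 : idx w < idx w' := lt_of_mul_lt_mul_right h5 (Nat.zero_le _)
        have h7 : idx w * N + N ≤ idx w' * N := by
          calc idx w * N + N = (idx w + 1) * N := by ring
            _ ≤ idx w' * N := Nat.mul_le_mul_right _ h6
        have h8 := row_lt u hu
        omega
      rcases Nat.eq_zero_or_pos (row u) with h4 | h4
      · rcases Nat.eq_zero_or_pos (row v) with h5 | h5
        · exact absurd (row_inj u hu v hv (by omega)) h3
        · exact key v hv h2 h5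
      · exact key u hu h1 h4)
  refine ⟨D, g, ?_, hD2, ?_, ?_, ?_, hStype⟩
  · intro x hx
    obtain ⟨e1, e2, e3, e4⟩ := hD1 x hx
    refine ⟨e1, ?_, e3, e4⟩
    rintro w hw rfl
    exact e2 (mem_image_of_mem _ hw)
  · intro x hx
    have : g x ∈ D.image g := mem_image_of_mem _ hx
    rw [hD3, mem_sdiff] at this
    exact this.2
  · intro x hx
    have : g x ∈ D.image g := mem_image_of_mem _ hx
    rw [hD3, mem_sdiff, mem_range] at this
    exact this.1
  · have h1 : (D.image g).card = D.card :=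
      card_image_of_injOn (fun u hu v hv h => hD2 u hu v hv h)
    have h2 : S ⊆ range (Y.card * N + (r - 1)) := by
      intro t ht
      rw [mem_range]
      have := hStype t ht
      omega
    have h3 := card_sdiff_add_card_eq_card h2
    rw [← hD3, h1, card_range] at h3
    exact h3

section

variable {U : Type*} [Fintype U] [DecidableEq U] {T : SimpleGraph U} (R : RT T)

omit [Fintype U] [DecidableEq U] in
/-- adjacent vertices have different parity -/
theorem stage1_parity {u v : U} (h : T.Adj u v) :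
    (R.dep u : ZMod 2) = R.dep v + 1 := by
  rcases (R.adj_iff u v).mp h with ⟨h1, rfl⟩ | ⟨h1, rfl⟩
  · exact R.dep_par_cast h1
  · have h2 := R.dep_par_cast h1
    rw [h2, add_assoc]
    have : (1 : ZMod 2) + 1 = 0 := by decide
    rw [this, add_zero]

omit [Fintype U] [DecidableEq U] in
theorem stage1_odd_of_even {u v : U} (h : T.Adj u v) (hu : (R.dep u : ZMod 2) = 0) :
    (R.dep v : ZMod 2) = 1 := by
  have := stage1_parity R h.symm
  rw [hu, zero_add] at this
  exact this

omit [Fintype U] [DecidableEq U] in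
theorem stage1_even_of_odd {u v : U} (h : T.Adj u v) (hu : (R.dep u : ZMod 2) = 1) :
    (R.dep v : ZMod 2) = 0 := by
  have := stage1_parity R h.symm
  rw [hu] at this
  rw [this]; decide

omit [Fintype U] [DecidableEq U] in
/-- the even and the odd end of the edge above `v` determine `v` -/
theorem stage1_edge_inj {v v' : U} (hv : v ≠ R.c) (hv' : v' ≠ R.c)
    (h : (v = v') ∨ (v = R.par v' ∧ R.par v = v')) : v = v' := by
  rcases h with h | ⟨h1, h2⟩
  · exact h
  · exfalso
    have e1 := R.dep_par v hv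
    have e2 := R.dep_par v' hv'
    rw [h2] at e1
    rw [← h1] at e2
    omega

omit [DecidableEq U] in
theorem stage1_leaf_unique {u v w : U} (hu : w ∈ lf T u) (hv : T.Adj v w) : u = v := by
  classical
  rw [lf, mem_filter] at hu
  by_contra hne
  exact hu.2.2 ⟨u, v, hu.2.1.symm, hv.symm, hne⟩

end

theorem stage1 {U : Type*} [Fintype U] [DecidableEq U] {T : SimpleGraph U} (hT : T.IsTree)
    (R : RT T) (Rb : Finset U) (hRb : ∀ u ∈ Rb, (R.dep u : ZMod 2) = 0) (h2 : 2 ≤ Rb.card)
    (hin : ∀ u ∈ Rb, IsInner T u) (N J : ℕ)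
    (hN : Nat.card {w // (R.dep w : ZMod 2) = 0} = N)
    (hJ : Nat.card {w // (R.dep w : ZMod 2) = 1 ∧ IsInner T w} = J)
    (hM : ∀ u ∈ Rb, (J + 1) * N ≤ (lf T u).card) (row : U → ℕ) (y z : U)
    (row_inj : ∀ u v, (R.dep u : ZMod 2) = 0 → (R.dep v : ZMod 2) = 0 → row u = row v → u = v)
    (row_lt : ∀ u, (R.dep u : ZMod 2) = 0 → row u < N)
    (row_Rb : ∀ u, (R.dep u : ZMod 2) = 0 → (u ∈ Rb ↔ row u < Rb.card))
    (hy : IsInner T y) (hz : IsInner T z) (hy1 : (R.dep y : ZMod 2) = 1)
    (hz1 : (R.dep z : ZMod 2) = 1) (hyu : ∃ u, T.Adj u y ∧ row u = 0)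
    (hzu : ∃ u, T.Adj u z ∧ Rb.card ≤ row u + 1)
    (hyz : y = z → ∀ w, IsInner T w → (R.dep w : ZMod 2) = 1 → w = y) :
    ∃ (I : Finset U) (lab : U → ℕ), R.Closed Rb.card (J * N) row I lab ∧
      ∀ w ∈ I, (R.dep w : ZMod 2) = 1 → ¬ IsInner T w → ∃ u ∈ Rb, T.Adj u w := by
  classical
  set X : Finset U := univ.filter (fun w => (R.dep w : ZMod 2) = 0) with hX
  set Y : Finset U := univ.filter (fun w => (R.dep w : ZMod 2) = 1 ∧ IsInner T w) with hY
  have mX : ∀ w, w ∈ X ↔ (R.dep w : ZMod 2) = 0 := fun w => by rw [hX, mem_filter]; simp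
  have mY : ∀ w, w ∈ Y ↔ (R.dep w : ZMod 2) = 1 ∧ IsInner T w := fun w => by
    rw [hY, mem_filter]; simp
  have hXN : X.card = N := by
    rw [← hN, Nat.card_eq_fintype_card, Fintype.card_subtype]
  have hYJ : Y.card = J := by
    rw [← hJ, Nat.card_eq_fintype_card, Fintype.card_subtype]
  have h01 : (0 : ZMod 2) ≠ 1 := by decide
  have hRbX : Rb ⊆ X := fun u hu => (mX u).mpr (hRb u hu)
  have hrX : Rb.card ≤ X.card := card_le_card hRbX
  have hcX : R.c ∈ X := (mX _).mpr (by rw [R.dep_c]; simp)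
  have hyY : y ∈ Y := (mY _).mpr ⟨hy1, hy⟩
  have hzY : z ∈ Y := (mY _).mpr ⟨hz1, hz⟩
  obtain ⟨idx, iy, iz, idx_inj, idx_lt⟩ := stage1_idx Y hyY hzY
    (fun e w hw => hyz e w ((mY w).mp hw).2 ((mY w).mp hw).1)
  have hXY : Disjoint X Y := by
    rw [disjoint_left]
    intro w h3 h4
    rw [mX] at h3
    rw [mY] at h4
    rw [h3] at h4
    exact h01 h4.1
  -- the parent of a vertex of the core is in the core
  have hparX : ∀ v ∈ X, v ≠ R.c → R.par v ∈ Y := by
    intro v hv hvc
    have h3 := R.adj_par hvc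
    have h4 := stage1_odd_of_even R h3 ((mX v).mp hv)
    refine (mY _).mpr ⟨h4, ?_⟩
    have h5 : R.par v ≠ R.c := by
      intro e
      rw [e, R.dep_c] at h4
      simp at h4
    refine ⟨v, R.par (R.par v), h3.symm, R.adj_par h5, ?_⟩
    intro e
    have e1 := R.dep_par v hvc
    have e2 := R.dep_par _ h5
    rw [← e] at e2
    omega
  have hYc : ∀ v ∈ Y, v ≠ R.c := by
    rintro v hv rfl
    exact (disjoint_left.mp hXY hcX) hv
  have hparY : ∀ v ∈ Y, R.par v ∈ X := by
    intro v hv
    exact (mX _).mpr (stage1_even_of_odd R (R.adj_par (hYc v hv)) ((mY v).mp hv).1)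
  -- labels
  set lb : U → ℕ := fun v => if v ∈ X then row v else idx v * N with hlb
  have lbX : ∀ v ∈ X, lb v = row v := fun v hv => if_pos hv
  have lbY : ∀ v ∈ Y, lb v = idx v * N := fun v hv => if_neg fun h => disjoint_left.mp hXY h hv
  set C0 : Finset U := (X ∪ Y).erase R.c with hC0
  have mC0 : ∀ v, v ∈ C0 ↔ v ≠ R.c ∧ (v ∈ X ∨ v ∈ Y) := fun v => by
    rw [hC0, mem_erase, mem_union]
  have htype : ∀ v ∈ C0, ∃ u ∈ X, ∃ w ∈ Y, T.Adj u w ∧ lb v + lb (R.par v) = row u + idx w * N ∧
      ((v = u ∧ R.par v = w) ∨ (v = w ∧ R.par v = u)) := by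
    intro v hv
    rw [mC0] at hv
    obtain ⟨hvc, hv | hv⟩ := hv
    · refine ⟨v, hv, R.par v, hparX v hv hvc, R.adj_par hvc, ?_, Or.inl ⟨rfl, rfl⟩⟩
      rw [lbX v hv, lbY _ (hparX v hv hvc)]
    · refine ⟨R.par v, hparY v hv, v, hv, (R.adj_par hvc).symm, ?_, Or.inr ⟨rfl, rfl⟩⟩
      rw [lbY v hv, lbX _ (hparY v hv), add_comm]
  have hedge : ∀ u ∈ X, ∀ w ∈ Y, T.Adj u w → ∃ v ∈ C0,
      lb v + lb (R.par v) = row u + idx w * N := by
    intro u hu w hw h
    rcases (R.adj_iff u w).mp h with ⟨h3, rfl⟩ | ⟨h3, rfl⟩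
    · exact ⟨u, (mC0 _).mpr ⟨h3, Or.inl hu⟩, by rw [lbX u hu, lbY _ hw]⟩
    · exact ⟨w, (mC0 _).mpr ⟨h3, Or.inr hw⟩, by rw [lbY w hw, lbX _ hu, add_comm]⟩
  have hrowlt : ∀ u ∈ X, row u < X.card := fun u hu => hXN ▸ row_lt u ((mX u).mp hu)
  have hrowinj : ∀ u ∈ X, ∀ v ∈ X, row u = row v → u = v := fun u hu v hv h =>
    row_inj u v ((mX u).mp hu) ((mX v).mp hv) h
  have hCinj : ∀ v ∈ C0, ∀ v' ∈ C0, lb v + lb (R.par v) = lb v' + lb (R.par v') → v = v' := by
    intro v hv v' hv' h
    obtain ⟨u, hu, w, hw, -, h3, h4⟩ := htype v hv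
    obtain ⟨u', hu', w', hw', -, h3', h4'⟩ := htype v' hv'
    rw [h3, h3'] at h
    have h5 := stage1_divmod (hXN ▸ hrowlt u hu) (hXN ▸ hrowlt u' hu') h
    have h6 := hrowinj u hu u' hu' h5.1
    have h7 := idx_inj w hw w' hw' h5.2
    subst h6 h7
    have hvc := ((mC0 v).mp hv).1
    have hvc' := ((mC0 v').mp hv').1
    apply stage1_edge_inj R hvc hvc'
    rcases h4 with ⟨a1, a2⟩ | ⟨a1, a2⟩ <;> rcases h4' with ⟨b1, b2⟩ | ⟨b1, b2⟩
    · left; rw [a1, b1]
    · right; exact ⟨by rw [a1, b2], by rw [a2, b1]⟩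
    · right; exact ⟨by rw [a1, b2], by rw [a2, b1]⟩
    · left; rw [a1, b1]
  set S : Finset ℕ := C0.image (fun v => lb v + lb (R.par v)) with hS
  have hSmem : ∀ t, t ∈ S ↔ ∃ u ∈ X, ∃ w ∈ Y, T.Adj u w ∧ t = row u + idx w * X.card := by
    intro t
    rw [hS, mem_image, hXN]
    constructor
    · rintro ⟨v, hv, rfl⟩
      obtain ⟨u, hu, w, hw, h3, h4, -⟩ := htype v hv
      exact ⟨u, hu, w, hw, h3, h4⟩
    · rintro ⟨u, hu, w, hw, h3, rfl⟩
      exact hedge u hu w hw h3
  have hC0card : C0.card + 1 = X.card + Y.card := by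
    rw [hC0, card_erase_add_one (mem_union_left _ hcX), card_union_of_disjoint hXY]
  have hScard : S.card + 1 = X.card + Y.card := by
    rw [hS, card_image_of_injOn (fun v hv v' hv' h => hCinj v hv v' hv' h), hC0card]
  obtain ⟨D, g, hD1, hD2, hD3, hD4, hD5, hD6⟩ := stage1_arith X Y T.Adj Rb.card h2 hrX row idx
    hrowinj hrowlt idx_inj idx_lt hyY hzY iy iz (by
      obtain ⟨u, h3, h4⟩ := hyu
      exact ⟨u, (mX u).mpr (stage1_even_of_odd R h3.symm hy1), h3, h4⟩) (by
      obtain ⟨u, h3, h4⟩ := hzu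
      exact ⟨u, (mX u).mpr (stage1_even_of_odd R h3.symm hz1), h3, h4⟩) (by
      intro w hw
      obtain ⟨h3, u, v, h4, h5, h6⟩ := (mY w).mp hw
      exact ⟨u, (mX u).mpr (stage1_even_of_odd R h4 h3), v,
        (mX v).mpr (stage1_even_of_odd R h5 h3), h4.symm, h5.symm, h6⟩) S hSmem hScard
  rw [hXN, hYJ] at hD1 hD4 hD5 hD6
  -- the row of every residue
  have hrow : ∀ i < Rb.card, ∃ u ∈ Rb, row u = i := by
    have h3 : Rb.image row ⊆ range Rb.card := by
      intro i hi
      obtain ⟨u, hu, rfl⟩ := mem_image.mp hi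
      rw [mem_range]
      exact (row_Rb u (hRb u hu)).mp hu
    have h4 : (Rb.image row).card = Rb.card :=
      card_image_of_injOn (fun u hu v hv h => row_inj u v (hRb u hu) (hRb v hv) h)
    have h5 := eq_of_subset_of_card_le h3 (by rw [h4, card_range])
    intro i hi
    have h6 : i ∈ Rb.image row := by rw [h5]; exact mem_range.mpr hi
    obtain ⟨u, hu, h7⟩ := mem_image.mp h6
    exact ⟨u, hu, h7⟩
  have hleaf : ∀ u : U, ∃ ℓ : ℕ → U, (∀ i < (lf T u).card, ℓ i ∈ lf T u) ∧
      ∀ i < (lf T u).card, ∀ j < (lf T u).card, ℓ i = ℓ j → i = j := by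
    intro u
    let e := (lf T u).equivFin
    refine ⟨fun i => if h : i < (lf T u).card then (e.symm ⟨i, h⟩ : U) else u, ?_, ?_⟩
    · intro i hi
      simp only [dif_pos hi]
      exact (e.symm ⟨i, hi⟩).2
    · intro i hi j hj h
      simp only [dif_pos hi, dif_pos hj] at h
      have h3 := e.symm.injective (Subtype.ext h)
      exact congrArg Fin.val h3
  choose ℓ hℓ1 hℓ2 using hleaf
  have hup : ∀ x : ℕ, ∃ u, x ∈ D → u ∈ Rb ∧ x + row u = g x := by
    intro x
    by_cases hx : x ∈ D
    · obtain ⟨-, -, h3, h4⟩ := hD1 x hx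
      obtain ⟨u, hu, h5⟩ := hrow (g x - x) (by omega)
      exact ⟨u, fun _ => ⟨hu, by omega⟩⟩
    · exact ⟨R.c, fun h => absurd h hx⟩
  choose up hup using hup
  set wz : ℕ → U := fun x => ℓ (up x) x with hwz
  have hwlt : ∀ x ∈ D, x < (lf T (up x)).card := by
    intro x hx
    have h3 := (hD1 x hx).1
    have h4 := hM _ (hup x hx).1
    have h5 : J * N ≤ (J + 1) * N := Nat.mul_le_mul_right _ (Nat.le_succ _)
    omega
  have hwlf : ∀ x ∈ D, wz x ∈ lf T (up x) := fun x hx => hℓ1 _ x (hwlt x hx)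
  have hwadj : ∀ x ∈ D, T.Adj (up x) (wz x) ∧ ¬ IsInner T (wz x) := by
    intro x hx
    have := hwlf x hx
    rw [lf, mem_filter] at this
    exact this.2
  have hwinj : ∀ x ∈ D, ∀ x' ∈ D, wz x = wz x' → x = x' := by
    intro x hx x' hx' h
    have h3 : up x = up x' := by
      apply stage1_leaf_unique (hwlf x hx)
      rw [h]
      exact (hwadj x' hx').1
    have h4 : ℓ (up x) x = ℓ (up x) x' := by
      have : ℓ (up x) x = ℓ (up x') x' := h
      rw [this, h3]
    exact hℓ2 _ x (hwlt x hx) x' (h3 ▸ hwlt x' hx') h4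
  have hwodd : ∀ x ∈ D, (R.dep (wz x) : ZMod 2) = 1 := fun x hx =>
    stage1_odd_of_even R (hwadj x hx).1 (hRb _ (hup x hx).1)
  have hwc : ∀ x ∈ D, wz x ≠ R.c := by
    intro x hx e
    have := hwodd x hx
    rw [e, R.dep_c] at this
    simp at this
  have hwpar : ∀ x ∈ D, R.par (wz x) = up x := by
    intro x hx
    exact (stage1_leaf_unique (hwlf x hx) (R.adj_par (hwc x hx)).symm).symm
  set W : Finset U := D.image wz with hW
  have hWX : ∀ w ∈ W, w ∉ X := by
    intro w hw h
    obtain ⟨x, hx, rfl⟩ := mem_image.mp hw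
    rw [mX, hwodd x hx] at h
    exact h01 h.symm
  have hWY : ∀ w ∈ W, w ∉ Y := by
    intro w hw h
    obtain ⟨x, hx, rfl⟩ := mem_image.mp hw
    exact (hwadj x hx).2 ((mY _).mp h).2
  have hinv : ∃ inv : U → ℕ, ∀ x ∈ D, inv (wz x) = x := by
    refine ⟨fun w => if h : ∃ x ∈ D, wz x = w then h.choose else 0, ?_⟩
    intro x hx
    have h : ∃ x' ∈ D, wz x' = wz x := ⟨x, hx, rfl⟩
    simp only [dif_pos h]
    exact hwinj _ h.choose_spec.1 x hx h.choose_spec.2
  obtain ⟨inv, hinv⟩ := hinv
  set lab : U → ℕ := fun v => if v ∈ W then inv v else lb v with hlab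
  have labW : ∀ x ∈ D, lab (wz x) = x := by
    intro x hx
    have : wz x ∈ W := mem_image_of_mem _ hx
    simp only [hlab]
    rw [if_pos this, hinv x hx]
  have labX : ∀ v ∈ X, lab v = row v := by
    intro v hv
    simp only [hlab]
    rw [if_neg (fun h => hWX v h hv), lbX v hv]
  have labY : ∀ v ∈ Y, lab v = idx v * N := by
    intro v hv
    simp only [hlab]
    rw [if_neg (fun h => hWY v h hv), lbY v hv]
  have labC : ∀ v, v ∈ X ∨ v ∈ Y → lab v = lb v := by
    rintro v (hv | hv)
    · rw [labX v hv, lbX v hv]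
    · rw [labY v hv, lbY v hv]
  set I : Finset U := X ∪ Y ∪ W with hI
  have mI : ∀ v, v ∈ I ↔ (v ∈ X ∨ v ∈ Y) ∨ v ∈ W := fun v => by
    rw [hI, mem_union, mem_union]
  -- types
  have tC : ∀ v ∈ C0, lab v + lab (R.par v) = lb v + lb (R.par v) := by
    intro v hv
    have hv' := (mC0 v).mp hv
    rw [labC v hv'.2]
    congr 1
    apply labC
    rcases hv'.2 with h | h
    · exact Or.inr (hparX v h hv'.1)
    · exact Or.inl (hparY v h)
  have tW : ∀ x ∈ D, lab (wz x) + lab (R.par (wz x)) = g x := by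
    intro x hx
    rw [labW x hx, hwpar x hx, labX _ (hRbX (hup x hx).1)]
    exact (hup x hx).2
  have hcase : ∀ v ∈ I, v ≠ R.c → v ∈ C0 ∨ ∃ x ∈ D, wz x = v := by
    intro v hv hvc
    rcases (mI v).mp hv with h | h
    · exact Or.inl ((mC0 v).mpr ⟨hvc, h⟩)
    · exact Or.inr (mem_image.mp h)
  refine ⟨I, lab, ?_, ?_⟩
  · refine ⟨?_, ?_, ?_, ?_, ?_, ?_, ?_, ?_⟩
    · intro u hu
      exact (mI u).mpr (Or.inl (Or.inl ((mX u).mpr hu)))
    · intro u hu
      rcases stage1_zmod (R.dep u : ZMod 2) with h | h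
      · exact (mI u).mpr (Or.inl (Or.inl ((mX u).mpr h)))
      · exact (mI u).mpr (Or.inl (Or.inr ((mY u).mpr ⟨h, hu⟩)))
    · intro u hu
      exact labX u ((mX u).mpr hu)
    · intro u hu hu1
      rcases (mI u).mp hu with (h | h) | h
      · rw [mX, hu1] at h
        exact absurd h.symm h01
      · rw [labY u h]
        have h3 := idx_lt u h
        rw [hYJ] at h3
        have h4 : 0 < N := by
          rw [← hXN]; exact card_pos.mpr ⟨_, hcX⟩
        exact Nat.mul_lt_mul_of_pos_right h3 h4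
      · obtain ⟨x, hx, rfl⟩ := mem_image.mp h
        rw [labW x hx]
        exact (hD1 x hx).1
    · intro u hu v hv hu1 hv1 h
      have h4 : 0 < N := by
        rw [← hXN]; exact card_pos.mpr ⟨_, hcX⟩
      have hu' : u ∈ Y ∨ u ∈ W := by
        rcases (mI u).mp hu with (h3 | h3) | h3
        · rw [mX, hu1] at h3
          exact absurd h3.symm h01
        · exact Or.inl h3
        · exact Or.inr h3
      have hv' : v ∈ Y ∨ v ∈ W := by
        rcases (mI v).mp hv with (h3 | h3) | h3
        · rw [mX, hv1] at h3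
          exact absurd h3.symm h01
        · exact Or.inl h3
        · exact Or.inr h3
      rcases hu' with hu' | hu' <;> rcases hv' with hv' | hv'
      · rw [labY u hu', labY v hv'] at h
        exact idx_inj u hu' v hv' (Nat.eq_of_mul_eq_mul_right h4 h)
      · obtain ⟨x, hx, rfl⟩ := mem_image.mp hv'
        rw [labY u hu', labW x hx] at h
        exact absurd h.symm ((hD1 x hx).2.1 u hu')
      · obtain ⟨x, hx, rfl⟩ := mem_image.mp hu'
        rw [labY v hv', labW x hx] at h
        exact absurd h ((hD1 x hx).2.1 v hv')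
      · obtain ⟨x, hx, rfl⟩ := mem_image.mp hu'
        obtain ⟨x', hx', rfl⟩ := mem_image.mp hv'
        rw [labW x hx, labW x' hx'] at h
        rw [h]
    · intro u hu huc
      rcases hcase u hu huc with h | ⟨x, hx, rfl⟩
      · rw [tC u h]
        have h3 := hD6 _ (mem_image_of_mem (fun v => lb v + lb (R.par v)) h)
        have h4 : lb u + lb (R.par u) < J * N := h3
        omega
      · rw [tW x hx]
        exact hD4 x hx
    · intro u hu v hv huc hvc h
      rcases hcase u hu huc with hu' | ⟨x, hx, rfl⟩ <;> rcases hcase v hv hvc with hv' | ⟨x', hx', rfl⟩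
      · rw [tC u hu', tC v hv'] at h
        exact hCinj u hu' v hv' h
      · rw [tC u hu', tW x' hx'] at h
        exact absurd (h ▸ mem_image_of_mem (fun v => lb v + lb (R.par v)) hu') (hD3 x' hx')
      · rw [tC v hv', tW x hx] at h
        exact absurd (h ▸ mem_image_of_mem (fun v => lb v + lb (R.par v)) hv') (hD3 x hx)
      · rw [tW x hx, tW x' hx'] at h
        rw [hD2 x hx x' hx' h]
    · have h3 : Disjoint (X ∪ Y) W := by
        rw [disjoint_right]
        intro w hw h
        rcases mem_union.mp h with h | h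
        · exact hWX w hw h
        · exact hWY w hw h
      have h4 : W.card = D.card := card_image_of_injOn (fun u hu v hv h => hwinj u hu v hv h)
      rw [hI, card_union_of_disjoint h3, card_union_of_disjoint hXY, h4]
      have : 0 < Rb.card := by omega
      omega
  · intro w hw hw1 hw2
    rcases (mI w).mp hw with (h | h) | h
    · rw [mX, hw1] at h
      exact absurd h.symm h01
    · exact absurd ((mY w).mp h).2 hw2
    · obtain ⟨x, hx, rfl⟩ := mem_image.mp h
      exact ⟨up x, (hup x hx).1, (hwadj x hx).1⟩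

end Pool.Agent.Lib.MP_c5b475_co
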