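import Pool.Agent.Lib.MP_c5b475_co.Few.Defs
import Pool.Agent.Lib.MP_c5b475_co.Lobster

set_option autoImplicit false

/-!
# The second stage: leaves not adjacent to `Rb` are inserted one by one
-/

namespace Pool.Agent.Lib.MP_c5b475_co

open Finset

section

variable {U : Type*} [Fintype U] [DecidableEq U] {T : SimpleGraph U} (R : RT T)

theorem b1b_zmod {a : ZMod 2} (h : a ≠ 0) : a = 1 := by
  revert a
  decide

omit [Fintype U] [DecidableEq U] in
theorem b1b_ne_c {u : U} (h : (R.dep u : ZMod 2) = 1) : u ≠ R.c := by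
  intro e
  rw [e, R.dep_c] at h
  revert h
  decide

omit [Fintype U] [DecidableEq U] in
theorem b1b_par_odd {u : U} (h : (R.dep u : ZMod 2) = 1) : (R.dep (R.par u) : ZMod 2) = 0 := by
  have h1 := R.dep_par_cast (b1b_ne_c R h)
  rw [h] at h1
  generalize (R.dep (R.par u) : ZMod 2) = x at h1 ⊢
  revert x
  decide

omit [Fintype U] [DecidableEq U] in
theorem b1b_par_even {u : U} (hu : u ≠ R.c) (h : (R.dep u : ZMod 2) = 0) :
    (R.dep (R.par u) : ZMod 2) = 1 := by
  have h1 := R.dep_par_cast hu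
  rw [h] at h1
  generalize (R.dep (R.par u) : ZMod 2) = x at h1 ⊢
  revert x
  decide

omit [Fintype U] [DecidableEq U] in
/-- The parent of an even vertex is inner. -/
theorem b1b_par_inner {u : U} (hu : u ≠ R.c) (h : (R.dep u : ZMod 2) = 0) :
    IsInner T (R.par u) := by
  have h1 := b1b_par_even R hu h
  have h2 := b1b_ne_c R h1
  refine ⟨u, R.par (R.par u), (R.adj_par hu).symm, R.adj_par h2, ?_⟩
  intro e
  have h3 := R.dep_par u hu
  have h4 := R.dep_par _ h2
  rw [← e] at h4
  omega

omit [DecidableEq U] in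
/-- The leaves of an even vertex are its children. -/
theorem b1b_lf {u v : U} (hu : (R.dep u : ZMod 2) = 0) (hv : v ∈ lf T u) :
    v ≠ R.c ∧ R.par v = u ∧ (R.dep v : ZMod 2) = 1 ∧ ¬ IsInner T v := by
  classical
  unfold lf at hv
  rw [mem_filter] at hv
  obtain ⟨_, hadj, hin⟩ := hv
  rcases (R.adj_iff u v).mp hadj with ⟨h1, h2⟩ | ⟨h1, h2⟩
  · exfalso
    apply hin
    rw [h2]
    exact b1b_par_inner R h1 hu
  · refine ⟨h1, h2.symm, ?_, hin⟩
    have h3 := R.dep_par_cast h1
    rw [← h2, hu, zero_add] at h3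
    exact h3

variable {R}

theorem RT.Closed.b1b_par_mem {r L : ℕ} {row : U → ℕ} {I : Finset U} {lab : U → ℕ}
    (h : R.Closed r L row I lab) {u : U} (hu : u ≠ R.c) : R.par u ∈ I := by
  by_cases h0 : (R.dep u : ZMod 2) = 0
  · exact h.inner_mem _ (b1b_par_inner R hu h0)
  · exact h.even_mem _ (b1b_par_odd R (b1b_zmod h0))

theorem RT.Closed.b1b_out {r L : ℕ} {row : U → ℕ} {I : Finset U} {lab : U → ℕ}
    (h : R.Closed r L row I lab) {u : U} (hu : u ∉ I) :
    (R.dep u : ZMod 2) = 1 ∧ ¬ IsInner T u := by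
  refine ⟨b1b_zmod (fun h0 => hu (h.even_mem _ h0)), fun h1 => hu (h.inner_mem _ h1)⟩

theorem b1b_step (Rb : Finset U) (h2 : 2 ≤ Rb.card)
    (N L : ℕ) (row : U → ℕ)
    (row_inj : ∀ u v, (R.dep u : ZMod 2) = 0 → (R.dep v : ZMod 2) = 0 → row u = row v → u = v)
    (row_lt : ∀ u, (R.dep u : ZMod 2) = 0 → row u < N)
    (row_Rb : ∀ u, (R.dep u : ZMod 2) = 0 → (u ∈ Rb ↔ row u < Rb.card))
    (u₀ : U) (hu₀ : u₀ ∈ Rb) (hu₀' : (R.dep u₀ : ZMod 2) = 0) (hrow : row u₀ + 2 = Rb.card)
    (I : Finset U) (lab : U → ℕ) (hI : R.Closed Rb.card L row I lab)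
    (hM : L + N ≤ (lf T u₀).card) {w : U} (hw : w ∉ I) (hwR : R.par w ∉ Rb) :
    ∃ (L' : ℕ) (I' : Finset U) (lab' : U → ℕ), R.Closed Rb.card L' row I' lab' ∧ I ⊆ I' ∧
      w ∈ I' ∧ L' ≤ L + N := by
  classical
  obtain ⟨hw1, hwin⟩ := hI.b1b_out hw
  have hwc := b1b_ne_c R hw1
  have hx0 := b1b_par_odd R hw1
  set x := R.par w with hx
  have hρ : Rb.card ≤ row x := by
    by_contra h
    exact hwR ((row_Rb x hx0).mpr (by omega))
  have hρN := row_lt x hx0
  -- number of odd vertices in `I`
  have hodd : (I.filter (fun u => (R.dep u : ZMod 2) = 1)).card ≤ L := by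
    have h3 : ((I.filter (fun u => (R.dep u : ZMod 2) = 1)).image lab) ⊆ range L := by
      intro a ha
      rw [mem_image] at ha
      obtain ⟨u, hu, rfl⟩ := ha
      rw [mem_filter] at hu
      rw [mem_range]
      exact hI.lab_odd u hu.1 hu.2
    have h4 : ((I.filter (fun u => (R.dep u : ZMod 2) = 1)).image lab).card =
        (I.filter (fun u => (R.dep u : ZMod 2) = 1)).card := by
      apply card_image_of_injOn
      intro u hu v hv he
      rw [mem_coe, mem_filter] at hu hv
      exact hI.inj_odd u hu.1 v hv.1 hu.2 hv.2 he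
    rw [← h4]
    exact (card_le_card h3).trans (by rw [card_range])
  have hav : N ≤ (lf T u₀ \ I).card := by
    have h3 : (lf T u₀ ∩ I) ⊆ I.filter (fun u => (R.dep u : ZMod 2) = 1) := by
      intro u hu
      rw [mem_inter] at hu
      rw [mem_filter]
      exact ⟨hu.2, (b1b_lf R hu₀' hu.1).2.2.1⟩
    have h4 := card_le_card h3
    have h5 := card_sdiff_add_card_inter (lf T u₀) I
    omega
  obtain ⟨S, hS, hSc⟩ := exists_subset_card_eq
    (show row x - Rb.card + 1 ≤ (lf T u₀ \ I).card by omega)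
  have hSI : ∀ u ∈ S, u ∉ I := fun u hu => (mem_sdiff.mp (hS hu)).2
  have hSl : ∀ u ∈ S, u ≠ R.c ∧ R.par u = u₀ ∧ (R.dep u : ZMod 2) = 1 ∧ ¬ IsInner T u :=
    fun u hu => b1b_lf R hu₀' (mem_sdiff.mp (hS hu)).1
  have hwS : w ∉ S := by
    intro h
    apply hwR
    rw [hx, (hSl w h).2.1]
    exact hu₀
  let idx : U → ℕ := fun v => if h : v ∈ S then (S.equivFin ⟨v, h⟩ : ℕ) else 0
  have hidx_lt : ∀ v ∈ S, idx v < row x - Rb.card + 1 := by
    intro v hv
    simp only [idx, dif_pos hv]
    rw [← hSc]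
    exact (S.equivFin ⟨v, hv⟩).2
  have hidx_inj : ∀ u ∈ S, ∀ v ∈ S, idx u = idx v → u = v := by
    intro u hu v hv he
    simp only [idx, dif_pos hu, dif_pos hv] at he
    have := S.equivFin.injective (Fin.ext he)
    exact congrArg Subtype.val this
  let lab' : U → ℕ := fun v => if v ∈ I then lab v else if v = w then L else L + 1 + idx v
  have hlI : ∀ v ∈ I, lab' v = lab v := by
    intro v hv
    simp only [lab', if_pos hv]
  have hlw : lab' w = L := by
    simp only [lab', if_neg hw, if_true]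
  have hlS : ∀ v ∈ S, lab' v = L + 1 + idx v := by
    intro v hv
    have h3 : v ≠ w := fun e => hwS (e ▸ hv)
    simp only [lab', if_neg (hSI v hv), if_neg h3]
  have hpar : ∀ v, v ≠ R.c → lab' (R.par v) = lab (R.par v) :=
    fun v hv => hlI _ (hI.b1b_par_mem hv)
  have hlx : lab x = row x := hI.lab_even x hx0
  have hl0 : lab u₀ = row u₀ := hI.lab_even u₀ hu₀'
  -- new types
  have htw : lab' w + lab' (R.par w) = L + row x := by
    rw [hlw, hpar w hwc, ← hx, hlx]
  have htS : ∀ v ∈ S, lab' v + lab' (R.par v) = L + (Rb.card - 1) + idx v := by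
    intro v hv
    obtain ⟨h3, h4, _, _⟩ := hSl v hv
    rw [hlS v hv, hpar v h3, h4, hl0]
    omega
  have htI : ∀ v ∈ I, v ≠ R.c → lab' v + lab' (R.par v) < L + (Rb.card - 1) := by
    intro v hv hvc
    rw [hlI v hv, hpar v hvc]
    exact hI.type_lt v hv hvc
  refine ⟨L + (row x - Rb.card + 2), insert w (I ∪ S), lab', ⟨?_, ?_, ?_, ?_, ?_, ?_, ?_, ?_⟩,
    ?_, mem_insert_self _ _, by omega⟩
  · intro u hu
    exact mem_insert_of_mem (mem_union_left _ (hI.even_mem u hu))
  · intro u hu
    exact mem_insert_of_mem (mem_union_left _ (hI.inner_mem u hu))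
  · intro u hu
    rw [hlI u (hI.even_mem u hu)]
    exact hI.lab_even u hu
  · intro u hu hu1
    rw [mem_insert, mem_union] at hu
    rcases hu with rfl | hu | hu
    · rw [hlw]; omega
    · rw [hlI u hu]
      have := hI.lab_odd u hu hu1
      omega
    · rw [hlS u hu]
      have := hidx_lt u hu
      omega
  · intro u hu v hv hu1 hv1 he
    rw [mem_insert, mem_union] at hu hv
    rcases hu with rfl | hu | hu
    · rcases hv with rfl | hv | hv
      · rfl
      · rw [hlw, hlI v hv] at he
        have := hI.lab_odd v hv hv1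
        omega
      · rw [hlw, hlS v hv] at he
        omega
    · rcases hv with rfl | hv | hv
      · rw [hlw, hlI u hu] at he
        have := hI.lab_odd u hu hu1
        omega
      · rw [hlI u hu, hlI v hv] at he
        exact hI.inj_odd u hu v hv hu1 hv1 he
      · rw [hlI u hu, hlS v hv] at he
        have := hI.lab_odd u hu hu1
        omega
    · rcases hv with rfl | hv | hv
      · rw [hlw, hlS u hu] at he
        omega
      · rw [hlS u hu, hlI v hv] at he
        have := hI.lab_odd v hv hv1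
        omega
      · rw [hlS u hu, hlS v hv] at he
        exact hidx_inj u hu v hv (by omega)
  · intro u hu huc
    rw [mem_insert, mem_union] at hu
    rcases hu with rfl | hu | hu
    · rw [htw]; omega
    · have := htI u hu huc
      omega
    · rw [htS u hu]
      have := hidx_lt u hu
      omega
  · intro u hu v hv huc hvc he
    rw [mem_insert, mem_union] at hu hv
    rcases hu with rfl | hu | hu
    · rcases hv with rfl | hv | hv
      · rfl
      · rw [htw] at he
        have := htI v hv hvc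
        omega
      · rw [htw, htS v hv] at he
        have := hidx_lt v hv
        omega
    · rcases hv with rfl | hv | hv
      · rw [htw] at he
        have := htI u hu huc
        omega
      · rw [hlI u hu, hlI v hv, hpar u huc, hpar v hvc] at he
        exact hI.type_inj u hu v hv huc hvc he
      · rw [htS v hv] at he
        have := htI u hu huc
        omega
    · rcases hv with rfl | hv | hv
      · rw [htw, htS u hu] at he
        have := hidx_lt u hu
        omega
      · rw [htS u hu] at he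
        have := htI v hv hvc
        omega
      · rw [htS u hu, htS v hv] at he
        exact hidx_inj u hu v hv (by omega)
  · have hdisj : Disjoint I S := by
      rw [disjoint_left]
      intro u hu hu'
      exact hSI u hu' hu
    have hw' : w ∉ I ∪ S := by
      rw [mem_union, not_or]
      exact ⟨hw, hwS⟩
    rw [card_insert_of_notMem hw', card_union_of_disjoint hdisj, hSc, hI.card_eq]
    omega
  · intro u hu
    exact mem_insert_of_mem (mem_union_left _ hu)

theorem b1b_loop (Rb : Finset U) (h2 : 2 ≤ Rb.card)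
    (N : ℕ) (row : U → ℕ)
    (row_inj : ∀ u v, (R.dep u : ZMod 2) = 0 → (R.dep v : ZMod 2) = 0 → row u = row v → u = v)
    (row_lt : ∀ u, (R.dep u : ZMod 2) = 0 → row u < N)
    (row_Rb : ∀ u, (R.dep u : ZMod 2) = 0 → (u ∈ Rb ↔ row u < Rb.card))
    (u₀ : U) (hu₀ : u₀ ∈ Rb) (hu₀' : (R.dep u₀ : ZMod 2) = 0) (hrow : row u₀ + 2 = Rb.card) :
    ∀ (j L : ℕ) (I : Finset U) (lab : U → ℕ), R.Closed Rb.card L row I lab →
      (univ.filter (fun w => w ∉ I ∧ R.par w ∉ Rb)).card ≤ j →
      L + (j + 1) * N ≤ (lf T u₀).card →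
      ∃ (L' : ℕ) (I' : Finset U) (lab' : U → ℕ), R.Closed Rb.card L' row I' lab' ∧
        L' ≤ L + j * N ∧ ∀ w, w ∉ I' → R.par w ∈ Rb := by
  intro j
  induction j with
  | zero =>
    intro L I lab hI hj _
    refine ⟨L, I, lab, hI, by omega, ?_⟩
    intro w hw
    by_contra h
    have h3 : w ∈ univ.filter (fun w => w ∉ I ∧ R.par w ∉ Rb) :=
      mem_filter.mpr ⟨mem_univ _, hw, h⟩
    have h4 := card_pos.mpr ⟨w, h3⟩
    omega
  | succ j ih =>
    intro L I lab hI hj hM
    by_cases hex : ∃ w, w ∉ I ∧ R.par w ∉ Rb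
    · obtain ⟨w, hw, hwR⟩ := hex
      have hM' : L + N ≤ (lf T u₀).card := by
        have : N ≤ (j + 1 + 1) * N := Nat.le_mul_of_pos_left _ (by omega)
        omega
      obtain ⟨L', I', lab', hI', hsub, hwI, hL'⟩ := b1b_step Rb h2 N L row row_inj row_lt row_Rb
        u₀ hu₀ hu₀' hrow I lab hI hM' hw hwR
      have hcard : (univ.filter (fun w => w ∉ I' ∧ R.par w ∉ Rb)).card ≤ j := by
        have h3 : univ.filter (fun w => w ∉ I' ∧ R.par w ∉ Rb) ⊂
            univ.filter (fun w => w ∉ I ∧ R.par w ∉ Rb) := by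
          rw [ssubset_iff_of_subset]
          · refine ⟨w, mem_filter.mpr ⟨mem_univ _, hw, hwR⟩, ?_⟩
            intro h
            exact (mem_filter.mp h).2.1 hwI
          · intro v hv
            rw [mem_filter] at hv ⊢
            exact ⟨hv.1, fun h => hv.2.1 (hsub h), hv.2.2⟩
        have := card_lt_card h3
        omega
      have e1 : (j + 1 + 1) * N = (j + 1) * N + N := by ring
      have e2 : (j + 1) * N = j * N + N := by ring
      obtain ⟨L'', I'', lab'', h3, h4, h5⟩ := ih L' I' lab' hI' hcard (by omega)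
      exact ⟨L'', I'', lab'', h3, by omega, h5⟩
    · refine ⟨L, I, lab, hI, by omega, ?_⟩
      intro w hw
      by_contra h
      exact hex ⟨w, hw, h⟩

/-- A closed labelling all of whose outer vertices are adjacent to `Rb` is a frame. -/
theorem b1b_final (Rb : Finset U) (h2 : 2 ≤ Rb.card) (N L : ℕ) (row : U → ℕ)
    (row_inj : ∀ u v, (R.dep u : ZMod 2) = 0 → (R.dep v : ZMod 2) = 0 → row u = row v → u = v)
    (row_lt : ∀ u, (R.dep u : ZMod 2) = 0 → row u < N)
    (row_Rb : ∀ u, (R.dep u : ZMod 2) = 0 → (u ∈ Rb ↔ row u < Rb.card))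
    (I : Finset U) (lab : U → ℕ) (hI : R.Closed Rb.card L row I lab)
    (hout : ∀ w, w ∉ I → R.par w ∈ Rb) {K : ℕ} (hK : L + N ≤ K) : Framed T K := by
  have hc0 : (R.dep R.c : ZMod 2) = 0 := by
    rw [R.dep_c]
    rfl
  have hcI : R.c ∈ I := hI.even_mem _ hc0
  have hout0 : R.out I 0 = ∅ := by
    unfold RT.out
    rw [filter_eq_empty_iff]
    intro u hu h0
    exact (mem_sdiff.mp hu).2 (hI.even_mem u h0)
  have hforb0 : R.forb I lab 0 = ∅ := by
    unfold RT.forb
    rw [hout0, empty_product, image_empty]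
  have htypes : R.types I lab = range (L + (Rb.card - 1)) := by
    apply eq_of_subset_of_card_le
    · intro a ha
      unfold RT.types at ha
      rw [mem_image] at ha
      obtain ⟨u, hu, rfl⟩ := ha
      rw [mem_erase] at hu
      rw [mem_range]
      exact hI.type_lt u hu.2 hu.1
    · unfold RT.types
      rw [card_image_of_injOn, card_erase_of_mem hcI, hI.card_eq, card_range]
      · omega
      · intro u hu v hv he
        rw [mem_coe, mem_erase] at hu hv
        exact hI.type_inj u hu.2 v hv.2 hu.1 hv.1 he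
  have hforb1 : R.forb I lab 1 ⊆ R.types I lab := by
    intro a ha
    unfold RT.forb at ha
    rw [mem_image] at ha
    obtain ⟨⟨p, v⟩, hpv, rfl⟩ := ha
    rw [mem_product, mem_filter] at hpv
    obtain ⟨hp, hv, hv1⟩ := hpv
    unfold RT.out at hp
    rw [mem_filter, mem_sdiff] at hp
    have h3 : R.par p ∈ Rb := hout p hp.1.2
    have h4 := b1b_par_odd R hp.2
    have h5 := (row_Rb _ h4).mp h3
    have h6 := hI.lab_odd v hv hv1
    rw [htypes, mem_range]
    simp only
    rw [hI.lab_even _ h4]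
    omega
  refine ⟨R, I, lab, hcI, fun u _ hu => hI.b1b_par_mem hu, ?_, ?_, ?_, hI.type_inj, ?_, ?_, ?_⟩
  · intro u hu
    exact hI.b1b_par_mem (b1b_ne_c R (hI.b1b_out hu).1)
  · intro u hu v hv hd he
    by_cases h0 : (R.dep u : ZMod 2) = 0
    · have h0' : (R.dep v : ZMod 2) = 0 := by rw [← hd]; exact h0
      rw [hI.lab_even u h0, hI.lab_even v h0'] at he
      exact row_inj u v h0 h0' he
    · have h1 := b1b_zmod h0
      exact hI.inj_odd u hu v hv h1 (by rw [← hd]; exact h1) he
  · intro u hu v hv hd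
    by_cases h0 : (R.dep u : ZMod 2) = 0
    · have h1 : (R.dep v : ZMod 2) = 1 := b1b_zmod (fun h => hd (h0.trans h.symm))
      have h3 := row_lt u h0
      have h4 := hI.lab_odd v hv h1
      rw [hI.lab_even u h0]
      omega
    · have h1 := b1b_zmod h0
      have h0' : (R.dep v : ZMod 2) = 0 := by
        by_contra h
        exact hd (h1.trans (b1b_zmod h).symm)
      have h3 := row_lt v h0'
      have h4 := hI.lab_odd u hu h1
      rw [hI.lab_even v h0']
      omega
  · rw [hforb0, empty_sdiff]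
    exact disjoint_empty_left _
  · rw [hforb0, empty_sdiff, card_empty]
    exact Nat.zero_le _
  · rw [sdiff_eq_empty_iff_subset.mpr hforb1, card_empty]
    exact Nat.zero_le _

end

/-- B1b. The second stage: the leaves not adjacent to `Rb` are inserted one by one, paid by leaves
of `u₀` (the vertex of row `r - 2`). -/
theorem stage2 {U : Type*} [Fintype U] [DecidableEq U] {T : SimpleGraph U} (hT : T.IsTree)
    (R : RT T) (Rb : Finset U) (hRb : ∀ u ∈ Rb, (R.dep u : ZMod 2) = 0) (h2 : 2 ≤ Rb.card)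
    (N q L : ℕ) (hN : Nat.card {w // (R.dep w : ZMod 2) = 0} = N)
    (hq : Nat.card {w // (R.dep w : ZMod 2) = 1 ∧ ¬ IsInner T w ∧ ∀ u ∈ Rb, ¬ T.Adj u w} ≤ q)
    (row : U → ℕ)
    (row_inj : ∀ u v, (R.dep u : ZMod 2) = 0 → (R.dep v : ZMod 2) = 0 → row u = row v → u = v)
    (row_lt : ∀ u, (R.dep u : ZMod 2) = 0 → row u < N)
    (row_Rb : ∀ u, (R.dep u : ZMod 2) = 0 → (u ∈ Rb ↔ row u < Rb.card))
    (u₀ : U) (hu₀ : u₀ ∈ Rb) (hrow : row u₀ + 2 = Rb.card)
    (hM0 : L + (q + 1) * N ≤ (lf T u₀).card)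
    (I : Finset U) (lab : U → ℕ) (hI : R.Closed Rb.card L row I lab) :
    Framed T (L + (q + 1) * N) := by
  classical
  have hcard : (univ.filter (fun w => w ∉ I ∧ R.par w ∉ Rb)).card ≤ q := by
    refine le_trans ?_ hq
    rw [Nat.card_eq_fintype_card, Fintype.card_subtype]
    apply card_le_card
    intro w hw
    rw [mem_filter] at hw ⊢
    obtain ⟨hw1, hwin⟩ := hI.b1b_out hw.2.1
    refine ⟨mem_univ _, hw1, hwin, ?_⟩
    intro u hu hadj
    apply hw.2.2
    have h3 : w ∈ lf T u := by
      unfold lf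
      rw [mem_filter]
      exact ⟨mem_univ _, hadj, hwin⟩
    rw [(b1b_lf R (hRb u hu) h3).2.1]
    exact hu
  obtain ⟨L', I', lab', h3, h4, h5⟩ := b1b_loop Rb h2 N row row_inj row_lt row_Rb u₀ hu₀
    (hRb u₀ hu₀) hrow q L I lab hI hcard hM0
  refine b1b_final Rb h2 N L' row row_inj row_lt row_Rb I' lab' h3 h5 ?_
  have e1 : (q + 1) * N = q * N + N := by ring
  omega

end Pool.Agent.Lib.MP_c5b475_co
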