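import Pool.Agent.Lib.MP_c5b475_co.Few.DefsB
import Pool.Agent.Lib.MP_c5b475_co.Decompose

set_option autoImplicit false

/-!
# Block frame theorem

A tree with closed labellings modulo the sizes of the blocks decomposes every regular bipartite
graph with a factor into complete bipartite blocks of these sizes.
-/

namespace Pool.Agent.Lib.MP_c5b475_co

open Finset

/-- **One block.** Copies of `T` whose cores fill the block `Lf`, `Rt` and whose outer leaves take
all the other edges at the left vertices of the block. -/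
theorem RT.block {U : Type*} [Fintype U] [DecidableEq U] {T : SimpleGraph U} (R : RT T)
    (I : Finset U) {m : ℕ} [NeZero m] (lab : U → ZMod m) (hc : R.c ∈ I)
    (hpar : ∀ u ∈ I, u ≠ R.c → R.par u ∈ I)
    (hout : ∀ u, u ∉ I → R.par u ∈ I ∧ (R.dep u : ZMod 2) = 1)
    (linj : ∀ u ∈ I, ∀ v ∈ I, (R.dep u : ZMod 2) = R.dep v → lab u = lab v → u = v)
    (lty : ∀ u ∈ I, ∀ v ∈ I, u ≠ R.c → v ≠ R.c →
      lab u + lab (R.par u) = lab v + lab (R.par v) → u = v)
    (hcard : I.card = m + 1)
    {V : Type*} [Fintype V] [DecidableEq V] (G : SimpleGraph V) [DecidableRel G.Adj]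
    (hd : ∀ v, G.degree v + 1 = Fintype.card U) (P : V → Prop)
    (hP : ∀ u v, G.Adj u v → (P u ↔ ¬ P v))
    (Lf Rt : ZMod m → V) (hLi : Function.Injective Lf) (hRi : Function.Injective Rt)
    (hL : ∀ x, P (Lf x)) (hR : ∀ x, ¬ P (Rt x)) (hLR : ∀ x y, G.Adj (Lf x) (Rt y)) :
    ∃ f : ZMod m → (U ↪ V), (∀ i, T.map (f i) ≤ G) ∧
      (∀ x y, G.Adj (Lf x) y → ∃! i, s(Lf x, y) ∈ (T.map (f i)).edgeSet) ∧
      ∀ i, ∀ e ∈ (T.map (f i)).edgeSet, ∃ x, Lf x ∈ e := by
  classical
  have hne : ∀ u : U, u ∉ I → u ≠ R.c := fun u hu h => hu (h ▸ hc)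
  have hdc : (R.dep R.c : ZMod 2) = 0 := by rw [R.dep_c]; rfl
  have h01 : ∀ a : ZMod 2, a ≠ 0 → a = 1 := by decide
  have hdp : ∀ u, u ≠ R.c → ((R.dep u : ZMod 2) = 0 ↔ ¬ (R.dep (R.par u) : ZMod 2) = 0) := by
    intro u hu
    have h1 : (R.dep u : ZMod 2) = R.dep (R.par u) + 1 := by
      rw [← R.dep_par u hu]
      push_cast
      ring
    rw [h1]
    generalize (R.dep (R.par u) : ZMod 2) = x
    revert x
    decide
  have hdI : ∀ u, u ∉ I → ¬ (R.dep u : ZMod 2) = 0 := by
    intro u hu h
    rw [(hout u hu).2] at h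
    exact absurd h (by decide)
  have hdI' : ∀ u, u ∉ I → (R.dep (R.par u) : ZMod 2) = 0 := by
    intro u hu
    by_contra h
    exact hdI u hu ((hdp u (hne u hu)).mpr h)
  -- the outer vertices
  let W := {u : U // u ∉ I}
  have hWcard : Fintype.card W + (m + 1) = Fintype.card U := by
    rw [← hcard, Fintype.card_subtype_compl, Fintype.card_coe]
    have := card_le_univ I
    omega
  -- lists
  let S : ZMod m → Finset V := fun x => G.neighborFinset (Lf x) \ univ.image Rt
  have hScard : ∀ x, (S x).card = Fintype.card W := by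
    intro x
    have h1 : univ.image Rt ⊆ G.neighborFinset (Lf x) := by
      intro v hv
      rw [mem_image] at hv
      obtain ⟨z, _, rfl⟩ := hv
      rw [SimpleGraph.mem_neighborFinset]
      exact hLR x z
    have h2 : (univ.image Rt).card = m := by
      rw [card_image_of_injective _ hRi, card_univ, ZMod.card]
    have h3 := hd (Lf x)
    rw [card_sdiff_of_subset h1, h2, SimpleGraph.card_neighborFinset_eq_degree]
    omega
  obtain ⟨y, hy1, hy2⟩ := galvin (E := ZMod m × W) (fun e => e.1)
    (fun e => e.1 + lab (R.par e.2.1)) (fun e => (Fintype.equivFin W e.2).val)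
    (by
      rintro ⟨i, w⟩ ⟨i', w'⟩ h1 h2
      have h3 : w = w' := (Fintype.equivFin W).injective (Fin.ext h2)
      have h4 : i = i' := h1
      rw [h3, h4])
    (by
      rintro ⟨i, w⟩ ⟨i', w'⟩ h1 h2
      have h3 : w = w' := (Fintype.equivFin W).injective (Fin.ext h2)
      subst h3
      have h4 : i = i' := add_right_cancel h1
      rw [h4])
    (D := Fintype.card W) (fun e => (Fintype.equivFin W e.2).isLt)
    (fun e => S (e.1 + lab (R.par e.2.1))) (fun e => (hScard _).ge)
  have hyadj : ∀ i w, G.Adj (Lf (i + lab (R.par w.1))) (y (i, w)) := by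
    intro i w
    have := hy1 (i, w)
    simp only [S, mem_sdiff, SimpleGraph.mem_neighborFinset] at this
    exact this.1
  have hyP : ∀ e, ¬ P (y e) := by
    rintro ⟨i, w⟩
    exact (hP _ _ (hyadj i w)).mp (hL _)
  have hyR : ∀ e x, y e ≠ Rt x := by
    rintro e x h
    have := hy1 e
    simp only [S, mem_sdiff, mem_image, mem_univ, true_and, not_exists] at this
    exact this.2 x h.symm
  -- the copies
  let F : ZMod m → U → V := fun i u =>
    if h : u ∈ I then (if (R.dep u : ZMod 2) = 0 then Lf (i + lab u) else Rt (i - lab u))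
    else y (i, ⟨u, h⟩)
  have hF0 : ∀ i u, u ∈ I → (R.dep u : ZMod 2) = 0 → F i u = Lf (i + lab u) := by
    intro i u hu h
    simp only [F, hu, h, dif_pos, if_true]
  have hF1 : ∀ i u, u ∈ I → ¬ (R.dep u : ZMod 2) = 0 → F i u = Rt (i - lab u) := by
    intro i u hu h
    simp only [F, hu, h, dif_pos, if_false]
  have hF2 : ∀ i u (h : u ∉ I), F i u = y (i, ⟨u, h⟩) := by
    intro i u h
    simp only [F, h, dif_neg, not_false_iff]
  have hFP0 : ∀ i u, (R.dep u : ZMod 2) = 0 → P (F i u) := by
    intro i u h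
    have hu : u ∈ I := by
      by_contra hu
      exact hdI u hu h
    rw [hF0 i u hu h]
    exact hL _
  have hFP1 : ∀ i u, ¬ (R.dep u : ZMod 2) = 0 → ¬ P (F i u) := by
    intro i u h
    by_cases hu : u ∈ I
    · rw [hF1 i u hu h]
      exact hR _
    · rw [hF2 i u hu]
      exact hyP _
  have hFinj : ∀ i, Function.Injective (F i) := by
    intro i u v huv
    by_cases hu0 : (R.dep u : ZMod 2) = 0
    · have hv0 : (R.dep v : ZMod 2) = 0 := by
        by_contra hv0
        exact hFP1 i v hv0 (huv ▸ hFP0 i u hu0)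
      have hu : u ∈ I := by
        by_contra hu
        exact hdI u hu hu0
      have hv : v ∈ I := by
        by_contra hv
        exact hdI v hv hv0
      rw [hF0 i u hu hu0, hF0 i v hv hv0] at huv
      exact linj u hu v hv (hu0.trans hv0.symm) (add_left_cancel (hLi huv))
    · have hv0 : ¬ (R.dep v : ZMod 2) = 0 := by
        intro hv0
        exact hFP1 i u hu0 (huv ▸ hFP0 i v hv0)
      by_cases hu : u ∈ I
      · by_cases hv : v ∈ I
        · rw [hF1 i u hu hu0, hF1 i v hv hv0] at huv
          exact linj u hu v hv ((h01 _ hu0).trans (h01 _ hv0).symm) (sub_right_injective (hRi huv))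
        · rw [hF1 i u hu hu0, hF2 i v hv] at huv
          exact absurd huv.symm (hyR _ _)
      · by_cases hv : v ∈ I
        · rw [hF2 i u hu, hF1 i v hv hv0] at huv
          exact absurd huv (hyR _ _)
        · rw [hF2 i u hu, hF2 i v hv] at huv
          by_contra hne'
          exact hy2 (i, ⟨u, hu⟩) (i, ⟨v, hv⟩)
            (fun h => hne' (congrArg Subtype.val (congrArg Prod.snd h))) (Or.inl rfl) huv
  let f : ZMod m → (U ↪ V) := fun i => ⟨F i, hFinj i⟩
  have hf : ∀ i u, f i u = F i u := fun i u => rfl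
  -- every edge of a copy contains a left vertex of the block
  have hedge : ∀ i u, u ≠ R.c → ∃ x, s(F i u, F i (R.par u)) = s(Lf x, if
      (R.dep u : ZMod 2) = 0 then F i (R.par u) else F i u) ∧
      G.Adj (F i u) (F i (R.par u)) ∧ (x = i + lab (if (R.dep u : ZMod 2) = 0 then u else
        R.par u)) := by
    intro i u hu
    by_cases h0 : (R.dep u : ZMod 2) = 0
    · have huI : u ∈ I := by
        by_contra huI
        exact hdI u huI h0
      have h1 : ¬ (R.dep (R.par u) : ZMod 2) = 0 := (hdp u hu).mp h0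
      refine ⟨i + lab u, ?_, ?_, ?_⟩
      · rw [if_pos h0, hF0 i u huI h0]
      · rw [hF0 i u huI h0, hF1 i _ (hpar u huI hu) h1]
        exact hLR _ _
      · rw [if_pos h0]
    · have h1 : (R.dep (R.par u) : ZMod 2) = 0 := by
        by_contra h1
        exact h0 ((hdp u hu).mpr h1)
      have hpI : R.par u ∈ I := by
        by_cases huI : u ∈ I
        · exact hpar u huI hu
        · exact (hout u huI).1
      refine ⟨i + lab (R.par u), ?_, ?_, ?_⟩
      · rw [if_neg h0, hF0 i _ hpI h1]
        exact Sym2.eq_swap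
      · rw [hF0 i _ hpI h1]
        by_cases huI : u ∈ I
        · rw [hF1 i u huI h0]
          exact (hLR _ _).symm
        · rw [hF2 i u huI]
          exact (hyadj i ⟨u, huI⟩).symm
      · rw [if_neg h0]
  refine ⟨f, ?_, ?_, ?_⟩
  · intro i a b hab
    have h1 : s(a, b) ∈ (T.map (f i)).edgeSet := hab
    rw [R.mem_map_edge] at h1
    obtain ⟨⟨u, hu⟩, he⟩ := h1
    obtain ⟨x, _, hadj, _⟩ := hedge i u hu
    have h2 : s(a, b) ∈ G.edgeSet := by
      rw [he]
      exact hadj
    exact h2
  · intro x z hxz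
    have hzP : ¬ P z := (hP _ _ hxz).mp (hL x)
    -- reformulation of membership
    have hmem : ∀ i, s(Lf x, z) ∈ (T.map (f i)).edgeSet ↔ ∃ u, u ≠ R.c ∧
        (if (R.dep u : ZMod 2) = 0 then F i (R.par u) else F i u) = z ∧
        x = i + lab (if (R.dep u : ZMod 2) = 0 then u else R.par u) := by
      intro i
      rw [R.mem_map_edge]
      constructor
      · rintro ⟨⟨u, hu⟩, he⟩
        obtain ⟨x', h1, _, h2⟩ := hedge i u hu
        rw [hf, hf, h1, Sym2.eq_iff] at he
        rcases he with ⟨h3, h4⟩ | ⟨h3, h4⟩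
        · refine ⟨u, hu, h4.symm, ?_⟩
          rw [← h2]
          exact hLi h3
        · exact absurd (h4 ▸ hL x') hzP
      · rintro ⟨u, hu, h3, h4⟩
        refine ⟨⟨u, hu⟩, ?_⟩
        obtain ⟨x', h1, _, h2⟩ := hedge i u hu
        rw [hf, hf, h1, h3, h2, h4]
    by_cases hz : ∃ t, Rt t = z
    · obtain ⟨t, rfl⟩ := hz
      -- types of the core edges
      have hsurj : ∀ a : ZMod m, ∃ u ∈ I, u ≠ R.c ∧ lab u + lab (R.par u) = a := by
        intro a
        have h1 : ((I.erase R.c).image (fun u => lab u + lab (R.par u))) = univ := by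
          rw [← card_eq_iff_eq_univ, card_image_of_injOn, card_erase_of_mem hc, hcard, ZMod.card]
          · rfl
          · intro u hu v hv huv
            rw [mem_coe, mem_erase] at hu hv
            exact lty u hu.2 v hv.2 hu.1 hv.1 huv
        have h2 : a ∈ ((I.erase R.c).image (fun u => lab u + lab (R.par u))) := by
          rw [h1]; exact mem_univ a
        rw [mem_image] at h2
        obtain ⟨u, hu, h3⟩ := h2
        rw [mem_erase] at hu
        exact ⟨u, hu.2, hu.1, h3⟩
      -- the condition for `u`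
      have hcond : ∀ i u, u ≠ R.c →
          ((if (R.dep u : ZMod 2) = 0 then F i (R.par u) else F i u) = Rt t ∧
            x = i + lab (if (R.dep u : ZMod 2) = 0 then u else R.par u) ↔
          u ∈ I ∧ lab u + lab (R.par u) = x - t ∧
            x = i + lab (if (R.dep u : ZMod 2) = 0 then u else R.par u)) := by
        intro i u hu
        by_cases h0 : (R.dep u : ZMod 2) = 0
        · have huI : u ∈ I := by
            by_contra huI
            exact hdI u huI h0
          have h1 : ¬ (R.dep (R.par u) : ZMod 2) = 0 := (hdp u hu).mp h0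
          rw [if_pos h0, if_pos h0, hF1 i _ (hpar u huI hu) h1]
          constructor
          · rintro ⟨h2, h3⟩
            refine ⟨huI, ?_, h3⟩
            rw [h3, ← hRi h2]
            ring
          · rintro ⟨_, h2, h3⟩
            refine ⟨?_, h3⟩
            congr 1
            have h4 : t = x - (lab u + lab (R.par u)) := by rw [h2]; ring
            rw [h4, h3]
            ring
        · have h1 : (R.dep (R.par u) : ZMod 2) = 0 := by
            by_contra h1
            exact h0 ((hdp u hu).mpr h1)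
          rw [if_neg h0, if_neg h0]
          by_cases huI : u ∈ I
          · rw [hF1 i u huI h0]
            constructor
            · rintro ⟨h2, h3⟩
              refine ⟨huI, ?_, h3⟩
              rw [h3, ← hRi h2]
              ring
            · rintro ⟨_, h2, h3⟩
              refine ⟨?_, h3⟩
              congr 1
              have h4 : t = x - (lab u + lab (R.par u)) := by rw [h2]; ring
              rw [h4, h3]
              ring
          · rw [hF2 i u huI]
            constructor
            · rintro ⟨h2, _⟩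
              exact absurd h2 (hyR _ _)
            · rintro ⟨h2, _⟩
              exact absurd h2 huI
      obtain ⟨u, huI, hu, hut⟩ := hsurj (x - t)
      refine ⟨x - lab (if (R.dep u : ZMod 2) = 0 then u else R.par u), ?_, ?_⟩
      · refine (hmem _).mpr ⟨u, hu, (hcond _ u hu).mpr ⟨huI, hut, ?_⟩⟩
        ring
      · intro i hi
        obtain ⟨v, hv, hv'⟩ := (hmem i).mp hi
        obtain ⟨hvI, hvt, hvx⟩ := (hcond i v hv).mp hv'
        have h1 : v = u := lty v hvI u huI hv hu (hvt.trans hut.symm)
        subst h1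
        rw [hvx]
        ring
    · -- outer edges
      push Not at hz
      have hcond : ∀ i u, u ≠ R.c →
          (if (R.dep u : ZMod 2) = 0 then F i (R.par u) else F i u) = z → u ∉ I := by
        intro i u hu h huI
        by_cases h0 : (R.dep u : ZMod 2) = 0
        · have h1 : ¬ (R.dep (R.par u) : ZMod 2) = 0 := (hdp u hu).mp h0
          rw [if_pos h0, hF1 i _ (hpar u huI hu) h1] at h
          exact hz _ h
        · rw [if_neg h0, hF1 i u huI h0] at h
          exact hz _ h
      have hzS : z ∈ S x := by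
        simp only [S, mem_sdiff, SimpleGraph.mem_neighborFinset, mem_image, mem_univ, true_and,
          not_exists]
        exact ⟨hxz, hz⟩
      have himg : (univ.image (fun w : W => y (x - lab (R.par w.1), w))) = S x := by
        apply eq_of_subset_of_card_le
        · intro v hv
          rw [mem_image] at hv
          obtain ⟨w, _, rfl⟩ := hv
          have := hy1 (x - lab (R.par w.1), w)
          simpa using this
        · rw [hScard x, card_image_of_injective, card_univ]
          intro w w' h
          by_contra hne'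
          refine hy2 (x - lab (R.par w.1), w) (x - lab (R.par w'.1), w')
            (fun h => hne' (congrArg Prod.snd h)) (Or.inr ?_) h
          simp
      rw [← himg, mem_image] at hzS
      obtain ⟨w, _, hw⟩ := hzS
      have hwc : w.1 ≠ R.c := hne w.1 w.2
      have hw0 : ¬ (R.dep w.1 : ZMod 2) = 0 := hdI w.1 w.2
      refine ⟨x - lab (R.par w.1), ?_, ?_⟩
      · refine (hmem _).mpr ⟨w.1, hwc, ?_, ?_⟩
        · rw [if_neg hw0, hF2 _ w.1 w.2]
          exact hw
        · rw [if_neg hw0]
          ring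
      · intro i hi
        obtain ⟨v, hv, hvz, hvx⟩ := (hmem i).mp hi
        have hvI := hcond i v hv hvz
        have hv0 : ¬ (R.dep v : ZMod 2) = 0 := hdI v hvI
        rw [if_neg hv0] at hvz hvx
        rw [hF2 i v hvI] at hvz
        by_contra hne'
        refine hy2 (i, ⟨v, hvI⟩) (x - lab (R.par w.1), w)
          (fun h => hne' (congrArg Prod.fst h)) (Or.inr ?_) (hvz.trans hw.symm)
        change i + lab (R.par v) = x - lab (R.par w.1) + lab (R.par w.1)
        rw [← hvx]
        ring
  · intro i e he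
    rw [R.mem_map_edge] at he
    obtain ⟨⟨u, hu⟩, rfl⟩ := he
    obtain ⟨x, h1, _, _⟩ := hedge i u hu
    refine ⟨x, ?_⟩
    rw [hf, hf, h1]
    exact Sym2.mem_mk_left _ _

/-- BF. Block frame theorem. -/
theorem block_frame {n : ℕ} {T : SimpleGraph (Fin (n + 1))} {V : Type} [Fintype V]
    [DecidableEq V] (G : SimpleGraph V) [DecidableRel G.Adj] (hG : G.IsRegularOfDegree n)
    (hf : BlockFactor G (fun μ => 1 ≤ μ ∧ ClosedMod T μ)) : Decomposes T G := by
  classical
  obtain ⟨B, μ, e, hP, hl, hr, hK⟩ := hf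
  have hnz : ∀ b, NeZero (μ b) := fun b => ⟨by have := (hP b).1; omega⟩
  let P : V → Prop := fun v => ∃ x, e (Sum.inl x) = v
  have hPr : ∀ x, ¬ P (e (Sum.inr x)) := by
    rintro x ⟨z, hz⟩
    exact absurd (e.injective hz) (by simp)
  have hPadj : ∀ u v, G.Adj u v → (P u ↔ ¬ P v) := by
    intro u v huv
    obtain ⟨a, rfl⟩ := e.surjective u
    obtain ⟨b, rfl⟩ := e.surjective v
    rcases a with a | a <;> rcases b with b | b
    · exact absurd huv (hl a b)
    · exact ⟨fun _ => hPr b, fun _ => ⟨a, rfl⟩⟩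
    · exact ⟨fun h => absurd h (hPr a), fun h => absurd ⟨b, rfl⟩ h⟩
    · exact absurd huv (hr a b)
  let Lf : ∀ b, ZMod (μ b) → V := fun b x =>
    have := hnz b
    e (Sum.inl ⟨b, (ZMod.finEquiv (μ b)).symm x⟩)
  let Rt : ∀ b, ZMod (μ b) → V := fun b x =>
    have := hnz b
    e (Sum.inr ⟨b, (ZMod.finEquiv (μ b)).symm x⟩)
  have hblock : ∀ b, ∃ f : ZMod (μ b) → (Fin (n + 1) ↪ V), (∀ i, T.map (f i) ≤ G) ∧
      (∀ x y, G.Adj (Lf b x) y → ∃! i, s(Lf b x, y) ∈ (T.map (f i)).edgeSet) ∧
      ∀ i, ∀ e ∈ (T.map (f i)).edgeSet, ∃ x, Lf b x ∈ e := by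
    intro b
    have := hnz b
    obtain ⟨R, I, lab, hc, hpar, hout, linj, lty, hcard⟩ := (hP b).2
    refine R.block I lab hc hpar hout linj lty hcard G (fun v => by rw [hG v, Fintype.card_fin])
      P hPadj (Lf b) (Rt b) ?_ ?_ (fun x => ⟨_, rfl⟩) (fun x => hPr _) (fun x y => hK b _ _)
    · intro x y hxy
      have h1 := Sum.inl_injective (e.injective hxy)
      rw [Sigma.mk.injEq] at h1
      exact (ZMod.finEquiv (μ b)).symm.injective (eq_of_heq h1.2)
    · intro x y hxy
      have h1 := Sum.inr_injective (e.injective hxy)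
      rw [Sigma.mk.injEq] at h1
      exact (ZMod.finEquiv (μ b)).symm.injective (eq_of_heq h1.2)
  choose f hf1 hf2 hf3 using hblock
  have hLfst : ∀ b b' x x', Lf b x = Lf b' x' → b = b' := by
    intro b b' x x' h
    have h1 := Sum.inl_injective (e.injective h)
    exact congrArg Sigma.fst h1
  refine ⟨(b : B) × ZMod (μ b), fun p => f p.1 p.2, fun p => hf1 p.1 p.2, ?_⟩
  have key : ∀ a z, P a → G.Adj a z →
      ∃! p : (b : B) × ZMod (μ b), s(a, z) ∈ (T.map (f p.1 p.2)).edgeSet := by
    rintro a z ⟨⟨b, x0⟩, rfl⟩ haz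
    have := hnz b
    obtain ⟨x, hx⟩ : ∃ x, Lf b x = e (Sum.inl ⟨b, x0⟩) := by
      refine ⟨ZMod.finEquiv (μ b) x0, ?_⟩
      change e (Sum.inl ⟨b, (ZMod.finEquiv (μ b)).symm (ZMod.finEquiv (μ b) x0)⟩) = _
      rw [RingEquiv.symm_apply_apply]
    rw [← hx] at haz ⊢
    obtain ⟨i, hi, hiu⟩ := hf2 b x z haz
    refine ⟨⟨b, i⟩, hi, ?_⟩
    rintro ⟨b', i'⟩ hi'
    obtain ⟨x', hx'⟩ := hf3 b' i' _ hi'
    have hzP : ¬ P z := (hPadj _ _ haz).mp ⟨_, rfl⟩
    rw [Sym2.mem_iff] at hx'
    rcases hx' with hx' | hx'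
    · have hbb := hLfst _ _ _ _ hx'
      subst hbb
      have := hiu i' hi'
      rw [this]
    · exact absurd ⟨_, hx'⟩ hzP
  intro d hd
  induction d using Sym2.ind with
  | _ a z =>
    have haz : G.Adj a z := hd
    by_cases ha : P a
    · exact key a z ha haz
    · have hz : P z := by
        by_contra hz
        exact ha ((hPadj _ _ haz).mpr hz)
      rw [Sym2.eq_swap]
      exact key z a hz haz.symm

end Pool.Agent.Lib.MP_c5b475_co
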