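import Pool.Agent.Lib.MP_c5b475_co.Few.Defs
import Pool.Agent.Lib.MP_c5b475_co.Lobster

set_option autoImplicit false

/-!
# GE: generic extension of a labelling
-/

namespace Pool.Agent.Lib.MP_c5b475_co

open Finset

/-- the invariant of the generic extension -/
structure GEInv {U : Type*} [DecidableEq U] {T : SimpleGraph U} (R : RT T)
    (RX RY : Finset U) (B : ℕ) (A : Finset U) (lab : U → ℕ) : Prop where
  bd : ∀ u ∈ A, lab u ≤ B
  i1 : ∀ u ∈ A, ∀ v ∈ A, (R.dep u : ZMod 2) = R.dep v → lab u = lab v → u = v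
  i2 : ∀ u ∈ A, ∀ v ∈ A, u ≠ R.c → v ≠ R.c → R.par u ∈ A → R.par v ∈ A →
      lab u + lab (R.par u) = lab v + lab (R.par v) → u = v
  i3 : ∀ u ∈ RX, ∀ v ∈ RY, ∀ x ∈ A, ∀ y ∈ A, (R.dep x : ZMod 2) = 0 →
      (R.dep y : ZMod 2) = 1 → lab u + lab y = lab x + lab v →
      ∃ w ∈ A, w ≠ R.c ∧ R.par w ∈ A ∧ lab w + lab (R.par w) = lab u + lab y

theorem ge_extend {U : Type*} [Fintype U] [DecidableEq U] {T : SimpleGraph U} (R : RT T)
    (RX RY : Finset U) (B : ℕ) (A : Finset U) (lab : U → ℕ) (h : GEInv R RX RY B A lab)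
    (hRX : ∀ u ∈ RX, (R.dep u : ZMod 2) = 0) (hRY : ∀ v ∈ RY, (R.dep v : ZMod 2) = 1)
    (hX : RX ⊆ A) (hY : RY ⊆ A) (w : U) (hw : w ∉ A)
    (hB : A.card + A.card * A.card + RX.card * RY.card * A.card ≤ B) :
    ∃ lab' : U → ℕ, (∀ u, u ≠ w → lab' u = lab u) ∧ GEInv R RX RY B (insert w A) lab' := by
  classical
  set ty : Finset ℕ := A.image (fun u => lab u + lab (R.par u)) with hty
  set b1 : Finset ℕ := A.image lab with hb1
  set b2 : Finset ℕ := (ty ×ˢ A).image (fun p => p.1 - lab p.2) with hb2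
  set b3 : Finset ℕ := ((RX ×ˢ RY) ×ˢ A).image (fun p => if (R.dep w : ZMod 2) = 0 then
    lab p.1.1 + lab p.2 - lab p.1.2 else lab p.2 + lab p.1.2 - lab p.1.1) with hb3
  have hc1 : b1.card ≤ A.card := card_image_le
  have hct : ty.card ≤ A.card := card_image_le
  have hc2 : b2.card ≤ A.card * A.card := by
    refine card_image_le.trans ?_
    rw [card_product]
    exact Nat.mul_le_mul_right _ hct
  have hc3 : b3.card ≤ RX.card * RY.card * A.card := by
    refine card_image_le.trans ?_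
    rw [card_product, card_product]
  obtain ⟨ℓ, hℓ, hℓb⟩ : ∃ ℓ, ℓ ∈ range (B + 1) ∧ ℓ ∉ b1 ∪ b2 ∪ b3 := by
    by_contra hcon
    push Not at hcon
    have h1 : (range (B + 1)).card ≤ (b1 ∪ b2 ∪ b3).card := card_le_card hcon
    rw [card_range] at h1
    have h2 : (b1 ∪ b2 ∪ b3).card ≤ b1.card + b2.card + b3.card :=
      (card_union_le _ _).trans (Nat.add_le_add_right (card_union_le _ _) _)
    omega
  rw [mem_range] at hℓ
  simp only [mem_union, not_or] at hℓb
  obtain ⟨⟨hn1, hn2⟩, hn3⟩ := hℓb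
  have hA : ∀ u ∈ A, u ≠ w := fun u hu e => hw (e ▸ hu)
  set lab' : U → ℕ := fun u => if u = w then ℓ else lab u with hlab'
  have hl : ∀ u, u ≠ w → lab' u = lab u := fun u hu => by simp [hlab', hu]
  have hlw : lab' w = ℓ := by simp [hlab']
  have hlA : ∀ u ∈ A, lab' u = lab u := fun u hu => hl u (hA u hu)
  -- labels of `A` differ from `ℓ`
  have k1 : ∀ u ∈ A, lab u ≠ ℓ := fun u hu e => hn1 (mem_image.mpr ⟨u, hu, e⟩)
  -- new types differ from old ones
  have k2 : ∀ u ∈ A, ∀ v ∈ A, ℓ + lab v ≠ lab u + lab (R.par u) := by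
    intro u hu v hv e
    apply hn2
    rw [hb2, mem_image]
    refine ⟨(lab u + lab (R.par u), v), ?_, ?_⟩
    · rw [mem_product]
      exact ⟨mem_image.mpr ⟨u, hu, rfl⟩, hv⟩
    · simp only
      omega
  have k3 : ∀ u ∈ RX, ∀ v ∈ RY, ∀ y ∈ A, (R.dep w : ZMod 2) = 0 →
      lab u + lab y ≠ ℓ + lab v := by
    intro u hu v hv y hy h0 e
    apply hn3
    rw [hb3, mem_image]
    refine ⟨((u, v), y), ?_, ?_⟩
    · simp [hu, hv, hy]
    · rw [if_pos h0]
      simp only
      omega
  have k4 : ∀ u ∈ RX, ∀ v ∈ RY, ∀ x ∈ A, (R.dep w : ZMod 2) = 1 →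
      lab u + ℓ ≠ lab x + lab v := by
    intro u hu v hv x hx h0 e
    apply hn3
    rw [hb3, mem_image]
    refine ⟨((u, v), x), ?_, ?_⟩
    · simp [hu, hv, hx]
    · rw [if_neg (by rw [h0]; decide)]
      simp only
      omega
  have hpw : ∀ u, u ≠ R.c → R.par u ≠ u := by
    intro u hu e
    have := R.dep_par u hu
    rw [e] at this
    omega
  have hpp : ∀ u, u ≠ R.c → R.par u ≠ R.c → R.par (R.par u) ≠ u := by
    intro u hu hu' e
    have h1 := R.dep_par u hu
    have h2 := R.dep_par _ hu'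
    rw [e] at h2
    omega
  have hparity : ∀ u, u ≠ R.c → (R.dep u : ZMod 2) = R.dep (R.par u) + 1 := fun u hu =>
    R.dep_par_cast hu
  refine ⟨lab', hl, ⟨?_, ?_, ?_, ?_⟩⟩
  · intro u hu
    rcases mem_insert.mp hu with rfl | hu
    · rw [hlw]; omega
    · rw [hlA u hu]; exact h.bd u hu
  · intro u hu v hv hd he
    rcases mem_insert.mp hu with hu1 | hu1
    · rcases mem_insert.mp hv with hv1 | hv1
      · rw [hu1, hv1]
      · rw [hu1, hlw, hlA v hv1] at he
        exact absurd he.symm (k1 v hv1)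
    · rcases mem_insert.mp hv with hv1 | hv1
      · rw [hv1, hlw, hlA u hu1] at he
        exact absurd he (k1 u hu1)
      · rw [hlA u hu1, hlA v hv1] at he
        exact h.i1 u hu1 v hv1 hd he
  · -- types
    have key : ∀ u ∈ insert w A, u ≠ R.c → R.par u ∈ insert w A →
        (u ∈ A ∧ R.par u ∈ A ∧ lab' u + lab' (R.par u) = lab u + lab (R.par u)) ∨
        (u = w ∧ R.par u ∈ A ∧ lab' u + lab' (R.par u) = ℓ + lab (R.par u)) ∨
        (R.par u = w ∧ u ∈ A ∧ lab' u + lab' (R.par u) = ℓ + lab u) := by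
      intro u hu huc hpu
      rcases mem_insert.mp hu with hu1 | hu1
      · right; left
        have h1 : R.par u ∈ A := by
          rcases mem_insert.mp hpu with h2 | h2
          · exact absurd (h2.trans hu1.symm) (hpw u huc)
          · exact h2
        refine ⟨hu1, h1, ?_⟩
        rw [hlA _ h1, hu1, hlw]
      · rcases mem_insert.mp hpu with h2 | h2
        · right; right
          refine ⟨h2, hu1, ?_⟩
          rw [hlA u hu1, h2, hlw]
          exact Nat.add_comm _ _
        · left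
          exact ⟨hu1, h2, by rw [hlA u hu1, hlA _ h2]⟩
    intro u hu v hv huc hvc hpu hpv he
    rcases key u hu huc hpu with ⟨a1, a2, a3⟩ | ⟨a1, a2, a3⟩ | ⟨a1, a2, a3⟩
    · rcases key v hv hvc hpv with ⟨b1, b2, b3⟩ | ⟨b1, b2, b3⟩ | ⟨b1, b2, b3⟩
      · rw [a3, b3] at he
        exact h.i2 u a1 v b1 huc hvc a2 b2 he
      · rw [a3, b3] at he
        exact absurd he.symm (k2 u a1 _ b2)
      · rw [a3, b3] at he
        exact absurd he.symm (k2 u a1 _ b2)
    · rcases key v hv hvc hpv with ⟨b1, b2, b3⟩ | ⟨b1, b2, b3⟩ | ⟨b1, b2, b3⟩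
      · rw [a3, b3] at he
        exact absurd he (k2 v b1 _ a2)
      · exact a1.trans b1.symm
      · -- `u = w`, `par v = w`
        exfalso
        rw [a3, b3] at he
        have h1 : (R.dep (R.par u) : ZMod 2) = R.dep v := by
          have e1 := hparity u huc
          have e2 := hparity v hvc
          rw [b1, ← a1, e1] at e2
          rw [e2]
          have : (2 : ZMod 2) = 0 := by decide
          linear_combination (-1 : ZMod 2) * this
        have h2 := h.i1 _ a2 v b2 h1 (Nat.add_left_cancel he)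
        apply hpp v hvc (by rw [b1, ← a1]; exact huc)
        rw [b1, ← a1]
        exact h2
    · rcases key v hv hvc hpv with ⟨b1, b2, b3⟩ | ⟨b1, b2, b3⟩ | ⟨b1, b2, b3⟩
      · rw [a3, b3] at he
        exact absurd he (k2 v b1 _ a2)
      · exfalso
        rw [a3, b3] at he
        have h1 : (R.dep (R.par v) : ZMod 2) = R.dep u := by
          have e1 := hparity v hvc
          have e2 := hparity u huc
          rw [a1, ← b1, e1] at e2
          rw [e2]
          have : (2 : ZMod 2) = 0 := by decide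
          linear_combination (-1 : ZMod 2) * this
        have h2 := h.i1 _ b2 u a2 h1 (Nat.add_left_cancel he).symm
        apply hpp u huc (by rw [a1, ← b1]; exact hvc)
        rw [a1, ← b1]
        exact h2
      · rw [a3, b3] at he
        have h1 : (R.dep u : ZMod 2) = R.dep v := by
          rw [hparity u huc, hparity v hvc, a1, b1]
        exact h.i1 u a2 v b2 h1 (Nat.add_left_cancel he)
  · intro u hu v hv x hx y hy hx0 hy1 he
    rw [hlA u (hX hu), hlA v (hY hv)] at he
    rcases mem_insert.mp hx with hx1 | hx1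
    · exfalso
      rcases mem_insert.mp hy with hy2 | hy2
      · rw [hx1] at hx0
        rw [hy2, hx0] at hy1
        exact absurd hy1 (by decide)
      · rw [hx1, hlw, hlA y hy2] at he
        exact k3 u hu v hv y hy2 (by rw [← hx1]; exact hx0) he
    · rcases mem_insert.mp hy with hy2 | hy2
      · exfalso
        rw [hy2, hlw, hlA x hx1] at he
        exact k4 u hu v hv x hx1 (by rw [← hy2]; exact hy1) he
      · rw [hlA x hx1, hlA y hy2] at he
        obtain ⟨z, hz, hzc, hpz, hzt⟩ := h.i3 u hu v hv x hx1 y hy2 hx0 hy1 he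
        refine ⟨z, mem_insert_of_mem hz, hzc, mem_insert_of_mem hpz, ?_⟩
        rw [hlA z hz, hlA _ hpz, hlA u (hX hu), hlA y hy2, hzt]

/-- GE. Generic extension of a labelling. -/
theorem generic {U : Type*} [Fintype U] [DecidableEq U] {T : SimpleGraph U} (R : RT T)
    (RX RY I0 I : Finset U)
    (hRX : ∀ u ∈ RX, (R.dep u : ZMod 2) = 0) (hRY : ∀ v ∈ RY, (R.dep v : ZMod 2) = 1)
    (hX0 : RX ⊆ I0) (hY0 : RY ⊆ I0) (hI : I0 ⊆ I) (lab0 : U → ℕ) (M : ℕ)
    (hM : ∀ u ∈ I0, lab0 u ≤ M)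
    (h1 : ∀ u ∈ I0, ∀ v ∈ I0, (R.dep u : ZMod 2) = R.dep v → lab0 u = lab0 v → u = v)
    (h2 : ∀ u ∈ I0, ∀ v ∈ I0, u ≠ R.c → v ≠ R.c → R.par u ∈ I0 → R.par v ∈ I0 →
      lab0 u + lab0 (R.par u) = lab0 v + lab0 (R.par v) → u = v)
    (h3 : ∀ u ∈ RX, ∀ v ∈ RY, ∀ x ∈ I0, ∀ y ∈ I0, (R.dep x : ZMod 2) = 0 →
      (R.dep y : ZMod 2) = 1 → lab0 u + lab0 y = lab0 x + lab0 v →
      ∃ w ∈ I0, w ≠ R.c ∧ R.par w ∈ I0 ∧ lab0 w + lab0 (R.par w) = lab0 u + lab0 y) :
    ∃ lab : U → ℕ, (∀ u ∈ I0, lab u = lab0 u) ∧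
      (∀ u ∈ I, lab u ≤ M + (I.card + I.card * I.card + RX.card * RY.card * I.card)) ∧
      (∀ u ∈ I, ∀ v ∈ I, (R.dep u : ZMod 2) = R.dep v → lab u = lab v → u = v) ∧
      (∀ u ∈ I, ∀ v ∈ I, u ≠ R.c → v ≠ R.c → R.par u ∈ I → R.par v ∈ I →
        lab u + lab (R.par u) = lab v + lab (R.par v) → u = v) ∧
      (∀ u ∈ RX, ∀ v ∈ RY, ∀ x ∈ I, ∀ y ∈ I, (R.dep x : ZMod 2) = 0 →
        (R.dep y : ZMod 2) = 1 → lab u + lab y = lab x + lab v →
        ∃ w ∈ I, w ≠ R.c ∧ R.par w ∈ I ∧ lab w + lab (R.par w) = lab u + lab y) := by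
  classical
  set B : ℕ := M + (I.card + I.card * I.card + RX.card * RY.card * I.card) with hB
  have main : ∀ D : Finset U, D ⊆ I \ I0 → ∃ lab : U → ℕ, (∀ u ∈ I0, lab u = lab0 u) ∧
      GEInv R RX RY B (D ∪ I0) lab := by
    intro D
    induction D using Finset.induction_on with
    | empty =>
      intro _
      refine ⟨lab0, fun _ _ => rfl, ?_⟩
      rw [empty_union]
      exact ⟨fun u hu => (hM u hu).trans (Nat.le_add_right _ _), h1, h2, h3⟩
    | insert w D hw ih =>
      intro hsub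
      obtain ⟨lab, hl, hinv⟩ := ih ((subset_insert _ _).trans hsub)
      have hwI := mem_sdiff.mp (hsub (mem_insert_self w D))
      have hwA : w ∉ D ∪ I0 := by
        rw [mem_union]
        rintro (h | h)
        · exact hw h
        · exact hwI.2 h
      have hAI : D ∪ I0 ⊆ I := by
        refine union_subset (fun u hu => ?_) hI
        exact (mem_sdiff.mp (hsub (mem_insert_of_mem hu))).1
      have hc := card_le_card hAI
      have hle : (D ∪ I0).card + (D ∪ I0).card * (D ∪ I0).card +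
          RX.card * RY.card * (D ∪ I0).card ≤ B := by
        rw [hB]
        refine le_trans ?_ (Nat.le_add_left _ _)
        exact Nat.add_le_add (Nat.add_le_add hc (Nat.mul_le_mul hc hc))
          (Nat.mul_le_mul_left _ hc)
      obtain ⟨lab', hl', hinv'⟩ := ge_extend R RX RY B (D ∪ I0) lab hinv hRX hRY
        (hX0.trans subset_union_right) (hY0.trans subset_union_right) w hwA hle
      refine ⟨lab', ?_, ?_⟩
      · intro u hu
        rw [hl' u, hl u hu]
        rintro rfl
        exact hwI.2 hu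
      · rw [insert_union]
        exact hinv'
  obtain ⟨lab, hl, hinv⟩ := main (I \ I0) (Subset.refl _)
  rw [sdiff_union_of_subset hI] at hinv
  exact ⟨lab, hl, hinv.bd, hinv.i1, hinv.i2, hinv.i3⟩

end Pool.Agent.Lib.MP_c5b475_co
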