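import Pool.Agent.Lib.MP_c5b475_co.Few.Defs
import Pool.Agent.Lib.MP_c5b475_co.Lobster
import Pool.Agent.Lib.MP_c5b475_co.Few.GE

set_option autoImplicit false

/-!
# Few non-leaf vertices: big stars on both sides
-/

namespace Pool.Agent.Lib.MP_c5b475_co

open Finset

theorem a2_code {r A A' e e' : ℕ} (he : e < 2 * r) (he' : e' < 2 * r)
    (h : 2 * r * A + e = 2 * r * A' + e') : A = A' ∧ e = e' := by
  have hr : 0 < 2 * r := by omega
  have h1 : (2 * r * A + e) % (2 * r) = e := by rw [Nat.mul_add_mod, Nat.mod_eq_of_lt he]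
  have h2 : (2 * r * A' + e') % (2 * r) = e' := by rw [Nat.mul_add_mod, Nat.mod_eq_of_lt he']
  have h3 : (2 * r * A + e) / (2 * r) = A := by
    rw [Nat.mul_add_div hr, Nat.div_eq_of_lt he, add_zero]
  have h4 : (2 * r * A' + e') / (2 * r) = A' := by
    rw [Nat.mul_add_div hr, Nat.div_eq_of_lt he', add_zero]
  rw [h] at h1 h3
  exact ⟨h3.symm.trans h4, h1.symm.trans h2⟩

theorem a2_ne (a : ZMod 2) : a ≠ a + 1 := by
  revert a
  decide

theorem a2_idx {U : Type*} [DecidableEq U] (P : Finset U) :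
    ∃ idx : U → ℕ, (∀ u ∈ P, idx u < P.card) ∧ (∀ u ∈ P, ∀ v ∈ P, idx u = idx v → u = v) ∧
      ∀ i < P.card, ∃ u ∈ P, idx u = i := by
  refine ⟨fun u => if h : u ∈ P then (P.equivFin ⟨u, h⟩ : ℕ) else 0, ?_, ?_, ?_⟩
  · intro u hu
    simp only [dif_pos hu]
    exact (P.equivFin ⟨u, hu⟩).2
  · intro u hu v hv h
    simp only [dif_pos hu, dif_pos hv] at h
    have h1 := P.equivFin.injective (Fin.ext h)
    exact congrArg Subtype.val h1
  · intro i hi
    refine ⟨(P.equivFin.symm ⟨i, hi⟩ : U), (P.equivFin.symm ⟨i, hi⟩).2, ?_⟩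
    simp

theorem a2_inj {α β : Type*} [DecidableEq α] [Nonempty β] (A : Finset α) (B : Finset β)
    (h : A.card ≤ B.card) :
    ∃ f : α → β, (∀ a ∈ A, f a ∈ B) ∧ ∀ a ∈ A, ∀ a' ∈ A, f a = f a' → a = a' := by
  obtain ⟨e⟩ : Nonempty (A ↪ B) := Function.Embedding.nonempty_of_card_le (by simpa using h)
  refine ⟨fun a => if h : a ∈ A then (e ⟨a, h⟩ : β) else Classical.arbitrary β, ?_, ?_⟩
  · intro a ha
    simp only [dif_pos ha]
    exact (e ⟨a, ha⟩).2
  · intro a ha a' ha' h
    simp only [dif_pos ha, dif_pos ha'] at h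
    exact congrArg Subtype.val (e.injective (Subtype.ext h))

section A2basic

variable {U : Type*} {T : SimpleGraph U} (R : RT T)

theorem a2_par_inner (hRc : IsInner T R.c) {w : U} (hw : w ≠ R.c) : IsInner T (R.par w) := by
  by_cases h : R.par w = R.c
  · rw [h]; exact hRc
  · refine ⟨w, R.par (R.par w), ?_, ?_, ?_⟩
    · exact (R.adj_iff _ _).mpr (Or.inr ⟨hw, rfl⟩)
    · exact (R.adj_iff _ _).mpr (Or.inl ⟨h, rfl⟩)
    · intro e
      have h1 := R.dep_par w hw
      have h2 := R.dep_par _ h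
      rw [← e] at h2
      omega

theorem a2_not_inner (hRc : IsInner T R.c) {w u : U} (hw : ¬ IsInner T w) (h : T.Adj u w) :
    w ≠ R.c ∧ R.par w = u := by
  have hwc : w ≠ R.c := fun e => hw (e ▸ hRc)
  refine ⟨hwc, ?_⟩
  by_contra hne
  exact hw ⟨u, R.par w, h.symm, (R.adj_iff _ _).mpr (Or.inl ⟨hwc, rfl⟩), fun e => hne e.symm⟩

theorem a2_adj_parity {u v : U} (h : T.Adj u v) : (R.dep u : ZMod 2) = R.dep v + 1 := by
  rcases (R.adj_iff _ _).mp h with ⟨h1, h2⟩ | ⟨h1, h2⟩
  · rw [h2, R.dep_par_cast h1]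
  · rw [h2, R.dep_par_cast h1, add_assoc]
    generalize (R.dep (R.par v) : ZMod 2) = x
    revert x
    decide

theorem a2_mem_lf [Fintype U] {u w : U} : w ∈ lf T u ↔ T.Adj u w ∧ ¬ IsInner T w := by
  classical
  unfold lf
  rw [mem_filter]
  simp

end A2basic

/-- Seeds with at least two vertices in `P`. -/
theorem a2_seed {U : Type*} [Fintype U] [DecidableEq U] {T : SimpleGraph U} (R : RT T)
    (hRc : IsInner T R.c) (P Q : Finset U) (a : ZMod 2)
    (hP : ∀ u ∈ P, (R.dep u : ZMod 2) = a) (hQ : ∀ v ∈ Q, (R.dep v : ZMod 2) = a + 1)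
    (hPi : ∀ u ∈ P, IsInner T u) (hQi : ∀ u ∈ Q, IsInner T u) (k : ℕ)
    (h2 : 2 ≤ P.card) (hPk : P.card ≤ k) (hQk : Q.card ≤ k)
    (hM : ∀ u ∈ P, 2 * k ^ 2 ≤ (lf T u).card) :
    ∃ (X : Finset U) (lab : U → ℕ), X.card ≤ k ^ 2 ∧ (∀ w ∈ X, ∃ u ∈ P, w ∈ lf T u) ∧
      (∀ u ∈ P ∪ Q ∪ X, lab u ≤ 2 * k ^ 2 + 2 * k) ∧
      (∀ u ∈ P ∪ Q ∪ X, ∀ v ∈ P ∪ Q ∪ X, (R.dep u : ZMod 2) = R.dep v → lab u = lab v → u = v) ∧
      (∀ u ∈ P ∪ Q ∪ X, ∀ v ∈ P ∪ Q ∪ X, u ≠ R.c → v ≠ R.c → R.par u ∈ P ∪ Q ∪ X →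
        R.par v ∈ P ∪ Q ∪ X → lab u + lab (R.par u) = lab v + lab (R.par v) → u = v) ∧
      (∀ p ∈ P, ∀ q ∈ Q, ∃ w ∈ P ∪ Q ∪ X, w ≠ R.c ∧ R.par w ∈ P ∪ Q ∪ X ∧
        lab w + lab (R.par w) = lab p + lab q) := by
  classical
  have ha : a ≠ a + 1 := a2_ne a
  obtain ⟨idx, idx_lt, idx_inj, idx_surj⟩ := a2_idx P
  obtain ⟨jdx, jdx_lt, jdx_inj, -⟩ := a2_idx Q
  obtain ⟨p0, hp0, hp0i⟩ := idx_surj 0 (by omega)
  obtain ⟨p1, hp1, hp1i⟩ := idx_surj 1 (by omega)
  set r := P.card with hr
  have : Nonempty U := ⟨p0⟩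
  have hpos : ∀ j : ℕ, 0 < 2 * r * (j + 1) := fun j =>
    Nat.mul_pos (Nat.mul_pos Nat.two_pos (by omega)) (Nat.succ_pos j)
  have hcard : (P ×ˢ Q).card ≤ k ^ 2 := by
    rw [card_product, sq]
    exact Nat.mul_le_mul hPk hQk
  have hcard' : ∀ u ∈ P, (P ×ˢ Q).card ≤ (lf T u).card := by
    intro u hu
    have := hM u hu
    have h3 : k ^ 2 ≤ 2 * k ^ 2 := by omega
    omega
  obtain ⟨f0, f0_mem, f0_inj⟩ := a2_inj (P ×ˢ Q) (lf T p0) (hcard' p0 hp0)
  obtain ⟨f1, f1_mem, f1_inj⟩ := a2_inj (P ×ˢ Q) (lf T p1) (hcard' p1 hp1)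
  have hp01 : p0 ≠ p1 := by
    intro e
    rw [e, hp1i] at hp0i
    omega
  obtain ⟨ce, hce0, hce1⟩ : ∃ ce : U × U → U, (∀ x, idx x.1 = 0 → ce x = p1) ∧
      ∀ x, idx x.1 ≠ 0 → ce x = p0 :=
    ⟨fun x => if idx x.1 = 0 then p1 else p0, fun x h => if_pos h, fun x h => if_neg h⟩
  obtain ⟨E, hE0, hE1⟩ : ∃ E : U × U → U, (∀ x, idx x.1 = 0 → E x = f1 x) ∧
      ∀ x, idx x.1 ≠ 0 → E x = f0 x :=
    ⟨fun x => if idx x.1 = 0 then f1 x else f0 x, fun x h => if_pos h, fun x h => if_neg h⟩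
  have ce_mem : ∀ x, ce x ∈ P := by
    intro x
    by_cases h : idx x.1 = 0
    · rw [hce0 x h]; exact hp1
    · rw [hce1 x h]; exact hp0
  have E_mem : ∀ x ∈ P ×ˢ Q, E x ∈ lf T (ce x) := by
    intro x hx
    by_cases h : idx x.1 = 0
    · rw [hce0 x h, hE0 x h]; exact f1_mem x hx
    · rw [hce1 x h, hE1 x h]; exact f0_mem x hx
  have E_par : ∀ x ∈ P ×ˢ Q, E x ≠ R.c ∧ R.par (E x) = ce x := by
    intro x hx
    have := a2_mem_lf.mp (E_mem x hx)
    exact a2_not_inner R hRc this.2 this.1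
  have E_ni : ∀ x ∈ P ×ˢ Q, ¬ IsInner T (E x) := fun x hx => (a2_mem_lf.mp (E_mem x hx)).2
  have E_inj : ∀ x ∈ P ×ˢ Q, ∀ y ∈ P ×ˢ Q, E x = E y → x = y := by
    intro x hx y hy h
    have h1 := (E_par x hx).2
    have h3 := (E_par y hy).2
    rw [h, h3] at h1
    by_cases hx0 : idx x.1 = 0 <;> by_cases hy0 : idx y.1 = 0
    · rw [hE0 x hx0, hE0 y hy0] at h
      exact f1_inj x hx y hy h
    · rw [hce0 x hx0, hce1 y hy0] at h1
      exact absurd h1 hp01
    · rw [hce1 x hx0, hce0 y hy0] at h1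
      exact absurd h1.symm hp01
    · rw [hE1 x hx0, hE1 y hy0] at h
      exact f0_inj x hx y hy h
  obtain ⟨X, hXdef⟩ : ∃ X : Finset U,
      X = ((P ×ˢ Q).filter (fun x => ¬ T.Adj x.1 x.2)).image E := ⟨_, rfl⟩
  have hPQ : ∀ w ∈ Q, w ∉ P := by
    intro w hw hw'
    exact ha ((hP w hw').symm.trans (hQ w hw))
  obtain ⟨lx, hlx0, hlx1⟩ : ∃ lx : U × U → ℕ,
      (∀ x, idx x.1 = 0 → lx x = 2 * r * (jdx x.2 + 1) - 1) ∧
      ∀ x, idx x.1 ≠ 0 → lx x = 2 * r * (jdx x.2 + 1) + idx x.1 :=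
    ⟨fun x => if idx x.1 = 0 then 2 * r * (jdx x.2 + 1) - 1 else 2 * r * (jdx x.2 + 1) + idx x.1,
      fun x h => if_pos h, fun x h => if_neg h⟩
  obtain ⟨lab, labP, labQ, labX⟩ : ∃ lab : U → ℕ, (∀ w ∈ P, lab w = idx w) ∧
      (∀ w ∈ Q, lab w = 2 * r * (jdx w + 1)) ∧ ∀ x ∈ P ×ˢ Q, lab (E x) = lx x := by
    refine ⟨fun w => if w ∈ P then idx w else if w ∈ Q then 2 * r * (jdx w + 1)
      else if h : ∃ x ∈ P ×ˢ Q, E x = w then lx h.choose else 0, ?_, ?_, ?_⟩
    · intro w hw
      simp only [if_pos hw]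
    · intro w hw
      simp only [if_neg (hPQ w hw), if_pos hw]
    · intro x hx
      have h1 : E x ∉ P := fun h => E_ni x hx (hPi _ h)
      have h3 : E x ∉ Q := fun h => E_ni x hx (hQi _ h)
      have h4 : ∃ y ∈ P ×ˢ Q, E y = E x := ⟨x, hx, rfl⟩
      simp only [if_neg h1, if_neg h3, dif_pos h4]
      rw [E_inj _ h4.choose_spec.1 x hx h4.choose_spec.2]
  have X_mem : ∀ w ∈ X, ∃ x ∈ P ×ˢ Q, ¬ T.Adj x.1 x.2 ∧ E x = w := by
    intro w hw
    rw [hXdef] at hw
    obtain ⟨x, hx, rfl⟩ := mem_image.mp hw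
    rw [mem_filter] at hx
    exact ⟨x, hx.1, hx.2, rfl⟩
  have X_par : ∀ w ∈ X, (R.dep w : ZMod 2) = a + 1 := by
    intro w hw
    obtain ⟨x, hx, -, rfl⟩ := X_mem w hw
    have h1 := (a2_mem_lf.mp (E_mem x hx)).1
    rw [a2_adj_parity R h1.symm, hP _ (ce_mem x)]
  -- the codes of the vertices of the second parity
  have hcode : ∀ w ∈ P ∪ Q ∪ X, (R.dep w : ZMod 2) ≠ a →
      ∃ j e, lab w + 1 = 2 * r * (j + 1) + e ∧ e ≤ r ∧ j < Q.card ∧
        ((w ∈ Q ∧ j = jdx w ∧ e = 1) ∨
          ∃ x ∈ P ×ˢ Q, E x = w ∧ j = jdx x.2 ∧ ((idx x.1 = 0 ∧ e = 0) ∨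
            (idx x.1 ≠ 0 ∧ e = idx x.1 + 1))) := by
    intro w hw hpar
    rw [mem_union, mem_union] at hw
    rcases hw with (hw | hw) | hw
    · exact absurd (hP w hw) hpar
    · exact ⟨jdx w, 1, by rw [labQ w hw], by omega, jdx_lt w hw, Or.inl ⟨hw, rfl, rfl⟩⟩
    · obtain ⟨x, hx, -, rfl⟩ := X_mem w hw
      have hx' := mem_product.mp hx
      by_cases h0 : idx x.1 = 0
      · refine ⟨jdx x.2, 0, ?_, by omega, jdx_lt _ hx'.2,
          Or.inr ⟨x, hx, rfl, rfl, Or.inl ⟨h0, rfl⟩⟩⟩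
        rw [labX x hx]
        rw [hlx0 x h0]
        have := hpos (jdx x.2)
        omega
      · refine ⟨jdx x.2, idx x.1 + 1, ?_, ?_, jdx_lt _ hx'.2,
          Or.inr ⟨x, hx, rfl, rfl, Or.inr ⟨h0, rfl⟩⟩⟩
        · rw [labX x hx]
          rw [hlx1 x h0]
          omega
        · have := idx_lt _ hx'.1
          omega
  -- the types
  have htype : ∀ w ∈ P ∪ Q ∪ X, w ≠ R.c → R.par w ∈ P ∪ Q ∪ X →
      ∃ p ∈ P, ∃ q ∈ Q, lab w + lab (R.par w) = 2 * r * (jdx q + 1) + idx p ∧
        ((w = p ∧ R.par w = q) ∨ (w = q ∧ R.par w = p) ∨ (w = E (p, q) ∧ ¬ T.Adj p q)) := by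
    intro w hw hwc hpw
    have hinn := a2_par_inner R hRc hwc
    have hparnX : R.par w ∉ X := by
      intro h
      obtain ⟨x, hx, -, e⟩ := X_mem _ h
      exact E_ni x hx (e ▸ hinn)
    have hdp := R.dep_par_cast hwc
    rw [mem_union, mem_union] at hw
    rcases hw with (hw | hw) | hw
    · have hq : R.par w ∈ Q := by
        rw [mem_union, mem_union] at hpw
        rcases hpw with (h | h) | h
        · rw [hP w hw, hP _ h] at hdp
          exact absurd hdp ha
        · exact h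
        · exact absurd h hparnX
      refine ⟨w, hw, R.par w, hq, ?_, Or.inl ⟨rfl, rfl⟩⟩
      rw [labP w hw, labQ _ hq]
      omega
    · have hp : R.par w ∈ P := by
        rw [mem_union, mem_union] at hpw
        rcases hpw with (h | h) | h
        · exact h
        · rw [hQ w hw, hQ _ h] at hdp
          exact absurd hdp (a2_ne _)
        · exact absurd h hparnX
      refine ⟨R.par w, hp, w, hw, ?_, Or.inr (Or.inl ⟨rfl, rfl⟩)⟩
      rw [labP _ hp, labQ w hw]
    · obtain ⟨x, hx, hadj, rfl⟩ := X_mem w hw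
      have hx' := mem_product.mp hx
      refine ⟨x.1, hx'.1, x.2, hx'.2, ?_, Or.inr (Or.inr ⟨rfl, hadj⟩)⟩
      rw [(E_par x hx).2, labX x hx, labP _ (ce_mem x)]
      by_cases h0 : idx x.1 = 0
      · rw [hlx0 x h0, hce0 x h0, hp1i, h0]
        have := hpos (jdx x.2)
        omega
      · rw [hlx1 x h0, hce1 x h0, hp0i]
        omega
  refine ⟨X, lab, ?_, ?_, ?_, ?_, ?_, ?_⟩
  · rw [hXdef]
    exact (card_image_le.trans (card_filter_le _ _)).trans hcard
  · intro w hw
    obtain ⟨x, hx, -, rfl⟩ := X_mem w hw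
    exact ⟨ce x, ce_mem x, E_mem x hx⟩
  · intro u hu
    by_cases hpar : (R.dep u : ZMod 2) = a
    · have huP : u ∈ P := by
        rw [mem_union, mem_union] at hu
        rcases hu with (h | h) | h
        · exact h
        · exact absurd (hpar.symm.trans (hQ u h)) ha
        · exact absurd (hpar.symm.trans (X_par u h)) ha
      rw [labP u huP]
      have := idx_lt u huP
      omega
    · obtain ⟨j, e, h1, h3, h4, -⟩ := hcode u hu hpar
      have h5 : 2 * r * (j + 1) ≤ 2 * k ^ 2 := by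
        have h6 : r * (j + 1) ≤ k * k := Nat.mul_le_mul hPk (by omega)
        calc 2 * r * (j + 1) = 2 * (r * (j + 1)) := by ring
          _ ≤ 2 * (k * k) := by omega
          _ = 2 * k ^ 2 := by ring
      omega
  · intro u hu v hv hd hl
    by_cases hpar : (R.dep u : ZMod 2) = a
    · have key : ∀ w ∈ P ∪ Q ∪ X, (R.dep w : ZMod 2) = a → w ∈ P := by
        intro w hw hwa
        rw [mem_union, mem_union] at hw
        rcases hw with (h | h) | h
        · exact h
        · exact absurd (hwa.symm.trans (hQ w h)) ha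
        · exact absurd (hwa.symm.trans (X_par w h)) ha
      have huP := key u hu hpar
      have hvP := key v hv (hd ▸ hpar)
      rw [labP u huP, labP v hvP] at hl
      exact idx_inj u huP v hvP hl
    · obtain ⟨j, e, h1, h3, -, hc1⟩ := hcode u hu hpar
      obtain ⟨j', e', h1', h3', -, hc2⟩ := hcode v hv (hd ▸ hpar)
      rw [hl, h1'] at h1
      obtain ⟨hj, he⟩ := a2_code (by omega) (by omega) h1
      have hj' : j = j' := by omega
      rcases hc1 with ⟨hu1, hu2, hu3⟩ | ⟨x, hx, rfl, hu2, hu3⟩ <;>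
      rcases hc2 with ⟨hv1, hv2, hv3⟩ | ⟨y, hy, rfl, hv2, hv3⟩
      · exact jdx_inj u hu1 v hv1 (by omega)
      · rcases hv3 with ⟨-, hv3⟩ | ⟨hv4, hv3⟩ <;> omega
      · rcases hu3 with ⟨-, hu3⟩ | ⟨hu4, hu3⟩ <;> omega
      · have hx' := mem_product.mp hx
        have hy' := mem_product.mp hy
        have e1 : x.1 = y.1 := by
          apply idx_inj _ hx'.1 _ hy'.1
          rcases hu3 with ⟨a1, a2⟩ | ⟨a1, a2⟩ <;> rcases hv3 with ⟨b1, b2⟩ | ⟨b1, b2⟩ <;> omega
        have e2 : x.2 = y.2 := jdx_inj _ hx'.2 _ hy'.2 (by omega)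
        rw [Prod.ext e1 e2]
  · intro u hu v hv huc hvc hpu hpv h
    obtain ⟨p, hp, q, hq, h1, hc1⟩ := htype u hu huc hpu
    obtain ⟨p', hp', q', hq', h1', hc2⟩ := htype v hv hvc hpv
    rw [h, h1'] at h1
    have hip := idx_lt p hp
    have hip' := idx_lt p' hp'
    obtain ⟨hj, he⟩ := a2_code (by omega) (by omega) h1
    have e1 : p' = p := idx_inj _ hp' _ hp he
    have e2 : q' = q := jdx_inj _ hq' _ hq (by omega)
    subst e1 e2
    have hloop : ∀ x y : U, x ≠ R.c → y ≠ R.c → R.par x = y → R.par y = x → False := by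
      intro x y hx hy hxy hyx
      have h3 := R.dep_par x hx
      have h4 := R.dep_par y hy
      rw [hxy] at h3
      rw [hyx] at h4
      omega
    rcases hc1 with ⟨a1, a2⟩ | ⟨a1, a2⟩ | ⟨a1, a2⟩ <;>
    rcases hc2 with ⟨b1, b2⟩ | ⟨b1, b2⟩ | ⟨b1, b2⟩
    · rw [a1, b1]
    · exfalso
      rw [a1] at huc a2
      rw [b1] at hvc b2
      exact hloop _ _ huc hvc a2 b2
    · exfalso
      rw [a1] at huc a2
      exact b2 ((R.adj_iff _ _).mpr (Or.inl ⟨huc, a2.symm⟩))
    · exfalso
      rw [a1] at huc a2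
      rw [b1] at hvc b2
      exact hloop _ _ hvc huc b2 a2
    · rw [a1, b1]
    · exfalso
      rw [a1] at huc a2
      exact b2 ((R.adj_iff _ _).mpr (Or.inr ⟨huc, a2.symm⟩))
    · exfalso
      rw [b1] at hvc b2
      exact a2 ((R.adj_iff _ _).mpr (Or.inl ⟨hvc, b2.symm⟩))
    · exfalso
      rw [b1] at hvc b2
      exact a2 ((R.adj_iff _ _).mpr (Or.inr ⟨hvc, b2.symm⟩))
    · rw [a1, b1]
  · intro p hp q hq
    by_cases hadj : T.Adj p q
    · rcases (R.adj_iff _ _).mp hadj with ⟨h1, h3⟩ | ⟨h1, h3⟩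
      · refine ⟨p, by simp [hp], h1, ?_, ?_⟩
        · rw [← h3]; simp [hq]
        · rw [← h3]
      · refine ⟨q, by simp [hq], h1, ?_, ?_⟩
        · rw [← h3]; simp [hp]
        · rw [← h3, add_comm]
    · have hx : (p, q) ∈ P ×ˢ Q := mem_product.mpr ⟨hp, hq⟩
      refine ⟨E (p, q), ?_, (E_par _ hx).1, ?_, ?_⟩
      · rw [mem_union]
        right
        rw [hXdef]
        exact mem_image.mpr ⟨(p, q), mem_filter.mpr ⟨hx, hadj⟩, rfl⟩
      · rw [(E_par _ hx).2, mem_union, mem_union]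
        left; left
        exact ce_mem _
      · rw [(E_par _ hx).2, labX _ hx, labP _ (ce_mem _), labP p hp, labQ q hq]
        by_cases h0 : idx p = 0
        · rw [hlx0 (p, q) h0, hce0 (p, q) h0, hp1i, h0]
          dsimp only
          have := hpos (jdx q)
          omega
        · rw [hlx1 (p, q) h0, hce1 (p, q) h0, hp0i]
          dsimp only
          omega

/-- From the seeds to the frame. -/
theorem a2_assemble {U : Type*} [Fintype U] [DecidableEq U] {T : SimpleGraph U} (R : RT T)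
    (hRc : IsInner T R.c) (RX RY : Finset U)
    (hX : ∀ u ∈ RX, (R.dep u : ZMod 2) = 0) (hY : ∀ v ∈ RY, (R.dep v : ZMod 2) = 1)
    (k s : ℕ) (hk : 1 ≤ k) (hXk : RX.card ≤ k) (hYk : RY.card ≤ k)
    (hs : Nat.card {w // ∀ u ∈ RX ∪ RY, w ∉ lf T u} ≤ s)
    (hdX : k * (s + k ^ 2) + k ^ 2 ≤ ∑ u ∈ RX, (lf T u).card)
    (hdY : k * (s + k ^ 2) + k ^ 2 ≤ ∑ v ∈ RY, (lf T v).card)
    (I0 : Finset U) (lab0 : U → ℕ) (hXI : RX ⊆ I0) (hYI : RY ⊆ I0)
    (X : Finset U) (hXc : X.card ≤ k ^ 2)
    (hext : ∀ w ∈ I0, (∃ u ∈ RX ∪ RY, w ∈ lf T u) → w ∈ X)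
    (hlab : ∀ u ∈ I0, lab0 u ≤ 2 * k ^ 2 + 2 * k)
    (h1 : ∀ u ∈ I0, ∀ v ∈ I0, (R.dep u : ZMod 2) = R.dep v → lab0 u = lab0 v → u = v)
    (h2 : ∀ u ∈ I0, ∀ v ∈ I0, u ≠ R.c → v ≠ R.c → R.par u ∈ I0 → R.par v ∈ I0 →
      lab0 u + lab0 (R.par u) = lab0 v + lab0 (R.par v) → u = v)
    (h3 : ∀ u ∈ RX, ∀ v ∈ RY, ∀ x ∈ I0, ∀ y ∈ I0, (R.dep x : ZMod 2) = 0 →
      (R.dep y : ZMod 2) = 1 → lab0 u + lab0 y = lab0 x + lab0 v →
      ∃ w ∈ I0, w ≠ R.c ∧ R.par w ∈ I0 ∧ lab0 w + lab0 (R.par w) = lab0 u + lab0 y) :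
    Framed T (20 * (s + k ^ 2) ^ 2 + 20) := by
  classical
  obtain ⟨Base, hBdef⟩ : ∃ B : Finset U, B = univ.filter (fun w => ∀ u ∈ RX ∪ RY, w ∉ lf T u) :=
    ⟨_, rfl⟩
  have hBmem : ∀ w, w ∈ Base ↔ ∀ u ∈ RX ∪ RY, w ∉ lf T u := by
    intro w
    rw [hBdef, mem_filter]
    simp
  have hBcard : Base.card ≤ s := by
    refine le_trans (le_of_eq ?_) hs
    rw [hBdef, Nat.card_eq_fintype_card, Fintype.card_subtype]
  have hinn : ∀ w, IsInner T w → w ∈ Base := by
    intro w hw
    rw [hBmem]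
    intro u _ h
    exact (a2_mem_lf.mp h).2 hw
  obtain ⟨I, hIdef⟩ : ∃ I : Finset U, I = Base ∪ I0 := ⟨_, rfl⟩
  have hBI : Base ⊆ I := by rw [hIdef]; exact subset_union_left
  have hI0I : I0 ⊆ I := by rw [hIdef]; exact subset_union_right
  have hIX : ∀ w ∈ I, w ∉ Base → w ∈ X := by
    intro w hw hwB
    rw [hIdef, mem_union] at hw
    rcases hw with hw | hw
    · exact absurd hw hwB
    · apply hext w hw
      rw [hBmem] at hwB
      push Not at hwB
      exact hwB
  have hIcard : I.card ≤ s + k ^ 2 := by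
    have : I ⊆ Base ∪ X := by
      intro w hw
      by_cases h : w ∈ Base
      · exact mem_union_left _ h
      · exact mem_union_right _ (hIX w hw h)
    exact (card_le_card this).trans ((card_union_le _ _).trans (Nat.add_le_add hBcard hXc))
  obtain ⟨lab, -, hb, c3, c4, c5⟩ := generic R RX RY I0 I hX hY hXI hYI hI0I lab0
    (2 * k ^ 2 + 2 * k) hlab h1 h2 h3
  have hcI : R.c ∈ I := hBI (hinn _ hRc)
  have hpar : ∀ u, u ≠ R.c → R.par u ∈ I := fun u hu => hBI (hinn _ (a2_par_inner R hRc hu))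
  have hout : ∀ w, w ∉ I → w ≠ R.c ∧ R.par w ∈ RX ∪ RY ∧ (R.dep w : ZMod 2) =
      R.dep (R.par w) + 1 := by
    intro w hw
    have hwB : w ∉ Base := fun h => hw (hBI h)
    rw [hBmem] at hwB
    push Not at hwB
    obtain ⟨u, hu, hwu⟩ := hwB
    have h4 := a2_mem_lf.mp hwu
    obtain ⟨h5, h6⟩ := a2_not_inner R hRc h4.2 h4.1
    exact ⟨h5, by rw [h6]; exact hu, R.dep_par_cast h5⟩
  have h01 : (0 : ZMod 2) ≠ 1 := by decide
  have h10 : (1 : ZMod 2) + 1 = 0 := by decide
  have hout1 : ∀ w ∈ R.out I 1, R.par w ∈ RX := by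
    intro w hw
    unfold RT.out at hw
    rw [mem_filter, mem_sdiff] at hw
    obtain ⟨a1, a2, a3⟩ := hout w hw.1.2
    rcases mem_union.mp a2 with h | h
    · exact h
    · rw [hY _ h, hw.2, h10] at a3
      exact absurd a3.symm h01
  have hout0 : ∀ w ∈ R.out I 0, R.par w ∈ RY := by
    intro w hw
    unfold RT.out at hw
    rw [mem_filter, mem_sdiff] at hw
    obtain ⟨a1, a2, a3⟩ := hout w hw.1.2
    rcases mem_union.mp a2 with h | h
    · rw [hX _ h, hw.2, zero_add] at a3
      exact absurd a3 h01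
    · exact h
  have hforb1 : ∀ t ∈ R.forb I lab 1, ∃ u ∈ RX, ∃ y ∈ I, (R.dep y : ZMod 2) = 1 ∧
      lab u + lab y = t := by
    intro t ht
    unfold RT.forb at ht
    obtain ⟨x, hx, rfl⟩ := mem_image.mp ht
    rw [mem_product, mem_filter] at hx
    exact ⟨R.par x.1, hout1 _ hx.1, x.2, hx.2.1, hx.2.2, rfl⟩
  have hforb0 : ∀ t ∈ R.forb I lab 0, ∃ v ∈ RY, ∃ x ∈ I, (R.dep x : ZMod 2) = 0 ∧
      lab v + lab x = t := by
    intro t ht
    unfold RT.forb at ht
    obtain ⟨x, hx, rfl⟩ := mem_image.mp ht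
    rw [mem_product, mem_filter] at hx
    exact ⟨R.par x.1, hout0 _ hx.1, x.2, hx.2.1, hx.2.2, rfl⟩
  -- cardinalities
  have hfc : ∀ (a : ZMod 2) (Z : Finset U), Z.card ≤ k →
      (∀ t ∈ R.forb I lab a, ∃ u ∈ Z, ∃ y ∈ I, lab u + lab y = t) →
      (R.forb I lab a \ R.types I lab).card ≤ k * (s + k ^ 2) := by
    intro a Z hZ h
    have hsub : R.forb I lab a \ R.types I lab ⊆
        (Z ×ˢ I).image (fun x => lab x.1 + lab x.2) := by
      intro t ht
      obtain ⟨u, hu, y, hy, e⟩ := h t (mem_sdiff.mp ht).1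
      exact mem_image.mpr ⟨(u, y), mem_product.mpr ⟨hu, hy⟩, e⟩
    refine (card_le_card hsub).trans (card_image_le.trans ?_)
    rw [card_product]
    exact Nat.mul_le_mul hZ hIcard
  have hoc : ∀ (a b : ZMod 2) (Z : Finset U), Z ⊆ RX ∪ RY →
      (∀ u ∈ Z, (R.dep u : ZMod 2) = b) → b + 1 = a →
      k * (s + k ^ 2) + k ^ 2 ≤ ∑ u ∈ Z, (lf T u).card →
      k * (s + k ^ 2) ≤ (R.out I a).card := by
    intro a b Z hZ hZb hab hsum
    have hdisj : (Z : Set U).PairwiseDisjoint (fun u => lf T u) := by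
      intro u _ v _ huv
      rw [Function.onFun, disjoint_left]
      intro w hw hw'
      have h4 := a2_mem_lf.mp hw
      have h5 := a2_mem_lf.mp hw'
      exact huv ((a2_not_inner R hRc h4.2 h4.1).2.symm.trans (a2_not_inner R hRc h5.2 h5.1).2)
    have hcb : (Z.biUnion (fun u => lf T u)).card = ∑ u ∈ Z, (lf T u).card :=
      card_biUnion hdisj
    have hsub : Z.biUnion (fun u => lf T u) ⊆ R.out I a ∪ X := by
      intro w hw
      obtain ⟨u, hu, hwu⟩ := mem_biUnion.mp hw
      have h4 := a2_mem_lf.mp hwu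
      by_cases hwI : w ∈ I
      · refine mem_union_right _ (hIX w hwI ?_)
        intro hB
        exact (hBmem w).mp hB u (hZ hu) hwu
      · refine mem_union_left _ ?_
        unfold RT.out
        rw [mem_filter, mem_sdiff]
        refine ⟨⟨mem_univ _, hwI⟩, ?_⟩
        rw [a2_adj_parity R h4.1.symm, hZb u hu, hab]
    have h6 := (card_le_card hsub).trans (card_union_le _ _)
    rw [hcb] at h6
    omega
  refine ⟨R, I, lab, hcI, fun u _ hu => hpar u hu, fun u hu => hpar u (hout u hu).1, c3, ?_, ?_,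
    ?_, ?_, ?_⟩
  · intro u hu v hv _
    have b1 := hb u hu
    have b2 := hb v hv
    have hXY : RX.card * RY.card ≤ k * k := Nat.mul_le_mul hXk hYk
    have e1 : I.card * I.card ≤ (s + k ^ 2) * (s + k ^ 2) := Nat.mul_le_mul hIcard hIcard
    have e2 : RX.card * RY.card * I.card ≤ (k * k) * (s + k ^ 2) := Nat.mul_le_mul hXY hIcard
    have e3 : (k * k) * (s + k ^ 2) ≤ (s + k ^ 2) * (s + k ^ 2) :=
      Nat.mul_le_mul (by rw [← sq]; omega) le_rfl
    have e4 : k ≤ k ^ 2 := by nlinarith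
    have e5 : s + k ^ 2 ≤ (s + k ^ 2) * (s + k ^ 2) := Nat.le_mul_self _
    have e6 : (s + k ^ 2) ^ 2 = (s + k ^ 2) * (s + k ^ 2) := sq _
    rw [e6]
    generalize (s + k ^ 2) * (s + k ^ 2) = M2 at *
    generalize hk2 : k ^ 2 = K2 at *
    omega
  · intro u hu v hv huc hvc h
    exact c4 u hu v hv huc hvc (hpar u huc) (hpar v hvc) h
  · rw [disjoint_left]
    intro t ht0 ht1
    obtain ⟨v, hv, x, hx, hx0, e0⟩ := hforb0 t (mem_sdiff.mp ht0).1
    obtain ⟨u, hu, y, hy, hy1, e1⟩ := hforb1 t (mem_sdiff.mp ht1).1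
    obtain ⟨w, hw, hwc, hpw, e2⟩ := c5 u hu v hv x hx y hy hx0 hy1 (by omega)
    apply (mem_sdiff.mp ht0).2
    unfold RT.types
    exact mem_image.mpr ⟨w, mem_erase.mpr ⟨hwc, hw⟩, by rw [e2, e1]⟩
  · refine (hfc 0 RY hYk ?_).trans (hoc 1 0 RX subset_union_left hX (zero_add 1) hdX)
    intro t ht
    obtain ⟨v, hv, x, hx, -, e⟩ := hforb0 t ht
    exact ⟨v, hv, x, hx, e⟩
  · refine (hfc 1 RX hXk ?_).trans (hoc 0 1 RY subset_union_right hY h10 hdY)
    intro t ht
    obtain ⟨v, hv, x, hx, -, e⟩ := hforb1 t ht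
    exact ⟨v, hv, x, hx, e⟩

/-- The second edge of the path between two vertices at distance at least three. -/
theorem a2_path {U : Type*} [Fintype U] [DecidableEq U] {T : SimpleGraph U} (hT : T.IsTree)
    (R : RT T) {u v : U} (hu : (R.dep u : ZMod 2) = 0) (hv : (R.dep v : ZMod 2) = 1)
    (huv : ¬ T.Adj u v) : ∃ x y, T.Adj x y ∧ x ≠ u ∧ y ≠ v ∧ IsInner T x ∧ IsInner T y ∧
      (R.dep x : ZMod 2) = 0 ∧ (R.dep y : ZMod 2) = 1 := by
  have h01 : (0 : ZMod 2) ≠ 1 := by decide
  have hstep : ∀ a b : U, T.Adj a b → (R.dep a : ZMod 2) = 0 → (R.dep b : ZMod 2) = 1 := by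
    intro a b h ha
    have := a2_adj_parity R h.symm
    rw [this, ha, zero_add]
  have hstep' : ∀ a b : U, T.Adj a b → (R.dep a : ZMod 2) = 1 → (R.dep b : ZMod 2) = 0 := by
    intro a b h ha
    have := a2_adj_parity R h.symm
    rw [this, ha]
    decide
  obtain ⟨p, hp⟩ := (hT.connected.preconnected u v).exists_isPath
  cases p with
  | nil => exact absurd (hu.symm.trans hv) h01
  | cons h p' =>
    rename_i y
    have hy := hstep _ _ h hu
    cases p' with
    | nil => exact absurd h huv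
    | cons h' p'' =>
      rename_i x
      have hx := hstep' _ _ h' hy
      cases p'' with
      | nil => exact absurd (hx.symm.trans hv) h01
      | cons h'' q =>
        rename_i z
        have hnd := hp.support_nodup
        simp only [SimpleGraph.Walk.support_cons, List.nodup_cons, List.mem_cons] at hnd
        have hvq : v ∈ q.support := q.end_mem_support
        have hzq : z ∈ q.support := q.start_mem_support
        refine ⟨x, y, h'.symm, ?_, ?_, ?_, ?_, hx, hy⟩
        · rintro rfl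
          exact hnd.1 (Or.inr (Or.inl rfl))
        · rintro rfl
          exact hnd.2.1 (Or.inr hvq)
        · refine ⟨y, z, h'.symm, h'', ?_⟩
          rintro rfl
          exact hnd.2.1 (Or.inr hzq)
        · refine ⟨u, x, h.symm, h', ?_⟩
          rintro rfl
          exact hnd.1 (Or.inr (Or.inl rfl))

theorem a2_loop {U : Type*} {T : SimpleGraph U} (R : RT T) {x y : U} (hx : x ≠ R.c)
    (hy : y ≠ R.c) (hxy : R.par x = y) (hyx : R.par y = x) : False := by
  have h3 := R.dep_par x hx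
  have h4 := R.dep_par y hy
  rw [hxy] at h3
  rw [hyx] at h4
  omega

/-- A2. -/
theorem caseA2 {U : Type*} [Fintype U] [DecidableEq U] {T : SimpleGraph U} (hT : T.IsTree)
    (R : RT T) (hRc : IsInner T R.c) (RX RY : Finset U)
    (hX : ∀ u ∈ RX, (R.dep u : ZMod 2) = 0) (hY : ∀ v ∈ RY, (R.dep v : ZMod 2) = 1)
    (hX0 : RX.Nonempty) (hY0 : RY.Nonempty) (k s : ℕ) (hXk : RX.card ≤ k) (hYk : RY.card ≤ k)
    (hs : Nat.card {w // ∀ u ∈ RX ∪ RY, w ∉ lf T u} ≤ s)
    (hM : ∀ u ∈ RX ∪ RY, 2 * k ^ 2 ≤ (lf T u).card)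
    (hdX : k * (s + k ^ 2) + k ^ 2 ≤ ∑ u ∈ RX, (lf T u).card)
    (hdY : k * (s + k ^ 2) + k ^ 2 ≤ ∑ v ∈ RY, (lf T v).card) :
    Framed T (20 * (s + k ^ 2) ^ 2 + 20) := by
  classical
  have h01 : (0 : ZMod 2) ≠ 1 := by decide
  have h10 : (1 : ZMod 2) + 1 = 0 := by decide
  have hXpos := hX0.card_pos
  have hYpos := hY0.card_pos
  have hk : 1 ≤ k := by omega
  have hinn : ∀ u ∈ RX ∪ RY, IsInner T u := by
    intro u hu
    have h1 := hM u hu
    have h2 : 1 ≤ k ^ 2 := Nat.one_le_pow _ _ hk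
    obtain ⟨a, ha, b, hb, hab⟩ := one_lt_card.mp (show 1 < (lf T u).card by omega)
    exact ⟨a, b, (a2_mem_lf.mp ha).1, (a2_mem_lf.mp hb).1, hab⟩
  have hXi : ∀ u ∈ RX, IsInner T u := fun u hu => hinn u (mem_union_left _ hu)
  have hYi : ∀ u ∈ RY, IsInner T u := fun u hu => hinn u (mem_union_right _ hu)
  rcases Nat.lt_or_ge 1 RX.card with hr | hr
  · -- at least two big even vertices
    obtain ⟨X, lab, hXc, hXl, hlab, h1, h2, h3⟩ := a2_seed R hRc RX RY 0 hX
      (fun v hv => by rw [hY v hv, zero_add]) hXi hYi k hr hXk hYk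
      (fun u hu => hM u (mem_union_left _ hu))
    refine a2_assemble R hRc RX RY hX hY k s hk hXk hYk hs hdX hdY (RX ∪ RY ∪ X) lab
      (fun u hu => by simp [hu]) (fun u hu => by simp [hu]) X hXc ?_ hlab h1 h2 ?_
    · intro w hw h
      obtain ⟨u, -, hwu⟩ := h
      rw [mem_union] at hw
      rcases hw with hw | hw
      · exact absurd (hinn w hw) (a2_mem_lf.mp hwu).2
      · exact hw
    · intro u hu v hv x hx y hy hx0 hy1 he
      have hxX : x ∈ RX := by
        rw [mem_union, mem_union] at hx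
        rcases hx with (h | h) | h
        · exact h
        · exact absurd (hx0.symm.trans (hY x h)) h01
        · obtain ⟨z, hz, hxz⟩ := hXl x h
          have h4 := a2_adj_parity R (a2_mem_lf.mp hxz).1
          rw [hX z hz, hx0, zero_add] at h4
          exact absurd h4 h01
      obtain ⟨w, hw, hwc, hpw, e⟩ := h3 x hxX v hv
      exact ⟨w, hw, hwc, hpw, by rw [e, he]⟩
  · rcases Nat.lt_or_ge 1 RY.card with hr' | hr'
    · obtain ⟨X, lab, hXc, hXl, hlab, h1, h2, h3⟩ := a2_seed R hRc RY RX 1 hY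
        (fun v hv => by rw [hX v hv, h10]) hYi hXi k hr' hYk hXk
        (fun u hu => hM u (mem_union_right _ hu))
      refine a2_assemble R hRc RX RY hX hY k s hk hXk hYk hs hdX hdY (RY ∪ RX ∪ X) lab
        (fun u hu => by simp [hu]) (fun u hu => by simp [hu]) X hXc ?_ hlab h1 h2 ?_
      · intro w hw h
        obtain ⟨u, -, hwu⟩ := h
        rw [mem_union] at hw
        rcases hw with hw | hw
        · rw [union_comm] at hw
          exact absurd (hinn w hw) (a2_mem_lf.mp hwu).2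
        · exact hw
      · intro u hu v hv x hx y hy hx0 hy1 he
        have hyY : y ∈ RY := by
          rw [mem_union, mem_union] at hy
          rcases hy with (h | h) | h
          · exact h
          · exact absurd ((hX y h).symm.trans hy1) h01
          · obtain ⟨z, hz, hyz⟩ := hXl y h
            have h4 := a2_adj_parity R (a2_mem_lf.mp hyz).1
            rw [hY z hz, hy1, h10] at h4
            exact absurd h4.symm h01
        obtain ⟨w, hw, hwc, hpw, e⟩ := h3 y hyY u hu
        exact ⟨w, hw, hwc, hpw, by rw [e, add_comm]⟩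
    · -- one big vertex on each side
      obtain ⟨u, hu⟩ := card_eq_one.mp (show RX.card = 1 by omega)
      obtain ⟨v, hv⟩ := card_eq_one.mp (show RY.card = 1 by omega)
      have hu0 : (R.dep u : ZMod 2) = 0 := hX u (by simp [hu])
      have hv1 : (R.dep v : ZMod 2) = 1 := hY v (by simp [hv])
      have hui : IsInner T u := hXi u (by simp [hu])
      have hvi : IsInner T v := hYi v (by simp [hv])
      by_cases huv : T.Adj u v
      · refine a2_assemble R hRc RX RY hX hY k s hk hXk hYk hs hdX hdY {u, v} (fun _ => 0)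
          (by simp [hu]) (by simp [hv]) ∅ (by simp) ?_ (fun _ _ => Nat.zero_le _) ?_ ?_ ?_
        · intro w hw h
          obtain ⟨z, -, hwz⟩ := h
          have h4 := (a2_mem_lf.mp hwz).2
          rw [mem_insert, mem_singleton] at hw
          rcases hw with rfl | rfl
          · exact absurd hui h4
          · exact absurd hvi h4
        · intro w hw w' hw' hd _
          rw [mem_insert, mem_singleton] at hw hw'
          rcases hw with rfl | rfl <;> rcases hw' with rfl | rfl
          · rfl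
          · exact absurd (hu0.symm.trans (hd.trans hv1)) h01
          · exact absurd (hu0.symm.trans (hd.symm.trans hv1)) h01
          · rfl
        · intro w hw w' hw' hwc hwc' hp hp' _
          rw [mem_insert, mem_singleton] at hw hw' hp hp'
          have e1 := R.dep_par w hwc
          have e2 := R.dep_par w' hwc'
          rcases hw with h | h <;> rcases hw' with h' | h'
          · rw [h, h']
          · exfalso
            rw [h] at hwc hp e1
            rw [h'] at hwc' hp' e2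
            rcases hp with a | a
            · rw [a] at e1; omega
            · rcases hp' with b | b
              · exact a2_loop R hwc hwc' a b
              · rw [b] at e2; omega
          · exfalso
            rw [h] at hwc hp e1
            rw [h'] at hwc' hp' e2
            rcases hp' with b | b
            · rw [b] at e2; omega
            · rcases hp with a | a
              · exact a2_loop R hwc' hwc b a
              · rw [a] at e1; omega
          · rw [h, h']
        · intro _ _ _ _ _ _ _ _ _ _ _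
          rcases (R.adj_iff _ _).mp huv with ⟨h1, h2⟩ | ⟨h1, h2⟩
          · exact ⟨u, by simp, h1, by rw [← h2]; simp, rfl⟩
          · exact ⟨v, by simp, h1, by rw [← h2]; simp, rfl⟩
      · obtain ⟨x, y, hxy, hxu, hyv, hxi, hyi, hx0, hy1⟩ := a2_path hT R hu0 hv1 huv
        have hne : ∀ a b : U, (R.dep a : ZMod 2) = 0 → (R.dep b : ZMod 2) = 1 → a ≠ b := by
          intro a b ha hb e
          rw [e] at ha
          exact h01 (ha.symm.trans hb)
        obtain ⟨lab, lu, lv, lx, ly⟩ : ∃ lab : U → ℕ, lab u = 0 ∧ lab v = 2 ∧ lab x = 1 ∧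
            lab y = 1 := by
          refine ⟨fun w => if w = u then 0 else if w = v then 2 else 1, ?_, ?_, ?_, ?_⟩
          · simp
          · simp [(hne u v hu0 hv1).symm]
          · simp [hxu, hne x v hx0 hv1]
          · simp [(hne u y hu0 hy1).symm, hyv]
        have hmem : ∀ w, w ∈ ({u, x, v, y} : Finset U) ↔ w = u ∨ w = x ∨ w = v ∨ w = y := by
          intro w
          simp
        -- the edges of the seed
        have hedge : ∀ w ∈ ({u, x, v, y} : Finset U), w ≠ R.c →
            R.par w ∈ ({u, x, v, y} : Finset U) → ∃ e o, (e = u ∨ e = x) ∧ (o = v ∨ o = y) ∧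
            T.Adj e o ∧ lab w + lab (R.par w) = lab e + lab o ∧
            ((w = e ∧ R.par w = o) ∨ (w = o ∧ R.par w = e)) := by
          intro w hw hwc hp
          have hdp := R.dep_par_cast hwc
          have hadj : T.Adj w (R.par w) := (R.adj_iff _ _).mpr (Or.inl ⟨hwc, rfl⟩)
          rw [hmem] at hw hp
          by_cases hw0 : (R.dep w : ZMod 2) = 0
          · have hp1 : (R.dep (R.par w) : ZMod 2) ≠ 0 := by
              intro h
              rw [hw0, h, zero_add] at hdp
              exact h01 hdp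
            refine ⟨w, R.par w, ?_, ?_, hadj, rfl, Or.inl ⟨rfl, rfl⟩⟩
            · rcases hw with h | h | h | h
              · exact Or.inl h
              · exact Or.inr h
              · rw [h, hv1] at hw0; exact absurd hw0.symm h01
              · rw [h, hy1] at hw0; exact absurd hw0.symm h01
            · rcases hp with h | h | h | h
              · rw [h] at hp1; exact absurd hu0 hp1
              · rw [h] at hp1; exact absurd hx0 hp1
              · exact Or.inl h
              · exact Or.inr h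
          · have hw1 : (R.dep w : ZMod 2) = 1 := by
              rcases hw with h | h | h | h
              · rw [h] at hw0; exact absurd hu0 hw0
              · rw [h] at hw0; exact absurd hx0 hw0
              · rw [h]; exact hv1
              · rw [h]; exact hy1
            have hp1 : (R.dep (R.par w) : ZMod 2) ≠ 1 := by
              intro h
              rw [hw1, h, h10] at hdp
              exact h01 hdp.symm
            refine ⟨R.par w, w, ?_, ?_, hadj.symm, by rw [add_comm], Or.inr ⟨rfl, rfl⟩⟩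
            · rcases hp with h | h | h | h
              · exact Or.inl h
              · exact Or.inr h
              · rw [h] at hp1; exact absurd hv1 hp1
              · rw [h] at hp1; exact absurd hy1 hp1
            · rcases hw with h | h | h | h
              · rw [h] at hw0; exact absurd hu0 hw0
              · rw [h] at hw0; exact absurd hx0 hw0
              · exact Or.inl h
              · exact Or.inr h
        refine a2_assemble R hRc RX RY hX hY k s hk hXk hYk hs hdX hdY {u, x, v, y} lab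
          (by simp [hu]) (by simp [hv]) ∅ (by simp) ?_ ?_ ?_ ?_ ?_
        · intro w hw h
          obtain ⟨z, -, hwz⟩ := h
          have h4 := (a2_mem_lf.mp hwz).2
          rw [hmem] at hw
          rcases hw with rfl | rfl | rfl | rfl
          · exact absurd hui h4
          · exact absurd hxi h4
          · exact absurd hvi h4
          · exact absurd hyi h4
        · intro w hw
          have h5 : 1 ≤ k ^ 2 := Nat.one_le_pow _ _ hk
          rw [hmem] at hw
          rcases hw with rfl | rfl | rfl | rfl <;> omega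
        · intro w hw w' hw' hd hl
          rw [hmem] at hw hw'
          rcases hw with rfl | rfl | rfl | rfl <;> rcases hw' with rfl | rfl | rfl | rfl <;>
          first
            | rfl
            | (exfalso; omega)
            | (exfalso; exact h01 (hu0.symm.trans (hd.trans hv1)))
            | (exfalso; exact h01 (hu0.symm.trans (hd.trans hy1)))
            | (exfalso; exact h01 (hx0.symm.trans (hd.trans hv1)))
            | (exfalso; exact h01 (hx0.symm.trans (hd.trans hy1)))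
            | (exfalso; exact h01 (hu0.symm.trans (hd.symm.trans hv1)))
            | (exfalso; exact h01 (hu0.symm.trans (hd.symm.trans hy1)))
            | (exfalso; exact h01 (hx0.symm.trans (hd.symm.trans hv1)))
            | (exfalso; exact h01 (hx0.symm.trans (hd.symm.trans hy1)))
        · intro w hw w' hw' hwc hwc' hp hp' h
          obtain ⟨e, o, he, ho, hadj, hl, hc⟩ := hedge w hw hwc hp
          obtain ⟨e', o', he', ho', hadj', hl', hc'⟩ := hedge w' hw' hwc' hp'
          have heo : e = e' ∧ o = o' := by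
            rw [hl, hl'] at h
            rcases he with rfl | rfl <;> rcases ho with rfl | rfl <;>
            rcases he' with rfl | rfl <;> rcases ho' with rfl | rfl <;>
            first
              | exact ⟨rfl, rfl⟩
              | exact absurd hadj huv
              | exact absurd hadj' huv
              | (exfalso; omega)
          obtain ⟨rfl, rfl⟩ := heo
          rcases hc with ⟨a1, a2⟩ | ⟨a1, a2⟩ <;> rcases hc' with ⟨b1, b2⟩ | ⟨b1, b2⟩
          · rw [a1, b1]
          · exfalso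
            rw [a1] at a2 hwc
            rw [b1] at b2 hwc'
            exact a2_loop R hwc hwc' a2 b2
          · exfalso
            rw [a1] at a2 hwc
            rw [b1] at b2 hwc'
            exact a2_loop R hwc' hwc b2 a2
          · rw [a1, b1]
        · intro u' hu' v' hv' x' hx' y' hy' hx0' hy1' he
          rw [hu, mem_singleton] at hu'
          rw [hv, mem_singleton] at hv'
          rw [hmem] at hx' hy'
          have key : lab u' + lab y' = 2 := by
            rw [hu', hv', lu, lv] at he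
            rw [hu', lu]
            rcases hy' with h | h | h | h
            · rw [h, hu0] at hy1'; exact absurd hy1' h01
            · rw [h, hx0] at hy1'; exact absurd hy1' h01
            · rw [h, lv]
            · rw [h, ly] at he
              omega
          rw [key]
          rcases (R.adj_iff _ _).mp hxy with ⟨h1, h2⟩ | ⟨h1, h2⟩
          · exact ⟨x, by simp, h1, by rw [← h2]; simp, by rw [← h2, lx, ly]⟩
          · exact ⟨y, by simp, h1, by rw [← h2]; simp, by rw [← h2, lx, ly]⟩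

end Pool.Agent.Lib.MP_c5b475_co
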