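import Pool.Agent.Lib.MP_c5b475_co.Few.Defs

set_option autoImplicit false

/-!
# Case B2: all but few vertices are leaves adjacent to one vertex
-/

namespace Pool.Agent.Lib.MP_c5b475_co

open Finset

section

variable {U : Type*} [Fintype U] [DecidableEq U] {T : SimpleGraph U}

/-- Invariant of the construction. -/
structure B2Good (R : RT T) (I A : Finset U) (lab : U → ℕ) (s : ℕ) : Prop where
  hc : R.c ∈ A
  hsub : A ⊆ I
  hpar : ∀ v ∈ A, v ≠ R.c → R.par v ∈ A
  hlab : ∀ u ∈ A, ∀ v ∈ A, (R.dep u : ZMod 2) = R.dep v → lab u = lab v → u = v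
  hty : ∀ u ∈ A, ∀ v ∈ A, u ≠ R.c → v ≠ R.c →
    lab u + lab (R.par u) = lab v + lab (R.par v) → u = v
  h0 : lab R.c = 0
  hcl : ∀ y ∈ A, (R.dep y : ZMod 2) = 1 → ∃ w ∈ A, w ≠ R.c ∧ lab w + lab (R.par w) = lab y
  hch : ∀ x ∈ A, (R.dep x : ZMod 2) = 0 → x ≠ R.c → ∀ y ∈ I, y ≠ R.c → R.par y = x → y ∈ A
  hev : ∀ x ∈ A, (R.dep x : ZMod 2) = 0 → lab x ≤ 2 * s ^ 2 + s
  hod : ∀ y ∈ A, (R.dep y : ZMod 2) = 1 → lab y ≤ 2 * s + A.card * (2 * s ^ 2 + s)

omit [Fintype U] [DecidableEq U] in
theorem b2_par_cast (R : RT T) {u : U} (hu : u ≠ R.c) :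
    (R.dep u : ZMod 2) = R.dep (R.par u) + 1 := by
  rw [← R.dep_par u hu]
  push_cast
  ring

theorem b2_zmod (x : ZMod 2) : x = 0 ∨ x = 1 := by
  revert x
  decide

omit [Fintype U] in
/-- First step: a new child of the root. -/
theorem B2Good.step1 {R : RT T} {I A : Finset U} {lab : U → ℕ} {s : ℕ}
    (h : B2Good R I A lab s) (hI : I.card ≤ s) {y : U} (hy : y ∈ I) (hyA : y ∉ A)
    (hyp : R.par y = R.c) : ∃ lab', B2Good R I (insert y A) lab' s := by
  have hyc : y ≠ R.c := fun e => hyA (e ▸ h.hc)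
  have hdy : (R.dep y : ZMod 2) = 1 := by
    rw [b2_par_cast R hyc, hyp, R.dep_c]
    simp
  have hcard : (insert y A).card ≤ I.card := by
    apply card_le_card
    intro v hv
    rcases mem_insert.mp hv with rfl | hv
    · exact hy
    · exact h.hsub hv
  rw [card_insert_of_notMem hyA] at hcard
  set F := A.image lab ∪ A.image (fun v => lab v + lab (R.par v)) with hF
  have hFc : F.card < (range (2 * s + 1)).card := by
    rw [card_range]
    have h1 : F.card ≤ A.card + A.card :=
      (card_union_le _ _).trans (Nat.add_le_add card_image_le card_image_le)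
    omega
  obtain ⟨q, hq, hqF⟩ := exists_mem_notMem_of_card_lt_card hFc
  rw [mem_range] at hq
  have hq1 : ∀ v ∈ A, lab v ≠ q := by
    intro v hv e
    exact hqF (mem_union_left _ (mem_image.mpr ⟨v, hv, e⟩))
  have hq2 : ∀ v ∈ A, lab v + lab (R.par v) ≠ q := by
    intro v hv e
    exact hqF (mem_union_right _ (mem_image.mpr ⟨v, hv, e⟩))
  have hne : ∀ v ∈ A, v ≠ y := fun v hv e => hyA (e ▸ hv)
  refine ⟨Function.update lab y q, ?_⟩
  have hl : ∀ v ∈ A, Function.update lab y q v = lab v := fun v hv =>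
    Function.update_of_ne (hne v hv) _ _
  have hly : Function.update lab y q y = q := Function.update_self _ _ _
  have hlc : Function.update lab y q R.c = 0 := by rw [hl _ h.hc, h.h0]
  refine ⟨mem_insert_of_mem h.hc, ?_, ?_, ?_, ?_, hlc, ?_, ?_, ?_, ?_⟩
  · intro v hv
    rcases mem_insert.mp hv with rfl | hv
    · exact hy
    · exact h.hsub hv
  · intro v hv hvc
    rcases mem_insert.mp hv with rfl | hv
    · rw [hyp]
      exact mem_insert_of_mem h.hc
    · exact mem_insert_of_mem (h.hpar v hv hvc)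
  · intro u hu v hv hd he
    rcases mem_insert.mp hu with rfl | hu' <;> rcases mem_insert.mp hv with rfl | hv'
    · rfl
    · rw [hly, hl v hv'] at he
      exact absurd he.symm (hq1 v hv')
    · rw [hly, hl u hu'] at he
      exact absurd he (hq1 u hu')
    · rw [hl u hu', hl v hv'] at he
      exact h.hlab u hu' v hv' hd he
  · intro u hu v hv huc hvc he
    rcases mem_insert.mp hu with rfl | hu' <;> rcases mem_insert.mp hv with rfl | hv'
    · rfl
    · rw [hly, hl v hv', hyp, hlc, hl _ (h.hpar v hv' hvc)] at he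
      exact absurd he.symm (hq2 v hv')
    · rw [hly, hl u hu', hyp, hlc, hl _ (h.hpar u hu' huc)] at he
      exact absurd he (hq2 u hu')
    · rw [hl u hu', hl v hv', hl _ (h.hpar v hv' hvc), hl _ (h.hpar u hu' huc)] at he
      exact h.hty u hu' v hv' huc hvc he
  · intro v hv hd
    rcases mem_insert.mp hv with rfl | hv
    · refine ⟨v, mem_insert_self _ _, hyc, ?_⟩
      rw [hyp, hlc, add_zero]
    · obtain ⟨w, hw, hwc, e⟩ := h.hcl v hv hd
      refine ⟨w, mem_insert_of_mem hw, hwc, ?_⟩
      rw [hl w hw, hl _ (h.hpar w hw hwc), hl v hv, e]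
  · intro x hx hd hxc v hv hvc hvx
    rcases mem_insert.mp hx with rfl | hx
    · rw [hdy] at hd
      exact absurd hd (by decide)
    · exact mem_insert_of_mem (h.hch x hx hd hxc v hv hvc hvx)
  · intro x hx hd
    rcases mem_insert.mp hx with rfl | hx
    · rw [hdy] at hd
      exact absurd hd (by decide)
    · rw [hl x hx]
      exact h.hev x hx hd
  · intro v hv hd
    rw [card_insert_of_notMem hyA]
    rcases mem_insert.mp hv with rfl | hv
    · rw [hly]
      have : 0 ≤ (A.card + 1) * (2 * s ^ 2 + s) := Nat.zero_le _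
      omega
    · rw [hl v hv]
      have h1 := h.hod v hv hd
      have h2 : A.card * (2 * s ^ 2 + s) ≤ (A.card + 1) * (2 * s ^ 2 + s) :=
        Nat.mul_le_mul_right _ (Nat.le_succ _)
      omega

omit [Fintype U] in
/-- Second step: a new vertex of even depth together with its children. -/
theorem B2Good.step2 {R : RT T} {I A : Finset U} {lab : U → ℕ} {s : ℕ}
    (h : B2Good R I A lab s) (hI : I.card ≤ s) {x : U} (hx : x ∈ I) (hxA : x ∉ A)
    (hdx : (R.dep x : ZMod 2) = 0) (hxp : R.par x ∈ A) :
    ∃ lab', B2Good R I (A ∪ insert x (I.filter (fun y => y ≠ R.c ∧ R.par y = x))) lab' s := by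
  classical
  have hxc : x ≠ R.c := fun e => hxA (e ▸ h.hc)
  set ch := I.filter (fun y => y ≠ R.c ∧ R.par y = x) with hch
  set y0 := R.par x with hy0
  have hdy0 : (R.dep y0 : ZMod 2) = 1 := by
    have h1 := b2_par_cast R hxc
    rw [hdx, ← hy0] at h1
    rcases b2_zmod (R.dep y0 : ZMod 2) with h2 | h2
    · rw [h2] at h1
      exact absurd h1 (by decide)
    · exact h2
  have hchp : ∀ y ∈ ch, y ∈ I ∧ y ≠ R.c ∧ R.par y = x := by
    intro y hy
    rw [hch, mem_filter] at hy
    exact hy
  have hdch : ∀ y ∈ ch, (R.dep y : ZMod 2) = 1 := by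
    intro y hy
    obtain ⟨_, h2, h3⟩ := hchp y hy
    rw [b2_par_cast R h2, h3, hdx]
    simp
  have hchA : ∀ y ∈ ch, y ∉ A := by
    intro y hy hyA
    obtain ⟨_, h2, h3⟩ := hchp y hy
    apply hxA
    rw [← h3]
    exact h.hpar y hyA h2
  have hxch : x ∉ ch := by
    intro hx'
    have := hdch x hx'
    rw [hdx] at this
    exact absurd this (by decide)
  have hdisj : Disjoint A (insert x ch) := by
    rw [disjoint_left]
    intro v hv hv'
    rcases mem_insert.mp hv' with rfl | hv'
    · exact hxA hv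
    · exact hchA v hv' hv
  have hsub' : A ∪ insert x ch ⊆ I := by
    intro v hv
    rcases mem_union.mp hv with hv | hv
    · exact h.hsub hv
    · rcases mem_insert.mp hv with rfl | hv
      · exact hx
      · exact (hchp v hv).1
  have hcardU : (A ∪ insert x ch).card = A.card + (ch.card + 1) := by
    rw [card_union_of_disjoint hdisj, card_insert_of_notMem hxch]
  have hcard : A.card + (ch.card + 1) ≤ s := by
    rw [← hcardU]
    exact (card_le_card hsub').trans hI
  -- the value of the label of x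
  set F := A.image lab ∪ A.image (fun v => lab v + lab (R.par v)) with hF
  have hFc : F.card ≤ 2 * A.card := by
    have h1 : F.card ≤ A.card + A.card :=
      (card_union_le _ _).trans (Nat.add_le_add card_image_le card_image_le)
    omega
  set bad := A.image lab ∪ (range (ch.card + 1) ×ˢ F).image
    (fun p => (p.2 - lab y0) / (p.1 + 1)) with hbad
  have hbc : bad.card < (range (2 * s ^ 2 + s + 1)).card := by
    rw [card_range]
    have h1 : bad.card ≤ A.card + (ch.card + 1) * F.card := by
      refine (card_union_le _ _).trans (Nat.add_le_add card_image_le ?_)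
      refine card_image_le.trans ?_
      rw [card_product, card_range]
    have h2 : (ch.card + 1) * F.card ≤ s * (2 * s) := by
      apply Nat.mul_le_mul (by omega)
      omega
    have h3 : s * (2 * s) = 2 * s ^ 2 := by ring
    omega
  obtain ⟨q, hq, hqb⟩ := exists_mem_notMem_of_card_lt_card hbc
  rw [mem_range] at hq
  have hqe : ∀ v ∈ A, lab v ≠ q := by
    intro v hv e
    exact hqb (mem_union_left _ (mem_image.mpr ⟨v, hv, e⟩))
  have hqpos : 0 < q := by
    have h1 := hqe _ h.hc
    rw [h.h0] at h1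
    omega
  have hqF : ∀ i, 1 ≤ i → i ≤ ch.card + 1 → lab y0 + i * q ∉ F := by
    intro i hi1 hi2 hmem
    apply hqb
    apply mem_union_right
    refine mem_image.mpr ⟨(i - 1, lab y0 + i * q), ?_, ?_⟩
    · rw [mem_product]
      exact ⟨mem_range.mpr (by change i - 1 < _; omega), hmem⟩
    · change (lab y0 + i * q - lab y0) / (i - 1 + 1) = q
      rw [Nat.add_sub_cancel_left, Nat.sub_add_cancel hi1]
      exact Nat.mul_div_cancel_left q hi1
  have hq1 : ∀ i, 1 ≤ i → i ≤ ch.card + 1 → ∀ v ∈ A, lab v ≠ lab y0 + i * q := by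
    intro i h1 h2 v hv e
    apply hqF i h1 h2
    rw [← e]
    exact mem_union_left _ (mem_image_of_mem _ hv)
  have hq2 : ∀ i, 1 ≤ i → i ≤ ch.card + 1 → ∀ v ∈ A,
      lab v + lab (R.par v) ≠ lab y0 + i * q := by
    intro i h1 h2 v hv e
    apply hqF i h1 h2
    rw [← e]
    exact mem_union_right _ (mem_image.mpr ⟨v, hv, rfl⟩)
  -- numbering of the children
  obtain ⟨idx, hidx1, hidx2, hidx3⟩ : ∃ idx : U → ℕ, (∀ y ∈ ch, 1 ≤ idx y ∧ idx y ≤ ch.card) ∧
      (∀ y ∈ ch, ∀ y' ∈ ch, idx y = idx y' → y = y') ∧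
      (∀ i, 1 ≤ i → i ≤ ch.card → ∃ y ∈ ch, idx y = i) := by
    let e := ch.equivFin
    refine ⟨fun y => if hy : y ∈ ch then (e ⟨y, hy⟩ : ℕ) + 1 else 0, ?_, ?_, ?_⟩
    · intro y hy
      simp only [dif_pos hy]
      have := (e ⟨y, hy⟩).2
      omega
    · intro y hy y' hy' he
      simp only [dif_pos hy, dif_pos hy'] at he
      have h1 : e ⟨y, hy⟩ = e ⟨y', hy'⟩ := Fin.ext (by omega)
      exact congrArg Subtype.val (e.injective h1)
    · intro i h1 h2
      refine ⟨(e.symm ⟨i - 1, by omega⟩).1, (e.symm ⟨i - 1, by omega⟩).2, ?_⟩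
      simp only [Subtype.coe_eta, Equiv.apply_symm_apply, Finset.coe_mem, dif_pos]
      omega
  set lab' : U → ℕ := fun v => if v = x then q else if v ∈ ch then lab y0 + idx v * q else lab v
    with hlab'
  have hlx : lab' x = q := by simp [hlab']
  have hlch : ∀ v ∈ ch, lab' v = lab y0 + idx v * q := by
    intro v hv
    have : v ≠ x := fun e => hxch (e ▸ hv)
    simp [hlab', this, hv]
  have hlA : ∀ v ∈ A, lab' v = lab v := by
    intro v hv
    have h1 : v ≠ x := fun e => hxA (e ▸ hv)
    have h2 : v ∉ ch := fun e => hchA v e hv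
    simp [hlab', h1, h2]
  have htyx : lab' x + lab' (R.par x) = lab y0 + 1 * q := by
    rw [hlx, ← hy0, hlA y0 hxp]
    ring
  have htych : ∀ v ∈ ch, lab' v + lab' (R.par v) = lab y0 + (idx v + 1) * q := by
    intro v hv
    rw [hlch v hv, (hchp v hv).2.2, hlx]
    ring
  have htyA : ∀ v ∈ A, v ≠ R.c → lab' v + lab' (R.par v) = lab v + lab (R.par v) := by
    intro v hv hvc
    rw [hlA v hv, hlA _ (h.hpar v hv hvc)]
  have hmulinj : ∀ i j, lab y0 + i * q = lab y0 + j * q → i = j := by
    intro i j e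
    exact Nat.eq_of_mul_eq_mul_right hqpos (Nat.add_left_cancel e)
  refine ⟨lab', ?_⟩
  have hcases : ∀ v ∈ A ∪ insert x ch, v ∈ A ∨ v = x ∨ v ∈ ch := by
    intro v hv
    rcases mem_union.mp hv with hv | hv
    · exact Or.inl hv
    · exact Or.inr (mem_insert.mp hv)
  have hmA : ∀ v ∈ A, v ∈ A ∪ insert x ch := fun v hv => mem_union_left _ hv
  have hmx : x ∈ A ∪ insert x ch := mem_union_right _ (mem_insert_self _ _)
  have hmch : ∀ v ∈ ch, v ∈ A ∪ insert x ch := fun v hv =>
    mem_union_right _ (mem_insert_of_mem hv)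
  refine ⟨hmA _ h.hc, hsub', ?_, ?_, ?_, ?_, ?_, ?_, ?_, ?_⟩
  · intro v hv hvc
    rcases hcases v hv with hv | rfl | hv
    · exact hmA _ (h.hpar v hv hvc)
    · exact hmA _ hxp
    · rw [(hchp v hv).2.2]
      exact hmx
  · intro u hu v hv hd he
    rcases hcases u hu with hu' | rfl | hu' <;> rcases hcases v hv with hv' | rfl | hv'
    · rw [hlA u hu', hlA v hv'] at he
      exact h.hlab u hu' v hv' hd he
    · rw [hlA u hu', hlx] at he
      exact absurd he (hqe u hu')
    · rw [hlA u hu', hlch v hv'] at he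
      have := hidx1 v hv'
      exact absurd he (hq1 _ this.1 (by omega) u hu')
    · rw [hlA v hv', hlx] at he
      exact absurd he.symm (hqe v hv')
    · rfl
    · rw [hdx, hdch v hv'] at hd
      exact absurd hd (by decide)
    · rw [hlA v hv', hlch u hu'] at he
      have := hidx1 u hu'
      exact absurd he.symm (hq1 _ this.1 (by omega) v hv')
    · rw [hdx, hdch u hu'] at hd
      exact absurd hd (by decide)
    · rw [hlch u hu', hlch v hv'] at he
      exact hidx2 u hu' v hv' (hmulinj _ _ he)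
  · intro u hu v hv huc hvc he
    rcases hcases u hu with hu' | rfl | hu' <;> rcases hcases v hv with hv' | rfl | hv'
    · rw [htyA u hu' huc, htyA v hv' hvc] at he
      exact h.hty u hu' v hv' huc hvc he
    · rw [htyA u hu' huc, htyx] at he
      exact absurd he (hq2 1 le_rfl (by omega) u hu')
    · rw [htyA u hu' huc, htych v hv'] at he
      have := hidx1 v hv'
      exact absurd he (hq2 _ (by omega) (by omega) u hu')
    · rw [htyA v hv' hvc, htyx] at he
      exact absurd he.symm (hq2 1 le_rfl (by omega) v hv')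
    · rfl
    · rw [htyx, htych v hv'] at he
      have h1 := hmulinj _ _ he
      have := hidx1 v hv'
      omega
    · rw [htyA v hv' hvc, htych u hu'] at he
      have := hidx1 u hu'
      exact absurd he.symm (hq2 _ (by omega) (by omega) v hv')
    · rw [htyx, htych u hu'] at he
      have h1 := hmulinj _ _ he
      have := hidx1 u hu'
      omega
    · rw [htych u hu', htych v hv'] at he
      have h1 := hmulinj _ _ he
      exact hidx2 u hu' v hv' (by omega)
  · rw [hlA _ h.hc, h.h0]
  · intro v hv hd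
    rcases hcases v hv with hv | rfl | hv
    · obtain ⟨w, hw, hwc, e⟩ := h.hcl v hv hd
      refine ⟨w, hmA w hw, hwc, ?_⟩
      rw [htyA w hw hwc, hlA v hv, e]
    · rw [hdx] at hd
      exact absurd hd (by decide)
    · have h1 := hidx1 v hv
      by_cases h2 : idx v = 1
      · refine ⟨x, hmx, hxc, ?_⟩
        rw [htyx, hlch v hv, h2]
      · obtain ⟨w, hw, hwi⟩ := hidx3 (idx v - 1) (by omega) (by omega)
        refine ⟨w, hmch w hw, (hchp w hw).2.1, ?_⟩
        rw [htych w hw, hlch v hv, hwi, Nat.sub_add_cancel h1.1]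
  · intro v hv hd hvc w hw hwc hwv
    rcases hcases v hv with hv | rfl | hv
    · exact hmA _ (h.hch v hv hd hvc w hw hwc hwv)
    · apply hmch
      rw [hch, mem_filter]
      exact ⟨hw, hwc, hwv⟩
    · rw [hdch v hv] at hd
      exact absurd hd (by decide)
  · intro v hv hd
    rcases hcases v hv with hv | rfl | hv
    · rw [hlA v hv]
      exact h.hev v hv hd
    · rw [hlx]
      omega
    · rw [hdch v hv] at hd
      exact absurd hd (by decide)
  · intro v hv hd
    rw [hcardU]
    have hmono : A.card * (2 * s ^ 2 + s) + ch.card * (2 * s ^ 2 + s) ≤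
        (A.card + (ch.card + 1)) * (2 * s ^ 2 + s) := by
      rw [← add_mul]
      exact Nat.mul_le_mul_right _ (by omega)
    rcases hcases v hv with hv | rfl | hv
    · rw [hlA v hv]
      have := h.hod v hv hd
      omega
    · rw [hdx] at hd
      exact absurd hd (by decide)
    · rw [hlch v hv]
      have h1 := h.hod y0 hxp hdy0
      have h2 := hidx1 v hv
      have h3 : idx v * q ≤ ch.card * (2 * s ^ 2 + s) := Nat.mul_le_mul h2.2 (by omega)
      omega

omit [Fintype U] in
/-- The construction. -/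
theorem b2_exists (R : RT T) (I : Finset U) (s : ℕ) (hI : I.card ≤ s) (hc : R.c ∈ I)
    (hpar : ∀ v ∈ I, v ≠ R.c → R.par v ∈ I) : ∃ lab, B2Good R I I lab s := by
  have key : ∀ (k : ℕ) (A : Finset U) (lab : U → ℕ), (I \ A).card ≤ k → B2Good R I A lab s →
      ∃ lab, B2Good R I I lab s := by
    intro k
    induction k with
    | zero =>
      intro A lab hk h
      have h1 : I \ A = ∅ := card_eq_zero.mp (by omega)
      have h2 : A = I := subset_antisymm h.hsub (sdiff_eq_empty_iff_subset.mp h1)
      rw [h2] at h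
      exact ⟨lab, h⟩
    | succ k ih =>
      intro A lab hk h
      by_cases hA : A = I
      · rw [hA] at h
        exact ⟨lab, h⟩
      · have hne : (I \ A).Nonempty := by
          rw [nonempty_iff_ne_empty]
          intro e
          exact hA (subset_antisymm h.hsub (sdiff_eq_empty_iff_subset.mp e))
        obtain ⟨v, hv, hmin⟩ := exists_min_image (I \ A) R.dep hne
        rw [mem_sdiff] at hv
        have hvc : v ≠ R.c := fun e => hv.2 (e ▸ h.hc)
        have hpA : R.par v ∈ A := by
          by_contra hp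
          have h1 := hmin (R.par v) (mem_sdiff.mpr ⟨hpar v hv.1 hvc, hp⟩)
          have h2 := R.dep_par v hvc
          omega
        have hlt : ∀ B : Finset U, A ⊆ B → v ∈ B → (I \ B).card ≤ k := by
          intro B hAB hvB
          have h1 : I \ B ⊂ I \ A := by
            refine ⟨sdiff_subset_sdiff (subset_refl _) hAB, ?_⟩
            intro hcon
            exact (mem_sdiff.mp (hcon (mem_sdiff.mpr hv))).2 hvB
          have := card_lt_card h1
          omega
        rcases b2_zmod (R.dep v : ZMod 2) with hd | hd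
        · obtain ⟨lab', h'⟩ := h.step2 hI hv.1 hv.2 hd hpA
          exact ih _ lab' (hlt _ subset_union_left
            (mem_union_right _ (mem_insert_self _ _))) h'
        · have hpc : R.par v = R.c := by
            by_contra hpc
            apply hv.2
            refine h.hch (R.par v) hpA ?_ hpc v hv.1 hvc rfl
            have h1 := b2_par_cast R hvc
            rw [hd] at h1
            rcases b2_zmod (R.dep (R.par v) : ZMod 2) with h2 | h2
            · exact h2
            · rw [h2] at h1
              exact absurd h1 (by decide)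
          obtain ⟨lab', h'⟩ := h.step1 hI hv.1 hv.2 hpc
          exact ih _ lab' (hlt _ (subset_insert _ _) (mem_insert_self _ _)) h'
  have hdc : (R.dep R.c : ZMod 2) = 0 := by
    rw [R.dep_c]
    simp
  refine key (I \ {R.c}).card {R.c} (fun _ => 0) le_rfl ?_
  refine ⟨mem_singleton_self _, ?_, ?_, ?_, ?_, rfl, ?_, ?_, ?_, ?_⟩
  · intro v hv
    rw [mem_singleton.mp hv]
    exact hc
  · intro v hv hvc
    exact absurd (mem_singleton.mp hv) hvc
  · intro u hu v hv _ _
    rw [mem_singleton.mp hu, mem_singleton.mp hv]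
  · intro u hu v hv huc _ _
    exact absurd (mem_singleton.mp hu) huc
  · intro v hv hd
    rw [mem_singleton.mp hv, hdc] at hd
    exact absurd hd (by decide)
  · intro v hv _ hvc
    exact absurd (mem_singleton.mp hv) hvc
  · intro v _ _
    exact Nat.zero_le _
  · intro v _ _
    exact Nat.zero_le _

/-- B2. -/
theorem caseB2 {U : Type*} [Fintype U] [DecidableEq U] {T : SimpleGraph U} (hT : T.IsTree)
    (u : U) (s : ℕ) (hs : Nat.card {w // w ∉ lf T u} ≤ s) : Framed T (10 * s ^ 3 + 10) := by
  classical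
  obtain ⟨R, hRc, -⟩ := exists_RT hT u
  subst hRc
  set I : Finset U := univ.filter (fun w => w ∉ lf T R.c) with hIdef
  have hmI : ∀ w, w ∈ I ↔ w ∉ lf T R.c := by
    intro w
    rw [hIdef, mem_filter]
    simp
  have hmlf : ∀ w, w ∈ lf T R.c ↔ T.Adj R.c w ∧ ¬ IsInner T w := by
    intro w
    unfold lf
    rw [mem_filter]
    simp
  have hIc : I.card ≤ s := by
    rw [hIdef, ← Fintype.card_subtype, ← Nat.card_eq_fintype_card]
    exact hs
  have hcI : R.c ∈ I := by
    rw [hmI, hmlf]
    exact fun h => T.loopless.irrefl _ h.1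
  have hparI : ∀ v ∈ I, v ≠ R.c → R.par v ∈ I := by
    intro v _ hvc
    rw [hmI, hmlf]
    rintro ⟨h1, h2⟩
    exact h2 ⟨R.c, v, h1.symm, (R.adj_par hvc).symm, hvc.symm⟩
  have hout : ∀ v, v ∉ I → v ≠ R.c ∧ R.par v = R.c := by
    intro v hv
    rw [hmI, not_not, hmlf] at hv
    rcases (R.adj_iff _ _).mp hv.1 with ⟨h1, _⟩ | ⟨h1, h2⟩
    · exact absurd rfl h1
    · exact ⟨h1, h2.symm⟩
  have hdout : ∀ v, v ∉ I → (R.dep v : ZMod 2) = 1 := by
    intro v hv
    obtain ⟨h1, h2⟩ := hout v hv
    rw [b2_par_cast R h1, h2, R.dep_c]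
    simp
  obtain ⟨lab, h⟩ := b2_exists R I s hIc hcI hparI
  have hout0 : R.out I 0 = ∅ := by
    unfold RT.out
    rw [filter_eq_empty_iff]
    intro v hv hd
    rw [hdout v (mem_sdiff.mp hv).2] at hd
    exact absurd hd (by decide)
  have hforb0 : R.forb I lab 0 = ∅ := by
    unfold RT.forb
    rw [hout0, empty_product, image_empty]
  have hforb1 : R.forb I lab 1 ⊆ R.types I lab := by
    intro t ht
    unfold RT.forb at ht
    obtain ⟨⟨w, y⟩, hp, rfl⟩ := mem_image.mp ht
    rw [mem_product] at hp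
    obtain ⟨h1, h2⟩ := hp
    change w ∈ _ at h1
    change y ∈ _ at h2
    unfold RT.out at h1
    rw [mem_filter, mem_sdiff] at h1
    rw [mem_filter] at h2
    change lab (R.par w) + lab y ∈ _
    rw [(hout w h1.1.2).2, h.h0, zero_add]
    obtain ⟨v, hv, hvc, e⟩ := h.hcl y h2.1 h2.2
    unfold RT.types
    exact mem_image.mpr ⟨v, mem_erase.mpr ⟨hvc, hv⟩, e⟩
  have hsum : ∀ a ∈ I, ∀ b ∈ I, (R.dep a : ZMod 2) = 0 → (R.dep b : ZMod 2) = 1 →
      lab a + lab b < 10 * s ^ 3 + 10 := by
    intro a ha b hb hda hdb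
    have h1 := h.hev a ha hda
    have h2 := h.hod b hb hdb
    have h3 : I.card * (2 * s ^ 2 + s) ≤ s * (2 * s ^ 2 + s) := Nat.mul_le_mul_right _ hIc
    have h4 : s ^ 2 ≤ s ^ 3 ∨ s = 0 := by
      rcases Nat.eq_zero_or_pos s with h5 | h5
      · exact Or.inr h5
      · exact Or.inl (Nat.pow_le_pow_right h5 (by norm_num))
    have h5 : s ≤ s ^ 3 := by
      rcases Nat.eq_zero_or_pos s with h6 | h6
      · rw [h6]; norm_num
      · calc s = s ^ 1 := (pow_one s).symm
          _ ≤ s ^ 3 := Nat.pow_le_pow_right h6 (by norm_num)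
    have h6 : s * (2 * s ^ 2 + s) = 2 * s ^ 3 + s ^ 2 := by ring
    rcases h4 with h4 | h4
    · omega
    · subst h4
      simp only [ne_eq, OfNat.ofNat_ne_zero, not_false_eq_true, zero_pow, mul_zero,
        add_zero, zero_add] at *
      omega
  refine ⟨R, I, lab, hcI, hparI, ?_, h.hlab, ?_, h.hty, ?_, ?_, ?_⟩
  · intro v hv
    rw [(hout v hv).2]
    exact hcI
  · intro a ha b hb hne
    rcases b2_zmod (R.dep a : ZMod 2) with h1 | h1 <;> rcases b2_zmod (R.dep b : ZMod 2) with h2 | h2
    · exact absurd (h1.trans h2.symm) hne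
    · exact hsum a ha b hb h1 h2
    · have := hsum b hb a ha h2 h1
      omega
    · exact absurd (h1.trans h2.symm) hne
  · rw [hforb0, empty_sdiff]
    exact disjoint_empty_left _
  · rw [hforb0, empty_sdiff, card_empty]
    exact Nat.zero_le _
  · rw [sdiff_eq_empty_iff_subset.mpr hforb1, card_empty]
    exact Nat.zero_le _

end

end Pool.Agent.Lib.MP_c5b475_co
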