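import Pool.Agent.Lib.MP_c5b475_co.Few.Defs
import Pool.Agent.Lib.MP_c5b475_co.Lobster

set_option autoImplicit false

/-!
# DM: the dominated case

The root `R.c` and an inner vertex `y` of odd depth carry at least `m` leaves each, where `m` bounds
the number of all other vertices. The other vertices are labelled one after the other.
-/

namespace Pool.Agent.Lib.MP_c5b475_co

open Finset

/-- The invariant of the labelling of the dominated case. -/
structure DMInv {U : Type*} [DecidableEq U] {T : SimpleGraph U} (R : RT T) (y : U) (B : ℕ)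
    (A : Finset U) (lab : U → ℕ) : Prop where
  c_mem : R.c ∈ A
  y_mem : y ∈ A
  par_mem : ∀ u ∈ A, u ≠ R.c → u ≠ y → R.par u ∈ A
  bd : ∀ u ∈ A, lab u ≤ B
  i1 : ∀ u ∈ A, ∀ v ∈ A, (R.dep u : ZMod 2) = R.dep v → lab u = lab v → u = v
  i2 : ∀ u ∈ A, ∀ v ∈ A, u ≠ R.c → v ≠ R.c → R.par u ∈ A → R.par v ∈ A →
      lab u + lab (R.par u) = lab v + lab (R.par v) → u = v
  i3 : ∀ u ∈ A, ∀ v ∈ A, (R.dep u : ZMod 2) = 0 → (R.dep v : ZMod 2) = 1 →
      lab R.c + lab v = lab y + lab u →
      ∃ w ∈ A, w ≠ R.c ∧ R.par w ∈ A ∧ lab w + lab (R.par w) = lab y + lab u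

section

variable {U : Type*} [DecidableEq U] {T : SimpleGraph U} (R : RT T)

theorem dm_zmod {a : ZMod 2} (h : a ≠ 0) : a = 1 := by
  revert a
  decide

omit [DecidableEq U] in
theorem dm_par_ne {u : U} (hu : u ≠ R.c) : R.par u ≠ u := by
  intro e
  have := R.dep_par u hu
  rw [e] at this
  omega

omit [DecidableEq U] in
theorem dm_par_par_ne {u : U} (hu : u ≠ R.c) (hu' : R.par u ≠ R.c) :
    R.par (R.par u) ≠ u := by
  intro e
  have h1 := R.dep_par u hu
  have h2 := R.dep_par _ hu'
  rw [e] at h2
  omega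

omit [DecidableEq U] in
/-- Every parent is an inner vertex. -/
theorem dm_par_inner (hRc : IsInner T R.c) {u : U} (hu : u ≠ R.c) : IsInner T (R.par u) := by
  by_cases h : R.par u = R.c
  · rw [h]; exact hRc
  · exact ⟨u, R.par (R.par u), (R.adj_par hu).symm, R.adj_par h,
      fun e => dm_par_par_ne R hu h e.symm⟩

omit [DecidableEq U] in
theorem dm_dep_zero {u : U} (hu : R.dep u = 0) : u = R.c := by
  by_contra h
  have := R.dep_par u h
  omega

omit [DecidableEq U] in
/-- There is a vertex of depth two below every deeper vertex. -/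
theorem dm_exists_two : ∀ (n : ℕ) (u : U), R.dep u = n + 2 → ∃ v, R.dep v = 2 := by
  intro n
  induction n with
  | zero => intro u hu; exact ⟨u, by omega⟩
  | succ n ih =>
    intro u hu
    have huc : u ≠ R.c := by
      intro e
      rw [e, R.dep_c] at hu
      omega
    have := R.dep_par u huc
    exact ih (R.par u) (by omega)

/-- One more vertex. -/
theorem dm_extend {y : U} (hyc : y ≠ R.c) {B : ℕ} {A : Finset U} {lab : U → ℕ}
    (h : DMInv R y B A lab) {w : U} (hw : w ∉ A) (hwp : R.par w ∈ A) (hB : 3 * A.card ≤ B) :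
    ∃ lab' : U → ℕ, DMInv R y B (insert w A) lab' := by
  classical
  have hwc : w ≠ R.c := fun e => hw (e ▸ h.c_mem)
  have hwy : w ≠ y := fun e => hw (e ▸ h.y_mem)
  set ty : Finset ℕ := A.image (fun u => lab u + lab (R.par u)) with hty
  set b1 : Finset ℕ := (A.filter (fun u => (R.dep u : ZMod 2) = R.dep w)).image lab with hb1
  set b2 : Finset ℕ := ty.image (fun t => t - lab (R.par w)) with hb2
  set b3 : Finset ℕ := ty.image (fun t => t - lab y) with hb3
  set b4 : Finset ℕ := (A.filter (fun u => ¬ (R.dep u : ZMod 2) = R.dep w)).image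
    (fun u => if (R.dep w : ZMod 2) = 0 then lab R.c + lab u - lab y
      else lab y + lab u - lab R.c) with hb4
  have hct : ty.card ≤ A.card := card_image_le
  have hc2 : b2.card ≤ A.card := card_image_le.trans hct
  have hc3 : b3.card ≤ A.card := card_image_le.trans hct
  have hc14 : b1.card + b4.card ≤ A.card := by
    have e1 : b1.card ≤ (A.filter (fun u => (R.dep u : ZMod 2) = R.dep w)).card := card_image_le
    have e2 : b4.card ≤ (A.filter (fun u => ¬ (R.dep u : ZMod 2) = R.dep w)).card :=
      card_image_le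
    have e3 := card_filter_add_card_filter_not (s := A)
      (fun u => (R.dep u : ZMod 2) = R.dep w)
    omega
  obtain ⟨ℓ, hℓ, hℓb⟩ : ∃ ℓ, ℓ ∈ range (B + 1) ∧ ℓ ∉ (b1 ∪ b4) ∪ (b2 ∪ b3) := by
    by_contra hcon
    push Not at hcon
    have h1 : (range (B + 1)).card ≤ ((b1 ∪ b4) ∪ (b2 ∪ b3)).card := card_le_card hcon
    rw [card_range] at h1
    have h2 := card_union_le (b1 ∪ b4) (b2 ∪ b3)
    have h3 := card_union_le b1 b4
    have h4 := card_union_le b2 b3
    omega
  rw [mem_range] at hℓ
  simp only [mem_union, not_or] at hℓb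
  obtain ⟨⟨hn1, hn4⟩, hn2, hn3⟩ := hℓb
  have hA : ∀ u ∈ A, u ≠ w := fun u hu e => hw (e ▸ hu)
  set lab' : U → ℕ := fun u => if u = w then ℓ else lab u with hlab'
  have hl : ∀ u, u ≠ w → lab' u = lab u := fun u hu => by simp [hlab', hu]
  have hlw : lab' w = ℓ := by simp [hlab']
  have hlA : ∀ u ∈ A, lab' u = lab u := fun u hu => hl u (hA u hu)
  have hlc : lab' R.c = lab R.c := hlA _ h.c_mem
  have hly : lab' y = lab y := hlA _ h.y_mem
  -- labels of the same class differ from `ℓ`
  have k1 : ∀ u ∈ A, (R.dep u : ZMod 2) = R.dep w → lab u ≠ ℓ := fun u hu hd e =>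
    hn1 (mem_image.mpr ⟨u, mem_filter.mpr ⟨hu, hd⟩, e⟩)
  -- new types differ from old ones
  have k2 : ∀ u ∈ A, ℓ + lab (R.par w) ≠ lab u + lab (R.par u) := by
    intro u hu e
    apply hn2
    rw [hb2, mem_image]
    exact ⟨lab u + lab (R.par u), mem_image.mpr ⟨u, hu, rfl⟩, by omega⟩
  have k3 : ∀ u ∈ A, ℓ + lab y ≠ lab u + lab (R.par u) := by
    intro u hu e
    apply hn3
    rw [hb3, mem_image]
    exact ⟨lab u + lab (R.par u), mem_image.mpr ⟨u, hu, rfl⟩, by omega⟩
  have k4 : ∀ u ∈ A, (R.dep w : ZMod 2) = 0 → (R.dep u : ZMod 2) = 1 →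
      lab R.c + lab u ≠ lab y + ℓ := by
    intro u hu h0 h1 e
    apply hn4
    rw [hb4, mem_image]
    refine ⟨u, mem_filter.mpr ⟨hu, by rw [h0, h1]; decide⟩, ?_⟩
    rw [if_pos h0]
    omega
  have k5 : ∀ u ∈ A, (R.dep w : ZMod 2) = 1 → (R.dep u : ZMod 2) = 0 →
      lab R.c + ℓ ≠ lab y + lab u := by
    intro u hu h0 h1 e
    apply hn4
    rw [hb4, mem_image]
    refine ⟨u, mem_filter.mpr ⟨hu, by rw [h0, h1]; decide⟩, ?_⟩
    rw [if_neg (by rw [h0]; decide)]
    omega
  -- the types after the extension
  have key : ∀ u ∈ insert w A, u ≠ R.c → R.par u ∈ insert w A →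
      (u ∈ A ∧ R.par u ∈ A ∧ lab' u + lab' (R.par u) = lab u + lab (R.par u)) ∨
      (u = w ∧ lab' u + lab' (R.par u) = ℓ + lab (R.par w)) ∨
      (u = y ∧ R.par u = w ∧ lab' u + lab' (R.par u) = ℓ + lab y) := by
    intro u hu huc hpu
    rcases mem_insert.mp hu with hu1 | hu1
    · right; left
      refine ⟨hu1, ?_⟩
      rw [hu1, hlw, hlA _ hwp]
    · rcases mem_insert.mp hpu with h2 | h2
      · right; right
        have h3 : u = y := by
          by_contra h4
          exact hw (h2 ▸ h.par_mem u hu1 huc h4)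
        refine ⟨h3, h2, ?_⟩
        rw [h2, hlw, h3, hly]
        exact Nat.add_comm _ _
      · left
        exact ⟨hu1, h2, by rw [hlA u hu1, hlA _ h2]⟩
  have kk : R.par y = w → ℓ + lab (R.par w) ≠ ℓ + lab y := by
    intro e he
    have h1 : (R.dep (R.par w) : ZMod 2) = R.dep y := by
      have e1 := R.dep_par_cast hyc
      have e2 := R.dep_par_cast hwc
      rw [e1, e, e2]
      have : (2 : ZMod 2) = 0 := by decide
      linear_combination (-1 : ZMod 2) * this
    have h2 := h.i1 _ hwp y h.y_mem h1 (Nat.add_left_cancel he)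
    exact dm_par_par_ne R hyc (by rw [e]; exact hwc) (by rw [e]; exact h2)
  refine ⟨lab', ⟨mem_insert_of_mem h.c_mem, mem_insert_of_mem h.y_mem, ?_, ?_, ?_, ?_, ?_⟩⟩
  · intro u hu huc huy
    rcases mem_insert.mp hu with hu1 | hu1
    · rw [hu1]; exact mem_insert_of_mem hwp
    · exact mem_insert_of_mem (h.par_mem u hu1 huc huy)
  · intro u hu
    rcases mem_insert.mp hu with rfl | hu
    · rw [hlw]; omega
    · rw [hlA u hu]; exact h.bd u hu
  · intro u hu v hv hd he
    rcases mem_insert.mp hu with hu1 | hu1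
    · rcases mem_insert.mp hv with hv1 | hv1
      · rw [hu1, hv1]
      · rw [hu1, hlw, hlA v hv1] at he
        exact absurd he.symm (k1 v hv1 (by rw [← hd, hu1]))
    · rcases mem_insert.mp hv with hv1 | hv1
      · rw [hv1, hlw, hlA u hu1] at he
        exact absurd he (k1 u hu1 (by rw [hd, hv1]))
      · rw [hlA u hu1, hlA v hv1] at he
        exact h.i1 u hu1 v hv1 hd he
  · intro u hu v hv huc hvc hpu hpv he
    rcases key u hu huc hpu with ⟨a1, a2, a3⟩ | ⟨a1, a3⟩ | ⟨a1, a2, a3⟩
    · rcases key v hv hvc hpv with ⟨b1, b2, b3⟩ | ⟨b1, b3⟩ | ⟨b1, b2, b3⟩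
      · rw [a3, b3] at he
        exact h.i2 u a1 v b1 huc hvc a2 b2 he
      · rw [a3, b3] at he
        exact absurd he.symm (k2 u a1)
      · rw [a3, b3] at he
        exact absurd he.symm (k3 u a1)
    · rcases key v hv hvc hpv with ⟨b1, b2, b3⟩ | ⟨b1, b3⟩ | ⟨b1, b2, b3⟩
      · rw [a3, b3] at he
        exact absurd he (k2 v b1)
      · rw [a1, b1]
      · rw [a3, b3] at he
        exact absurd he (kk (by rw [← b1]; exact b2))
    · rcases key v hv hvc hpv with ⟨b1, b2, b3⟩ | ⟨b1, b3⟩ | ⟨b1, b2, b3⟩
      · rw [a3, b3] at he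
        exact absurd he (k3 v b1)
      · rw [a3, b3] at he
        exact absurd he.symm (kk (by rw [← a1]; exact a2))
      · rw [a1, b1]
  · intro u hu v hv hu0 hv1 he
    rw [hlc, hly] at he
    rcases mem_insert.mp hu with hu2 | hu2
    · rcases mem_insert.mp hv with hv2 | hv2
      · exfalso
        rw [hu2] at hu0
        rw [hv2, hu0] at hv1
        exact absurd hv1 (by decide)
      · exfalso
        rw [hlA v hv2, hu2, hlw] at he
        exact k4 v hv2 (by rw [← hu2]; exact hu0) hv1 he
    · rcases mem_insert.mp hv with hv2 | hv2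
      · exfalso
        rw [hlA u hu2, hv2, hlw] at he
        exact k5 u hu2 (by rw [← hv2]; exact hv1) hu0 he
      · rw [hlA u hu2, hlA v hv2] at he
        obtain ⟨z, hz, hzc, hzp, hz2⟩ := h.i3 u hu2 v hv2 hu0 hv1 he
        refine ⟨z, mem_insert_of_mem hz, hzc, mem_insert_of_mem hzp, ?_⟩
        rw [hlA z hz, hlA _ hzp, hly, hlA u hu2]
        exact hz2

/-- All vertices of `I`. -/
theorem dm_loop {y : U} (hyc : y ≠ R.c) {B : ℕ} (I : Finset U)
    (hpar : ∀ u ∈ I, u ≠ R.c → R.par u ∈ I) (hB : 3 * I.card ≤ B + 3) :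
    ∀ (n : ℕ) (A : Finset U) (lab : U → ℕ), (I \ A).card = n → A ⊆ I → DMInv R y B A lab →
      ∃ lab' : U → ℕ, DMInv R y B I lab' := by
  intro n
  induction n with
  | zero =>
    intro A lab hn hAI h
    rw [card_eq_zero, sdiff_eq_empty_iff_subset] at hn
    have : A = I := Subset.antisymm hAI hn
    rw [this] at h
    exact ⟨lab, h⟩
  | succ n ih =>
    intro A lab hn hAI h
    have hne : (I \ A).Nonempty := by
      rw [← card_pos]; omega
    obtain ⟨w, hw, hmin⟩ := exists_min_image (I \ A) R.dep hne
    rw [mem_sdiff] at hw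
    have hwc : w ≠ R.c := fun e => hw.2 (e ▸ h.c_mem)
    have hwp : R.par w ∈ A := by
      by_contra hcon
      have h1 := hmin (R.par w) (mem_sdiff.mpr ⟨hpar w hw.1 hwc, hcon⟩)
      have h2 := R.dep_par w hwc
      omega
    have hcard : A.card + (n + 1) = I.card := by
      have := card_sdiff_add_card_eq_card hAI
      omega
    obtain ⟨lab', h'⟩ := dm_extend R hyc h hw.2 hwp (by omega)
    refine ih (insert w A) lab' ?_ ?_ h'
    · have hI' : I \ insert w A = (I \ A).erase w := by
        ext v
        simp only [mem_sdiff, mem_insert, mem_erase, not_or]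
        tauto
      rw [hI', card_erase_of_mem (mem_sdiff.mpr hw), hn]
      omega
    · intro v hv
      rcases mem_insert.mp hv with rfl | hv
      · exact hw.1
      · exact hAI hv

end

/-- DM. The dominated case. -/
theorem caseDom {U : Type*} [Fintype U] [DecidableEq U] {T : SimpleGraph U} (hT : T.IsTree)
    (R : RT T) (hRc : IsInner T R.c) (y : U) (hy : IsInner T y) (hyo : (R.dep y : ZMod 2) = 1)
    (m : ℕ) (hm : Nat.card {w // w ∉ lf T R.c ∧ w ∉ lf T y} ≤ m)
    (h1 : m ≤ (lf T R.c).card) (h2 : m ≤ (lf T y).card) : Framed T (6 * m + 6) := by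
  classical
  have hyc : y ≠ R.c := by
    intro e
    rw [e, R.dep_c] at hyo
    revert hyo
    decide
  set I : Finset U := univ.filter (fun w => w ∉ lf T R.c ∧ w ∉ lf T y) with hI
  have hIm : I.card ≤ m := by
    refine le_trans (le_of_eq ?_) hm
    rw [Nat.card_eq_fintype_card, Fintype.card_subtype]
  have hinI : ∀ u, IsInner T u → u ∈ I := by
    intro u hu
    rw [hI, mem_filter]
    refine ⟨mem_univ _, ?_, ?_⟩
    · intro h
      exact (mem_filter.mp h).2.2 hu
    · intro h
      exact (mem_filter.mp h).2.2 hu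
  have hparI : ∀ u, u ≠ R.c → R.par u ∈ I := fun u hu => hinI _ (dm_par_inner R hRc hu)
  have hcI : R.c ∈ I := hinI _ hRc
  have hyI : y ∈ I := hinI _ hy
  -- leaves of the root
  have hlx : ∀ w ∈ lf T R.c, w ≠ R.c ∧ R.par w = R.c ∧ (R.dep w : ZMod 2) = 1 := by
    intro w hw
    obtain ⟨_, hadj, hin⟩ := mem_filter.mp hw
    rcases (R.adj_iff R.c w).mp hadj with ⟨h3, _⟩ | ⟨h3, h4⟩
    · exact absurd rfl h3
    · refine ⟨h3, h4.symm, ?_⟩
      rw [R.dep_par_cast h3, ← h4, R.dep_c]
      decide
  have hly : ∀ w ∈ lf T y, w ≠ R.c ∧ R.par w = y ∧ (R.dep w : ZMod 2) = 0 := by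
    intro w hw
    obtain ⟨_, hadj, hin⟩ := mem_filter.mp hw
    rcases (R.adj_iff y w).mp hadj with ⟨h3, h4⟩ | ⟨h3, h4⟩
    · exfalso
      apply hin
      rw [h4]
      exact dm_par_inner R hRc h3
    · refine ⟨h3, h4.symm, ?_⟩
      rw [R.dep_par_cast h3, ← h4, hyo]
      decide
  -- a labelling of a start set
  obtain ⟨A, lab, hAI, hA⟩ : ∃ (A : Finset U) (lab : U → ℕ), A ⊆ I ∧
      DMInv R y (3 * m + 2) A lab := by
    by_cases hpy : R.par y = R.c
    · refine ⟨{R.c, y}, fun _ => 0, ?_, ?_⟩
      · intro u hu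
        rw [mem_insert, mem_singleton] at hu
        rcases hu with rfl | rfl
        · exact hcI
        · exact hyI
      · have hc0 : (R.dep R.c : ZMod 2) = 0 := by
          rw [R.dep_c]; rfl
        refine ⟨by simp, by simp, ?_, ?_, ?_, ?_, ?_⟩
        · intro u hu huc huy
          rw [mem_insert, mem_singleton] at hu
          rcases hu with hu | hu
          · exact absurd hu huc
          · exact absurd hu huy
        · intro u _
          exact Nat.zero_le _
        · intro u hu v hv hd _
          rw [mem_insert, mem_singleton] at hu hv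
          rcases hu with hu | hu <;> rcases hv with hv | hv
          · rw [hu, hv]
          · exfalso
            rw [hu, hv, hc0, hyo] at hd
            exact absurd hd (by decide)
          · exfalso
            rw [hu, hv, hc0, hyo] at hd
            exact absurd hd (by decide)
          · rw [hu, hv]
        · intro u hu v hv huc hvc _ _ _
          rw [mem_insert, mem_singleton] at hu hv
          rcases hu with hu | hu
          · exact absurd hu huc
          · rcases hv with hv | hv
            · exact absurd hv hvc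
            · rw [hu, hv]
        · intro u _ v _ _ _ _
          exact ⟨y, by simp, hyc, by rw [hpy]; simp, rfl⟩
    · -- a vertex of depth two
      have hd1 := R.dep_par y hyc
      have hd2 := R.dep_par _ hpy
      obtain ⟨v2, hv2⟩ := dm_exists_two R (R.dep (R.par (R.par y))) y (by omega)
      have hv2c : v2 ≠ R.c := by
        intro e
        rw [e, R.dep_c] at hv2
        omega
      set v1 := R.par v2 with hv1
      have hdv1 : R.dep v1 = 1 := by
        have h5 : R.dep v1 + 1 = R.dep v2 := R.dep_par v2 hv2c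
        omega
      have hv1c : v1 ≠ R.c := by
        intro e
        rw [e, R.dep_c] at hdv1
        omega
      have hpv1 : R.par v1 = R.c := by
        apply dm_dep_zero R
        have := R.dep_par v1 hv1c
        omega
      -- the depth of `y` is at least three
      have hdy : 3 ≤ R.dep y := by
        by_contra hcon
        have h5 : R.dep y = 2 := by
          have h6 : R.dep (R.par y) ≠ 0 := fun e => hpy (dm_dep_zero R e)
          omega
        rw [h5] at hyo
        revert hyo
        decide
      have hyv1 : y ≠ v1 := by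
        intro e
        rw [e] at hdy
        omega
      have hyv2 : y ≠ v2 := by
        intro e
        rw [e] at hdy
        omega
      have hv12 : v1 ≠ v2 := by
        intro e
        rw [e] at hdv1
        omega
      have hv1I : v1 ∈ I := hparI v2 hv2c
      have hv2I : v2 ∈ I := by
        rw [hI, mem_filter]
        refine ⟨mem_univ _, ?_, ?_⟩
        · intro h3
          exact hv1c (hlx v2 h3).2.1
        · intro h3
          exact hyv1 (hly v2 h3).2.1.symm
      have hc0 : (R.dep R.c : ZMod 2) = 0 := by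
        rw [R.dep_c]; rfl
      have hz1 : (R.dep v1 : ZMod 2) = 1 := by
        rw [hdv1]; rfl
      have hz2 : (R.dep v2 : ZMod 2) = 0 := by
        rw [hv2]; rfl
      set lab : U → ℕ := fun u => if u = R.c then 0 else if u = y then 2 else 1 with hlab
      have l0 : lab R.c = 0 := by simp [hlab]
      have ly : lab y = 2 := by simp [hlab, hyc]
      have l1 : lab v1 = 1 := by simp [hlab, hv1c, hyv1.symm]
      have l2 : lab v2 = 1 := by simp [hlab, hv2c, hyv2.symm]
      refine ⟨{R.c, v1, v2, y}, lab, ?_, ?_⟩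
      · intro u hu
        simp only [mem_insert, mem_singleton] at hu
        rcases hu with rfl | rfl | rfl | rfl
        · exact hcI
        · exact hv1I
        · exact hv2I
        · exact hyI
      · have hmem : ∀ u, u ∈ ({R.c, v1, v2, y} : Finset U) ↔ u = R.c ∨ u = v1 ∨ u = v2 ∨ u = y := by
          intro u
          simp only [mem_insert, mem_singleton]
        have hpy1 : R.par y ≠ v1 := by
          intro e
          rw [e] at hd1
          omega
        -- the type of `y`, if it is one
        have hty : R.par y ∈ ({R.c, v1, v2, y} : Finset U) → lab y + lab (R.par y) = 3 := by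
          intro h3
          rw [hmem] at h3
          rcases h3 with h3 | h3 | h3 | h3
          · exact absurd h3 hpy
          · exact absurd h3 hpy1
          · rw [h3, ly, l2]
          · exact absurd h3 (dm_par_ne R hyc)
        have ht1 : lab v1 + lab (R.par v1) = 1 := by rw [hpv1, l1, l0]
        have ht2 : lab v2 + lab (R.par v2) = 2 := by rw [← hv1, l1, l2]
        refine ⟨by simp, by simp, ?_, ?_, ?_, ?_, ?_⟩
        · intro u hu huc huy
          rw [hmem] at hu ⊢
          rcases hu with hu | hu | hu | hu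
          · exact absurd hu huc
          · rw [hu]; exact Or.inl hpv1
          · rw [hu]; exact Or.inr (Or.inl rfl)
          · exact absurd hu huy
        · intro u _
          simp only [hlab]
          split_ifs <;> omega
        · intro u hu v hv hd he
          rw [hmem] at hu hv
          rcases hu with hu | hu | hu | hu <;> rcases hv with hv | hv | hv | hv <;>
            subst hu <;> subst hv <;> first
              | rfl
              | (exfalso; simp only [hc0, hz1, hz2, hyo] at hd; revert hd; decide)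
              | (exfalso; simp only [l0, l1, l2, ly] at he; omega)
        · intro u hu v hv huc hvc hpu hpv he
          rw [hmem] at hu hv
          have tu : (u = v1 ∧ lab u + lab (R.par u) = 1) ∨ (u = v2 ∧ lab u + lab (R.par u) = 2) ∨
              (u = y ∧ lab u + lab (R.par u) = 3) := by
            rcases hu with hu | hu | hu | hu
            · exact absurd hu huc
            · left; exact ⟨hu, by rw [hu]; exact ht1⟩
            · right; left; exact ⟨hu, by rw [hu]; exact ht2⟩
            · right; right; exact ⟨hu, by rw [hu] at hpu ⊢; exact hty hpu⟩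
          have tv : (v = v1 ∧ lab v + lab (R.par v) = 1) ∨ (v = v2 ∧ lab v + lab (R.par v) = 2) ∨
              (v = y ∧ lab v + lab (R.par v) = 3) := by
            rcases hv with hv | hv | hv | hv
            · exact absurd hv hvc
            · left; exact ⟨hv, by rw [hv]; exact ht1⟩
            · right; left; exact ⟨hv, by rw [hv]; exact ht2⟩
            · right; right; exact ⟨hv, by rw [hv] at hpv ⊢; exact hty hpv⟩
          rcases tu with ⟨a, b⟩ | ⟨a, b⟩ | ⟨a, b⟩ <;> rcases tv with ⟨c, d⟩ | ⟨c, d⟩ | ⟨c, d⟩ <;>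
            first
              | (exfalso; omega)
              | (rw [a, c])
        · intro u hu v hv hu0 hv1' he
          refine ⟨v2, by simp, hv2c, by rw [← hv1]; simp, ?_⟩
          rw [ht2]
          rw [l0, ly] at he
          rw [ly]
          rw [hmem] at hu hv
          have hlv : lab v ≤ 2 := by
            simp only [hlab]
            split_ifs <;> omega
          omega
  -- extend it to `I`
  obtain ⟨lab', h'⟩ := dm_loop R hyc (B := 3 * m + 2) I (fun u _ hu => hparI u hu) (by omega)
    _ A lab rfl hAI hA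
  have hout1 : R.out I 1 = lf T R.c := by
    ext w
    unfold RT.out
    rw [mem_filter, mem_sdiff, hI, mem_filter]
    constructor
    · rintro ⟨⟨_, h3⟩, h4⟩
      by_contra h5
      apply h3
      refine ⟨mem_univ _, h5, ?_⟩
      intro h6
      rw [(hly w h6).2.2] at h4
      revert h4
      decide
    · intro h3
      exact ⟨⟨mem_univ _, fun h4 => h4.2.1 h3⟩, (hlx w h3).2.2⟩
  have hout0 : R.out I 0 = lf T y := by
    ext w
    unfold RT.out
    rw [mem_filter, mem_sdiff, hI, mem_filter]
    constructor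
    · rintro ⟨⟨_, h3⟩, h4⟩
      by_contra h5
      apply h3
      refine ⟨mem_univ _, ?_, h5⟩
      intro h6
      rw [(hlx w h6).2.2] at h4
      revert h4
      decide
    · intro h3
      exact ⟨⟨mem_univ _, fun h4 => h4.2.2 h3⟩, (hly w h3).2.2⟩
  -- the forbidden types
  have hf1 : ∀ t ∈ R.forb I lab' 1, ∃ u ∈ I, (R.dep u : ZMod 2) = 1 ∧ t = lab' R.c + lab' u := by
    intro t ht
    unfold RT.forb at ht
    rw [hout1, mem_image] at ht
    obtain ⟨⟨p, v⟩, hpv, rfl⟩ := ht
    rw [mem_product, mem_filter] at hpv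
    refine ⟨v, hpv.2.1, hpv.2.2, ?_⟩
    simp only
    rw [(hlx p hpv.1).2.1]
  have hf0 : ∀ t ∈ R.forb I lab' 0, ∃ u ∈ I, (R.dep u : ZMod 2) = 0 ∧ t = lab' y + lab' u := by
    intro t ht
    unfold RT.forb at ht
    rw [hout0, mem_image] at ht
    obtain ⟨⟨p, v⟩, hpv, rfl⟩ := ht
    rw [mem_product, mem_filter] at hpv
    refine ⟨v, hpv.2.1, hpv.2.2, ?_⟩
    simp only
    rw [(hly p hpv.1).2.1]
  refine ⟨R, I, lab', hcI, fun u _ hu => hparI u hu, ?_, h'.i1, ?_, ?_, ?_, ?_, ?_⟩
  · intro u hu
    exact hparI u (fun e => hu (e ▸ hcI))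
  · intro u hu v hv _
    have h3 := h'.bd u hu
    have h4 := h'.bd v hv
    omega
  · intro u hu v hv huc hvc he
    exact h'.i2 u hu v hv huc hvc (hparI u huc) (hparI v hvc) he
  · rw [disjoint_left]
    intro t ht ht'
    rw [mem_sdiff] at ht ht'
    obtain ⟨u, hu, hu0, e1⟩ := hf0 t ht.1
    obtain ⟨v, hv, hv1, e2⟩ := hf1 t ht'.1
    obtain ⟨w, hw, hwc, _, hw2⟩ := h'.i3 u hu v hv hu0 hv1 (by rw [← e2, ← e1])
    apply ht.2
    unfold RT.types
    rw [mem_image]
    exact ⟨w, mem_erase.mpr ⟨hwc, hw⟩, by rw [hw2, e1]⟩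
  · rw [hout1]
    refine le_trans ?_ h1
    refine le_trans ?_ hIm
    refine (card_le_card sdiff_subset).trans ?_
    refine le_trans (card_le_card (t := I.image (fun u => lab' y + lab' u)) ?_) card_image_le
    intro t ht
    obtain ⟨u, hu, _, e⟩ := hf0 t ht
    exact mem_image.mpr ⟨u, hu, e.symm⟩
  · rw [hout0]
    refine le_trans ?_ h2
    refine le_trans ?_ hIm
    refine (card_le_card sdiff_subset).trans ?_
    refine le_trans (card_le_card (t := I.image (fun u => lab' R.c + lab' u)) ?_) card_image_le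
    intro t ht
    obtain ⟨u, hu, _, e⟩ := hf1 t ht
    exact mem_image.mpr ⟨u, hu, e.symm⟩

end Pool.Agent.Lib.MP_c5b475_co
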