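import Pool.Agent.Lib.MP_c5b475_co.Few.DefsB

set_option autoImplicit false

/-!
# Closed blocks: placement steps `step_root`, `step_other`
-/

namespace Pool.Agent.Lib.MP_c5b475_co

open Finset

section steps

variable {U : Type*} [DecidableEq U] {T : SimpleGraph U} {R : RT T} {m : ℕ} [NeZero m]
  {B : Finset U} {lab : U → ZMod m}

/-- a value outside a small set of residues -/
theorem ST2_avoid {S : Finset (ZMod m)} (h : S.card < m) : ∃ q, q ∉ S := by
  by_contra hno
  push Not at hno
  have h1 : (Finset.univ : Finset (ZMod m)).card ≤ S.card :=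
    Finset.card_le_card (fun x _ => hno x)
  rw [Finset.card_univ, ZMod.card] at h1
  omega

/-- ST. A new child `y` of the root. -/
theorem step_root (hP : R.Placed B lab) (hB : 5 * B.card < m) {y : U} (hy : y ∉ B)
    (hyc : R.par y = R.c) (hne : y ≠ R.c) :
    ∃ lab' : U → ZMod m, (∀ w ∈ B, lab' w = lab w) ∧ R.Placed (insert y B) lab' := by
  obtain ⟨q, hq⟩ := ST2_avoid (m := m) (S := B.image (fun u => lab u + lab (R.par u)))
    (by have := Finset.card_image_le (s := B) (f := fun u => lab u + lab (R.par u)); omega)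
  have hq1 : ∀ u ∈ B, lab u + lab (R.par u) ≠ q := by
    intro u hu h
    exact hq (Finset.mem_image.mpr ⟨u, hu, h⟩)
  have hdep : (R.dep y : ZMod 2) = 1 := by
    have h1 := R.dep_par y hne
    rw [hyc, R.dep_c] at h1
    rw [← h1]; norm_num
  have hq2 : ∀ w ∈ B, (R.dep w : ZMod 2) = 1 → lab w ≠ q := by
    intro w hw hd h
    obtain ⟨u, hu, -, hu2⟩ := hP.closed w hw hd
    exact hq1 u hu (hu2.trans h)
  have hold : ∀ w ∈ B, Function.update lab y q w = lab w := by
    intro w hw
    rw [Function.update_of_ne]
    rintro rfl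
    exact hy hw
  have hnew : Function.update lab y q y = q := Function.update_self ..
  have hpar0 : Function.update lab y q (R.par y) = 0 := by
    rw [hyc, hold _ hP.root_mem, hP.root_lab]
  refine ⟨Function.update lab y q, hold, ?_⟩
  refine
    { root_mem := Finset.mem_insert_of_mem hP.root_mem
      par_mem := ?_
      root_lab := by rw [hold _ hP.root_mem, hP.root_lab]
      inj := ?_
      ty_inj := ?_
      closed := ?_ }
  · intro u hu0 huc
    rcases Finset.mem_insert.mp hu0 with rfl | hu
    · rw [hyc]; exact Finset.mem_insert_of_mem hP.root_mem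
    · exact Finset.mem_insert_of_mem (hP.par_mem u hu huc)
  · intro u hu0 v hv0 hd hl
    rcases Finset.mem_insert.mp hu0 with rfl | hu
    · rcases Finset.mem_insert.mp hv0 with rfl | hv
      · rfl
      · rw [hnew, hold v hv] at hl
        exact absurd hl.symm (hq2 v hv (by rw [← hd]; exact hdep))
    · rcases Finset.mem_insert.mp hv0 with rfl | hv
      · rw [hnew, hold u hu] at hl
        exact absurd hl (hq2 u hu (by rw [hd]; exact hdep))
      · rw [hold u hu, hold v hv] at hl
        exact hP.inj u hu v hv hd hl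
  · intro u hu0 v hv0 huc hvc hl
    rcases Finset.mem_insert.mp hu0 with rfl | hu
    · rcases Finset.mem_insert.mp hv0 with rfl | hv
      · rfl
      · rw [hnew, hpar0, add_zero, hold v hv, hold _ (hP.par_mem v hv hvc)] at hl
        exact absurd hl.symm (hq1 v hv)
    · rcases Finset.mem_insert.mp hv0 with rfl | hv
      · rw [hnew, hpar0, add_zero, hold u hu, hold _ (hP.par_mem u hu huc)] at hl
        exact absurd hl (hq1 u hu)
      · rw [hold u hu, hold v hv, hold _ (hP.par_mem v hv hvc), hold _ (hP.par_mem u hu huc)] at hl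
        exact hP.ty_inj u hu v hv huc hvc hl
  · intro v hv0 hd
    rcases Finset.mem_insert.mp hv0 with rfl | hv
    · exact ⟨v, Finset.mem_insert_self _ _, hne, by rw [hpar0, add_zero]⟩
    · obtain ⟨u, hu, huc, hu2⟩ := hP.closed v hv hd
      exact ⟨u, Finset.mem_insert_of_mem hu, huc, by
        rw [hold u hu, hold v hv, hold _ (hP.par_mem u hu huc)]; exact hu2⟩

/-- ST. A new vertex `v` of odd depth, whose label is the type of the edge of a new vertex `z` of
even depth and its parent. -/
theorem step_other (hP : R.Placed B lab) (hB : 5 * B.card < m) {v z : U} (hv : v ∉ B)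
    (hpv : R.par v ∈ B) (hpc : R.par v ≠ R.c) (hvc : v ≠ R.c) (hdv : (R.dep v : ZMod 2) = 1)
    (hz : z ∉ B) (hpz : R.par z ∈ B) (hdz : (R.dep z : ZMod 2) = 0) :
    ∃ lab' : U → ZMod m, (∀ w ∈ B, lab' w = lab w) ∧ R.Placed (insert v (insert z B)) lab' := by
  have hzc : z ≠ R.c := by
    rintro rfl
    exact hz hP.root_mem
  have h01 : (0 : ZMod 2) ≠ 1 := by decide
  have hvz : v ≠ z := by
    rintro rfl
    rw [hdz] at hdv
    exact h01 hdv
  set S1 := B.image (fun u => lab u + lab (R.par u)) with hS1
  set S2 := B.image (fun w => lab w + lab (R.par z)) with hS2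
  set S3 := B.image (fun u => lab u + lab (R.par u) - lab (R.par v)) with hS3
  have c1 : S1.card ≤ B.card := Finset.card_image_le
  have c2 : S2.card ≤ B.card := Finset.card_image_le
  have c3 : S3.card ≤ B.card := Finset.card_image_le
  obtain ⟨q, hq⟩ := ST2_avoid (m := m) (S := S1 ∪ (S2 ∪ S3)) (by
    have h1 := Finset.card_union_le S1 (S2 ∪ S3)
    have h2 := Finset.card_union_le S2 S3
    omega)
  rw [Finset.mem_union, Finset.mem_union, not_or, not_or] at hq
  obtain ⟨hq1', hq2', hq3'⟩ := hq
  have hq1 : ∀ u ∈ B, lab u + lab (R.par u) ≠ q := by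
    intro u hu h
    exact hq1' (Finset.mem_image.mpr ⟨u, hu, h⟩)
  have hq2 : ∀ w ∈ B, lab w ≠ q - lab (R.par z) := by
    intro w hw h
    exact hq2' (Finset.mem_image.mpr ⟨w, hw, by rw [h]; ring⟩)
  have hq3 : ∀ u ∈ B, lab u + lab (R.par u) ≠ q + lab (R.par v) := by
    intro u hu h
    exact hq3' (Finset.mem_image.mpr ⟨u, hu, by rw [h]; ring⟩)
  have hpv0 : lab (R.par v) ≠ 0 := by
    intro h
    apply hpc
    apply hP.inj _ hpv _ hP.root_mem
    · have h1 := R.dep_par v hvc
      rw [← h1] at hdv
      push_cast at hdv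
      rw [R.dep_c]
      have h2 : (R.dep (R.par v) : ZMod 2) + 1 = 0 + 1 := by rw [hdv]; ring
      rw [add_right_cancel h2]; norm_num
    · rw [h, hP.root_lab]
  have hodd : ∀ w ∈ B, (R.dep w : ZMod 2) = 1 → lab w ≠ q := by
    intro w hw hd h
    obtain ⟨u, hu, -, hu2⟩ := hP.closed w hw hd
    exact hq1 u hu (hu2.trans h)
  set lab' := Function.update (Function.update lab z (q - lab (R.par z))) v q with hlab'
  have hold : ∀ w ∈ B, lab' w = lab w := by
    intro w hw
    rw [hlab', Function.update_of_ne, Function.update_of_ne]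
    · rintro rfl; exact hz hw
    · rintro rfl; exact hv hw
  have hnv : lab' v = q := Function.update_self ..
  have hnz : lab' z = q - lab (R.par z) := by
    rw [hlab', Function.update_of_ne (Ne.symm hvz), Function.update_self]
  -- types
  have tv : lab' v + lab' (R.par v) = q + lab (R.par v) := by rw [hnv, hold _ hpv]
  have tz : lab' z + lab' (R.par z) = q := by rw [hnz, hold _ hpz]; ring
  have tB : ∀ u ∈ B, u ≠ R.c → lab' u + lab' (R.par u) = lab u + lab (R.par u) := by
    intro u hu huc
    rw [hold u hu, hold _ (hP.par_mem u hu huc)]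
  have hmem : ∀ u, u ∈ insert v (insert z B) → u = v ∨ u = z ∨ u ∈ B := by
    intro u hu
    rcases Finset.mem_insert.mp hu with h | h
    · exact Or.inl h
    · exact Or.inr (Finset.mem_insert.mp h)
  have hsub : ∀ u ∈ B, u ∈ insert v (insert z B) := fun u hu =>
    Finset.mem_insert_of_mem (Finset.mem_insert_of_mem hu)
  refine ⟨lab', hold, ?_⟩
  refine
    { root_mem := hsub _ hP.root_mem
      par_mem := ?_
      root_lab := by rw [hold _ hP.root_mem, hP.root_lab]
      inj := ?_
      ty_inj := ?_
      closed := ?_ }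
  · intro u hu0 huc
    rcases hmem u hu0 with rfl | rfl | hu
    · exact hsub _ hpv
    · exact hsub _ hpz
    · exact hsub _ (hP.par_mem u hu huc)
  · intro u hu0 w hw0 hd hl
    rcases hmem u hu0 with rfl | rfl | hu
    · rcases hmem w hw0 with rfl | rfl | hw
      · rfl
      · rw [hdv, hdz] at hd
        exact absurd hd.symm h01
      · rw [hnv, hold w hw] at hl
        exact absurd hl.symm (hodd w hw (by rw [← hd]; exact hdv))
    · rcases hmem w hw0 with rfl | rfl | hw
      · rw [hdv, hdz] at hd
        exact absurd hd h01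
      · rfl
      · rw [hnz, hold w hw] at hl
        exact absurd hl.symm (hq2 w hw)
    · rcases hmem w hw0 with rfl | rfl | hw
      · rw [hnv, hold u hu] at hl
        exact absurd hl (hodd u hu (by rw [hd]; exact hdv))
      · rw [hnz, hold u hu] at hl
        exact absurd hl (hq2 u hu)
      · rw [hold u hu, hold w hw] at hl
        exact hP.inj u hu w hw hd hl
  · intro u hu0 w hw0 huc hwc hl
    rcases hmem u hu0 with rfl | rfl | hu
    · rcases hmem w hw0 with rfl | rfl | hw
      · rfl
      · rw [tv, tz] at hl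
        exact absurd (add_eq_left.mp hl) hpv0
      · rw [tv, tB w hw hwc] at hl
        exact absurd hl.symm (hq3 w hw)
    · rcases hmem w hw0 with rfl | rfl | hw
      · rw [tv, tz] at hl
        exact absurd (add_eq_left.mp hl.symm) hpv0
      · rfl
      · rw [tz, tB w hw hwc] at hl
        exact absurd hl.symm (hq1 w hw)
    · rcases hmem w hw0 with rfl | rfl | hw
      · rw [tv, tB u hu huc] at hl
        exact absurd hl (hq3 u hu)
      · rw [tz, tB u hu huc] at hl
        exact absurd hl (hq1 u hu)
      · rw [tB u hu huc, tB w hw hwc] at hl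
        exact hP.ty_inj u hu w hw huc hwc hl
  · intro u hu0 hd
    rcases hmem u hu0 with rfl | rfl | hu
    · exact ⟨z, Finset.mem_insert_of_mem (Finset.mem_insert_self _ _), hzc, by rw [tz, hnv]⟩
    · rw [hdz] at hd
      exact absurd hd h01
    · obtain ⟨w, hw, hwc, hw2⟩ := hP.closed u hu hd
      exact ⟨w, hsub w hw, hwc, by rw [tB w hw hwc, hold u hu]; exact hw2⟩

end steps

end Pool.Agent.Lib.MP_c5b475_co
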