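import Pool.Agent.Lib.MP_c5b475_co.Few.ST1
import Pool.Agent.Lib.MP_c5b475_co.Few.ST2

set_option autoImplicit false

/-!
# Closed blocks: placement
-/

namespace Pool.Agent.Lib.MP_c5b475_co

open Finset

namespace PLaux

theorem par_cast {U : Type*} {T : SimpleGraph U} (R : RT T) {u : U} (hu : u ≠ R.c) :
    (R.dep u : ZMod 2) = (R.dep (R.par u) : ZMod 2) + 1 := by
  rw [← R.dep_par u hu]; push_cast; ring

theorem z2 : ∀ a b : ZMod 2, a = b + 1 → (a = 0 ↔ b = 1) ∧ (a = 1 ↔ b = 0) := by decide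

theorem z2' : ∀ a : ZMod 2, a ≠ 1 → a = 0 := by decide

theorem even_par {U : Type*} {T : SimpleGraph U} (R : RT T) {u : U} (hu : u ≠ R.c)
    (h : (R.dep u : ZMod 2) = 1) : (R.dep (R.par u) : ZMod 2) = 0 :=
  (z2 _ _ (par_cast R hu)).2.mp h

theorem odd_par {U : Type*} {T : SimpleGraph U} (R : RT T) {u : U} (hu : u ≠ R.c)
    (h : (R.dep u : ZMod 2) = 0) : (R.dep (R.par u) : ZMod 2) = 1 :=
  (z2 _ _ (par_cast R hu)).1.mp h

theorem odd_child {U : Type*} {T : SimpleGraph U} (R : RT T) {u : U} (hu : u ≠ R.c)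
    (h : (R.dep (R.par u) : ZMod 2) = 0) : (R.dep u : ZMod 2) = 1 :=
  (z2 _ _ (par_cast R hu)).2.mpr h

theorem even_child {U : Type*} {T : SimpleGraph U} (R : RT T) {u : U} (hu : u ≠ R.c)
    (h : (R.dep (R.par u) : ZMod 2) = 1) : (R.dep u : ZMod 2) = 0 :=
  (z2 _ _ (par_cast R hu)).1.mpr h

theorem not_both {a : ZMod 2} (h : a = 0) (h' : a = 1) : False := by
  rw [h] at h'; exact absurd h' (by decide)

variable {U : Type*} [DecidableEq U] {T : SimpleGraph U}

/-- `x` has a child in `A`. -/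
def HasCh (R : RT T) (A : Finset U) (x : U) : Prop := ∃ w ∈ A, w ≠ R.c ∧ R.par w = x

open Classical in
/-- Good partial sets. -/
structure Good (R : RT T) (A : Finset U) (fst : U → U) (m : ℕ) (B : Finset U) : Prop where
  sub : B ⊆ A
  ex : ∃ lab : U → ZMod m, R.Placed B lab
  fst_mem : ∀ x ∈ B, (R.dep x : ZMod 2) = 0 → x ≠ R.c → HasCh R A x → fst x ∈ B
  le : (B.filter (fun x => x ≠ R.c ∧ ¬ HasCh R A x)).card ≤
    (B.filter (fun v => (R.dep v : ZMod 2) = 1 ∧ R.par v ≠ R.c ∧ v ≠ fst (R.par v))).card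

variable {R : RT T} {A : Finset U} {fst : U → U} {m : ℕ} [NeZero m]

theorem card_lt {B : Finset U} (hs : B ⊆ A) (hm : 5 * A.card ≤ m) {u : U} (hu : u ∈ A)
    (hu' : u ∉ B) : 5 * B.card < m := by
  have : B ⊂ A := by
    refine Finset.ssubset_iff_subset_ne.mpr ⟨hs, ?_⟩
    rintro rfl
    exact hu' hu
  have := Finset.card_lt_card this
  omega

/-- Case (i). -/
theorem grow_first (hfst : ∀ x, HasCh R A x → fst x ∈ A ∧ fst x ≠ R.c ∧ R.par (fst x) = x)
    (hch : ∀ v ∈ A, (R.dep v : ZMod 2) = 1 → HasCh R A v)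
    (hm : 5 * A.card ≤ m) {B : Finset U} (hB : Good R A fst m B) {u : U} (huA : u ∈ A)
    (hu : u ∉ B) (hp : R.par u ∈ B) (hd : (R.dep u : ZMod 2) = 0) (hc : HasCh R A u) :
    ∃ B', Good R A fst m B' ∧ B.card < B'.card := by
  classical
  obtain ⟨lab, hP⟩ := hB.ex
  obtain ⟨f1, f2, f3⟩ := hfst u hc
  have hfB : fst u ∉ B := fun h => hu (by have := hP.par_mem _ h f2; rwa [f3] at this)
  have hfodd : (R.dep (fst u) : ZMod 2) = 1 := odd_child R f2 (by rw [f3]; exact hd)
  obtain ⟨lab', -, hP'⟩ := step_first hP (card_lt hB.sub hm huA hu) hu hp hd hfB f3 f2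
  refine ⟨insert (fst u) (insert u B), ⟨?_, ⟨lab', hP'⟩, ?_, ?_⟩, ?_⟩
  · intro x hx
    rcases Finset.mem_insert.mp hx with rfl | hx
    · exact f1
    · rcases Finset.mem_insert.mp hx with rfl | hx
      · exact huA
      · exact hB.sub hx
  · intro x hx hx0 hxc hxh
    rcases Finset.mem_insert.mp hx with rfl | hx
    · exact (not_both hx0 hfodd).elim
    · rcases Finset.mem_insert.mp hx with rfl | hx
      · exact Finset.mem_insert_self _ _
      · exact Finset.mem_insert_of_mem (Finset.mem_insert_of_mem (hB.fst_mem x hx hx0 hxc hxh))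
  · refine le_trans (le_trans (Finset.card_le_card ?_) hB.le) (Finset.card_le_card ?_)
    · intro x hx
      simp only [Finset.mem_filter] at hx ⊢
      refine ⟨?_, hx.2⟩
      rcases Finset.mem_insert.mp hx.1 with rfl | hx'
      · exact absurd (hch _ f1 hfodd) hx.2.2
      · rcases Finset.mem_insert.mp hx' with rfl | hx'
        · exact absurd hc hx.2.2
        · exact hx'
    · apply Finset.filter_subset_filter
      intro x hx
      exact Finset.mem_insert_of_mem (Finset.mem_insert_of_mem hx)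
  · refine Finset.card_lt_card (Finset.ssubset_iff_subset_ne.mpr ⟨?_, ?_⟩)
    · intro x hx
      exact Finset.mem_insert_of_mem (Finset.mem_insert_of_mem hx)
    · intro h
      exact hu (h ▸ Finset.mem_insert_of_mem (Finset.mem_insert_self _ _))

/-- Case (ii). -/
theorem grow_root (hch : ∀ v ∈ A, (R.dep v : ZMod 2) = 1 → HasCh R A v)
    (hm : 5 * A.card ≤ m) {B : Finset U} (hB : Good R A fst m B) {y : U} (hyA : y ∈ A)
    (hy : y ∉ B) (hyc : R.par y = R.c) (hne : y ≠ R.c) :
    ∃ B', Good R A fst m B' ∧ B.card < B'.card := by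
  classical
  obtain ⟨lab, hP⟩ := hB.ex
  have hodd : (R.dep y : ZMod 2) = 1 := odd_child R hne (by rw [hyc, R.dep_c]; simp)
  obtain ⟨lab', -, hP'⟩ := step_root hP (card_lt hB.sub hm hyA hy) hy hyc hne
  refine ⟨insert y B, ⟨?_, ⟨lab', hP'⟩, ?_, ?_⟩, ?_⟩
  · intro x hx
    rcases Finset.mem_insert.mp hx with rfl | hx
    · exact hyA
    · exact hB.sub hx
  · intro x hx hx0 hxc hxh
    rcases Finset.mem_insert.mp hx with rfl | hx
    · exact (not_both hx0 hodd).elim
    · exact Finset.mem_insert_of_mem (hB.fst_mem x hx hx0 hxc hxh)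
  · refine le_trans (le_trans (Finset.card_le_card ?_) hB.le) (Finset.card_le_card ?_)
    · intro x hx
      simp only [Finset.mem_filter] at hx ⊢
      refine ⟨?_, hx.2⟩
      rcases Finset.mem_insert.mp hx.1 with rfl | hx'
      · exact absurd (hch _ hyA hodd) hx.2.2
      · exact hx'
    · apply Finset.filter_subset_filter
      intro x hx
      exact Finset.mem_insert_of_mem hx
  · rw [Finset.card_insert_of_notMem hy]; omega

/-- Case (iii). -/
theorem grow_other (hch : ∀ v ∈ A, (R.dep v : ZMod 2) = 1 → HasCh R A v)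
    (hm : 5 * A.card ≤ m) {B : Finset U} (hB : Good R A fst m B) {v z : U} (hvA : v ∈ A)
    (hv : v ∉ B) (hpv : R.par v ∈ B) (hpc : R.par v ≠ R.c) (hvc : v ≠ R.c)
    (hdv : (R.dep v : ZMod 2) = 1) (hvf : v ≠ fst (R.par v))
    (hzA : z ∈ A) (hz : z ∉ B) (hpz : R.par z ∈ B)
    (hdz : (R.dep z : ZMod 2) = 0) (hzc : ¬ HasCh R A z) :
    ∃ B', Good R A fst m B' ∧ B.card < B'.card := by
  classical
  obtain ⟨lab, hP⟩ := hB.ex
  have hvz : v ≠ z := by
    rintro rfl
    exact not_both hdz hdv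
  obtain ⟨lab', -, hP'⟩ :=
    step_other hP (card_lt hB.sub hm hvA hv) hv hpv hpc hvc hdv hz hpz hdz
  refine ⟨insert v (insert z B), ⟨?_, ⟨lab', hP'⟩, ?_, ?_⟩, ?_⟩
  · intro x hx
    rcases Finset.mem_insert.mp hx with rfl | hx
    · exact hvA
    · rcases Finset.mem_insert.mp hx with rfl | hx
      · exact hzA
      · exact hB.sub hx
  · intro x hx hx0 hxc hxh
    rcases Finset.mem_insert.mp hx with rfl | hx
    · exact (not_both hx0 hdv).elim
    · rcases Finset.mem_insert.mp hx with rfl | hx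
      · exact absurd hxh hzc
      · exact Finset.mem_insert_of_mem (Finset.mem_insert_of_mem (hB.fst_mem x hx hx0 hxc hxh))
  · have h1 : ((insert v (insert z B)).filter (fun x => x ≠ R.c ∧ ¬ HasCh R A x)).card ≤
        (B.filter (fun x => x ≠ R.c ∧ ¬ HasCh R A x)).card + 1 := by
      refine le_trans (Finset.card_le_card (t := insert z
        (B.filter (fun x => x ≠ R.c ∧ ¬ HasCh R A x))) ?_) (Finset.card_insert_le _ _)
      intro x hx
      simp only [Finset.mem_filter] at hx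
      rw [Finset.mem_insert, Finset.mem_filter]
      rcases Finset.mem_insert.mp hx.1 with rfl | hx'
      · exact absurd (hch _ hvA hdv) hx.2.2
      · rcases Finset.mem_insert.mp hx' with rfl | hx'
        · exact Or.inl rfl
        · exact Or.inr ⟨hx', hx.2⟩
    have h2 : (B.filter (fun v => (R.dep v : ZMod 2) = 1 ∧ R.par v ≠ R.c ∧
        v ≠ fst (R.par v))).card + 1 ≤
        ((insert v (insert z B)).filter (fun v => (R.dep v : ZMod 2) = 1 ∧ R.par v ≠ R.c ∧
        v ≠ fst (R.par v))).card := by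
      rw [← Finset.card_insert_of_notMem (a := v)
        (s := B.filter (fun v => (R.dep v : ZMod 2) = 1 ∧ R.par v ≠ R.c ∧ v ≠ fst (R.par v)))
        (by simp [hv])]
      apply Finset.card_le_card
      intro x hx
      rw [Finset.mem_insert, Finset.mem_filter] at hx
      rw [Finset.mem_filter]
      rcases hx with rfl | hx
      · exact ⟨Finset.mem_insert_self _ _, hdv, hpc, hvf⟩
      · exact ⟨Finset.mem_insert_of_mem (Finset.mem_insert_of_mem hx.1), hx.2⟩
    have := hB.le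
    omega
  · have hv' : v ∉ insert z B := by
      rw [Finset.mem_insert]; push Not; exact ⟨hvz, hv⟩
    rw [Finset.card_insert_of_notMem hv', Finset.card_insert_of_notMem hz]; omega

/-- The counting claim. -/
theorem exists_free_child (hfst : ∀ x, HasCh R A x → fst x ∈ A ∧ fst x ≠ R.c ∧ R.par (fst x) = x)
    (hch : ∀ v ∈ A, (R.dep v : ZMod 2) = 1 → HasCh R A v)
    {B : Finset U} (hB : Good R A fst m B)
    (hr : ∃ y ∈ B, y ≠ R.c ∧ R.par y = R.c) :
    ∃ z ∈ A, z ∉ B ∧ z ≠ R.c ∧ R.par z ∈ B ∧ (R.dep (R.par z) : ZMod 2) = 1 := by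
  classical
  by_contra hcon
  push Not at hcon
  -- every child in `A` of an odd vertex of `B` lies in `B`
  have hall : ∀ z ∈ A, z ≠ R.c → R.par z ∈ B → (R.dep (R.par z) : ZMod 2) = 1 → z ∈ B := by
    intro z hz hzc hp hd
    by_contra hzB
    exact hcon z hz hzB hzc hp hd
  obtain ⟨lab, hP⟩ := hB.ex
  -- odd vertices of B inject to even non-root vertices
  have hE : (B.filter (fun y => (R.dep y : ZMod 2) = 1)).card ≤
      (B.filter (fun x => (R.dep x : ZMod 2) = 0 ∧ x ≠ R.c)).card := by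
    refine Finset.card_le_card_of_injOn fst ?_ ?_
    · intro y hy
      rw [Finset.mem_coe, Finset.mem_filter] at hy
      obtain ⟨f1, f2, f3⟩ := hfst y (hch y (hB.sub hy.1) hy.2)
      rw [Finset.mem_coe, Finset.mem_filter]
      refine ⟨hall _ f1 f2 (by rw [f3]; exact hy.1) (by rw [f3]; exact hy.2), ?_, f2⟩
      exact even_child R f2 (by rw [f3]; exact hy.2)
    · intro y hy y' hy' h
      rw [Finset.mem_coe, Finset.mem_filter] at hy hy'
      have g := (hfst y (hch y (hB.sub hy.1) hy.2)).2.2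
      have g' := (hfst y' (hch y' (hB.sub hy'.1) hy'.2)).2.2
      rw [← g, ← g', h]
  have hsplit : (B.filter (fun x => (R.dep x : ZMod 2) = 0 ∧ x ≠ R.c)).card ≤
      (B.filter (fun x => (R.dep x : ZMod 2) = 0 ∧ x ≠ R.c ∧ HasCh R A x)).card +
      (B.filter (fun x => x ≠ R.c ∧ ¬ HasCh R A x)).card := by
    refine le_trans (Finset.card_le_card ?_) (Finset.card_union_le _ _)
    intro x hx
    rw [Finset.mem_filter] at hx
    rw [Finset.mem_union, Finset.mem_filter, Finset.mem_filter]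
    by_cases h : HasCh R A x
    · exact Or.inl ⟨hx.1, hx.2.1, hx.2.2, h⟩
    · exact Or.inr ⟨hx.1, hx.2.2, h⟩
  have hO : (B.filter (fun x => (R.dep x : ZMod 2) = 0 ∧ x ≠ R.c ∧ HasCh R A x)).card +
      (B.filter (fun v => (R.dep v : ZMod 2) = 1 ∧ R.par v ≠ R.c ∧ v ≠ fst (R.par v))).card + 1 ≤
      (B.filter (fun y => (R.dep y : ZMod 2) = 1)).card := by
    obtain ⟨y0, hy0, hy0c, hy0p⟩ := hr
    have hy0o : (R.dep y0 : ZMod 2) = 1 := odd_child R hy0c (by rw [hy0p, R.dep_c]; simp)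
    have hi : (B.filter (fun x => (R.dep x : ZMod 2) = 0 ∧ x ≠ R.c ∧ HasCh R A x)).card =
        ((B.filter (fun x => (R.dep x : ZMod 2) = 0 ∧ x ≠ R.c ∧ HasCh R A x)).image fst).card := by
      rw [Finset.card_image_of_injOn]
      intro y hy y' hy' h
      rw [Finset.mem_coe, Finset.mem_filter] at hy hy'
      have g := (hfst y hy.2.2.2).2.2
      have g' := (hfst y' hy'.2.2.2).2.2
      rw [← g, ← g', h]
    rw [hi]
    rw [← Finset.card_union_of_disjoint, ← Finset.card_insert_of_notMem (a := y0)]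
    · apply Finset.card_le_card
      intro x hx
      rw [Finset.mem_insert, Finset.mem_union, Finset.mem_image, Finset.mem_filter] at hx
      rw [Finset.mem_filter]
      rcases hx with rfl | ⟨w, hw, rfl⟩ | hx
      · exact ⟨hy0, hy0o⟩
      · rw [Finset.mem_filter] at hw
        obtain ⟨f1, f2, f3⟩ := hfst w hw.2.2.2
        exact ⟨hB.fst_mem w hw.1 hw.2.1 hw.2.2.1 hw.2.2.2,
          odd_child R f2 (by rw [f3]; exact hw.2.1)⟩
      · exact ⟨hx.1, hx.2.1⟩
    · rw [Finset.mem_union, Finset.mem_image, Finset.mem_filter]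
      rintro (⟨w, hw, hwy⟩ | hx)
      · rw [Finset.mem_filter] at hw
        have f3 := (hfst w hw.2.2.2).2.2
        rw [hwy, hy0p] at f3
        exact hw.2.2.1 f3.symm
      · exact hx.2.2.1 hy0p
    · rw [Finset.disjoint_left]
      intro x hx hx'
      rw [Finset.mem_image] at hx
      obtain ⟨w, hw, rfl⟩ := hx
      rw [Finset.mem_filter] at hw hx'
      have f3 := (hfst w hw.2.2.2).2.2
      exact hx'.2.2.2 (by rw [f3])
  have := hB.le
  omega

/-- A set with a vertex different from the root has a child of the root. -/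
theorem exists_root_child (hpar : ∀ u ∈ A, u ≠ R.c → R.par u ∈ A) :
    ∀ u, u ∈ A → u ≠ R.c → ∃ y ∈ A, y ≠ R.c ∧ R.par y = R.c := by
  refine R.ind (P := fun u => u ∈ A → u ≠ R.c → ∃ y ∈ A, y ≠ R.c ∧ R.par y = R.c) ?_ ?_
  · intro _ h
    exact absurd rfl h
  · intro u hu ih huA _
    by_cases h : R.par u = R.c
    · exact ⟨u, huA, hu, h⟩
    · exact ih (hpar u huA hu) h

/-- A good set that misses an odd vertex of `A` can be enlarged. -/
theorem grow (hfst : ∀ x, HasCh R A x → fst x ∈ A ∧ fst x ≠ R.c ∧ R.par (fst x) = x)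
    (hpar : ∀ u ∈ A, u ≠ R.c → R.par u ∈ A)
    (hch : ∀ v ∈ A, (R.dep v : ZMod 2) = 1 → HasCh R A v)
    (hm : 5 * A.card ≤ m) {B : Finset U} (hB : Good R A fst m B)
    (hodd : ∃ v ∈ A, v ∉ B ∧ (R.dep v : ZMod 2) = 1) :
    ∃ B', Good R A fst m B' ∧ B.card < B'.card := by
  classical
  obtain ⟨lab, hP⟩ := hB.ex
  by_cases h1 : ∃ u ∈ A, u ∉ B ∧ R.par u ∈ B ∧ (R.dep u : ZMod 2) = 0 ∧ HasCh R A u
  · obtain ⟨u, a1, a2, a3, a4, a5⟩ := h1
    exact grow_first hfst hch hm hB a1 a2 a3 a4 a5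
  by_cases h2 : ∃ y ∈ A, y ∉ B ∧ R.par y = R.c ∧ y ≠ R.c
  · obtain ⟨y, a1, a2, a3, a4⟩ := h2
    exact grow_root hch hm hB a1 a2 a3 a4
  push Not at h1 h2
  -- an odd vertex of minimal depth
  obtain ⟨v, hv, hmin⟩ := Finset.exists_min_image
    (A.filter (fun v => v ∉ B ∧ (R.dep v : ZMod 2) = 1)) R.dep (by
      obtain ⟨v, a, b, c⟩ := hodd
      exact ⟨v, Finset.mem_filter.mpr ⟨a, b, c⟩⟩)
  rw [Finset.mem_filter] at hv
  obtain ⟨hvA, hvB, hvo⟩ := hv
  have hvc : v ≠ R.c := by
    rintro rfl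
    exact hvB hP.root_mem
  have hpA : R.par v ∈ A := hpar v hvA hvc
  have hpe : (R.dep (R.par v) : ZMod 2) = 0 := even_par R hvc hvo
  have hpH : HasCh R A (R.par v) := ⟨v, hvA, hvc, rfl⟩
  have hpB : R.par v ∈ B := by
    by_contra hp
    have hpc : R.par v ≠ R.c := by
      intro h
      exact hp (by rw [h]; exact hP.root_mem)
    have hgo : (R.dep (R.par (R.par v)) : ZMod 2) = 1 := odd_par R hpc hpe
    have hgA : R.par (R.par v) ∈ A := hpar _ hpA hpc
    have hgB : R.par (R.par v) ∈ B := by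
      by_contra hg
      have := hmin _ (Finset.mem_filter.mpr ⟨hgA, hg, hgo⟩)
      have e1 := R.dep_par v hvc
      have e2 := R.dep_par _ hpc
      omega
    exact h1 _ hpA hp hgB hpe hpH
  have hpc : R.par v ≠ R.c := by
    intro h
    exact hvc (h2 v hvA hvB h)
  have hvf : v ≠ fst (R.par v) := by
    intro h
    exact hvB (h ▸ hB.fst_mem _ hpB hpe hpc hpH)
  obtain ⟨y, hyA, hyc, hyp⟩ := exists_root_child hpar v hvA hvc
  have hyB : y ∈ B := by
    by_contra hy
    exact hyc (h2 y hyA hy hyp)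
  obtain ⟨z, hzA, hzB, hzc, hpz, hpzo⟩ := exists_free_child hfst hch hB ⟨y, hyB, hyc, hyp⟩
  have hze : (R.dep z : ZMod 2) = 0 := even_child R hzc hpzo
  exact grow_other hch hm hB hvA hvB hpB hpc hvc hvo hvf hzA hzB hpz hze
    (h1 z hzA hzB hpz hze)

end PLaux

open PLaux in
/-- PL. Placement. -/
theorem placement {U : Type*} [DecidableEq U] {T : SimpleGraph U} (R : RT T) (A : Finset U)
    (hc : R.c ∈ A) (hpar : ∀ u ∈ A, u ≠ R.c → R.par u ∈ A)
    (hch : ∀ v ∈ A, (R.dep v : ZMod 2) = 1 → ∃ w ∈ A, w ≠ R.c ∧ R.par w = v) (m : ℕ) [NeZero m]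
    (hm : 5 * A.card ≤ m) : ∃ lab : U → ZMod m, R.Placed A lab := by
  classical
  let fst : U → U := fun x => if h : HasCh R A x then h.choose else x
  have hfst : ∀ x, HasCh R A x → fst x ∈ A ∧ fst x ≠ R.c ∧ R.par (fst x) = x := by
    intro x h
    simp only [fst, dif_pos h]
    exact h.choose_spec
  -- the start
  have hstart : Good R A fst m {R.c} := by
    refine ⟨by simpa using hc, ⟨fun _ => 0, ?_⟩, ?_, ?_⟩
    · refine ⟨by simp, ?_, rfl, ?_, ?_, ?_⟩
      · intro u hu hne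
        exact absurd (Finset.mem_singleton.mp hu) hne
      · intro u hu v hv _ _
        rw [Finset.mem_singleton.mp hu, Finset.mem_singleton.mp hv]
      · intro u hu v hv _ _ _
        rw [Finset.mem_singleton.mp hu, Finset.mem_singleton.mp hv]
      · intro v hv h
        rw [Finset.mem_singleton.mp hv, R.dep_c] at h
        exact absurd h (by decide)
    · intro x hx _ hne
      exact absurd (Finset.mem_singleton.mp hx) hne
    · rw [Finset.filter_false_of_mem]
      · simp
      · intro x hx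
        simp [Finset.mem_singleton.mp hx]
  obtain ⟨B, hB, hBmax⟩ := Finset.exists_max_image (A.powerset.filter (Good R A fst m))
    Finset.card ⟨{R.c}, Finset.mem_filter.mpr ⟨Finset.mem_powerset.mpr hstart.sub, hstart⟩⟩
  rw [Finset.mem_filter] at hB
  have hBodd : ∀ v ∈ A, (R.dep v : ZMod 2) = 1 → v ∈ B := by
    intro v hv hvo
    by_contra hvB
    obtain ⟨B', hB', hlt⟩ := grow hfst hpar hch hm hB.2 ⟨v, hv, hvB, hvo⟩
    have := hBmax B' (Finset.mem_filter.mpr ⟨Finset.mem_powerset.mpr hB'.sub, hB'⟩)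
    omega
  obtain ⟨C, hC, hCmax⟩ := Finset.exists_max_image
    (A.powerset.filter (fun C => B ⊆ C ∧ ∃ lab : U → ZMod m, R.Placed C lab))
    Finset.card ⟨B, Finset.mem_filter.mpr ⟨hB.1, Finset.Subset.refl _, hB.2.ex⟩⟩
  rw [Finset.mem_filter, Finset.mem_powerset] at hC
  obtain ⟨hCA, hBC, lab, hP⟩ := hC
  suffices hCeq : C = A by
    rw [← hCeq]
    exact ⟨lab, hP⟩
  by_contra hne
  obtain ⟨u, hu, hmin⟩ := Finset.exists_min_image (A \ C) R.dep (by
    rw [Finset.sdiff_nonempty]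
    intro h
    exact hne (Finset.Subset.antisymm hCA h))
  rw [Finset.mem_sdiff] at hu
  have huc : u ≠ R.c := by
    rintro rfl
    exact hu.2 hP.root_mem
  have hpC : R.par u ∈ C := by
    by_contra hp
    have := hmin _ (Finset.mem_sdiff.mpr ⟨hpar u hu.1 huc, hp⟩)
    have e1 := R.dep_par u huc
    omega
  have hue : (R.dep u : ZMod 2) = 0 := by
    apply z2'
    intro h
    exact hu.2 (hBC (hBodd u hu.1 h))
  obtain ⟨lab', -, hP'⟩ := step_even hP (card_lt hCA hm hu.1 hu.2) hu.2 hpC hue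
  have := hCmax (insert u C) (Finset.mem_filter.mpr ⟨Finset.mem_powerset.mpr (by
      intro x hx
      rcases Finset.mem_insert.mp hx with rfl | hx
      · exact hu.1
      · exact hCA hx), fun x hx => Finset.mem_insert_of_mem (hBC hx), lab', hP'⟩)
  rw [Finset.card_insert_of_notMem hu.2] at this
  omega

end Pool.Agent.Lib.MP_c5b475_co
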