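import Pool.Agent.Lib.MP_c5b475_co.Few.FIN
import Pool.Agent.Lib.MP_c5b475_co.Few.AS
import Pool.Agent.Lib.MP_c5b475_co.Few.PL

set_option autoImplicit false

/-!
# Dominated trees
-/

namespace Pool.Agent.Lib.MP_c5b475_co

open Finset

theorem do_zmod {a : ZMod 2} (h : a ≠ 0) : a = 1 := by
  revert a
  decide

open Classical in
/-- DO. Dominated trees have closed labellings. -/
theorem dominated {U : Type*} [Fintype U] [DecidableEq U] {T : SimpleGraph U} (hT : T.IsTree)
    (R : RT T) (hRc : IsInner T R.c) (N : ℕ)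
    (hN : (univ.filter (fun u => (R.dep u : ZMod 2) = 0)).card +
      (univ.filter (fun u => (R.dep u : ZMod 2) = 1 ∧ IsInner T u)).card ≤ N) (m : ℕ)
    (hm : 5 * N ≤ m) (hl : m ≤ (lf T R.c).card) : ClosedMod T m := by
  obtain ⟨A, hA⟩ : ∃ A : Finset U, A = univ.filter (fun u => (R.dep u : ZMod 2) = 0) ∪
    univ.filter (fun u => (R.dep u : ZMod 2) = 1 ∧ IsInner T u) := ⟨_, rfl⟩
  have hAN : A.card ≤ N := by
    rw [hA]
    exact (Finset.card_union_le _ _).trans hN
  have hmem : ∀ u, u ∈ A ↔ ((R.dep u : ZMod 2) = 0 ∨ ((R.dep u : ZMod 2) = 1 ∧ IsInner T u)) := by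
    intro u
    rw [hA, Finset.mem_union, Finset.mem_filter, Finset.mem_filter]
    simp
  have hmem' : ∀ u, IsInner T u → u ∈ A := by
    intro u hu
    rw [hmem]
    by_cases h : (R.dep u : ZMod 2) = 0
    · exact Or.inl h
    · exact Or.inr ⟨do_zmod h, hu⟩
  have hc : R.c ∈ A := hmem' _ hRc
  have hApos : 0 < A.card := Finset.card_pos.2 ⟨_, hc⟩
  have : NeZero m := ⟨by omega⟩
  have hpar : ∀ u ∈ A, u ≠ R.c → R.par u ∈ A := fun u _ hne => hmem' _ (fin_par_inner R hRc hne)
  have hch : ∀ v ∈ A, (R.dep v : ZMod 2) = 1 → ∃ w ∈ A, w ≠ R.c ∧ R.par w = v := by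
    intro v hv hd
    have hvi : IsInner T v := by
      rcases (hmem v).1 hv with h | h
      · rw [h] at hd
        exact absurd hd (by decide)
      · exact h.2
    have key : ∀ w, T.Adj v w → w ≠ R.par v → w ∈ A ∧ w ≠ R.c ∧ R.par w = v := by
      intro w hvw hwp
      rcases (R.adj_iff v w).1 hvw with ⟨_, h2⟩ | ⟨h1, h2⟩
      · exact absurd h2 hwp
      · refine ⟨?_, h1, h2.symm⟩
        rw [hmem]
        left
        have h3 := R.dep_par_cast h1
        rw [h3, ← h2, hd]
        decide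
    obtain ⟨x, y, hx, hy, hxy⟩ := hvi
    by_cases h : x = R.par v
    · exact ⟨y, key y hy (fun h' => hxy (h.trans h'.symm))⟩
    · exact ⟨x, key x hx h⟩
  obtain ⟨lab, hP⟩ := placement R A hc hpar hch m (by omega)
  refine closed_of_placed R A ?_ m lab hP ?_
  · intro u hu
    have h1 : (R.dep u : ZMod 2) ≠ 0 := fun h => hu ((hmem u).2 (Or.inl h))
    have h2 : ¬ IsInner T u := fun h => hu (hmem' u h)
    exact ⟨hmem' _ (fin_leaf R hRc h2).2.2, do_zmod h1⟩
  · have hsub : lf T R.c ⊆ univ.filter (fun u => u ∉ A ∧ R.par u = R.c) := by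
      intro w hw
      unfold lf at hw
      rw [Finset.mem_filter] at hw
      obtain ⟨_, hadj, hni⟩ := hw
      rw [Finset.mem_filter]
      refine ⟨Finset.mem_univ _, ?_⟩
      rcases (R.adj_iff R.c w).1 hadj with ⟨h1, _⟩ | ⟨h1, h2⟩
      · exact absurd rfl h1
      · refine ⟨?_, h2.symm⟩
        rw [hmem]
        rintro (h | h)
        · rw [R.dep_par_cast h1, ← h2, R.dep_c] at h
          revert h
          decide
        · exact hni h.2
    have := Finset.card_le_card hsub
    omega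

end Pool.Agent.Lib.MP_c5b475_co
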