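import Pool.Agent.Lib.MP_c5b475_co.Few.Defs

set_option autoImplicit false

/-!
# Closed blocks: definitions
-/

namespace Pool.Agent.Lib.MP_c5b475_co

open Finset

/-- `T` has a closed labelling modulo `m`: a core `I` with `m` edges, every vertex outside `I` being
a leaf of odd depth attached to `I`, labelled modulo `m` injectively on each parity class and such
that the edges of the core have all types `0, …, m - 1`, each once. -/
def ClosedMod {U : Type*} [Fintype U] [DecidableEq U] (T : SimpleGraph U) (m : ℕ) : Prop :=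
  ∃ (R : RT T) (I : Finset U) (lab : U → ZMod m), R.c ∈ I ∧
    (∀ u ∈ I, u ≠ R.c → R.par u ∈ I) ∧
    (∀ u, u ∉ I → R.par u ∈ I ∧ (R.dep u : ZMod 2) = 1) ∧
    (∀ u ∈ I, ∀ v ∈ I, (R.dep u : ZMod 2) = R.dep v → lab u = lab v → u = v) ∧
    (∀ u ∈ I, ∀ v ∈ I, u ≠ R.c → v ≠ R.c →
      lab u + lab (R.par u) = lab v + lab (R.par v) → u = v) ∧
    I.card = m + 1

/-- `G` is bipartite and has a spanning subgraph whose components are complete bipartite graphs
`K_{μ,μ}` with sizes `μ` satisfying `P`. -/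
def BlockFactor {V : Type} (G : SimpleGraph V) (P : ℕ → Prop) : Prop :=
  ∃ (B : Type) (μ : B → ℕ) (e : ((b : B) × Fin (μ b)) ⊕ ((b : B) × Fin (μ b)) ≃ V),
    (∀ b, P (μ b)) ∧
    (∀ x y, ¬ G.Adj (e (Sum.inl x)) (e (Sum.inl y))) ∧
    (∀ x y, ¬ G.Adj (e (Sum.inr x)) (e (Sum.inr y))) ∧
    ∀ b i j, G.Adj (e (Sum.inl ⟨b, i⟩)) (e (Sum.inr ⟨b, j⟩))

/-- A partial labelling modulo `m` of the set `B` (closed under parents): root labelled `0`, labels
injective on each parity class, types of the edges different, and the label of every vertex of odd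
depth is the type of some edge of `B`. -/
structure RT.Placed {U : Type*} {T : SimpleGraph U} (R : RT T) {m : ℕ} (B : Finset U)
    (lab : U → ZMod m) : Prop where
  root_mem : R.c ∈ B
  par_mem : ∀ u ∈ B, u ≠ R.c → R.par u ∈ B
  root_lab : lab R.c = 0
  inj : ∀ u ∈ B, ∀ v ∈ B, (R.dep u : ZMod 2) = R.dep v → lab u = lab v → u = v
  ty_inj : ∀ u ∈ B, ∀ v ∈ B, u ≠ R.c → v ≠ R.c →
    lab u + lab (R.par u) = lab v + lab (R.par v) → u = v
  closed : ∀ v ∈ B, (R.dep v : ZMod 2) = 1 →
    ∃ u ∈ B, u ≠ R.c ∧ lab u + lab (R.par u) = lab v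

end Pool.Agent.Lib.MP_c5b475_co
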