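import Pool.Agent.Lib.MP_c5b475_co.Few.DefsB

set_option autoImplicit false

/-!
# The linear law: definitions
-/

namespace Pool.Agent.Lib.MP_c5b475_co

open Finset

/-- Residues at distance at most `3` from `0`. -/
def near3 (m : ℕ) : Finset (ZMod m) := {0, 1, 2, 3, -1, -2, -3}

/-- Disjoint zones `Λ j` (`j ∈ J`) of labels modulo `m` not containing `0`, and the candidates `S`
for labels in the zones, `x ∈ S` being a candidate for the zone `Λ (cl x)`. -/
structure Zones (U : Type*) (m : ℕ) where
  J : Finset ℕ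
  Λ : ℕ → Finset (ZMod m)
  S : Finset U
  cl : U → ℕ
  zero : ∀ j ∈ J, (0 : ZMod m) ∉ Λ j
  disj : ∀ i ∈ J, ∀ j ∈ J, i ≠ j → Disjoint (Λ i) (Λ j)

/-- The union of the zones. -/
def Zones.all {U : Type*} {m : ℕ} (Z : Zones U m) : Finset (ZMod m) := Z.J.biUnion Z.Λ

section

variable {U : Type*} [DecidableEq U] {T : SimpleGraph U} (R : RT T) {m : ℕ}

/-- The types of the edges of `B`. -/
def RT.tys (B : Finset U) (lab : U → ZMod m) : Finset (ZMod m) :=
  (B.erase R.c).image (fun u => lab u + lab (R.par u))

/-- The labels of the vertices of even depth of `B`. -/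
def RT.evl (B : Finset U) (lab : U → ZMod m) : Finset (ZMod m) :=
  (B.filter (fun u => (R.dep u : ZMod 2) = 0)).image lab

/-- Good partial labelling: placed, the labels of vertices of odd depth differ pairwise by at least
`4`, and the labels in the zone `Λ j` are used only by vertices of `S` of class `j`. -/
structure RT.GoodL (Z : Zones U m) (B : Finset U) (lab : U → ZMod m) : Prop where
  placed : R.Placed B lab
  sep : ∀ u ∈ B, ∀ v ∈ B, (R.dep u : ZMod 2) = 1 → (R.dep v : ZMod 2) = 1 → u ≠ v →
    lab u - lab v ∉ near3 m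
  lam : ∀ u ∈ B, (R.dep u : ZMod 2) = 0 → ∀ j ∈ Z.J, lab u ∈ Z.Λ j → u ∈ Z.S ∧ Z.cl u = j

/-- Accounting: the total weight `ω` of the candidates of `B` which did not get a label in their
zone, the zone not being almost full, is at most a quarter of the total weight. -/
def RT.Acc (Z : Zones U m) (ω : ℕ → ℕ) (B : Finset U) (lab : U → ZMod m) : Prop :=
  4 * ∑ j ∈ Z.J.filter (fun j => (Z.Λ j).card < 512 * (Z.Λ j \ R.evl B lab).card),
      ω j * (B.filter (fun x => x ∈ Z.S ∧ Z.cl x = j ∧ lab x ∉ Z.Λ j)).card ≤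
    ∑ j ∈ Z.J, ω j * (B.filter (fun x => x ∈ Z.S ∧ Z.cl x = j)).card

/-- State of the placement: `B` is placed, `p` is the pending vertex of odd depth whose designated
child is not placed, all other children in `A` of placed vertices of odd depth are placed, all
children of the root are placed, and `rest` is the list of the vertices of odd depth which are not
placed. -/
structure RT.St (Z : Zones U m) (A : Finset U) (des : U → U) (rest : List U) (B : Finset U) (p : U)
    (lab : U → ZMod m) : Prop where
  good : R.GoodL Z B lab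
  sub : B ⊆ A
  p_mem : p ∈ B
  p_odd : (R.dep p : ZMod 2) = 1
  des_notMem : des p ∉ B
  kids : ∀ w ∈ A, w ≠ R.c → R.par w ∈ B → (R.dep w : ZMod 2) = 0 →
    w ∈ B ∨ (R.par w = p ∧ w = des p)
  rootkids : ∀ w ∈ A, w ≠ R.c → R.par w = R.c → w ∈ B
  rest_iff : ∀ v ∈ A, v ≠ R.c → (R.dep v : ZMod 2) = 1 → R.par v ≠ R.c → (v ∈ rest ↔ v ∉ B)

/-- `A` is a subtree containing the root, `des v` is a child in `A` of every vertex `v` of `A` of odd
depth. -/
structure RT.Tr (A : Finset U) (des : U → U) : Prop where
  root_mem : R.c ∈ A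
  par_mem : ∀ u ∈ A, u ≠ R.c → R.par u ∈ A
  des_mem : ∀ v ∈ A, (R.dep v : ZMod 2) = 1 → des v ∈ A ∧ des v ≠ R.c ∧ R.par (des v) = v

end

/-- The list of the vertices of a list of units. -/
def flat {U : Type*} (l : List (U × Option U)) : List U :=
  l.flatMap (fun x => x.1 :: x.2.toList)

end Pool.Agent.Lib.MP_c5b475_co
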