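import Pool.Agent.Lib.MP_c5b475_co.Few.FN2

set_option autoImplicit false

/-!
# FEW9: trees with few non-leaf vertices, better exponent
-/

namespace Pool.Agent.Lib.MP_c5b475_co

open Finset

open Classical in
/-- The case of few even leaves. -/
theorem few9_rooted {U : Type*} [Fintype U] [DecidableEq U] {T : SimpleGraph U} (hT : T.IsTree)
    {n k : ℕ} (hcard : Fintype.card U = n + 1)
    (hk : (univ.filter (fun u => IsInner T u)).card ≤ k) (h1 : 1 ≤ k)
    (hn : 10 ^ 8 * k ^ 9 ≤ n) (R : RT T) (hc : IsInner T R.c)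
    (hLE : (univ.filter (fun w => ¬ IsInner T w ∧ (R.dep w : ZMod 2) = 0)).card < 30 * k) :
    Framed T (10 ^ 8 * k ^ 9) := by
  set IN := univ.filter (fun u => IsInner T u) with hIN
  set L0 := univ.filter (fun w => ¬ IsInner T w ∧ (R.dep w : ZMod 2) = 0) with hL0
  set L1 := univ.filter (fun w => ¬ IsInner T w ∧ (R.dep w : ZMod 2) = 1) with hL1
  -- powers of `k`
  have k2 : k ≤ k ^ 2 := Nat.le_self_pow (by norm_num) k
  have k3 : k ^ 2 ≤ k ^ 3 := Nat.pow_le_pow_right h1 (by norm_num)
  have k4 : k ^ 3 ≤ k ^ 4 := Nat.pow_le_pow_right h1 (by norm_num)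
  have k5 : k ^ 4 ≤ k ^ 5 := Nat.pow_le_pow_right h1 (by norm_num)
  have k9 : k ^ 5 ≤ k ^ 9 := Nat.pow_le_pow_right h1 (by norm_num)
  have k0 : 1 ≤ k ^ 9 := Nat.one_le_pow _ _ h1
  -- total number of vertices
  have htot : n + 1 = IN.card + L0.card + L1.card := by
    have hun : (univ : Finset U) = IN ∪ L0 ∪ L1 := by
      ext w
      simp only [mem_univ, true_iff, mem_union, hIN, hL0, hL1, mem_filter, true_and]
      by_cases hw : IsInner T w
      · exact Or.inl (Or.inl hw)
      · by_cases h0 : (R.dep w : ZMod 2) = 0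
        · exact Or.inl (Or.inr ⟨hw, h0⟩)
        · exact Or.inr ⟨hw, b1b_zmod h0⟩
    have hd1 : Disjoint IN L0 := by
      rw [disjoint_left]
      intro w hw hw'
      exact (mem_filter.mp hw').2.1 (mem_filter.mp hw).2
    have hd2 : Disjoint (IN ∪ L0) L1 := by
      rw [disjoint_left]
      intro w hw hw'
      have h3 := (mem_filter.mp hw').2
      rw [mem_union] at hw
      rcases hw with hw | hw
      · exact h3.1 (mem_filter.mp hw).2
      · have h4 := (mem_filter.mp hw).2.2
        rw [h3.2] at h4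
        revert h4
        decide
    rw [← hcard, ← card_univ, hun, card_union_of_disjoint hd2, card_union_of_disjoint hd1]
  -- leaves of vertices with few leaves
  have hsmall : ∀ B : ℕ, ((IN.filter (fun u => (lf T u).card ≤ B)).biUnion (lf T)).card ≤
      k * B := by
    intro B
    refine (card_biUnion_le_card_mul _ _ B ?_).trans ?_
    · intro u hu
      exact (mem_filter.mp hu).2
    · exact Nat.mul_le_mul_right _ ((card_le_card (filter_subset _ _)).trans hk)
  have hL1' : L1.card ≥ 10 ^ 7 * k ^ 9 := by omega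
  have hpar1 : ∀ w ∈ L1, w ∈ lf T (R.par w) ∧ R.par w ∈ IN ∧ (R.dep (R.par w) : ZMod 2) = 0 := by
    intro w hw
    rw [hL1, mem_filter] at hw
    obtain ⟨_, h4, h5⟩ := fin_leaf R hc hw.2.1
    exact ⟨h4, mem_filter.mpr ⟨mem_univ _, h5⟩, b1b_par_odd R hw.2.2⟩
  set SM := (IN.filter (fun u => (lf T u).card ≤ 93 * k ^ 2)).biUnion (lf T) with hSM
  have hSMc : SM.card ≤ 93 * k ^ 3 := by
    refine (hsmall (93 * k ^ 2)).trans (le_of_eq ?_)
    ring
  obtain ⟨u₀, hu₀I, hu₀0, hu₀c⟩ : ∃ u₀ ∈ IN, (R.dep u₀ : ZMod 2) = 0 ∧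
      3007 * k ^ 4 ≤ (lf T u₀).card := by
    by_contra hno
    push Not at hno
    have h3 : L1 ⊆ (IN.filter (fun u => (lf T u).card ≤ 3007 * k ^ 4)).biUnion (lf T) := by
      intro w hw
      obtain ⟨h4, h5, h6⟩ := hpar1 w hw
      exact mem_biUnion.mpr ⟨R.par w, mem_filter.mpr ⟨h5, (hno _ h5 h6).le⟩, h4⟩
    have h4 := (card_le_card h3).trans (hsmall (3007 * k ^ 4))
    have h5 : k * (3007 * k ^ 4) = 3007 * k ^ 5 := by ring
    have h6 : 1 ≤ k ^ 9 := Nat.one_le_pow _ _ h1
    omega
  set Rb := IN.filter (fun u => (R.dep u : ZMod 2) = 0 ∧ 93 * k ^ 2 ≤ (lf T u).card) with hRb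
  have hu₀R : u₀ ∈ Rb := mem_filter.mpr ⟨hu₀I, hu₀0, by omega⟩
  have hq : ∀ w ∈ L1, (∀ u ∈ Rb, ¬ T.Adj u w) → w ∈ SM := by
    intro w hw hno
    obtain ⟨h4, h5, h6⟩ := hpar1 w hw
    refine mem_biUnion.mpr ⟨R.par w, mem_filter.mpr ⟨h5, ?_⟩, h4⟩
    by_contra h7
    refine hno (R.par w) (mem_filter.mpr ⟨h5, h6, by omega⟩) ?_
    unfold lf at h4
    exact (mem_filter.mp h4).2.1
  by_cases h2 : 2 ≤ Rb.card
  · have e1 : (k + 2) * (31 * k) = 31 * k ^ 2 + 62 * k := by ring
    have e2 : (k + 93 * k ^ 3 + 3) * (31 * k) = 31 * k ^ 2 + 2883 * k ^ 4 + 93 * k := by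
      ring
    have hB := caseB1 hT R Rb (fun u hu => (mem_filter.mp hu).2.1) h2 (31 * k) k
      (93 * k ^ 3)
      (by
        rw [Nat.card_eq_fintype_card, Fintype.card_subtype]
        have h3 : univ.filter (fun w => (R.dep w : ZMod 2) = 0) ⊆ IN ∪ L0 := by
          intro w hw
          rw [mem_filter] at hw
          rw [mem_union]
          by_cases hwi : IsInner T w
          · exact Or.inl (mem_filter.mpr ⟨mem_univ _, hwi⟩)
          · exact Or.inr (mem_filter.mpr ⟨mem_univ _, hwi, hw.2⟩)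
        have h4 := (card_le_card h3).trans (card_union_le _ _)
        omega)
      (by
        rw [Nat.card_eq_fintype_card, Fintype.card_subtype]
        refine (card_le_card ?_).trans hk
        intro w hw
        exact mem_filter.mpr ⟨mem_univ _, (mem_filter.mp hw).2.2⟩)
      (by
        rw [Nat.card_eq_fintype_card, Fintype.card_subtype]
        refine (card_le_card ?_).trans hSMc
        intro w hw
        rw [mem_filter] at hw
        exact hq w (mem_filter.mpr ⟨mem_univ _, hw.2.2.1, hw.2.1⟩) hw.2.2.2)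
      (by
        intro u hu
        have := (mem_filter.mp hu).2.2
        omega)
      u₀ hu₀R (by omega)
    refine fin_mono hB ?_
    have h6 : 1 ≤ k ^ 9 := Nat.one_le_pow _ _ h1
    omega
  · have hRb1 : ∀ u ∈ Rb, u = u₀ := by
      intro u hu
      by_contra h
      exact h2 (one_lt_card.mpr ⟨u, hu, u₀, hu₀R, h⟩)
    have hB := caseB2 hT u₀ (124 * k ^ 3) (by
      rw [Nat.card_eq_fintype_card, Fintype.card_subtype]
      have h3 : univ.filter (fun w => w ∉ lf T u₀) ⊆ IN ∪ L0 ∪ SM := by
        intro w hw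
        rw [mem_filter] at hw
        rw [mem_union, mem_union]
        by_cases hwi : IsInner T w
        · exact Or.inl (Or.inl (mem_filter.mpr ⟨mem_univ _, hwi⟩))
        · by_cases h0 : (R.dep w : ZMod 2) = 0
          · exact Or.inl (Or.inr (mem_filter.mpr ⟨mem_univ _, hwi, h0⟩))
          · right
            apply hq w (mem_filter.mpr ⟨mem_univ _, hwi, b1b_zmod h0⟩)
            intro u hu hadj
            rw [hRb1 u hu] at hadj
            apply hw.2
            unfold lf
            exact mem_filter.mpr ⟨mem_univ _, hadj, hwi⟩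
      have h4 := (card_le_card h3).trans (card_union_le _ _)
      have h5 := card_union_le IN L0
      omega)
    refine fin_mono hB ?_
    have e1 : 10 * (124 * k ^ 3) ^ 3 + 10 = 19066240 * k ^ 9 + 10 := by ring
    have h6 : 1 ≤ k ^ 9 := Nat.one_le_pow _ _ h1
    omega

/-- FEW9. All trees, better exponent. -/
theorem few9 {n k : ℕ} {T : SimpleGraph (Fin (n + 1))} (hT : T.IsTree)
    (hk : Nat.card {u // IsInner T u} ≤ k) (h1 : 1 ≤ k) (hn : 10 ^ 8 * k ^ 9 ≤ n) :
    Framed T (10 ^ 8 * k ^ 9) := by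
  classical
  have hk' : (univ.filter (fun u => IsInner T u)).card ≤ k := by
    rw [Nat.card_eq_fintype_card, Fintype.card_subtype] at hk
    exact hk
  have h6 : 1 ≤ k ^ 9 := Nat.one_le_pow _ _ h1
  have h60 : 60 * k ≤ 10 ^ 8 * k ^ 9 := by
    have : k ≤ k ^ 9 := Nat.le_self_pow (by norm_num) k
    omega
  obtain ⟨c, hc⟩ := fin_exists_inner hT (by rw [Fintype.card_fin]; omega)
  obtain ⟨R, hRc, _⟩ := exists_RT hT c
  have hc' : IsInner T R.c := by
    rw [hRc]
    exact hc
  by_cases hLE : (univ.filter (fun w => ¬ IsInner T w ∧ (R.dep w : ZMod 2) = 0)).card < 30 * k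
  · exact few9_rooted hT (Fintype.card_fin _) hk' h1 hn R hc' hLE
  by_cases hLO : (univ.filter (fun w => ¬ IsInner T w ∧ (R.dep w : ZMod 2) = 1)).card < 30 * k
  · -- there is an even leaf, its parent is odd and inner
    have hpos : 0 < (univ.filter (fun w => ¬ IsInner T w ∧ (R.dep w : ZMod 2) = 0)).card := by
      omega
    obtain ⟨w, hw⟩ := card_pos.mp hpos
    rw [mem_filter] at hw
    obtain ⟨h3, h4, h5⟩ := fin_leaf R hc' hw.2.1
    have h7 := b1b_par_even R h3 hw.2.2
    obtain ⟨R', hRc', _⟩ := exists_RT hT (R.par w)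
    have h8 : ∀ v, (R'.dep v : ZMod 2) = R.dep v + 1 := by
      intro v
      have h9 := fin_parity R R' v
      have h10 := fin_parity R R' (R.par w)
      rw [← hRc', R'.dep_c] at h10
      rw [hRc', h7] at h10
      rw [h9]
      generalize (R'.dep R.c : ZMod 2) = a at h10 ⊢
      generalize (R.dep v : ZMod 2) = b
      revert a b
      decide
    refine few9_rooted hT (Fintype.card_fin _) hk' h1 hn R' (by rw [hRc']; exact h5) ?_
    have e0 : univ.filter (fun w => ¬ IsInner T w ∧ (R'.dep w : ZMod 2) = 0) =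
        univ.filter (fun w => ¬ IsInner T w ∧ (R.dep w : ZMod 2) = 1) := by
      apply filter_congr
      intro v _
      rw [h8 v]
      apply and_congr_right
      intro _
      generalize (R.dep v : ZMod 2) = b
      revert b
      decide
    rw [e0]
    exact hLO
  · refine fin_mono (bothClasses hT k h1 hk (fun w => (R.dep w : ZMod 2)) ?_ ?_) h60
    · intro u v huv
      rcases (R.adj_iff u v).mp huv with ⟨h2, h3⟩ | ⟨h2, h3⟩
      · rw [R.dep_par_cast h2, ← h3, add_assoc]
        generalize (R.dep v : ZMod 2) = b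
        revert b
        decide
      · rw [R.dep_par_cast h2, ← h3]
    · intro a
      rw [Nat.card_eq_fintype_card, Fintype.card_subtype]
      have e : ∀ b : ZMod 2, univ.filter (fun w => (R.dep w : ZMod 2) = b ∧ ¬ IsInner T w) =
          univ.filter (fun w => ¬ IsInner T w ∧ (R.dep w : ZMod 2) = b) := by
        intro b
        apply filter_congr
        intro v _
        exact and_comm
      have ha : a = 0 ∨ a = 1 := by
        revert a
        decide
      rw [e]
      rcases ha with rfl | rfl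
      · omega
      · omega

end Pool.Agent.Lib.MP_c5b475_co
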