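import Pool.Agent.Lib.MP_c5b475_co.Few.SEL
import Pool.Agent.Lib.MP_c5b475_co.Few.B1a
import Pool.Agent.Lib.MP_c5b475_co.Few.B1b
import Pool.Agent.Lib.MP_c5b475_co.Few.CaseB2
import Pool.Agent.Lib.MP_c5b475_co.Few.CaseA2

set_option autoImplicit false

/-!
# Trees with few non-leaf vertices are framed
-/

namespace Pool.Agent.Lib.MP_c5b475_co

open Finset

theorem fin_mono {U : Type*} [Fintype U] [DecidableEq U] {T : SimpleGraph U} {K K' : ℕ}
    (h : Framed T K) (hK : K ≤ K') : Framed T K' := by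
  obtain ⟨R, I, lab, h1, h2, h3, h4, h5, h6⟩ := h
  exact ⟨R, I, lab, h1, h2, h3, h4, fun u hu v hv hd => (h5 u hu v hv hd).trans_le hK, h6⟩

/-- B1 (from SEL, B1a, B1b). -/
theorem caseB1 {U : Type*} [Fintype U] [DecidableEq U] {T : SimpleGraph U} (hT : T.IsTree)
    (R : RT T) (Rb : Finset U) (hRb : ∀ u ∈ Rb, (R.dep u : ZMod 2) = 0)
    (h2 : 2 ≤ Rb.card) (N J q : ℕ)
    (hN : Nat.card {w // (R.dep w : ZMod 2) = 0} ≤ N)
    (hJ : Nat.card {w // (R.dep w : ZMod 2) = 1 ∧ IsInner T w} ≤ J)
    (hq : Nat.card {w // (R.dep w : ZMod 2) = 1 ∧ ¬ IsInner T w ∧ ∀ u ∈ Rb, ¬ T.Adj u w} ≤ q)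
    (hM : ∀ u ∈ Rb, (J + 2) * N ≤ (lf T u).card) (u₀ : U) (hu₀ : u₀ ∈ Rb)
    (hM0 : (J + q + 3) * N ≤ (lf T u₀).card) : Framed T ((J + q + 3) * N) := by
  classical
  have hNR : Rb.card ≤ Nat.card {w // (R.dep w : ZMod 2) = 0} := by
    rw [Nat.card_eq_fintype_card, Fintype.card_subtype]
    apply card_le_card
    intro u hu
    exact mem_filter.mpr ⟨mem_univ _, hRb u hu⟩
  have hin : ∀ u ∈ Rb, IsInner T u := by
    intro u hu
    have h3 := hM u hu
    have h4 : 2 * 2 ≤ (J + 2) * N := Nat.mul_le_mul (by omega) (by omega)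
    obtain ⟨a, ha, b, hb, hab⟩ := one_lt_card.mp (show 1 < (lf T u).card by omega)
    unfold lf at ha hb
    rw [mem_filter] at ha hb
    exact ⟨a, b, ha.2.1, hb.2.1, hab⟩
  obtain ⟨row, y, z, r1, r2, r3, r4, hy, hz, hy1, hz1, hyu, hzu, hyz⟩ :=
    select hT R Rb hRb h2 hin u₀ hu₀
  have hNe : (univ.filter (fun w => (R.dep w : ZMod 2) = 0)).card =
      Nat.card {w // (R.dep w : ZMod 2) = 0} := by
    rw [Nat.card_eq_fintype_card, Fintype.card_subtype]
  set N' := Nat.card {w // (R.dep w : ZMod 2) = 0} with hN'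
  set J' := Nat.card {w // (R.dep w : ZMod 2) = 1 ∧ IsInner T w} with hJ'
  have r2' : ∀ u, (R.dep u : ZMod 2) = 0 → row u < N' := by
    intro u hu
    rw [← hNe]
    exact r2 u hu
  have e1 : (J' + 1) * N' ≤ (J + 2) * N := Nat.mul_le_mul (by omega) hN
  obtain ⟨I, lab, hI, _⟩ := stage1 hT R Rb hRb h2 hin N' J' hN'.symm hJ'.symm
    (fun u hu => e1.trans (hM u hu)) row y z r1 r2' r3 hy hz hy1 hz1 hyu hzu hyz
  have e2 : J' * N' + (q + 1) * N' ≤ (J + q + 3) * N := by
    rw [← add_mul]
    exact Nat.mul_le_mul (by omega) hN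
  exact fin_mono (stage2 hT R Rb hRb h2 N' q (J' * N') hN'.symm hq row r1 r2' r3 u₀ hu₀ r4
    (e2.trans hM0) I lab hI) e2

section

variable {U : Type*} [Fintype U] [DecidableEq U] {T : SimpleGraph U}

omit [Fintype U] [DecidableEq U] in
/-- Parents are inner if the root is inner. -/
theorem fin_par_inner (R : RT T) (hc : IsInner T R.c) {u : U} (hu : u ≠ R.c) :
    IsInner T (R.par u) := by
  by_cases h : R.par u = R.c
  · rw [h]
    exact hc
  · refine ⟨u, R.par (R.par u), (R.adj_par hu).symm, R.adj_par h, ?_⟩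
    intro e
    have h3 := R.dep_par u hu
    have h4 := R.dep_par _ h
    rw [← e] at h4
    omega

omit [DecidableEq U] in
theorem fin_leaf (R : RT T) (hc : IsInner T R.c) {w : U} (hw : ¬ IsInner T w) :
    w ≠ R.c ∧ w ∈ lf T (R.par w) ∧ IsInner T (R.par w) := by
  classical
  have h1 : w ≠ R.c := by
    rintro rfl
    exact hw hc
  refine ⟨h1, ?_, fin_par_inner R hc h1⟩
  unfold lf
  rw [mem_filter]
  exact ⟨mem_univ _, (R.adj_par h1).symm, hw⟩

omit [Fintype U] in
/-- Parities with respect to two roots. -/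
theorem fin_parity (R R' : RT T) (w : U) :
    (R'.dep w : ZMod 2) = R'.dep R.c + R.dep w := by
  have hadj : ∀ x y, T.Adj x y → (R'.dep x : ZMod 2) = R'.dep y + 1 := by
    intro x y hxy
    rcases (R'.adj_iff x y).mp hxy with ⟨h1, h2⟩ | ⟨h1, h2⟩
    · rw [h2]
      exact R'.dep_par_cast h1
    · rw [R'.dep_par_cast h1, ← h2, add_assoc]
      generalize (R'.dep x : ZMod 2) = a
      revert a
      decide
  refine R.ind (P := fun w => (R'.dep w : ZMod 2) = R'.dep R.c + R.dep w) ?_ ?_ w
  · rw [R.dep_c]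
    simp
  · intro u hu ih
    rw [hadj _ _ (R.adj_par hu), ih, R.dep_par_cast hu, add_assoc]

/-- A tree with at least three vertices has an inner vertex. -/
theorem fin_exists_inner (hT : T.IsTree) (h3 : 3 ≤ Fintype.card U) : ∃ c, IsInner T c := by
  have : Nonempty U := Fintype.card_pos_iff.mp (by omega)
  obtain ⟨c⟩ := this
  obtain ⟨R, hR, _⟩ := exists_RT hT c
  by_contra hno
  have h1 : ∀ u, u ≠ R.c → R.par u = R.c := by
    intro u hu
    by_contra h
    apply hno
    refine ⟨R.par u, u, R.par (R.par u), (R.adj_par hu).symm, R.adj_par h, ?_⟩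
    intro e
    have h3 := R.dep_par u hu
    have h4 := R.dep_par _ h
    rw [← e] at h4
    omega
  obtain ⟨a, ha, b, hb, hab⟩ := one_lt_card.mp
    (show 1 < (univ.erase R.c : Finset U).card by
      rw [card_erase_of_mem (mem_univ _), card_univ]
      omega)
  rw [mem_erase] at ha hb
  apply hno
  refine ⟨R.c, a, b, ?_, ?_, hab⟩
  · have := (R.adj_par ha.1).symm
    rwa [h1 a ha.1] at this
  · have := (R.adj_par hb.1).symm
    rwa [h1 b hb.1] at this

end

open Classical in
/-- The main case distinction, for a root with `LO ≤ LE`. -/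
theorem fin_rooted {U : Type*} [Fintype U] [DecidableEq U] {T : SimpleGraph U} (hT : T.IsTree)
    {n k : ℕ} (hcard : Fintype.card U = n + 1)
    (hk : (univ.filter (fun u => IsInner T u)).card ≤ k) (h1 : 1 ≤ k)
    (hn : 10 ^ 6 * k ^ 18 ≤ n) (R : RT T) (hc : IsInner T R.c)
    (hLE : (univ.filter (fun w => ¬ IsInner T w ∧ (R.dep w : ZMod 2) = 0)).card ≤
      (univ.filter (fun w => ¬ IsInner T w ∧ (R.dep w : ZMod 2) = 1)).card) :
    Framed T (10 ^ 6 * k ^ 18) := by
  set IN := univ.filter (fun u => IsInner T u) with hIN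
  set L0 := univ.filter (fun w => ¬ IsInner T w ∧ (R.dep w : ZMod 2) = 0) with hL0
  set L1 := univ.filter (fun w => ¬ IsInner T w ∧ (R.dep w : ZMod 2) = 1) with hL1
  -- powers of `k`
  have k2 : k ≤ k ^ 2 := Nat.le_self_pow (by norm_num) k
  have k3 : k ^ 2 ≤ k ^ 3 := Nat.pow_le_pow_right h1 (by norm_num)
  have k4 : k ^ 3 ≤ k ^ 4 := Nat.pow_le_pow_right h1 (by norm_num)
  have k5 : k ^ 4 ≤ k ^ 5 := Nat.pow_le_pow_right h1 (by norm_num)
  have k6 : k ^ 5 ≤ k ^ 6 := Nat.pow_le_pow_right h1 (by norm_num)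
  have k10 : k ^ 6 ≤ k ^ 10 := Nat.pow_le_pow_right h1 (by norm_num)
  have k11 : k ^ 10 ≤ k ^ 11 := Nat.pow_le_pow_right h1 (by norm_num)
  have k18 : k ^ 11 ≤ k ^ 18 := Nat.pow_le_pow_right h1 (by norm_num)
  -- total number of vertices
  have htot : n + 1 = IN.card + L0.card + L1.card := by
    have hun : (univ : Finset U) = IN ∪ L0 ∪ L1 := by
      ext w
      simp only [mem_univ, true_iff, mem_union, hIN, hL0, hL1, mem_filter, true_and]
      by_cases hw : IsInner T w
      · exact Or.inl (Or.inl hw)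
      · by_cases h0 : (R.dep w : ZMod 2) = 0
        · exact Or.inl (Or.inr ⟨hw, h0⟩)
        · exact Or.inr ⟨hw, b1b_zmod h0⟩
    have hd1 : Disjoint IN L0 := by
      rw [disjoint_left]
      intro w hw hw'
      exact (mem_filter.mp hw').2.1 (mem_filter.mp hw).2
    have hd2 : Disjoint (IN ∪ L0) L1 := by
      rw [disjoint_left]
      intro w hw hw'
      have h3 := (mem_filter.mp hw').2
      rw [mem_union] at hw
      rcases hw with hw | hw
      · exact h3.1 (mem_filter.mp hw).2
      · have h4 := (mem_filter.mp hw).2.2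
        rw [h3.2] at h4
        revert h4
        decide
    rw [← hcard, ← card_univ, hun, card_union_of_disjoint hd2, card_union_of_disjoint hd1]
  -- leaves of vertices with few leaves
  have hsmall : ∀ B : ℕ, ((IN.filter (fun u => (lf T u).card ≤ B)).biUnion (lf T)).card ≤
      k * B := by
    intro B
    refine (card_biUnion_le_card_mul _ _ B ?_).trans ?_
    · intro u hu
      exact (mem_filter.mp hu).2
    · exact Nat.mul_le_mul_right _ ((card_le_card (filter_subset _ _)).trans hk)
  have hL1' : L1.card ≥ 400000 * k ^ 18 := by omega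
  have hpar1 : ∀ w ∈ L1, w ∈ lf T (R.par w) ∧ R.par w ∈ IN ∧ (R.dep (R.par w) : ZMod 2) = 0 := by
    intro w hw
    rw [hL1, mem_filter] at hw
    obtain ⟨_, h4, h5⟩ := fin_leaf R hc hw.2.1
    exact ⟨h4, mem_filter.mpr ⟨mem_univ _, h5⟩, b1b_par_odd R hw.2.2⟩
  have hpar0 : ∀ w ∈ L0, w ∈ lf T (R.par w) ∧ R.par w ∈ IN ∧ (R.dep (R.par w) : ZMod 2) = 1 := by
    intro w hw
    rw [hL0, mem_filter] at hw
    obtain ⟨h3, h4, h5⟩ := fin_leaf R hc hw.2.1
    exact ⟨h4, mem_filter.mpr ⟨mem_univ _, h5⟩, b1b_par_even R h3 hw.2.2⟩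
  by_cases hLO : 10 * k ^ 4 ≤ L0.card
  · -- case A2
    set RX := IN.filter (fun u => (R.dep u : ZMod 2) = 0 ∧ 2 * k ^ 2 ≤ (lf T u).card) with hRX
    set RY := IN.filter (fun u => (R.dep u : ZMod 2) = 1 ∧ 2 * k ^ 2 ≤ (lf T u).card) with hRY
    set SM := (IN.filter (fun u => (lf T u).card ≤ 2 * k ^ 2)).biUnion (lf T) with hSM
    have hSMc : SM.card ≤ 2 * k ^ 3 := by
      refine (hsmall (2 * k ^ 2)).trans (le_of_eq ?_)
      ring
    have hX : L1.card ≤ (∑ u ∈ RX, (lf T u).card) + 2 * k ^ 3 := by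
      have h3 : L1 ⊆ RX.biUnion (lf T) ∪ SM := by
        intro w hw
        obtain ⟨h4, h5, h6⟩ := hpar1 w hw
        rw [mem_union]
        by_cases h7 : 2 * k ^ 2 ≤ (lf T (R.par w)).card
        · left
          exact mem_biUnion.mpr ⟨R.par w, mem_filter.mpr ⟨h5, h6, h7⟩, h4⟩
        · right
          exact mem_biUnion.mpr ⟨R.par w, mem_filter.mpr ⟨h5, by omega⟩, h4⟩
      have h4 := (card_le_card h3).trans (card_union_le _ _)
      have h5 : (RX.biUnion (lf T)).card ≤ ∑ u ∈ RX, (lf T u).card := card_biUnion_le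
      omega
    have hY : L0.card ≤ (∑ u ∈ RY, (lf T u).card) + 2 * k ^ 3 := by
      have h3 : L0 ⊆ RY.biUnion (lf T) ∪ SM := by
        intro w hw
        obtain ⟨h4, h5, h6⟩ := hpar0 w hw
        rw [mem_union]
        by_cases h7 : 2 * k ^ 2 ≤ (lf T (R.par w)).card
        · left
          exact mem_biUnion.mpr ⟨R.par w, mem_filter.mpr ⟨h5, h6, h7⟩, h4⟩
        · right
          exact mem_biUnion.mpr ⟨R.par w, mem_filter.mpr ⟨h5, by omega⟩, h4⟩
      have h4 := (card_le_card h3).trans (card_union_le _ _)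
      have h5 : (RY.biUnion (lf T)).card ≤ ∑ u ∈ RY, (lf T u).card := card_biUnion_le
      omega
    have hpos : 1 ≤ k ^ 2 := Nat.one_le_pow _ _ h1
    have hX0 : RX.Nonempty := by
      rw [nonempty_iff_ne_empty]
      intro h
      rw [h, sum_empty] at hX
      omega
    have hY0 : RY.Nonempty := by
      rw [nonempty_iff_ne_empty]
      intro h
      rw [h, sum_empty] at hY
      omega
    have hpos3 : k * (k + 2 * k ^ 3 + k ^ 2) + k ^ 2 = 2 * k ^ 2 + 2 * k ^ 4 + k ^ 3 := by ring
    have hA := caseA2 hT R hc RX RY (fun u hu => (mem_filter.mp hu).2.1)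
      (fun u hu => (mem_filter.mp hu).2.1) hX0 hY0 k (k + 2 * k ^ 3)
      ((card_le_card (filter_subset _ _)).trans hk) ((card_le_card (filter_subset _ _)).trans hk)
      (by
        rw [Nat.card_eq_fintype_card, Fintype.card_subtype]
        have h3 : univ.filter (fun w => ∀ u ∈ RX ∪ RY, w ∉ lf T u) ⊆ IN ∪ SM := by
          intro w hw
          rw [mem_filter] at hw
          rw [mem_union]
          by_cases hwi : IsInner T w
          · exact Or.inl (mem_filter.mpr ⟨mem_univ _, hwi⟩)
          · right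
            obtain ⟨h3, h4, h5⟩ := fin_leaf R hc hwi
            refine mem_biUnion.mpr ⟨R.par w, mem_filter.mpr
              ⟨mem_filter.mpr ⟨mem_univ _, h5⟩, ?_⟩, h4⟩
            by_contra h6
            refine hw.2 (R.par w) ?_ h4
            rw [mem_union]
            by_cases h7 : (R.dep (R.par w) : ZMod 2) = 0
            · left
              exact mem_filter.mpr ⟨mem_filter.mpr ⟨mem_univ _, h5⟩, h7, by omega⟩
            · right
              exact mem_filter.mpr ⟨mem_filter.mpr ⟨mem_univ _, h5⟩, b1b_zmod h7, by omega⟩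
        have h4 := (card_le_card h3).trans (card_union_le _ _)
        omega)
      (by
        intro u hu
        rw [mem_union] at hu
        rcases hu with hu | hu
        · exact (mem_filter.mp hu).2.2
        · exact (mem_filter.mp hu).2.2)
      (by omega) (by omega)
    refine fin_mono hA ?_
    have h3 : k + 2 * k ^ 3 + k ^ 2 ≤ 4 * k ^ 3 := by omega
    have h4 : (k + 2 * k ^ 3 + k ^ 2) ^ 2 ≤ (4 * k ^ 3) ^ 2 := Nat.pow_le_pow_left h3 2
    have h5 : (4 * k ^ 3) ^ 2 = 16 * k ^ 6 := by ring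
    omega
  · -- case B
    set SM := (IN.filter (fun u => (lf T u).card ≤ 33 * k ^ 5)).biUnion (lf T) with hSM
    have hSMc : SM.card ≤ 33 * k ^ 6 := by
      refine (hsmall (33 * k ^ 5)).trans (le_of_eq ?_)
      ring
    obtain ⟨u₀, hu₀I, hu₀0, hu₀c⟩ : ∃ u₀ ∈ IN, (R.dep u₀ : ZMod 2) = 0 ∧
        407 * k ^ 10 ≤ (lf T u₀).card := by
      by_contra hno
      push Not at hno
      have h3 : L1 ⊆ (IN.filter (fun u => (lf T u).card ≤ 407 * k ^ 10)).biUnion (lf T) := by
        intro w hw
        obtain ⟨h4, h5, h6⟩ := hpar1 w hw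
        exact mem_biUnion.mpr ⟨R.par w, mem_filter.mpr ⟨h5, (hno _ h5 h6).le⟩, h4⟩
      have h4 := (card_le_card h3).trans (hsmall (407 * k ^ 10))
      have h5 : k * (407 * k ^ 10) = 407 * k ^ 11 := by ring
      have h6 : 1 ≤ k ^ 18 := Nat.one_le_pow _ _ h1
      omega
    set Rb := IN.filter (fun u => (R.dep u : ZMod 2) = 0 ∧ 33 * k ^ 5 ≤ (lf T u).card) with hRb
    have hu₀R : u₀ ∈ Rb := mem_filter.mpr ⟨hu₀I, hu₀0, by omega⟩
    have hq : ∀ w ∈ L1, (∀ u ∈ Rb, ¬ T.Adj u w) → w ∈ SM := by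
      intro w hw hno
      obtain ⟨h4, h5, h6⟩ := hpar1 w hw
      refine mem_biUnion.mpr ⟨R.par w, mem_filter.mpr ⟨h5, ?_⟩, h4⟩
      by_contra h7
      refine hno (R.par w) (mem_filter.mpr ⟨h5, h6, by omega⟩) ?_
      unfold lf at h4
      exact (mem_filter.mp h4).2.1
    by_cases h2 : 2 ≤ Rb.card
    · have e1 : (k + 2) * (11 * k ^ 4) = 11 * k ^ 5 + 22 * k ^ 4 := by ring
      have e2 : (k + 33 * k ^ 6 + 3) * (11 * k ^ 4) = 11 * k ^ 5 + 363 * k ^ 10 + 33 * k ^ 4 := by
        ring
      have hB := caseB1 hT R Rb (fun u hu => (mem_filter.mp hu).2.1) h2 (11 * k ^ 4) k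
        (33 * k ^ 6)
        (by
          rw [Nat.card_eq_fintype_card, Fintype.card_subtype]
          have h3 : univ.filter (fun w => (R.dep w : ZMod 2) = 0) ⊆ IN ∪ L0 := by
            intro w hw
            rw [mem_filter] at hw
            rw [mem_union]
            by_cases hwi : IsInner T w
            · exact Or.inl (mem_filter.mpr ⟨mem_univ _, hwi⟩)
            · exact Or.inr (mem_filter.mpr ⟨mem_univ _, hwi, hw.2⟩)
          have h4 := (card_le_card h3).trans (card_union_le _ _)
          omega)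
        (by
          rw [Nat.card_eq_fintype_card, Fintype.card_subtype]
          refine (card_le_card ?_).trans hk
          intro w hw
          exact mem_filter.mpr ⟨mem_univ _, (mem_filter.mp hw).2.2⟩)
        (by
          rw [Nat.card_eq_fintype_card, Fintype.card_subtype]
          refine (card_le_card ?_).trans hSMc
          intro w hw
          rw [mem_filter] at hw
          exact hq w (mem_filter.mpr ⟨mem_univ _, hw.2.2.1, hw.2.1⟩) hw.2.2.2)
        (by
          intro u hu
          have := (mem_filter.mp hu).2.2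
          omega)
        u₀ hu₀R (by omega)
      refine fin_mono hB ?_
      have h6 : 1 ≤ k ^ 18 := Nat.one_le_pow _ _ h1
      omega
    · have hRb1 : ∀ u ∈ Rb, u = u₀ := by
        intro u hu
        by_contra h
        exact h2 (one_lt_card.mpr ⟨u, hu, u₀, hu₀R, h⟩)
      have hB := caseB2 hT u₀ (44 * k ^ 6) (by
        rw [Nat.card_eq_fintype_card, Fintype.card_subtype]
        have h3 : univ.filter (fun w => w ∉ lf T u₀) ⊆ IN ∪ L0 ∪ SM := by
          intro w hw
          rw [mem_filter] at hw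
          rw [mem_union, mem_union]
          by_cases hwi : IsInner T w
          · exact Or.inl (Or.inl (mem_filter.mpr ⟨mem_univ _, hwi⟩))
          · by_cases h0 : (R.dep w : ZMod 2) = 0
            · exact Or.inl (Or.inr (mem_filter.mpr ⟨mem_univ _, hwi, h0⟩))
            · right
              apply hq w (mem_filter.mpr ⟨mem_univ _, hwi, b1b_zmod h0⟩)
              intro u hu hadj
              rw [hRb1 u hu] at hadj
              apply hw.2
              unfold lf
              exact mem_filter.mpr ⟨mem_univ _, hadj, hwi⟩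
        have h4 := (card_le_card h3).trans (card_union_le _ _)
        have h5 := card_union_le IN L0
        omega)
      refine fin_mono hB ?_
      have e1 : 10 * (44 * k ^ 6) ^ 3 + 10 = 851840 * k ^ 18 + 10 := by ring
      have h6 : 1 ≤ k ^ 18 := Nat.one_le_pow _ _ h1
      omega

/-- FIN. -/
theorem few {n k : ℕ} {T : SimpleGraph (Fin (n + 1))} (hT : T.IsTree)
    (hk : Nat.card {u // IsInner T u} ≤ k) (h1 : 1 ≤ k) (hn : 10 ^ 6 * k ^ 18 ≤ n) :
    Framed T (10 ^ 6 * k ^ 18) := by
  classical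
  have hk' : (univ.filter (fun u => IsInner T u)).card ≤ k := by
    rw [Nat.card_eq_fintype_card, Fintype.card_subtype] at hk
    exact hk
  have h6 : 1 ≤ k ^ 18 := Nat.one_le_pow _ _ h1
  obtain ⟨c, hc⟩ := fin_exists_inner hT (by rw [Fintype.card_fin]; omega)
  obtain ⟨R, hRc, _⟩ := exists_RT hT c
  have hc' : IsInner T R.c := by
    rw [hRc]
    exact hc
  by_cases hLE : (univ.filter (fun w => ¬ IsInner T w ∧ (R.dep w : ZMod 2) = 0)).card ≤
      (univ.filter (fun w => ¬ IsInner T w ∧ (R.dep w : ZMod 2) = 1)).card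
  · exact fin_rooted hT (Fintype.card_fin _) hk' h1 hn R hc' hLE
  · -- there is an even leaf, its parent is odd and inner
    have hpos : 0 < (univ.filter (fun w => ¬ IsInner T w ∧ (R.dep w : ZMod 2) = 0)).card := by
      omega
    obtain ⟨w, hw⟩ := card_pos.mp hpos
    rw [mem_filter] at hw
    obtain ⟨h3, h4, h5⟩ := fin_leaf R hc' hw.2.1
    have h7 := b1b_par_even R h3 hw.2.2
    obtain ⟨R', hRc', _⟩ := exists_RT hT (R.par w)
    have h8 : ∀ v, (R'.dep v : ZMod 2) = R.dep v + 1 := by
      intro v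
      have h9 := fin_parity R R' v
      have h10 := fin_parity R R' (R.par w)
      rw [← hRc', R'.dep_c] at h10
      rw [hRc', h7] at h10
      rw [h9]
      generalize (R'.dep R.c : ZMod 2) = a at h10 ⊢
      generalize (R.dep v : ZMod 2) = b
      revert a b
      decide
    refine fin_rooted hT (Fintype.card_fin _) hk' h1 hn R' (by rw [hRc']; exact h5) ?_
    have e0 : univ.filter (fun w => ¬ IsInner T w ∧ (R'.dep w : ZMod 2) = 0) =
        univ.filter (fun w => ¬ IsInner T w ∧ (R.dep w : ZMod 2) = 1) := by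
      apply filter_congr
      intro v _
      rw [h8 v]
      apply and_congr_right
      intro _
      generalize (R.dep v : ZMod 2) = b
      revert b
      decide
    have e1 : univ.filter (fun w => ¬ IsInner T w ∧ (R'.dep w : ZMod 2) = 1) =
        univ.filter (fun w => ¬ IsInner T w ∧ (R.dep w : ZMod 2) = 0) := by
      apply filter_congr
      intro v _
      rw [h8 v]
      apply and_congr_right
      intro _
      generalize (R.dep v : ZMod 2) = b
      revert b
      decide
    rw [e0, e1]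
    omega

end Pool.Agent.Lib.MP_c5b475_co
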