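import Mathlib

set_option autoImplicit false

/-!
# Monotone assignment
-/

namespace Pool.Agent.Lib.MP_c5b475_co

open Finset

theorem ma_aux {U : Type*} [Nonempty U] [DecidableEq U] (g : U → ℕ) :
    ∀ (n : ℕ) (Λ : Finset ℕ) (W : Finset U), Λ.card = n → n ≤ W.card →
    ∃ e : ℕ → U, (∀ l ∈ Λ, e l ∈ W) ∧ (∀ l ∈ Λ, ∀ l' ∈ Λ, e l = e l' → l = l') ∧
      (∀ l ∈ Λ, ∀ l' ∈ Λ, l < l' → g (e l') ≤ g (e l)) := by
  intro n
  induction n with
  | zero =>
    intro Λ W hΛ _
    rw [Finset.card_eq_zero] at hΛ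
    subst hΛ
    exact ⟨fun _ => Classical.arbitrary U, by simp, by simp, by simp⟩
  | succ n ih =>
    intro Λ W hΛ hW
    have hΛne : Λ.Nonempty := Finset.card_pos.1 (by omega)
    have hWne : W.Nonempty := Finset.card_pos.1 (by omega)
    obtain ⟨w, hw, hmin⟩ := Finset.exists_min_image W g hWne
    obtain ⟨l0, hl0, hmax⟩ := Finset.exists_max_image Λ id hΛne
    obtain ⟨e, h1, h2, h3⟩ := ih (Λ.erase l0) (W.erase w)
      (by rw [Finset.card_erase_of_mem hl0, hΛ]; rfl)
      (by rw [Finset.card_erase_of_mem hw]; omega)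
    have hup : ∀ l, l ≠ l0 → Function.update e l0 w l = e l := fun l hl =>
      Function.update_of_ne hl _ _
    have hup0 : Function.update e l0 w l0 = w := Function.update_self _ _ _
    have hmem : ∀ l ∈ Λ, l ≠ l0 → e l ∈ W.erase w := fun l hl h =>
      h1 l (Finset.mem_erase.2 ⟨h, hl⟩)
    refine ⟨Function.update e l0 w, ?_, ?_, ?_⟩
    · intro l hl
      by_cases h : l = l0
      · subst h; rw [hup0]; exact hw
      · rw [hup l h]; exact Finset.mem_of_mem_erase (hmem l hl h)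
    · intro l hl l' hl' hll
      by_cases h : l = l0
      · by_cases h' : l' = l0
        · rw [h, h']
        · rw [h, hup0, hup l' h'] at hll
          exact absurd hll.symm (Finset.ne_of_mem_erase (hmem l' hl' h'))
      · by_cases h' : l' = l0
        · rw [h', hup0, hup l h] at hll
          exact absurd hll (Finset.ne_of_mem_erase (hmem l hl h))
        · rw [hup l h, hup l' h'] at hll
          exact h2 l (Finset.mem_erase.2 ⟨h, hl⟩) l' (Finset.mem_erase.2 ⟨h', hl'⟩) hll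
    · intro l hl l' hl' hlt
      have hl'max : l' ≤ l0 := hmax l' hl'
      have h : l ≠ l0 := by omega
      rw [hup l h]
      by_cases h' : l' = l0
      · subst h'
        rw [hup0]
        exact hmin _ (Finset.mem_of_mem_erase (hmem l hl h))
      · rw [hup l' h']
        exact h3 l (Finset.mem_erase.2 ⟨h, hl⟩) l' (Finset.mem_erase.2 ⟨h', hl'⟩) hlt

/-- MA. Monotone assignment. -/
theorem mono_assign {U : Type*} [Nonempty U] [DecidableEq U] (Λ : Finset ℕ) (W : Finset U)
    (g : U → ℕ) (h : Λ.card ≤ W.card) :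
    ∃ e : ℕ → U, (∀ l ∈ Λ, e l ∈ W) ∧ (∀ l ∈ Λ, ∀ l' ∈ Λ, e l = e l' → l = l') ∧
      (∀ l ∈ Λ, ∀ l' ∈ Λ, l < l' → g (e l') ≤ g (e l)) :=
  ma_aux g Λ.card Λ W rfl h

end Pool.Agent.Lib.MP_c5b475_co
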