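import Pool.Agent.Lib.MP_c5b475_co.Few.ZL
import Pool.Agent.Lib.MP_c5b475_co.Few.MA

set_option autoImplicit false

/-!
# The split case: many leaves at two disjoint groups of even inner vertices
-/

namespace Pool.Agent.Lib.MP_c5b475_co

open Finset

section

variable {U : Type*} {T : SimpleGraph U} (R : RT T)

theorem sp_parity {u : U} (hu : u ≠ R.c) : (R.dep u : ZMod 2) = R.dep (R.par u) + 1 := by
  rw [← R.dep_par u hu]
  push_cast
  ring

theorem sp_par_inner (hc : IsInner T R.c) {u : U} (hu : u ≠ R.c) : IsInner T (R.par u) := by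
  by_cases hp : R.par u = R.c
  · rw [hp]
    exact hc
  · have h1 := R.dep_par u hu
    have h2 := R.dep_par (R.par u) hp
    refine ⟨u, R.par (R.par u), (R.adj_iff _ _).mpr (Or.inr ⟨hu, rfl⟩),
      (R.adj_iff _ _).mpr (Or.inl ⟨hp, rfl⟩), ?_⟩
    intro h
    rw [← h] at h2
    omega

theorem sp_lf [Fintype U] (hc : IsInner T R.c) {u w : U} (hw : w ∈ lf T u) :
    w ≠ R.c ∧ R.par w = u ∧ ¬ IsInner T w := by
  classical
  unfold lf at hw
  rw [mem_filter] at hw
  obtain ⟨-, h1, h2⟩ := hw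
  have h3 : w ≠ R.c := fun h => h2 (h ▸ hc)
  refine ⟨h3, ?_, h2⟩
  rcases (R.adj_iff _ _).mp h1 with ⟨h4, h5⟩ | ⟨h4, h5⟩
  · exact absurd (h5 ▸ sp_par_inner R hc h4) h2
  · exact h5.symm

theorem sp_card_biUnion [Fintype U] [DecidableEq U] (hc : IsInner T R.c) (H : Finset U) :
    (H.biUnion (lf T)).card = ∑ u ∈ H, (lf T u).card := by
  apply card_biUnion
  intro u _ v _ huv
  change Disjoint (lf T u) (lf T v)
  rw [Finset.disjoint_left]
  intro w h1 h2
  exact huv ((sp_lf R hc h1).2.1.symm.trans (sp_lf R hc h2).2.1)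

theorem sp_zmod (a : ZMod 2) : a = 0 ∨ a = 1 := by
  revert a
  decide

end

/-- The split case. -/
theorem caseSplit {U : Type*} [Fintype U] [DecidableEq U] {T : SimpleGraph U} (hT : T.IsTree)
    (R : RT T) (hRc : IsInner T R.c) (k : ℕ) (hk : Nat.card {u // IsInner T u} ≤ k)
    (H L : Finset U) (hHL : Disjoint H L) (hev : ∀ u ∈ H ∪ L, (R.dep u : ZMod 2) = 0)
    (hin : ∀ u ∈ H ∪ L, IsInner T u) (hH : 4 * k ≤ ∑ u ∈ H, (lf T u).card)
    (hL : 4 * k ≤ ∑ u ∈ L, (lf T u).card)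
    (hY : 12 * k ≤ Nat.card {w // (R.dep w : ZMod 2) = 0 ∧ ¬ IsInner T w}) :
    Framed T (20 * k) := by
  classical
  set A0 : Finset U := univ.filter (fun u => IsInner T u) with hA0
  have memA0 : ∀ u, u ∈ A0 ↔ IsInner T u := by
    intro u
    simp [hA0]
  have hA0c : A0.card ≤ k := by
    rw [Nat.card_eq_fintype_card, Fintype.card_subtype] at hk
    exact hk
  have hcA : R.c ∈ A0 := (memA0 _).mpr hRc
  have hparA : ∀ u, u ≠ R.c → R.par u ∈ A0 := fun u hu => (memA0 _).mpr (sp_par_inner R hRc hu)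
  have z01 : (0 : ZMod 2) ≠ 1 := by decide
  have z11 : (1 : ZMod 2) + 1 = 0 := by decide
  obtain ⟨lab, z1, z2, z3⟩ := zone_labelling R A0 hcA (fun u _ hu => hparA u hu) k hA0c
    (fun u => if (R.dep u : ZMod 2) = 0 then (if u ∈ H then 4 * k else 0) else 6 * k)
  have zH : ∀ u ∈ H, 4 * k ≤ lab u ∧ lab u < 6 * k := by
    intro u hu
    have h1 := z1 u ((memA0 _).mpr (hin u (mem_union_left _ hu)))
    simp only [hev u (mem_union_left _ hu), if_true, hu] at h1
    omega
  have zL : ∀ u ∈ L, lab u < 2 * k := by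
    intro u hu
    have h1 := z1 u ((memA0 _).mpr (hin u (mem_union_right _ hu)))
    have h2 : u ∉ H := fun h => Finset.disjoint_left.mp hHL h hu
    simp only [hev u (mem_union_right _ hu), if_true, h2, if_false] at h1
    omega
  have zev : ∀ u ∈ A0, (R.dep u : ZMod 2) = 0 → lab u < 6 * k := by
    intro u hu h
    have h1 := z1 u hu
    simp only [h, if_true] at h1
    split_ifs at h1 <;> omega
  have zod : ∀ u ∈ A0, (R.dep u : ZMod 2) = 1 → 6 * k ≤ lab u ∧ lab u < 8 * k := by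
    intro u hu h
    have h1 := z1 u hu
    simp only [h, z01.symm, if_false] at h1
    omega
  set Ty : Finset ℕ := (A0.erase R.c).image (fun u => lab u + lab (R.par u)) with hTy
  have hne : Nonempty U := ⟨R.c⟩
  obtain ⟨e1, a1, b1, c1⟩ := mono_assign (Ico (6 * k) (10 * k) \ Ty) (H.biUnion (lf T))
    (fun w => lab (R.par w)) (by
      rw [sp_card_biUnion R hRc]
      refine le_trans ((card_le_card sdiff_subset).trans ?_) hH
      rw [Nat.card_Ico]
      omega)
  obtain ⟨e2, a2, b2, c2⟩ := mono_assign (Ico (10 * k) (14 * k) \ Ty) (L.biUnion (lf T))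
    (fun w => lab (R.par w)) (by
      rw [sp_card_biUnion R hRc]
      refine le_trans ((card_le_card sdiff_subset).trans ?_) hL
      rw [Nat.card_Ico]
      omega)
  set Λ : Finset ℕ := Ico (6 * k) (14 * k) \ Ty with hΛ
  set e : ℕ → U := fun l => if l < 10 * k then e1 l else e2 l with he
  have memΛ : ∀ l, l ∈ Λ ↔ (6 * k ≤ l ∧ l < 14 * k) ∧ l ∉ Ty := by
    intro l
    rw [hΛ, mem_sdiff, mem_Ico]
  have e_lo : ∀ l ∈ Λ, l < 10 * k → R.par (e l) ∈ H ∧ e l ∈ lf T (R.par (e l)) := by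
    intro l hl hlt
    have h1 : e l = e1 l := by simp [he, hlt]
    rw [h1]
    have h2 := a1 l (mem_sdiff.mpr ⟨mem_Ico.mpr ⟨((memΛ l).mp hl).1.1, hlt⟩, ((memΛ l).mp hl).2⟩)
    rw [mem_biUnion] at h2
    obtain ⟨u, hu, hw⟩ := h2
    have h3 := (sp_lf R hRc hw).2.1
    rw [h3]
    exact ⟨hu, hw⟩
  have e_hi : ∀ l ∈ Λ, 10 * k ≤ l → R.par (e l) ∈ L ∧ e l ∈ lf T (R.par (e l)) := by
    intro l hl hlt
    have h1 : e l = e2 l := by simp [he, not_lt.mpr hlt]
    rw [h1]
    have h2 := a2 l (mem_sdiff.mpr ⟨mem_Ico.mpr ⟨hlt, ((memΛ l).mp hl).1.2⟩, ((memΛ l).mp hl).2⟩)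
    rw [mem_biUnion] at h2
    obtain ⟨u, hu, hw⟩ := h2
    have h3 := (sp_lf R hRc hw).2.1
    rw [h3]
    exact ⟨hu, hw⟩
  have e_par : ∀ l ∈ Λ, R.par (e l) ∈ H ∪ L ∧ e l ∈ lf T (R.par (e l)) := by
    intro l hl
    rcases lt_or_ge l (10 * k) with h | h
    · exact ⟨mem_union_left _ (e_lo l hl h).1, (e_lo l hl h).2⟩
    · exact ⟨mem_union_right _ (e_hi l hl h).1, (e_hi l hl h).2⟩
  have e_inj : ∀ l ∈ Λ, ∀ l' ∈ Λ, e l = e l' → l = l' := by
    intro l hl l' hl' h
    rcases lt_or_ge l (10 * k) with h1 | h1 <;> rcases lt_or_ge l' (10 * k) with h2 | h2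
    · simp only [he, h1, h2, if_true] at h
      exact b1 l (mem_sdiff.mpr ⟨mem_Ico.mpr ⟨((memΛ l).mp hl).1.1, h1⟩, ((memΛ l).mp hl).2⟩)
        l' (mem_sdiff.mpr ⟨mem_Ico.mpr ⟨((memΛ l').mp hl').1.1, h2⟩, ((memΛ l').mp hl').2⟩) h
    · exfalso
      have h3 := (e_lo l hl h1).1
      have h4 := (e_hi l' hl' h2).1
      rw [h] at h3
      exact Finset.disjoint_left.mp hHL h3 h4
    · exfalso
      have h3 := (e_hi l hl h1).1
      have h4 := (e_lo l' hl' h2).1
      rw [h] at h3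
      exact Finset.disjoint_left.mp hHL h4 h3
    · simp only [he, not_lt.mpr h1, not_lt.mpr h2, if_false] at h
      exact b2 l (mem_sdiff.mpr ⟨mem_Ico.mpr ⟨h1, ((memΛ l).mp hl).1.2⟩, ((memΛ l).mp hl).2⟩)
        l' (mem_sdiff.mpr ⟨mem_Ico.mpr ⟨h2, ((memΛ l').mp hl').1.2⟩, ((memΛ l').mp hl').2⟩) h
  -- rows decrease inside each half
  have e_mono : ∀ l ∈ Λ, ∀ l' ∈ Λ, l < l' → (l' < 10 * k ∨ 10 * k ≤ l) →
      lab (R.par (e l')) ≤ lab (R.par (e l)) := by
    intro l hl l' hl' hlt h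
    rcases h with h | h
    · have h1 : l < 10 * k := by omega
      have h3 := c1 l (mem_sdiff.mpr ⟨mem_Ico.mpr ⟨((memΛ l).mp hl).1.1, h1⟩, ((memΛ l).mp hl).2⟩)
        l' (mem_sdiff.mpr ⟨mem_Ico.mpr ⟨((memΛ l').mp hl').1.1, h⟩, ((memΛ l').mp hl').2⟩) hlt
      simpa only [he, h, h1, if_true] using h3
    · have h1 : 10 * k ≤ l' := by omega
      have h3 := c2 l (mem_sdiff.mpr ⟨mem_Ico.mpr ⟨h, ((memΛ l).mp hl).1.2⟩, ((memΛ l).mp hl).2⟩)
        l' (mem_sdiff.mpr ⟨mem_Ico.mpr ⟨h1, ((memΛ l').mp hl').1.2⟩, ((memΛ l').mp hl').2⟩) hlt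
      simpa only [he, not_lt.mpr h, not_lt.mpr h1, if_false] using h3
  set X : Finset U := Λ.image e with hX
  set τ : U → ℕ := fun u => Function.invFunOn e (Λ : Set ℕ) u with hτ
  have τX : ∀ u ∈ X, τ u ∈ Λ ∧ e (τ u) = u := by
    intro u hu
    obtain ⟨l, hl, rfl⟩ := mem_image.mp hu
    have hex : ∃ a ∈ (Λ : Set ℕ), e a = e l := ⟨l, by exact_mod_cast hl, rfl⟩
    exact ⟨by exact_mod_cast Function.invFunOn_mem hex, Function.invFunOn_eq hex⟩
  have X_not : ∀ u ∈ X, u ∉ A0 := by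
    intro u hu h
    obtain ⟨h1, h2⟩ := τX u hu
    have h3 := (sp_lf R hRc (e_par _ h1).2).2.2
    rw [h2] at h3
    exact h3 ((memA0 _).mp h)
  have X_c : ∀ u ∈ X, u ≠ R.c := by
    intro u hu h
    exact X_not u hu (h ▸ hcA)
  have X_par : ∀ u ∈ X, R.par u ∈ H ∪ L := by
    intro u hu
    obtain ⟨h1, h2⟩ := τX u hu
    have h3 := (e_par _ h1).1
    rwa [h2] at h3
  have X_odd : ∀ u ∈ X, (R.dep u : ZMod 2) = 1 := by
    intro u hu
    rw [sp_parity R (X_c u hu), hev _ (X_par u hu), zero_add]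
  have X_zone : ∀ u ∈ X, (τ u < 10 * k ∧ 6 * k ≤ τ u ∧ 4 * k ≤ lab (R.par u) ∧
      lab (R.par u) < 6 * k) ∨ (10 * k ≤ τ u ∧ τ u < 14 * k ∧ lab (R.par u) < 2 * k) := by
    intro u hu
    obtain ⟨h1, h2⟩ := τX u hu
    rcases lt_or_ge (τ u) (10 * k) with h | h
    · left
      have h3 := (e_lo _ h1 h).1
      rw [h2] at h3
      exact ⟨h, ((memΛ _).mp h1).1.1, (zH _ h3).1, (zH _ h3).2⟩
    · right
      have h3 := (e_hi _ h1 h).1
      rw [h2] at h3
      exact ⟨h, ((memΛ _).mp h1).1.2, zL _ h3⟩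
  set lab' : U → ℕ := fun u => if u ∈ A0 then lab u else τ u - lab (R.par u) with hlab'
  have l_in : ∀ u ∈ A0, lab' u = lab u := by
    intro u hu
    simp [hlab', hu]
  have l_X : ∀ u ∈ X, lab' u = τ u - lab (R.par u) := by
    intro u hu
    simp [hlab', X_not u hu]
  have l_par : ∀ u, u ≠ R.c → lab' (R.par u) = lab (R.par u) := fun u hu => l_in _ (hparA u hu)
  have ty_X : ∀ u ∈ X, lab' u + lab' (R.par u) = τ u := by
    intro u hu
    rw [l_X u hu, l_par u (X_c u hu)]
    rcases X_zone u hu with h | h <;> omega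
  have ty_in : ∀ u ∈ A0, u ≠ R.c → lab' u + lab' (R.par u) = lab u + lab (R.par u) := by
    intro u hu huc
    rw [l_in u hu, l_par u huc]
  have zodX : ∀ u ∈ X, (1 ≤ lab' u ∧ lab' u < 6 * k) ∨ (8 * k < lab' u ∧ lab' u < 14 * k) := by
    intro u hu
    rw [l_X u hu]
    rcases X_zone u hu with h | h <;> omega
  set I : Finset U := A0 ∪ X with hI
  have memI : ∀ u, u ∈ I ↔ u ∈ A0 ∨ u ∈ X := fun u => mem_union
  have evI : ∀ u ∈ I, (R.dep u : ZMod 2) = 0 → u ∈ A0 := by
    intro u hu h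
    rcases (memI u).mp hu with h1 | h1
    · exact h1
    · exact absurd (h.symm.trans (X_odd u h1)) z01
  have ty_sub : ∀ l, 6 * k ≤ l → l < 14 * k → l ∈ R.types I lab' := by
    intro l h1 h2
    unfold RT.types
    rw [mem_image]
    by_cases h : l ∈ Ty
    · obtain ⟨u, hu, h3⟩ := mem_image.mp h
      rw [mem_erase] at hu
      refine ⟨u, mem_erase.mpr ⟨hu.1, (memI u).mpr (Or.inl hu.2)⟩, ?_⟩
      rw [ty_in u hu.2 hu.1]
      exact h3
    · have hl : l ∈ Λ := (memΛ l).mpr ⟨⟨h1, h2⟩, h⟩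
      have hu : e l ∈ X := mem_image_of_mem e hl
      refine ⟨e l, mem_erase.mpr ⟨X_c _ hu, (memI _).mpr (Or.inr hu)⟩, ?_⟩
      rw [ty_X _ hu]
      exact e_inj _ (τX _ hu).1 _ hl (τX _ hu).2
  have hf0 : R.forb I lab' 0 \ R.types I lab' = ∅ := by
    rw [sdiff_eq_empty_iff_subset]
    intro l hl
    unfold RT.forb at hl
    rw [mem_image] at hl
    obtain ⟨⟨w, u⟩, hp, rfl⟩ := hl
    rw [mem_product, mem_filter] at hp
    obtain ⟨hw, hu, hud⟩ := hp
    unfold RT.out at hw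
    rw [mem_filter, mem_sdiff] at hw
    obtain ⟨⟨-, hwI⟩, hwd⟩ := hw
    simp only at hwI hwd hu hud
    have hwc : w ≠ R.c := fun h => hwI (h ▸ (memI _).mpr (Or.inl hcA))
    have hpd : (R.dep (R.par w) : ZMod 2) = 1 := by
      have h1 := sp_parity R hwc
      rw [hwd] at h1
      rcases sp_zmod (R.dep (R.par w) : ZMod 2) with h2 | h2
      · rw [h2, zero_add] at h1
        exact absurd h1 z01
      · exact h2
    have h1 := zod _ (hparA w hwc) hpd
    have h2 := zev _ (evI u hu hud) hud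
    apply ty_sub
    · simp only [l_par w hwc, l_in u (evI u hu hud)]
      omega
    · simp only [l_par w hwc, l_in u (evI u hu hud)]
      omega
  have hf1 : (R.forb I lab' 1 \ R.types I lab').card ≤ 12 * k := by
    have hsub : R.forb I lab' 1 \ R.types I lab' ⊆ range (6 * k) ∪ Ico (14 * k) (20 * k) := by
      intro l hl
      rw [mem_sdiff] at hl
      obtain ⟨hl, hlt⟩ := hl
      have hnot : ¬ (6 * k ≤ l ∧ l < 14 * k) := fun h => hlt (ty_sub l h.1 h.2)
      unfold RT.forb at hl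
      rw [mem_image] at hl
      obtain ⟨⟨w, u⟩, hp, rfl⟩ := hl
      rw [mem_product, mem_filter] at hp
      obtain ⟨hw, hu, hud⟩ := hp
      unfold RT.out at hw
      rw [mem_filter, mem_sdiff] at hw
      obtain ⟨⟨-, hwI⟩, hwd⟩ := hw
      simp only at hwI hwd hu hud hnot ⊢
      have hwc : w ≠ R.c := fun h => hwI (h ▸ (memI _).mpr (Or.inl hcA))
      have hpd : (R.dep (R.par w) : ZMod 2) = 0 := by
        have h1 := sp_parity R hwc
        rw [hwd] at h1
        rcases sp_zmod (R.dep (R.par w) : ZMod 2) with h2 | h2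
        · exact h2
        · rw [h2, z11] at h1
          exact absurd h1.symm z01
      have h1 := zev _ (hparA w hwc) hpd
      have h2 : lab' u < 14 * k := by
        rcases (memI u).mp hu with h3 | h3
        · have h4 := zod u h3 hud
          rw [l_in u h3]
          omega
        · rcases zodX u h3 with h4 | h4 <;> omega
      rw [mem_union, mem_range, mem_Ico]
      rw [l_par w hwc] at hnot ⊢
      omega
    refine (card_le_card hsub).trans ((card_union_le _ _).trans ?_)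
    rw [card_range, Nat.card_Ico]
    omega
  refine ⟨R, I, lab', (memI _).mpr (Or.inl hcA), ?_, ?_, ?_, ?_, ?_, ?_, ?_, ?_⟩
  · intro u _ huc
    exact (memI _).mpr (Or.inl (hparA u huc))
  · intro u hu
    have huc : u ≠ R.c := fun h => hu (h ▸ (memI _).mpr (Or.inl hcA))
    exact (memI _).mpr (Or.inl (hparA u huc))
  · intro u hu v hv hd hl
    rcases (memI u).mp hu with h1 | h1 <;> rcases (memI v).mp hv with h2 | h2
    · rw [l_in u h1, l_in v h2] at hl
      exact z2 u h1 v h2 hd hl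
    · exfalso
      rw [X_odd v h2] at hd
      have h3 := zod u h1 hd
      rw [l_in u h1] at hl
      rcases zodX v h2 with h4 | h4 <;> omega
    · exfalso
      rw [X_odd u h1] at hd
      have h3 := zod v h2 hd.symm
      rw [l_in v h2] at hl
      rcases zodX u h1 with h4 | h4 <;> omega
    · have h3 := X_zone u h1
      have h4 := X_zone v h2
      rw [l_X u h1, l_X v h2] at hl
      have h5 : τ u = τ v := by
        by_contra hne
        rcases lt_or_gt_of_ne hne with h6 | h6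
        · have h7 := e_mono _ (τX u h1).1 _ (τX v h2).1 h6
          rw [(τX u h1).2, (τX v h2).2] at h7
          by_cases h8 : τ v < 10 * k ∨ 10 * k ≤ τ u
          · have h9 := h7 h8
            omega
          · omega
        · have h7 := e_mono _ (τX v h2).1 _ (τX u h1).1 h6
          rw [(τX u h1).2, (τX v h2).2] at h7
          by_cases h8 : τ u < 10 * k ∨ 10 * k ≤ τ v
          · have h9 := h7 h8
            omega
          · omega
      rw [← (τX u h1).2, ← (τX v h2).2, h5]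
  · intro u hu v hv hd
    have key : ∀ u ∈ I, ∀ v ∈ I, (R.dep u : ZMod 2) = 0 → (R.dep v : ZMod 2) = 1 →
        lab' u + lab' v < 20 * k := by
      intro u hu v hv h1 h2
      have h3 := zev u (evI u hu h1) h1
      rw [← l_in u (evI u hu h1)] at h3
      have h4 : lab' v < 14 * k := by
        rcases (memI v).mp hv with h5 | h5
        · have h6 := zod v h5 h2
          rw [l_in v h5]
          omega
        · rcases zodX v h5 with h6 | h6 <;> omega
      omega
    rcases sp_zmod (R.dep u : ZMod 2) with h1 | h1 <;> rcases sp_zmod (R.dep v : ZMod 2) with h2 | h2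
    · exact absurd (h1.trans h2.symm) hd
    · exact key u hu v hv h1 h2
    · rw [add_comm]
      exact key v hv u hu h2 h1
    · exact absurd (h1.trans h2.symm) hd
  · intro u hu v hv huc hvc h
    rcases (memI u).mp hu with h1 | h1 <;> rcases (memI v).mp hv with h2 | h2
    · rw [ty_in u h1 huc, ty_in v h2 hvc] at h
      exact z3 u h1 v h2 huc hvc h
    · exfalso
      rw [ty_in u h1 huc, ty_X v h2] at h
      apply ((memΛ _).mp (τX v h2).1).2
      rw [← h]
      exact mem_image.mpr ⟨u, mem_erase.mpr ⟨huc, h1⟩, rfl⟩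
    · exfalso
      rw [ty_X u h1, ty_in v h2 hvc] at h
      apply ((memΛ _).mp (τX u h1).1).2
      rw [h]
      exact mem_image.mpr ⟨v, mem_erase.mpr ⟨hvc, h2⟩, rfl⟩
    · rw [ty_X u h1, ty_X v h2] at h
      rw [← (τX u h1).2, ← (τX v h2).2, h]
  · rw [hf0]
    exact disjoint_empty_left _
  · rw [hf0, card_empty]
    exact Nat.zero_le _
  · refine hf1.trans (hY.trans ?_)
    rw [Nat.card_eq_fintype_card, Fintype.card_subtype]
    apply card_le_card
    intro w hw
    rw [mem_filter] at hw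
    obtain ⟨-, hw1, hw2⟩ := hw
    unfold RT.out
    rw [mem_filter, mem_sdiff]
    refine ⟨⟨mem_univ _, ?_⟩, hw1⟩
    intro hwI
    exact hw2 ((memA0 _).mp (evI w hwI hw1))

end Pool.Agent.Lib.MP_c5b475_co
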