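import Pool.Agent.Lib.MP_c5b475_co.Few.FIN
import Pool.Agent.Lib.MP_c5b475_co.Few.SP
import Pool.Agent.Lib.MP_c5b475_co.Few.DM

set_option autoImplicit false

/-!
# FN2: many leaves in both colour classes
-/

namespace Pool.Agent.Lib.MP_c5b475_co

open Finset

theorem fn2_chunk {U : Type*} [DecidableEq U] (ℓ : U → ℕ) (m : ℕ) (hm : 0 < m) (A : Finset U)
    (hall : ∀ u ∈ A, ℓ u < m) (hA : m ≤ ∑ u ∈ A, ℓ u) :
    ∃ H ⊆ A, m ≤ ∑ u ∈ H, ℓ u ∧ ∑ u ∈ H, ℓ u < 2 * m := by
  induction A using Finset.induction_on with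
  | empty =>
    rw [sum_empty] at hA
    omega
  | insert a A ha ih =>
    by_cases h : m ≤ ∑ u ∈ A, ℓ u
    · obtain ⟨H, hH, h1, h2⟩ := ih (fun u hu => hall u (mem_insert_of_mem hu)) h
      exact ⟨H, hH.trans (subset_insert _ _), h1, h2⟩
    · refine ⟨insert a A, Subset.refl _, hA, ?_⟩
      rw [sum_insert ha]
      have := hall a (mem_insert_self a A)
      omega

theorem fn2_split {U : Type*} [DecidableEq U] (A : Finset U) (ℓ : U → ℕ) (k : ℕ) (h1 : 1 ≤ k)
    (hA : 12 * k ≤ ∑ u ∈ A, ℓ u) :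
    (∃ H L : Finset U, H ⊆ A ∧ L ⊆ A ∧ Disjoint H L ∧ 4 * k ≤ ∑ u ∈ H, ℓ u ∧
      4 * k ≤ ∑ u ∈ L, ℓ u) ∨ ∃ x ∈ A, ∑ u ∈ A.erase x, ℓ u < 4 * k := by
  by_cases hbig : ∃ x ∈ A, 4 * k ≤ ℓ x
  · obtain ⟨x, hx, hx4⟩ := hbig
    by_cases h : ∑ u ∈ A.erase x, ℓ u < 4 * k
    · exact Or.inr ⟨x, hx, h⟩
    · left
      refine ⟨{x}, A.erase x, singleton_subset_iff.mpr hx, erase_subset _ _, ?_, ?_, by omega⟩
      · rw [disjoint_singleton_left]
        exact notMem_erase _ _
      · rw [sum_singleton]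
        exact hx4
  · push Not at hbig
    left
    obtain ⟨H, hH, h2, h3⟩ := fn2_chunk ℓ (4 * k) (by omega) A hbig (by omega)
    refine ⟨H, A \ H, hH, sdiff_subset, disjoint_sdiff, h2, ?_⟩
    have := sum_sdiff (f := ℓ) hH
    omega

section

variable {U : Type*} [Fintype U] [DecidableEq U] {T : SimpleGraph U}

omit [Fintype U] in
theorem fn2_cl (R : RT T) (cl : U → ZMod 2) (hcl : ∀ u v, T.Adj u v → cl v = cl u + 1) (w : U) :
    cl w = cl R.c + R.dep w := by
  refine R.ind (P := fun w => cl w = cl R.c + R.dep w) ?_ ?_ w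
  · rw [R.dep_c]
    simp
  · intro u hu ih
    rw [hcl _ _ (R.adj_par hu).symm, ih, R.dep_par_cast hu, add_assoc]

open Classical in
/-- FN2. Many leaves in both colour classes. -/
theorem bothClasses (hT : T.IsTree)
    (k : ℕ) (h1 : 1 ≤ k) (hk : Nat.card {u // IsInner T u} ≤ k) (cl : U → ZMod 2)
    (hcl : ∀ u v, T.Adj u v → cl v = cl u + 1)
    (hL : ∀ a : ZMod 2, 30 * k ≤ Nat.card {w // cl w = a ∧ ¬ IsInner T w}) :
    Framed T (60 * k) := by
  have h3 : 3 ≤ Fintype.card U := by
    have h2 := hL 0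
    have h4 : Nat.card {w // cl w = 0 ∧ ¬ IsInner T w} ≤ Fintype.card U := by
      rw [Nat.card_eq_fintype_card]
      exact Fintype.card_subtype_le _
    omega
  obtain ⟨c, hc⟩ := fin_exists_inner hT h3
  obtain ⟨R, hRc, _⟩ := exists_RT hT c
  have hc' : IsInner T R.c := by rw [hRc]; exact hc
  set IN : ZMod 2 → Finset U := fun a => univ.filter (fun u => IsInner T u ∧ cl u = a) with hIN
  set LV : ZMod 2 → Finset U := fun a => univ.filter (fun w => cl w = a ∧ ¬ IsInner T w) with hLV
  have hLVc : ∀ a, 30 * k ≤ (LV a).card := by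
    intro a
    have := hL a
    rw [Nat.card_eq_fintype_card, Fintype.card_subtype] at this
    exact this
  have h2 : ∀ a : ZMod 2, a + 1 + 1 = a := by decide
  -- a leaf of class `a + 1` is in `lf u` for an inner vertex `u` of class `a`
  have hleaf : ∀ a, ∀ w ∈ LV (a + 1), ∃ u ∈ IN a, w ∈ lf T u := by
    intro a w hw
    rw [hLV, mem_filter] at hw
    obtain ⟨_, hwc, hwi⟩ := hw
    obtain ⟨h4, h5, h6⟩ := fin_leaf R hc' hwi
    refine ⟨R.par w, mem_filter.mpr ⟨mem_univ _, h6, ?_⟩, h5⟩
    have h7 := hcl _ _ (R.adj_par h4).symm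
    rw [hwc] at h7
    exact (add_right_cancel h7).symm
  have hsum : ∀ a, 30 * k ≤ ∑ u ∈ IN a, (lf T u).card := by
    intro a
    refine (hLVc (a + 1)).trans ?_
    have : LV (a + 1) ⊆ (IN a).biUnion (lf T) := by
      intro w hw
      obtain ⟨u, hu, hwu⟩ := hleaf a w hw
      exact mem_biUnion.mpr ⟨u, hu, hwu⟩
    exact (card_le_card this).trans card_biUnion_le
  -- the split case
  have hS : ∀ a, (∃ H L : Finset U, H ⊆ IN a ∧ L ⊆ IN a ∧ Disjoint H L ∧
      4 * k ≤ ∑ u ∈ H, (lf T u).card ∧ 4 * k ≤ ∑ u ∈ L, (lf T u).card) → Framed T (60 * k) := by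
    rintro a ⟨H, L, hH, hL', hd, h4, h5⟩
    have hne : H.Nonempty := by
      rw [nonempty_iff_ne_empty]
      rintro rfl
      rw [sum_empty] at h4
      omega
    obtain ⟨h, hh⟩ := hne
    obtain ⟨R', hR', _⟩ := exists_RT hT h
    have hha := (mem_filter.mp (hH hh)).2
    have hdep : ∀ w, (R'.dep w : ZMod 2) = 0 ↔ cl w = a := by
      intro w
      rw [fn2_cl R' cl hcl w, hR', hha.2]
      constructor
      · intro h0
        rw [h0, add_zero]
      · intro h0
        exact add_eq_left.mp h0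
    have hin : IsInner T R'.c := by rw [hR']; exact hha.1
    have hmem : ∀ u ∈ H ∪ L, u ∈ IN a := by
      intro u hu
      rcases mem_union.mp hu with hu | hu
      · exact hH hu
      · exact hL' hu
    refine fin_mono (caseSplit hT R' hin k hk H L hd ?_ ?_ h4 h5 ?_) (by omega)
    · intro u hu
      exact (hdep u).mpr (mem_filter.mp (hmem u hu)).2.2
    · intro u hu
      exact (mem_filter.mp (hmem u hu)).2.1
    · have h6 := hL a
      have e : Nat.card {w // (R'.dep w : ZMod 2) = 0 ∧ ¬ IsInner T w} =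
          Nat.card {w // cl w = a ∧ ¬ IsInner T w} := by
        apply Nat.card_congr
        apply Equiv.subtypeEquivRight
        intro w
        rw [hdep w]
      rw [e]
      omega
  rcases fn2_split (IN 0) (fun u => (lf T u).card) k h1 (by have := hsum 0; omega) with h4 | h4
  · exact hS 0 h4
  rcases fn2_split (IN 1) (fun u => (lf T u).card) k h1 (by have := hsum 1; omega) with h5 | h5
  · exact hS 1 h5
  obtain ⟨x, hx, hx4⟩ := h4
  obtain ⟨y, hy, hy4⟩ := h5
  have hx' := (mem_filter.mp hx).2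
  have hy' := (mem_filter.mp hy).2
  obtain ⟨R', hR', _⟩ := exists_RT hT x
  have hsx := add_sum_erase (IN 0) (fun u => (lf T u).card) hx
  have hsy := add_sum_erase (IN 1) (fun u => (lf T u).card) hy
  have h0 := hsum 0
  have h1' := hsum 1
  have hfr := caseDom hT R' (by rw [hR']; exact hx'.1) y hy'.1 (by
      have := fn2_cl R' cl hcl y
      rw [hR', hx'.2, hy'.2, zero_add] at this
      exact this.symm) (9 * k) (by
      rw [Nat.card_eq_fintype_card, Fintype.card_subtype, hR']
      have hsub : univ.filter (fun w => w ∉ lf T x ∧ w ∉ lf T y) ⊆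
          univ.filter (fun w => IsInner T w) ∪ (((IN 0).erase x).biUnion (lf T) ∪
            ((IN 1).erase y).biUnion (lf T)) := by
        intro w hw
        obtain ⟨_, hwx, hwy⟩ := mem_filter.mp hw
        rw [mem_union, mem_union]
        by_cases hwi : IsInner T w
        · exact Or.inl (mem_filter.mpr ⟨mem_univ _, hwi⟩)
        · right
          have hcase : cl w = 0 + 1 ∨ cl w = 1 + 1 := by
            generalize cl w = b
            revert b
            decide
          rcases hcase with h6 | h6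
          · left
            obtain ⟨u, hu, hwu⟩ := hleaf 0 w (mem_filter.mpr ⟨mem_univ _, h6, hwi⟩)
            refine mem_biUnion.mpr ⟨u, mem_erase.mpr ⟨?_, hu⟩, hwu⟩
            rintro rfl
            exact hwx hwu
          · right
            obtain ⟨u, hu, hwu⟩ := hleaf 1 w (mem_filter.mpr ⟨mem_univ _, h6, hwi⟩)
            refine mem_biUnion.mpr ⟨u, mem_erase.mpr ⟨?_, hu⟩, hwu⟩
            rintro rfl
            exact hwy hwu
      have h6 := (card_le_card hsub).trans (card_union_le _ _)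
      have h7 := card_union_le (((IN 0).erase x).biUnion (lf T)) (((IN 1).erase y).biUnion (lf T))
      have h8 : (((IN 0).erase x).biUnion (lf T)).card ≤ _ := card_biUnion_le
      have h9 : (((IN 1).erase y).biUnion (lf T)).card ≤ _ := card_biUnion_le
      rw [Nat.card_eq_fintype_card, Fintype.card_subtype] at hk
      omega) (by rw [hR']; omega) (by omega)
  exact fin_mono hfr (by omega)

end

end Pool.Agent.Lib.MP_c5b475_co
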