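import Mathlib

set_option autoImplicit false

/-!
# Filling the types by spare labels
-/

namespace Pool.Agent.Lib.MP_c5b475_co

open Finset

/-- State of the filling process: the labels below `z` are processed and all types below `f` are
covered. -/
structure FillSt (r : ℕ) (B S : Finset ℕ) (z f : ℕ) (D : Finset ℕ) (g : ℕ → ℕ) : Prop where
  d1 : ∀ x ∈ D, x < z ∧ x ∉ B ∧ x ≤ g x ∧ g x < x + r
  d2 : ∀ x ∈ D, ∀ y ∈ D, g x = g y → x = y
  d3 : D.image g = range f \ S
  le : z ≤ f
  inv1 : z < f ∨ f = 0 ∨ ∃ β ∈ B, β < z ∧ ∃ t ∈ S, f ≤ t ∧ ∀ β' ∈ B, β < β' → t < β'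
  inv2 : f ≤ z + (r - 1) → (r - 1) + z + (B.filter (fun β => z ≤ β)).card ≤
    f + (S.filter (fun t => f ≤ t)).card
  inv3 : f ≤ z + (r - 1) ∨ ∃ t ∈ S, f ≤ t + 1

theorem fill_filter_mem {A : Finset ℕ} {x : ℕ} (hx : x ∈ A) :
    (A.filter (fun t => x ≤ t)).card = (A.filter (fun t => x + 1 ≤ t)).card + 1 := by
  have h : A.filter (fun t => x ≤ t) = insert x (A.filter (fun t => x + 1 ≤ t)) := by
    ext t
    simp only [mem_filter, mem_insert]
    constructor
    · rintro ⟨h1, h2⟩
      rcases Nat.eq_or_lt_of_le h2 with h3 | h3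
      · exact Or.inl h3.symm
      · exact Or.inr ⟨h1, h3⟩
    · rintro (rfl | ⟨h1, h2⟩)
      · exact ⟨hx, le_rfl⟩
      · exact ⟨h1, by omega⟩
  rw [h, card_insert_of_notMem]
  simp

theorem fill_filter_notMem {A : Finset ℕ} {x : ℕ} (hx : x ∉ A) :
    (A.filter (fun t => x ≤ t)).card = (A.filter (fun t => x + 1 ≤ t)).card := by
  congr 1
  ext t
  simp only [mem_filter]
  constructor
  · rintro ⟨h1, h2⟩
    refine ⟨h1, ?_⟩
    rcases Nat.eq_or_lt_of_le h2 with h3 | h3
    · exact absurd (h3 ▸ h1) hx
    · exact h3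
  · rintro ⟨h1, h2⟩
    exact ⟨h1, by omega⟩

theorem fill_step {r : ℕ} (hr : 2 ≤ r) {B S : Finset ℕ} (h0 : 0 ∈ S)
    (hR : ∀ τ, (B.filter (fun β => τ ≤ β + (r - 1))).card ≤ (S.filter (fun t => τ ≤ t)).card)
    (hown : ∀ β ∈ B, ∃ t ∈ S, β < t ∧ ∀ β' ∈ B, β < β' → t < β')
    {z f : ℕ} {D : Finset ℕ} {g : ℕ → ℕ} (h : FillSt r B S z f D g) :
    (FillSt r B S z (f + 1) D g) ∨ (FillSt r B S (z + 1) f D g) ∨
      FillSt r B S (z + 1) (f + 1) (insert z D) (Function.update g z f) := by
  by_cases hf : f ∈ S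
  · left
    refine ⟨h.d1, h.d2, ?_, Nat.le_succ_of_le h.le, Or.inl (Nat.lt_succ_of_le h.le), ?_,
      Or.inr ⟨f, hf, le_rfl⟩⟩
    · rw [h.d3]
      ext x
      simp only [mem_sdiff, mem_range]
      constructor
      · rintro ⟨h1, h2⟩
        exact ⟨by omega, h2⟩
      · rintro ⟨h1, h2⟩
        refine ⟨?_, h2⟩
        rcases Nat.lt_succ_iff_lt_or_eq.1 h1 with h3 | h3
        · exact h3
        · exact absurd (h3 ▸ hf) h2
    · intro h1
      have h2 := h.inv2 (by omega)
      rw [fill_filter_mem hf] at h2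
      omega
  · right
    by_cases hz : z ∈ B ∨ z + r ≤ f
    · left
      have hzf : z ∈ B → z < f := by
        intro hzB
        rcases h.inv1 with h1 | h1 | ⟨β, hβ, h1, t, ht, h2, h3⟩
        · exact h1
        · exact absurd (h1 ▸ h0) hf
        · have := h3 z hzB h1
          have := h.le
          omega
      refine ⟨fun x hx => ?_, h.d2, h.d3, ?_, ?_, ?_, ?_⟩
      · obtain ⟨h1, h2⟩ := h.d1 x hx
        exact ⟨by omega, h2⟩
      · rcases hz with hz | hz
        · exact hzf hz
        · omega
      · rcases hz with hz | hz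
        · have h1 := hzf hz
          by_cases h2 : z + 1 < f
          · exact Or.inl h2
          · right
            right
            obtain ⟨t, ht, h3, h4⟩ := hown z hz
            exact ⟨z, hz, by omega, t, ht, by omega, h4⟩
        · exact Or.inl (by omega)
      · intro h1
        by_cases h2 : f ≤ z + (r - 1)
        · have hzB : z ∈ B := by
            rcases hz with hz | hz
            · exact hz
            · omega
          have h3 := h.inv2 h2
          rw [fill_filter_mem hzB] at h3
          omega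
        · have h3 : f = z + r := by omega
          have h4 := hR f
          have h5 : B.filter (fun β => f ≤ β + (r - 1)) = B.filter (fun β => z + 1 ≤ β) := by
            ext β
            simp only [mem_filter]
            constructor
            · rintro ⟨h6, h7⟩
              exact ⟨h6, by omega⟩
            · rintro ⟨h6, h7⟩
              exact ⟨h6, by omega⟩
          rw [h5] at h4
          omega
      · rcases h.inv3 with h1 | h1
        · exact Or.inl (by omega)
        · exact Or.inr h1
    · right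
      push Not at hz
      obtain ⟨hzB, hzr⟩ := hz
      have hzD : z ∉ D := fun hzD => lt_irrefl _ (h.d1 z hzD).1
      have hgD : ∀ x ∈ D, Function.update g z f x = g x := by
        intro x hx
        rw [Function.update_of_ne]
        rintro rfl
        exact hzD hx
      have hgf : ∀ x ∈ D, g x < f := by
        intro x hx
        have h1 : g x ∈ D.image g := mem_image_of_mem g hx
        rw [h.d3, mem_sdiff, mem_range] at h1
        exact h1.1
      refine ⟨?_, ?_, ?_, Nat.succ_le_succ h.le, ?_, ?_, ?_⟩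
      · intro x hx
        rcases mem_insert.1 hx with rfl | hx
        · rw [Function.update_self]
          exact ⟨Nat.lt_succ_self _, hzB, h.le, hzr⟩
        · rw [hgD x hx]
          obtain ⟨h1, h2⟩ := h.d1 x hx
          exact ⟨by omega, h2⟩
      · intro x hx y hy hxy
        rcases mem_insert.1 hx with hx' | hx'
        · rcases mem_insert.1 hy with hy' | hy'
          · rw [hx', hy']
          · rw [hx', Function.update_self, hgD y hy'] at hxy
            exact absurd hxy (hgf y hy').ne'
        · rcases mem_insert.1 hy with hy' | hy'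
          · rw [hy', Function.update_self, hgD x hx'] at hxy
            exact absurd hxy (hgf x hx').ne
          · rw [hgD x hx', hgD y hy'] at hxy
            exact h.d2 x hx' y hy' hxy
      · rw [image_insert, Function.update_self]
        have h1 : D.image (Function.update g z f) = D.image g := image_congr (fun x hx => hgD x hx)
        rw [h1, h.d3]
        ext x
        simp only [mem_insert, mem_sdiff, mem_range]
        constructor
        · rintro (rfl | ⟨h2, h3⟩)
          · exact ⟨Nat.lt_succ_self _, hf⟩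
          · exact ⟨by omega, h3⟩
        · rintro ⟨h2, h3⟩
          rcases Nat.lt_succ_iff_lt_or_eq.1 h2 with h4 | h4
          · exact Or.inr ⟨h4, h3⟩
          · exact Or.inl h4
      · rcases h.inv1 with h1 | h1 | ⟨β, hβ, h1, t, ht, h2, h3⟩
        · exact Or.inl (by omega)
        · exact absurd (h1 ▸ h0) hf
        · right
          right
          refine ⟨β, hβ, by omega, t, ht, ?_, h3⟩
          rcases Nat.eq_or_lt_of_le h2 with h4 | h4
          · exact absurd (h4 ▸ ht) hf
          · exact h4
      · intro h1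
        have h2 := h.inv2 (by omega)
        rw [fill_filter_notMem hzB, fill_filter_notMem hf] at h2
        omega
      · exact Or.inl (by omega)

theorem fill_run {r L : ℕ} (hr : 2 ≤ r) {B S : Finset ℕ}
    (hS : ∀ t ∈ S, t < L) (h0 : 0 ∈ S)
    (hR : ∀ τ, (B.filter (fun β => τ ≤ β + (r - 1))).card ≤ (S.filter (fun t => τ ≤ t)).card)
    (hown : ∀ β ∈ B, ∃ t ∈ S, β < t ∧ ∀ β' ∈ B, β < β' → t < β') :
    ∀ (n z f : ℕ) (D : Finset ℕ) (g : ℕ → ℕ), FillSt r B S z f D g → z ≤ L →
      2 * L + r + 1 ≤ z + f + n → ∃ (f' : ℕ) (D' : Finset ℕ) (g' : ℕ → ℕ),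
        FillSt r B S L f' D' g' := by
  intro n
  induction n with
  | zero =>
    intro z f D g h hz hn
    exfalso
    rcases h.inv3 with h1 | ⟨t, ht, h1⟩
    · omega
    · have := hS t ht
      omega
  | succ n ih =>
    intro z f D g h hz hn
    rcases Nat.eq_or_lt_of_le hz with rfl | hz'
    · exact ⟨f, D, g, h⟩
    · rcases fill_step hr h0 hR hown h with h1 | h1 | h1
      · exact ih _ _ _ _ h1 hz (by omega)
      · exact ih _ _ _ _ h1 hz' (by omega)
      · exact ih _ _ _ _ h1 hz' (by omega)

/-- FL. -/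
theorem fill (r L : ℕ) (hr : 2 ≤ r) (B S : Finset ℕ) (hB : ∀ β ∈ B, β < L)
    (hS : ∀ t ∈ S, t < L) (h0 : 0 ∈ S) (hcard : B.card + (r - 1) ≤ S.card)
    (hR : ∀ τ, (B.filter (fun β => τ ≤ β + (r - 1))).card ≤ (S.filter (fun t => τ ≤ t)).card)
    (hown : ∀ β ∈ B, ∃ t ∈ S, β < t ∧ ∀ β' ∈ B, β < β' → t < β') :
    ∃ (D : Finset ℕ) (g : ℕ → ℕ), (∀ z ∈ D, z < L ∧ z ∉ B ∧ z ≤ g z ∧ g z < z + r) ∧
      (∀ z ∈ D, ∀ z' ∈ D, g z = g z' → z = z') ∧ D.image g = range (L + (r - 1)) \ S := by
  have hstart : FillSt r B S 0 0 ∅ (fun x => x) := by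
    refine ⟨by simp, by simp, by simp, le_rfl, Or.inr (Or.inl rfl), ?_, Or.inl (Nat.zero_le _)⟩
    intro _
    have h1 : B.filter (fun β => 0 ≤ β) = B := filter_true_of_mem (by simp)
    have h2 : S.filter (fun β => 0 ≤ β) = S := filter_true_of_mem (by simp)
    rw [h1, h2]
    omega
  obtain ⟨f, D, g, h⟩ := fill_run (L := L) hr hS h0 hR hown (2 * L + r + 1) 0 0 _ _ hstart
    (Nat.zero_le _) (by omega)
  have h1 : B.filter (fun β => L ≤ β) = ∅ := by
    rw [filter_eq_empty_iff]
    intro β hβ
    have := hB β hβ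
    omega
  have h2 : S.filter (fun t => f ≤ t) = ∅ := by
    rw [filter_eq_empty_iff]
    intro t ht
    have := hS t ht
    have := h.le
    omega
  have h3 : f ≤ L + (r - 1) := by
    rcases h.inv3 with h4 | ⟨t, ht, h4⟩
    · exact h4
    · have := hS t ht
      omega
  have h4 := h.inv2 h3
  rw [h1, h2, card_empty] at h4
  have h5 : f = L + (r - 1) := by omega
  subst h5
  exact ⟨D, g, h.d1, h.d2, h.d3⟩

end Pool.Agent.Lib.MP_c5b475_co
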