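import Pool.Agent.Lib.MP_c5b475_co.Few.DefsB
import Pool.Agent.Lib.MP_c5b475_co.Host

set_option autoImplicit false

/-!
# Splitting a factor into blocks of given sizes
-/

namespace Pool.Agent.Lib.MP_c5b475_co

open Finset

/-- Splitting the blocks of a factor. -/
def splitEquiv (B : Type) (q m : ℕ) (f : Fin q → ℕ) (h : ∑ i, f i = m) :
    ((x : B × Fin q) × Fin (f x.2)) ≃ B × Fin m where
  toFun := fun x => (x.1.1, finCongr h (finSigmaFinEquiv ⟨x.1.2, x.2⟩))
  invFun := fun y =>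
    ⟨(y.1, (finSigmaFinEquiv.symm ((finCongr h).symm y.2)).1),
      (finSigmaFinEquiv.symm ((finCongr h).symm y.2)).2⟩
  left_inv := by
    rintro ⟨⟨b, i⟩, j⟩
    dsimp only
    have h1 : finSigmaFinEquiv.symm ((finCongr h).symm
        ((finCongr h) (finSigmaFinEquiv (⟨i, j⟩ : (i : Fin q) × Fin (f i))))) = ⟨i, j⟩ := by
      rw [Equiv.symm_apply_apply, Equiv.symm_apply_apply]
    rw [h1]
  right_inv := by
    rintro ⟨b, j⟩
    dsimp only
    have h1 : (⟨(finSigmaFinEquiv.symm ((finCongr h).symm j)).1,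
      (finSigmaFinEquiv.symm ((finCongr h).symm j)).2⟩ : (i : Fin q) × Fin (f i)) =
        finSigmaFinEquiv.symm ((finCongr h).symm j) := rfl
    rw [h1, Equiv.apply_symm_apply, Equiv.apply_symm_apply]

theorem exists_sizes {m m0 : ℕ} (h0 : 1 ≤ m0) (h : m0 ≤ m) :
    ∃ (q : ℕ) (f : Fin q → ℕ), ∑ i, f i = m ∧ ∀ i, m0 ≤ f i ∧ f i < 2 * m0 := by
  have hq : 1 ≤ m / m0 := Nat.div_pos h h0
  obtain ⟨q, hq⟩ : ∃ q, m / m0 = q + 1 := ⟨m / m0 - 1, by omega⟩
  have hr : m % m0 < m0 := Nat.mod_lt _ h0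
  refine ⟨q + 1, Fin.cases (m0 + m % m0) (fun _ => m0), ?_, ?_⟩
  · rw [Fin.sum_univ_succ]
    simp only [Fin.cases_zero, Fin.cases_succ, Finset.sum_const, Finset.card_univ,
      Fintype.card_fin, smul_eq_mul]
    have := Nat.div_add_mod m m0
    rw [hq] at this
    linarith [this]
  · intro i
    refine Fin.cases ?_ (fun j => ?_) i
    · simp only [Fin.cases_zero]
      omega
    · simp only [Fin.cases_succ]
      omega

/-- HF. Blocks of sizes between `m0` and `2 m0`. -/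
theorem factor_blocks {V : Type} {G : SimpleGraph V} {m m0 : ℕ} (h0 : 1 ≤ m0) (h : m0 ≤ m)
    (hf : HasFactor G m) : BlockFactor G (fun μ => m0 ≤ μ ∧ μ < 2 * m0) := by
  obtain ⟨B, e, hl, hr, hK⟩ := hf
  obtain ⟨q, f, hs, hfb⟩ := exists_sizes h0 h
  refine ⟨B × Fin q, fun x => f x.2,
    (Equiv.sumCongr (splitEquiv B q m f hs) (splitEquiv B q m f hs)).trans e, ?_, ?_, ?_, ?_⟩
  · rintro ⟨b, i⟩
    exact hfb i
  · intro x y
    exact hl _ _
  · intro x y
    exact hr _ _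
  · intro b i j
    exact hK b.1 _ _

end Pool.Agent.Lib.MP_c5b475_co
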