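import Pool.Agent.Lib.MP_c5b475_co.Few.LWL

/-! Module CE: cells. -/

set_option autoImplicit false

namespace Pool.Agent.Lib.MP_c5b475_co

open Finset

namespace CE

theorem card_sep (C : Finset ℤ) (hC : ∀ x ∈ C, ∀ y ∈ C, x < y → x + 4 ≤ y) (s : ℤ) (l : ℕ) :
    4 * (C.filter (fun x => x ∈ Ico s (s + l))).card ≤ l + 3 := by
  classical
  let X := C.filter (fun x => x ∈ Ico s (s + l))
  have h1 : (X.biUnion fun x => Ico x (x + 4)).card = ∑ x ∈ X, (Ico x (x + 4)).card := by
    apply card_biUnion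
    intro x hx y hy hxy
    have hx' := (mem_filter.1 hx).1
    have hy' := (mem_filter.1 hy).1
    change Disjoint (Ico x (x + 4)) (Ico y (y + 4))
    rw [disjoint_left]
    intro a ha hb
    rw [mem_Ico] at ha hb
    rcases lt_or_gt_of_ne hxy with h | h
    · have := hC x hx' y hy' h
      omega
    · have := hC y hy' x hx' h
      omega
  have h2 : (X.biUnion fun x => Ico x (x + 4)) ⊆ Ico s (s + l + 3) := by
    intro a ha
    rw [mem_biUnion] at ha
    obtain ⟨x, hx, hax⟩ := ha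
    have hx' := (mem_filter.1 hx).2
    rw [mem_Ico] at hx' hax ⊢
    omega
  have h3 := card_le_card h2
  rw [h1] at h3
  have h4 : ∑ x ∈ X, (Ico x (x + 4)).card = X.card * 4 := by
    rw [sum_congr rfl (g := fun _ => 4)]
    · rw [sum_const, smul_eq_mul]
    · intro x _
      rw [Int.card_Ico]
      omega
  rw [h4, Int.card_Ico] at h3
  have : X.card = (C.filter (fun x => x ∈ Ico s (s + l))).card := rfl
  omega

theorem cell (C : Finset ℤ) (hC : ∀ x ∈ C, ∀ y ∈ C, x < y → x + 4 ≤ y) (s : ℤ) (l w : ℕ)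
    (Ξ : Finset ℤ) (hw : 8 ≤ w) (hΞ : 32 * Ξ.card ≤ w) (h1 : w ≤ l) (h2 : l ≤ 2 * w) :
    ∃ f : ℤ → ℤ, (∀ z ∈ (Ico s (s + l) \ C), f z ∈ (Ico s (s + l) \ C) ∧ z - f z ∉ Ξ ∧
      |z - f z| < 2 * w) ∧ Set.InjOn f (Ico s (s + l) \ C : Finset ℤ) ∧
      ∀ d, ((Ico s (s + l) \ C).filter (fun z => z - f z = d)).card ≤ 4 := by
  classical
  have hcard : 16 * Ξ.card ≤ (Ico s (s + l) \ C).card := by
    have h3 := card_sep C hC s l
    have h4 : (Ico s (s + l)).card = l := by rw [Int.card_Ico]; omega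
    have h5 : (Ico s (s + l)).card ≤ (Ico s (s + l) \ C).card +
        (C.filter (fun x => x ∈ Ico s (s + l))).card := by
      rw [← card_union_of_disjoint]
      · apply card_le_card
        intro a ha
        rw [mem_union, mem_sdiff, mem_filter]
        by_cases hc : a ∈ C
        · exact Or.inr ⟨hc, ha⟩
        · exact Or.inl ⟨ha, hc⟩
      · rw [disjoint_left]
        intro a ha hb
        exact (mem_sdiff.1 ha).2 (mem_filter.1 hb).1
    omega
  obtain ⟨f, f1, f2, f3, f4⟩ := window (Ico s (s + l) \ C) Ξ hcard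
  refine ⟨f, ?_, f2, f4⟩
  intro z hz
  refine ⟨f1 z hz, f3 z hz, ?_⟩
  have h3 := (mem_sdiff.1 (f1 z hz)).1
  have h4 := (mem_sdiff.1 hz).1
  rw [mem_Ico] at h3 h4
  rw [abs_lt]
  constructor <;> omega

theorem main (C : Finset ℤ) (hC : ∀ x ∈ C, ∀ y ∈ C, x < y → x + 4 ≤ y) (J : Finset ℕ)
    (w : ℕ → ℕ) (Ξ : ℕ → Finset ℤ) (hw : ∀ j ∈ J, 8 ≤ w j)
    (hΞ : ∀ j ∈ J, 32 * (Ξ j).card ≤ w j) :
    ∀ (N : ℕ) (q : ℕ → ℕ) (s : ℤ) (M : ℕ), ∑ j ∈ J, q j = N →
      (∀ j ∈ J, 1 ≤ q j → w j ≤ M) → M ≤ ∑ j ∈ J, q j * w j →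
    ∃ (f : ℤ → ℤ) (κ : ℤ → ℕ),
      (∀ z ∈ (Ico s (s + M) \ C), f z ∈ (Ico s (s + M) \ C) ∧ κ z ∈ J ∧ z - f z ∉ Ξ (κ z) ∧
        |z - f z| < 2 * w (κ z)) ∧
      Set.InjOn f (Ico s (s + M) \ C : Finset ℤ) ∧
      ∀ j ∈ J, ∀ d, ((Ico s (s + M) \ C).filter (fun z => κ z = j ∧ z - f z = d)).card ≤
        4 * q j := by
  classical
  intro N
  induction N with
  | zero =>
    intro q s M hN _ hsum
    have h0 : ∀ j ∈ J, q j = 0 := fun j hj => (sum_eq_zero_iff.1 hN) j hj
    have hM0 : M = 0 := by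
      have : ∑ j ∈ J, q j * w j = 0 := sum_eq_zero fun j hj => by rw [h0 j hj, zero_mul]
      omega
    subst hM0
    refine ⟨id, fun _ => 0, ?_, ?_, ?_⟩
    · intro z hz; simp at hz
    · intro z hz; simp at hz
    · intro j _ d; simp
  | succ N ih =>
    intro q s M hN hM hsum
    let P := J.filter fun j => 1 ≤ q j
    have hP : P.Nonempty := by
      by_contra hcon
      rw [not_nonempty_iff_eq_empty] at hcon
      have : ∑ j ∈ J, q j = 0 := by
        apply sum_eq_zero
        intro j hj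
        by_contra h
        have : j ∈ P := mem_filter.2 ⟨hj, by omega⟩
        rw [hcon] at this
        simp at this
      omega
    obtain ⟨j0, hj0, hmax⟩ := exists_max_image P w hP
    have hj0J : j0 ∈ J := (mem_filter.1 hj0).1
    have hj0q : 1 ≤ q j0 := (mem_filter.1 hj0).2
    have hwM := hM j0 hj0J hj0q
    by_cases hle : M ≤ 2 * w j0
    · obtain ⟨f, f1, f2, f3⟩ := cell C hC s M (w j0) (Ξ j0) (hw j0 hj0J) (hΞ j0 hj0J) hwM hle
      refine ⟨f, fun _ => j0, ?_, f2, ?_⟩
      · intro z hz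
        exact ⟨(f1 z hz).1, hj0J, (f1 z hz).2.1, (f1 z hz).2.2⟩
      · intro j _ d
        by_cases hjj : j0 = j
        · subst hjj
          have h3 : ((Ico s (s + M) \ C).filter (fun z => j0 = j0 ∧ z - f z = d)) =
              ((Ico s (s + M) \ C).filter (fun z => z - f z = d)) := by
            apply filter_congr; intro z _; simp
          rw [h3]
          exact (f3 d).trans (by omega)
        · have h3 : ((Ico s (s + M) \ C).filter (fun z => j0 = j ∧ z - f z = d)) = ∅ := by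
            rw [filter_eq_empty_iff]
            intro z _ h
            exact hjj h.1
          rw [h3]; simp
    · push Not at hle
      let q' : ℕ → ℕ := Function.update q j0 (q j0 - 1)
      have hq'0 : q' j0 = q j0 - 1 := Function.update_self _ _ _
      have hq' : ∀ j, j ≠ j0 → q' j = q j := fun j hj => Function.update_of_ne hj _ _
      have hs1 : ∑ j ∈ J, q' j + 1 = ∑ j ∈ J, q j := by
        have e1 : q j0 + ∑ j ∈ J.erase j0, q j = ∑ j ∈ J, q j := add_sum_erase J q hj0J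
        have e2 : q' j0 + ∑ j ∈ J.erase j0, q' j = ∑ j ∈ J, q' j := add_sum_erase J q' hj0J
        have e3 : ∑ j ∈ J.erase j0, q' j = ∑ j ∈ J.erase j0, q j :=
          sum_congr rfl (fun j hj => hq' j (ne_of_mem_erase hj))
        rw [hq'0] at e2
        omega
      have hs2 : ∑ j ∈ J, q' j * w j + w j0 = ∑ j ∈ J, q j * w j := by
        rw [← add_sum_erase J (fun j => q j * w j) hj0J,
          ← add_sum_erase J (fun j => q' j * w j) hj0J]
        simp only [hq'0]
        rw [sum_congr rfl (fun j hj => by rw [hq' j (ne_of_mem_erase hj)] :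
          ∀ j ∈ J.erase j0, q' j * w j = q j * w j)]
        obtain ⟨r, hr⟩ : ∃ r, q j0 = r + 1 := ⟨q j0 - 1, by omega⟩
        rw [hr, Nat.add_sub_cancel]
        ring
      have hM' : ∀ j ∈ J, 1 ≤ q' j → w j ≤ M - w j0 := by
        intro j hj h1
        have hjP : j ∈ P := by
          refine mem_filter.2 ⟨hj, ?_⟩
          by_cases hjj : j = j0
          · rw [hjj]; exact hj0q
          · rw [← hq' j hjj]; exact h1
        have := hmax j hjP
        omega
      obtain ⟨f', κ', g1, g2, g3⟩ := ih q' (s + w j0) (M - w j0) (by omega) hM' (by omega)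
      obtain ⟨f, f1, f2, f3⟩ := cell C hC s (w j0) (w j0) (Ξ j0) (hw j0 hj0J) (hΞ j0 hj0J)
        le_rfl (by omega)
      have hend : s + (w j0 : ℤ) + ((M - w j0 : ℕ) : ℤ) = s + M := by omega
      rw [hend] at g1 g2 g3
      have hsplit1 : ∀ z ∈ (Ico s (s + M) \ C), z < s + w j0 → z ∈ (Ico s (s + (w j0 : ℤ)) \ C) := by
        intro z hz hlt
        rw [mem_sdiff, mem_Ico] at hz ⊢
        exact ⟨⟨hz.1.1, hlt⟩, hz.2⟩
      have hsplit2 : ∀ z ∈ (Ico s (s + M) \ C), ¬ z < s + w j0 →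
          z ∈ (Ico (s + (w j0 : ℤ)) (s + M) \ C) := by
        intro z hz hlt
        rw [mem_sdiff, mem_Ico] at hz ⊢
        exact ⟨⟨not_lt.1 hlt, hz.1.2⟩, hz.2⟩
      have hback1 : ∀ z ∈ (Ico s (s + (w j0 : ℤ)) \ C), z ∈ (Ico s (s + M) \ C) ∧ z < s + w j0 := by
        intro z hz
        rw [mem_sdiff, mem_Ico] at hz ⊢
        exact ⟨⟨⟨hz.1.1, by omega⟩, hz.2⟩, hz.1.2⟩
      have hback2 : ∀ z ∈ (Ico (s + (w j0 : ℤ)) (s + M) \ C), z ∈ (Ico s (s + M) \ C) ∧
          ¬ z < s + w j0 := by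
        intro z hz
        rw [mem_sdiff, mem_Ico] at hz ⊢
        exact ⟨⟨⟨by omega, hz.1.2⟩, hz.2⟩, by omega⟩
      refine ⟨fun z => if z < s + w j0 then f z else f' z,
        fun z => if z < s + w j0 then j0 else κ' z, ?_, ?_, ?_⟩
      · intro z hz
        by_cases hlt : z < s + w j0
        · simp only [if_pos hlt]
          have h3 := f1 z (hsplit1 z hz hlt)
          exact ⟨(hback1 _ h3.1).1, hj0J, h3.2.1, h3.2.2⟩
        · simp only [if_neg hlt]
          have h3 := g1 z (hsplit2 z hz hlt)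
          exact ⟨(hback2 _ h3.1).1, h3.2.1, h3.2.2.1, h3.2.2.2⟩
      · intro z hz z' hz' hzz
        rw [mem_coe] at hz hz'
        by_cases hlt : z < s + w j0 <;> by_cases hlt' : z' < s + w j0
        · simp only [if_pos hlt, if_pos hlt'] at hzz
          exact f2 (mem_coe.2 (hsplit1 z hz hlt)) (mem_coe.2 (hsplit1 z' hz' hlt')) hzz
        · simp only [if_pos hlt, if_neg hlt'] at hzz
          have h3 := (hback1 _ (f1 z (hsplit1 z hz hlt)).1).2
          have h4 := (hback2 _ (g1 z' (hsplit2 z' hz' hlt')).1).2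
          rw [hzz] at h3
          exact absurd h3 h4
        · simp only [if_neg hlt, if_pos hlt'] at hzz
          have h3 := (hback1 _ (f1 z' (hsplit1 z' hz' hlt')).1).2
          have h4 := (hback2 _ (g1 z (hsplit2 z hz hlt)).1).2
          rw [← hzz] at h3
          exact absurd h3 h4
        · simp only [if_neg hlt, if_neg hlt'] at hzz
          exact g2 (mem_coe.2 (hsplit2 z hz hlt)) (mem_coe.2 (hsplit2 z' hz' hlt')) hzz
      · intro j hj d
        have hsub : ((Ico s (s + M) \ C).filter (fun z => (if z < s + w j0 then j0 else κ' z) = j ∧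
            z - (if z < s + w j0 then f z else f' z) = d)) ⊆
            ((Ico s (s + (w j0 : ℤ)) \ C).filter (fun z => j0 = j ∧ z - f z = d)) ∪
            ((Ico (s + (w j0 : ℤ)) (s + M) \ C).filter (fun z => κ' z = j ∧ z - f' z = d)) := by
          intro z hz
          rw [mem_filter] at hz
          rw [mem_union, mem_filter, mem_filter]
          by_cases hlt : z < s + w j0
          · rw [if_pos hlt, if_pos hlt] at hz
            exact Or.inl ⟨hsplit1 z hz.1 hlt, hz.2⟩
          · rw [if_neg hlt, if_neg hlt] at hz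
            exact Or.inr ⟨hsplit2 z hz.1 hlt, hz.2⟩
        have h3 := (card_le_card hsub).trans (card_union_le _ _)
        have h4 := g3 j hj d
        refine h3.trans ?_
        by_cases hjj : j0 = j
        · subst hjj
          have h5 : ((Ico s (s + (w j0 : ℤ)) \ C).filter (fun z => j0 = j0 ∧ z - f z = d)) =
              ((Ico s (s + (w j0 : ℤ)) \ C).filter (fun z => z - f z = d)) := by
            apply filter_congr; intro z _; simp
          rw [h5]
          have h6 := f3 d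
          rw [hq'0] at h4
          omega
        · have h5 : ((Ico s (s + (w j0 : ℤ)) \ C).filter (fun z => j0 = j ∧ z - f z = d)) = ∅ := by
            rw [filter_eq_empty_iff]
            intro z _ h
            exact hjj h.1
          rw [h5, card_empty]
          rw [hq' j (Ne.symm hjj)] at h4
          omega

end CE

/-- CE. Cells. -/
theorem cells (C : Finset ℤ) (hC : ∀ x ∈ C, ∀ y ∈ C, x < y → x + 4 ≤ y) (J : Finset ℕ)
    (w q : ℕ → ℕ) (Ξ : ℕ → Finset ℤ) (hw : ∀ j ∈ J, 8 ≤ w j)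
    (hΞ : ∀ j ∈ J, 32 * (Ξ j).card ≤ w j) (M : ℕ) (hM : ∀ j ∈ J, w j ≤ M)
    (hsum : M ≤ ∑ j ∈ J, q j * w j) :
    ∃ (f : ℤ → ℤ) (κ : ℤ → ℕ),
      (∀ z ∈ (Ico (0 : ℤ) M \ C), f z ∈ (Ico (0 : ℤ) M \ C) ∧ κ z ∈ J ∧ z - f z ∉ Ξ (κ z) ∧
        |z - f z| < 2 * w (κ z)) ∧
      Set.InjOn f (Ico (0 : ℤ) M \ C : Finset ℤ) ∧
      ∀ j ∈ J, ∀ d, ((Ico (0 : ℤ) M \ C).filter (fun z => κ z = j ∧ z - f z = d)).card ≤
        4 * q j := by
  have h := CE.main C hC J w Ξ hw hΞ (∑ j ∈ J, q j) q 0 M rfl (fun j hj _ => hM j hj) hsum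
  rw [zero_add] at h
  exact h

end Pool.Agent.Lib.MP_c5b475_co
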