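import Pool.Agent.Lib.MP_c5b475_co.Few.DefsL

set_option autoImplicit false

/-!
# CL: from a placement to a closed labelling, the remaining types being taken by leaves of many rows
-/

namespace Pool.Agent.Lib.MP_c5b475_co

open Finset

/-- CL. Closing: from a placement to a closed labelling. -/
theorem closing {U : Type*} [Fintype U] [DecidableEq U] {T : SimpleGraph U} (R : RT T)
    (A : Finset U) (hA : ∀ u, u ∉ A → R.par u ∈ A ∧ (R.dep u : ZMod 2) = 1) (m : ℕ) [NeZero m]
    (lab : U → ZMod m) (hP : R.Placed A lab) (row : ZMod m → U) (col : ZMod m → ZMod m)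
    (hrow : ∀ t, t ∉ R.tys A lab → row t ∈ A ∧ (R.dep (row t) : ZMod 2) = 0 ∧
      lab (row t) + col t = t)
    (hcol : ∀ t, t ∉ R.tys A lab → ∀ v ∈ A, (R.dep v : ZMod 2) = 1 → col t ≠ lab v)
    (hinj : ∀ t, t ∉ R.tys A lab → ∀ t', t' ∉ R.tys A lab → col t = col t' → t = t')
    (hcount : ∀ x ∈ A, (R.dep x : ZMod 2) = 0 →
      (univ.filter (fun t => t ∉ R.tys A lab ∧ row t = x)).card ≤
        (univ.filter (fun u => u ∉ A ∧ R.par u = x)).card) : ClosedMod T m := by
  classical
  obtain ⟨W, hW⟩ : ∃ W : Finset (ZMod m), W = R.tys A lab := ⟨_, rfl⟩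
  rw [← hW] at hrow hcol hinj hcount
  have hWcard : W.card = A.card - 1 := by
    rw [hW, RT.tys, Finset.card_image_of_injOn, Finset.card_erase_of_mem hP.root_mem]
    intro u hu v hv h
    have hu' := Finset.mem_erase.1 (Finset.mem_coe.1 hu)
    have hv' := Finset.mem_erase.1 (Finset.mem_coe.1 hv)
    exact hP.ty_inj u hu'.2 v hv'.2 hu'.1 hv'.1 h
  have hApos : 0 < A.card := Finset.card_pos.2 ⟨_, hP.root_mem⟩
  have hWle : W.card ≤ m := by
    have := Finset.card_le_univ W
    rwa [ZMod.card] at this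
  have hMcard : Wᶜ.card = m + 1 - A.card := by
    rw [Finset.card_compl, ZMod.card]
    omega
  -- the injections into the leaves
  have hex : ∀ x : U, ∃ f : ZMod m → U, x ∈ A → (R.dep x : ZMod 2) = 0 →
      (∀ t, t ∉ W → row t = x → f t ∉ A ∧ R.par (f t) = x) ∧
      (∀ t, t ∉ W → row t = x → ∀ t', t' ∉ W → row t' = x → f t = f t' → t = t') := by
    intro x
    by_cases hx : x ∈ A ∧ (R.dep x : ZMod 2) = 0
    · have h := hcount x hx.1 hx.2
      rw [← Fintype.card_coe, ← Fintype.card_coe] at h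
      obtain ⟨g⟩ := Function.Embedding.nonempty_of_card_le h
      refine ⟨fun t => if ht : t ∈ (univ.filter (fun t => t ∉ W ∧ row t = x)) then
        (g ⟨t, ht⟩ : U) else x, fun _ _ => ⟨?_, ?_⟩⟩
      · intro t ht1 ht2
        have ht : t ∈ (univ.filter (fun t => t ∉ W ∧ row t = x)) :=
          mem_filter.mpr ⟨mem_univ _, ht1, ht2⟩
        simp only [dif_pos ht]
        exact (mem_filter.mp (g ⟨t, ht⟩).2).2
      · intro t ht1 ht2 t' ht1' ht2' he
        have ht : t ∈ (univ.filter (fun t => t ∉ W ∧ row t = x)) :=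
          mem_filter.mpr ⟨mem_univ _, ht1, ht2⟩
        have ht' : t' ∈ (univ.filter (fun t => t ∉ W ∧ row t = x)) :=
          mem_filter.mpr ⟨mem_univ _, ht1', ht2'⟩
        simp only [dif_pos ht, dif_pos ht'] at he
        have := g.injective (Subtype.ext he)
        exact congrArg Subtype.val this
    · exact ⟨fun _ => x, fun h1 h2 => absurd ⟨h1, h2⟩ hx⟩
  choose f hf using hex
  let φ : ZMod m → U := fun t => f (row t) t
  have hφ1 : ∀ t, t ∉ W → φ t ∉ A ∧ R.par (φ t) = row t := by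
    intro t ht
    obtain ⟨h1, h2, _⟩ := hrow t ht
    exact (hf (row t) h1 h2).1 t ht rfl
  have hφ2 : ∀ t, t ∉ W → ∀ t', t' ∉ W → φ t = φ t' → t = t' := by
    intro t ht t' ht' he
    obtain ⟨h1, h2, _⟩ := hrow t ht
    have hr : row t = row t' := by rw [← (hφ1 t ht).2, ← (hφ1 t' ht').2, he]
    refine (hf (row t) h1 h2).2 t ht rfl t' ht' hr.symm ?_
    have he' : f (row t) t = f (row t') t' := he
    rw [he', hr]
  let S : Finset U := Wᶜ.image φ
  have hScard : S.card = Wᶜ.card := by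
    apply card_image_of_injOn
    intro t ht t' ht' he
    exact hφ2 t (mem_compl.mp (mem_coe.mp ht)) t' (mem_compl.mp (mem_coe.mp ht')) he
  have hexψ : ∀ u : U, ∃ t : ZMod m, u ∈ S → t ∉ W ∧ φ t = u := by
    intro u
    by_cases hu : u ∈ S
    · obtain ⟨t, ht, rfl⟩ := mem_image.mp hu
      exact ⟨t, fun _ => ⟨mem_compl.mp ht, rfl⟩⟩
    · exact ⟨0, fun h => absurd h hu⟩
  choose ψ hψ using hexψ
  let lab' : U → ZMod m := fun w => if w ∈ S then col (ψ w) else lab w
  have hSA : ∀ w ∈ S, w ∉ A := by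
    intro w hw
    obtain ⟨h1, h2⟩ := hψ w hw
    rw [← h2]
    exact (hφ1 _ h1).1
  have hSrow : ∀ w ∈ S, R.par w = row (ψ w) := by
    intro w hw
    obtain ⟨h1, h2⟩ := hψ w hw
    rw [← (hφ1 _ h1).2, h2]
  have hAS : ∀ w ∈ A, w ∉ S := fun w hw h => hSA w h hw
  have labA : ∀ w ∈ A, lab' w = lab w := fun w hw => if_neg (hAS w hw)
  have labS : ∀ w ∈ S, lab' w = col (ψ w) := fun w hw => if_pos hw
  have ψinj : ∀ u ∈ S, ∀ v ∈ S, ψ u = ψ v → u = v := by
    intro u hu v hv h
    rw [← (hψ u hu).2, ← (hψ v hv).2, h]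
  have tyA : ∀ u ∈ A, u ≠ R.c → lab' u + lab' (R.par u) = lab u + lab (R.par u) := by
    intro u hu hne
    rw [labA u hu, labA _ (hP.par_mem u hu hne)]
  have tyS : ∀ u ∈ S, lab' u + lab' (R.par u) = ψ u := by
    intro u hu
    obtain ⟨h1, h2, h3⟩ := hrow (ψ u) (hψ u hu).1
    rw [labS u hu, hSrow u hu, labA _ h1, add_comm, h3]
  have tyW : ∀ u ∈ A, u ≠ R.c → lab u + lab (R.par u) ∈ W := by
    intro u hu hne
    rw [hW]
    exact Finset.mem_image.2 ⟨u, Finset.mem_erase.2 ⟨hne, hu⟩, rfl⟩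
  refine ⟨R, A ∪ S, lab', Finset.mem_union_left _ hP.root_mem, ?_, ?_, ?_, ?_, ?_⟩
  · intro u hu hne
    rcases Finset.mem_union.1 hu with h | h
    · exact Finset.mem_union_left _ (hP.par_mem u h hne)
    · exact Finset.mem_union_left _ (hA u (hSA u h)).1
  · intro u hu
    have h1 := hA u (fun h => hu (Finset.mem_union_left _ h))
    exact ⟨Finset.mem_union_left _ h1.1, h1.2⟩
  · intro u hu v hv hd h
    rcases Finset.mem_union.1 hu with hu | hu <;> rcases Finset.mem_union.1 hv with hv | hv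
    · rw [labA u hu, labA v hv] at h
      exact hP.inj u hu v hv hd h
    · exfalso
      rw [labA u hu, labS v hv] at h
      exact hcol _ (hψ v hv).1 u hu (hd.trans (hA v (hSA v hv)).2) h.symm
    · exfalso
      rw [labS u hu, labA v hv] at h
      exact hcol _ (hψ u hu).1 v hv (hd.symm.trans (hA u (hSA u hu)).2) h
    · rw [labS u hu, labS v hv] at h
      exact ψinj u hu v hv (hinj _ (hψ u hu).1 _ (hψ v hv).1 h)
  · intro u hu v hv hune hvne h
    rcases Finset.mem_union.1 hu with hu | hu <;> rcases Finset.mem_union.1 hv with hv | hv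
    · rw [tyA u hu hune, tyA v hv hvne] at h
      exact hP.ty_inj u hu v hv hune hvne h
    · exfalso
      rw [tyA u hu hune, tyS v hv] at h
      exact (hψ v hv).1 (h ▸ tyW u hu hune)
    · exfalso
      rw [tyS u hu, tyA v hv hvne] at h
      exact (hψ u hu).1 (h ▸ tyW v hv hvne)
    · rw [tyS u hu, tyS v hv] at h
      exact ψinj u hu v hv h
  · rw [Finset.card_union_of_disjoint (Finset.disjoint_left.2 hAS), hScard, hMcard]
    omega

end Pool.Agent.Lib.MP_c5b475_co
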