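import Pool.Agent.Lib.MP_c5b475_co.Few.DefsL

set_option autoImplicit false

/-!
# Selection of classes
-/

namespace Pool.Agent.Lib.MP_c5b475_co

open Finset

theorem LSE_geom (Q : Finset ℕ) (n : ℕ) (h : ∀ j ∈ Q, j < n) : ∑ j ∈ Q, 2 ^ j ≤ 2 ^ n := by
  calc ∑ j ∈ Q, 2 ^ j ≤ ∑ j ∈ range n, 2 ^ j :=
        Finset.sum_le_sum_of_subset (fun j hj => Finset.mem_range.mpr (h j hj))
    _ ≤ 2 ^ n := by
        have := Nat.geomSum_eq (le_refl 2) n
        rw [this]
        simp

theorem LSE_class (Q : Finset ℕ) (n : ℕ → ℕ) (hQ : ∀ i ∈ Q, ∀ j ∈ Q, i < j → i + 11 ≤ j) :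
    ∑ j ∈ Q, 2 ^ j * n j ≤
      2 * ∑ j ∈ Q.filter (fun j => ∀ i ∈ Q, j < i → 400 * n i ≤ n j), 2 ^ j * n j := by
  classical
  have hsplit := Finset.sum_filter_add_sum_filter_not Q
    (fun j => ∀ i ∈ Q, j < i → 400 * n i ≤ n j) (fun j => 2 ^ j * n j)
  have hkey : 2 * ∑ j ∈ Q.filter (fun j => ¬ ∀ i ∈ Q, j < i → 400 * n i ≤ n j), 2 ^ j * n j ≤
      ∑ j ∈ Q, 2 ^ j * n j := by
    calc 2 * ∑ j ∈ Q.filter (fun j => ¬ ∀ i ∈ Q, j < i → 400 * n i ≤ n j), 2 ^ j * n j
        ≤ 2 * ∑ j ∈ Q.filter (fun j => ¬ ∀ i ∈ Q, j < i → 400 * n i ≤ n j),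
            ∑ i ∈ Q.filter (fun i => j < i), 400 * 2 ^ j * n i := by
          apply Nat.mul_le_mul_left
          apply Finset.sum_le_sum
          intro j hj
          obtain ⟨hjQ, hj⟩ := Finset.mem_filter.mp hj
          push Not at hj
          obtain ⟨i, hi, hji, hlt⟩ := hj
          calc 2 ^ j * n j ≤ 2 ^ j * (400 * n i) := Nat.mul_le_mul_left _ hlt.le
            _ = 400 * 2 ^ j * n i := by ring
            _ ≤ _ := Finset.single_le_sum (f := fun i => 400 * 2 ^ j * n i)
                (fun _ _ => Nat.zero_le _) (Finset.mem_filter.mpr ⟨hi, hji⟩)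
      _ ≤ 2 * ∑ j ∈ Q, ∑ i ∈ Q.filter (fun i => j < i), 400 * 2 ^ j * n i := by
          apply Nat.mul_le_mul_left
          exact Finset.sum_le_sum_of_subset (Finset.filter_subset _ _)
      _ = 2 * ∑ i ∈ Q, ∑ j ∈ Q.filter (fun j => j < i), 400 * 2 ^ j * n i := by
          congr 1
          rw [Finset.sum_comm' (t' := Q) (s' := fun i => Q.filter (fun j => j < i))]
          intro x y
          simp only [Finset.mem_filter]
          tauto
      _ = ∑ i ∈ Q, (800 * ∑ j ∈ Q.filter (fun j => j < i), 2 ^ j) * n i := by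
          rw [Finset.mul_sum]
          apply Finset.sum_congr rfl
          intro i _
          rw [Finset.mul_sum, Finset.mul_sum, Finset.sum_mul]
          apply Finset.sum_congr rfl
          intro j _
          ring
      _ ≤ ∑ i ∈ Q, 2 ^ i * n i := by
          apply Finset.sum_le_sum
          intro i hi
          apply Nat.mul_le_mul_right
          by_cases h11 : 11 ≤ i
          · have h1 := LSE_geom (Q.filter (fun j => j < i)) (i - 10) (by
              intro j hj
              obtain ⟨hj, hji⟩ := Finset.mem_filter.mp hj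
              have := hQ j hj i hi hji
              omega)
            have h2 : 2 ^ i = 1024 * 2 ^ (i - 10) := by
              have : i = 10 + (i - 10) := by omega
              conv_lhs => rw [this, pow_add]
              norm_num
            rw [h2]
            calc 800 * ∑ j ∈ Q.filter (fun j => j < i), 2 ^ j ≤ 800 * 2 ^ (i - 10) :=
                  Nat.mul_le_mul_left _ h1
              _ ≤ 1024 * 2 ^ (i - 10) := Nat.mul_le_mul_right _ (by norm_num)
          · have h1 : Q.filter (fun j => j < i) = ∅ := by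
              apply Finset.filter_eq_empty_iff.mpr
              intro j hj hji
              have := hQ j hj i hi hji
              omega
            rw [h1]
            simp
  omega

/-- SE. Selection of classes. -/
theorem select_classes {U : Type*} [DecidableEq U] (S : Finset U) (ℓ : U → ℕ) (N M n0 : ℕ)
    (hN : S.card ≤ N) (hM : ∀ x ∈ S, ℓ x ≤ M) :
    ∃ J : Finset ℕ,
      (∀ j ∈ J, 2 ≤ j ∧ n0 ≤ (S.filter (fun x => Nat.log 2 (ℓ x) = j)).card) ∧
      (∀ i ∈ J, ∀ j ∈ J, i < j → 400 * (S.filter (fun x => Nat.log 2 (ℓ x) = j)).card ≤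
        (S.filter (fun x => Nat.log 2 (ℓ x) = i)).card) ∧
      ∑ x ∈ S, ℓ x ≤ 44 * ∑ j ∈ J, 2 ^ j * (S.filter (fun x => Nat.log 2 (ℓ x) = j)).card +
        4 * N + 4 * M * n0 := by
  classical
  set n : ℕ → ℕ := fun j => (S.filter (fun x => Nat.log 2 (ℓ x) = j)).card with hn
  set L := Nat.log 2 M with hL
  set P := (Icc 2 L).filter (fun j => n0 ≤ n j) with hP
  -- the sum over a class
  have hcls : ∀ j, ∑ x ∈ S.filter (fun x => Nat.log 2 (ℓ x) = j), ℓ x ≤ 2 ^ (j + 1) * n j := by
    intro j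
    have h1 := Finset.sum_le_card_nsmul (S.filter (fun x => Nat.log 2 (ℓ x) = j)) ℓ (2 ^ (j + 1))
      (by
        intro x hx
        have := (Finset.mem_filter.mp hx).2
        rw [← this]
        exact (Nat.lt_pow_succ_log_self (by norm_num) _).le)
    rw [smul_eq_mul, mul_comm] at h1
    exact h1
  have hsmall : ∑ x ∈ S.filter (fun x => Nat.log 2 (ℓ x) < 2), ℓ x ≤ 3 * N := by
    have h1 := Finset.sum_le_card_nsmul (S.filter (fun x => Nat.log 2 (ℓ x) < 2)) ℓ 3
      (by
        intro x hx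
        have h2 := (Finset.mem_filter.mp hx).2
        have h3 := Nat.lt_pow_succ_log_self (b := 2) (by norm_num) (ℓ x)
        have h4 : 2 ^ (Nat.log 2 (ℓ x)).succ ≤ 2 ^ 2 := Nat.pow_le_pow_right (by norm_num) h2
        omega)
    have h2 := Finset.card_filter_le S (fun x => Nat.log 2 (ℓ x) < 2)
    rw [smul_eq_mul] at h1
    calc _ ≤ _ := h1
      _ ≤ N * 3 := Nat.mul_le_mul_right _ (h2.trans hN)
      _ = 3 * N := mul_comm _ _
  have hlarge : ∑ x ∈ S.filter (fun x => ¬ Nat.log 2 (ℓ x) < 2), ℓ x ≤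
      ∑ j ∈ Icc 2 L, 2 ^ (j + 1) * n j := by
    rw [← Finset.sum_fiberwise_of_maps_to (t := Icc 2 L) (g := fun x => Nat.log 2 (ℓ x))]
    · apply Finset.sum_le_sum
      intro j hj
      refine le_trans ?_ (hcls j)
      apply Finset.sum_le_sum_of_subset
      intro x hx
      obtain ⟨hx, hxj⟩ := Finset.mem_filter.mp hx
      exact Finset.mem_filter.mpr ⟨(Finset.mem_filter.mp hx).1, hxj⟩
    · intro x hx
      obtain ⟨hx, hx2⟩ := Finset.mem_filter.mp hx
      exact Finset.mem_Icc.mpr ⟨not_lt.mp hx2, Nat.log_mono_right (hM x hx)⟩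
  have hfew : ∑ j ∈ (Icc 2 L).filter (fun j => ¬ n0 ≤ n j), 2 ^ (j + 1) * n j ≤ 4 * M * n0 := by
    by_cases hM0 : M = 0
    · have : Icc 2 L = ∅ := by
        rw [hL, hM0]
        simp
      rw [this]
      simp
    calc ∑ j ∈ (Icc 2 L).filter (fun j => ¬ n0 ≤ n j), 2 ^ (j + 1) * n j
        ≤ ∑ j ∈ (Icc 2 L).filter (fun j => ¬ n0 ≤ n j), 2 ^ (j + 1) * n0 := by
          apply Finset.sum_le_sum
          intro j hj
          have := (Finset.mem_filter.mp hj).2
          exact Nat.mul_le_mul_left _ (by omega)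
      _ = (2 * ∑ j ∈ (Icc 2 L).filter (fun j => ¬ n0 ≤ n j), 2 ^ j) * n0 := by
          rw [Finset.mul_sum, Finset.sum_mul]
          apply Finset.sum_congr rfl
          intro j _
          ring
      _ ≤ (2 * 2 ^ (L + 1)) * n0 := by
          apply Nat.mul_le_mul_right
          apply Nat.mul_le_mul_left
          apply LSE_geom
          intro j hj
          have := Finset.mem_Icc.mp (Finset.mem_filter.mp hj).1
          omega
      _ ≤ 4 * M * n0 := by
          apply Nat.mul_le_mul_right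
          have := Nat.pow_log_le_self 2 hM0
          rw [pow_succ]
          rw [← hL] at this
          omega
  -- the best residue class
  obtain ⟨r, hr⟩ : ∃ r, ∑ j ∈ P, 2 ^ j * n j ≤
      11 * ∑ j ∈ P.filter (fun j => j % 11 = r), 2 ^ j * n j := by
    by_contra hcon
    push Not at hcon
    have h1 : ∑ r ∈ range 11, ∑ j ∈ P.filter (fun j => j % 11 = r), 2 ^ j * n j =
        ∑ j ∈ P, 2 ^ j * n j :=
      Finset.sum_fiberwise_of_maps_to (fun j _ => Finset.mem_range.mpr (Nat.mod_lt _ (by norm_num)))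
        (fun j => 2 ^ j * n j)
    have h2 : ∑ r ∈ range 11, 11 * ∑ j ∈ P.filter (fun j => j % 11 = r), 2 ^ j * n j <
        ∑ r ∈ range 11, ∑ j ∈ P, 2 ^ j * n j :=
      Finset.sum_lt_sum_of_nonempty (by simp) (fun r _ => hcon r)
    rw [← Finset.mul_sum, h1, Finset.sum_const, Finset.card_range, smul_eq_mul] at h2
    exact lt_irrefl _ h2
  set Q := P.filter (fun j => j % 11 = r) with hQ
  have hQ11 : ∀ i ∈ Q, ∀ j ∈ Q, i < j → i + 11 ≤ j := by
    intro i hi j hj hij
    have h1 := (Finset.mem_filter.mp hi).2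
    have h2 := (Finset.mem_filter.mp hj).2
    omega
  have hclass := LSE_class Q n hQ11
  refine ⟨Q.filter (fun j => ∀ i ∈ Q, j < i → 400 * n i ≤ n j), ?_, ?_, ?_⟩
  · intro j hj
    have h1 := (Finset.mem_filter.mp (Finset.mem_filter.mp hj).1).1
    obtain ⟨h2, h3⟩ := Finset.mem_filter.mp h1
    exact ⟨(Finset.mem_Icc.mp h2).1, h3⟩
  · intro i hi j hj hij
    exact (Finset.mem_filter.mp hi).2 j (Finset.mem_filter.mp hj).1 hij
  · have h1 := Finset.sum_filter_add_sum_filter_not S (fun x => Nat.log 2 (ℓ x) < 2) ℓ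
    have h2 := Finset.sum_filter_add_sum_filter_not (Icc 2 L) (fun j => n0 ≤ n j)
      (fun j => 2 ^ (j + 1) * n j)
    have h3 : ∑ j ∈ P, 2 ^ (j + 1) * n j = 2 * ∑ j ∈ P, 2 ^ j * n j := by
      rw [Finset.mul_sum]
      apply Finset.sum_congr rfl
      intro j _
      ring
    rw [← hP, h3] at h2
    change _ ≤ 44 * ∑ j ∈ Q.filter (fun j => ∀ i ∈ Q, j < i → 400 * n i ≤ n j), 2 ^ j * n j + _ + _
    omega

end Pool.Agent.Lib.MP_c5b475_co
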