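import Pool.Agent.Lib.MP_c5b475_co.Few.DefsL

set_option autoImplicit false

/-!
# Choice of the candidates and of the units
-/

namespace Pool.Agent.Lib.MP_c5b475_co

open Finset

namespace LWT

/-- Pairs of consecutive elements of a list. -/
def pu {U : Type*} : List U → List (U × Option U)
  | [] => []
  | [a] => [(a, none)]
  | a :: b :: l => (a, some b) :: pu l

/-- The first element alone, then pairs of consecutive elements of a list. -/
def pu1 {U : Type*} : List U → List (U × Option U)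
  | [] => []
  | a :: l => (a, none) :: pu l

theorem flat_cons_none {U : Type*} (a : U) (l : List (U × Option U)) :
    flat ((a, none) :: l) = a :: flat l := rfl

theorem flat_cons_some {U : Type*} (a b : U) (l : List (U × Option U)) :
    flat ((a, some b) :: l) = a :: b :: flat l := rfl

theorem flat_pu {U : Type*} : ∀ l : List U, flat (pu l) = l
  | [] => rfl
  | [_] => rfl
  | a :: b :: l => by
      rw [pu, flat_cons_some, flat_pu l]

theorem flat_pu1 {U : Type*} : ∀ l : List U, flat (pu1 l) = l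
  | [] => rfl
  | a :: l => by
      rw [pu1, flat_cons_none, flat_pu l]

theorem flat_single {U : Type*} : ∀ l : List U, flat (l.map fun v => (v, (none : Option U))) = l
  | [] => rfl
  | a :: l => by
      rw [List.map_cons, flat_cons_none, flat_single l]

theorem cover {U : Type*} : ∀ (l : List U) (v : U), v ∈ l →
    (∃ v', (v, some v') ∈ pu l) ∨ (∃ v', (v, some v') ∈ pu1 l) ∨ l.getLast? = some v
  | [], v, hv => absurd hv List.not_mem_nil
  | [a], v, hv => by
      right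
      right
      simp only [List.mem_singleton] at hv
      simp [hv]
  | a :: b :: l, v, hv => by
      rcases List.mem_cons.1 hv with rfl | hv
      · exact Or.inl ⟨b, by rw [pu]; exact List.mem_cons_self⟩
      · rcases cover (b :: l) v hv with ⟨v', h⟩ | ⟨v', h⟩ | h
        · exact Or.inr (Or.inl ⟨v', by rw [pu1]; exact List.mem_cons_of_mem _ h⟩)
        · left
          refine ⟨v', ?_⟩
          rw [pu1, List.mem_cons] at h
          rcases h with h | h
          · simp at h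
          · rw [pu]
            exact List.mem_cons_of_mem _ h
        · right
          right
          rw [List.getLast?_cons_cons]
          exact h

theorem fst_mem_flat {U : Type*} {l : List (U × Option U)} {v : U} {o : Option U}
    (h : (v, o) ∈ l) : v ∈ flat l := by
  rw [flat, List.mem_flatMap]
  exact ⟨(v, o), h, List.mem_cons_self⟩

theorem sum_union_le {U : Type*} [DecidableEq U] (s t : Finset U) (ℓ : U → ℕ) :
    ∑ x ∈ s ∪ t, ℓ x ≤ ∑ x ∈ s, ℓ x + ∑ x ∈ t, ℓ x := by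
  rw [← Finset.sum_union_inter]
  exact Nat.le_add_right _ _

theorem zmod2 (a b : ZMod 2) (h : a = b + 1) : (a = 0 → b = 1) ∧ (b = 0 → a = 1) ∧
    (a = 1 → b = 0) := by
  revert a b
  decide

end LWT

open LWT

/-- WT. Choice of the candidates and of the units. -/
theorem choice {U : Type*} [DecidableEq U] {T : SimpleGraph U} (R : RT T) (A : Finset U)
    (hc : R.c ∈ A) (hpar : ∀ u ∈ A, u ≠ R.c → R.par u ∈ A)
    (hch : ∀ v ∈ A, (R.dep v : ZMod 2) = 1 → ∃ w ∈ A, w ≠ R.c ∧ R.par w = v) (hA : A ≠ {R.c})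
    (ℓ : U → ℕ) (M : ℕ) (hM : ∀ x ∈ A, (R.dep x : ZMod 2) = 0 → ℓ x ≤ M) :
    ∃ (des : U → U) (p0 : U) (units : List (U × Option U)) (S : Finset U), R.Tr A des ∧ p0 ∈ A ∧
      p0 ≠ R.c ∧ R.par p0 = R.c ∧ (flat units).Nodup ∧
      (∀ v, v ∈ flat units ↔ v ∈ A ∧ v ≠ R.c ∧ (R.dep v : ZMod 2) = 1 ∧ R.par v ≠ R.c) ∧
      (flat units).Pairwise (fun u v => R.dep u ≤ R.dep v) ∧
      (∀ x ∈ S, x ∈ A ∧ x ≠ R.c ∧ (R.dep x : ZMod 2) = 0 ∧
        ((R.par (R.par x) = R.c ∧ (x = des (R.par x) → R.par x ≠ p0)) ∨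
          ((R.par x, none) ∈ units ∧ x ≠ des (R.par x)) ∨
          ((∃ v', (R.par x, some v') ∈ units) ∧
            ∀ w ∈ A, w ≠ R.c → R.par w = R.par x → w = des (R.par x)))) ∧
      ∑ x ∈ A.filter (fun x => (R.dep x : ZMod 2) = 0), ℓ x ≤ 4 * ∑ x ∈ S, ℓ x + 3 * M := by
  classical
  have hstep : ∀ u, u ≠ R.c → ((R.dep u : ZMod 2)) = (R.dep (R.par u) : ZMod 2) + 1 := by
    intro u hu
    rw [← R.dep_par u hu]
    push_cast
    rfl
  have hc0 : (R.dep R.c : ZMod 2) = 0 := by rw [R.dep_c]; simp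
  have hoddne : ∀ v, (R.dep v : ZMod 2) = 1 → v ≠ R.c := by
    rintro v hv rfl
    rw [hc0] at hv
    exact absurd hv (by decide)
  have hparodd : ∀ u, u ≠ R.c → (R.dep u : ZMod 2) = 0 → (R.dep (R.par u) : ZMod 2) = 1 :=
    fun u hu => (zmod2 _ _ (hstep u hu)).1
  -- the child of the root
  have hp0 : ∀ n : ℕ, ∀ u ∈ A, u ≠ R.c → R.dep u ≤ n → ∃ p ∈ A, p ≠ R.c ∧ R.par p = R.c := by
    intro n
    induction n with
    | zero =>
      intro u _ huc hn
      have := R.dep_par u huc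
      omega
    | succ n ih =>
      intro u hu huc hn
      by_cases h : R.par u = R.c
      · exact ⟨u, hu, huc, h⟩
      · exact ih (R.par u) (hpar u hu huc) h (by have := R.dep_par u huc; omega)
  obtain ⟨p0, hp0A, hp0c, hp0p⟩ : ∃ p ∈ A, p ≠ R.c ∧ R.par p = R.c := by
    have : ∃ u ∈ A, u ≠ R.c := by
      by_contra hcon
      push Not at hcon
      apply hA
      ext u
      rw [Finset.mem_singleton]
      exact ⟨hcon u, fun h => h ▸ hc⟩
    obtain ⟨u, hu, huc⟩ := this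
    exact hp0 _ u hu huc le_rfl
  have hp0o : (R.dep p0 : ZMod 2) = 1 :=
    (zmod2 _ _ (hstep p0 hp0c)).2.1 (by rw [hp0p]; exact hc0)
  -- the designated children
  have hdes : ∀ v, ∃ w, (v ∈ A ∧ (R.dep v : ZMod 2) = 1) → (w ∈ A ∧ w ≠ R.c ∧ R.par w = v ∧
      ∀ w' ∈ A, w' ≠ R.c → R.par w' = v → ℓ w ≤ ℓ w') := by
    intro v
    by_cases hv : v ∈ A ∧ (R.dep v : ZMod 2) = 1
    · obtain ⟨w, hwA, hw⟩ := hch v hv.1 hv.2
      obtain ⟨w0, hw0, hmin⟩ := Finset.exists_min_image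
        (A.filter (fun w => w ≠ R.c ∧ R.par w = v)) ℓ ⟨w, Finset.mem_filter.2 ⟨hwA, hw⟩⟩
      obtain ⟨h1, h2, h3⟩ := Finset.mem_filter.1 hw0
      exact ⟨w0, fun _ => ⟨h1, h2, h3, fun w' h4 h5 h6 =>
        hmin w' (Finset.mem_filter.2 ⟨h4, h5, h6⟩)⟩⟩
    · exact ⟨v, fun h => absurd h hv⟩
  choose des hdes using hdes
  have hTr : R.Tr A des :=
    ⟨hc, hpar, fun v hv hvo => ⟨(hdes v ⟨hv, hvo⟩).1, (hdes v ⟨hv, hvo⟩).2.1,
      (hdes v ⟨hv, hvo⟩).2.2.1⟩⟩
  have hdese : ∀ v ∈ A, (R.dep v : ZMod 2) = 1 → (R.dep (des v) : ZMod 2) = 0 := by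
    intro v hv hvo
    have h := hTr.des_mem v hv hvo
    have h2 := hstep (des v) h.2.1
    rw [h.2.2, hvo] at h2
    rw [h2]
    decide
  -- the sorted list
  set L0 : List U := (A.filter (fun v => v ≠ R.c ∧ (R.dep v : ZMod 2) = 1 ∧
    R.par v ≠ R.c)).toList with hL0
  set L : List U := L0.mergeSort (fun a b => decide (R.dep a ≤ R.dep b)) with hLdef
  have hperm : L.Perm L0 := List.mergeSort_perm _ _
  have hLnd : L.Nodup := hperm.nodup_iff.2 (Finset.nodup_toList _)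
  have hLmem : ∀ v, v ∈ L ↔ v ∈ A ∧ v ≠ R.c ∧ (R.dep v : ZMod 2) = 1 ∧ R.par v ≠ R.c := by
    intro v
    rw [hperm.mem_iff, hL0, Finset.mem_toList, Finset.mem_filter]
  have hLsort : L.Pairwise (fun u v => R.dep u ≤ R.dep v) := by
    have := List.pairwise_mergeSort (le := fun a b => decide (R.dep a ≤ R.dep b))
      (fun a b c => by simpa using fun h1 h2 => le_trans h1 h2)
      (fun a b => by simpa using le_total (R.dep a) (R.dep b)) L0
    exact this.imp (fun h => by simpa using h)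
  -- the sets
  set Ev := A.filter (fun x => (R.dep x : ZMod 2) = 0) with hEv
  set SM := Ev.filter (fun x => x ≠ R.c ∧ ((R.par (R.par x) = R.c ∧
    (x = des (R.par x) → R.par x ≠ p0)) ∨ (R.par (R.par x) ≠ R.c ∧ x ≠ des (R.par x)))) with hSM
  set Sp : List (U × Option U) → Finset U := fun P => Ev.filter (fun x => x ≠ R.c ∧
    (∃ v', (R.par x, some v') ∈ P) ∧
    ∀ w ∈ A, w ≠ R.c → R.par w = R.par x → w = des (R.par x)) with hSp
  set D2 := Ev.filter (fun x => x ≠ R.c ∧ R.par (R.par x) ≠ R.c ∧ x = des (R.par x) ∧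
    ∃ w ∈ A, w ≠ R.c ∧ R.par w = R.par x ∧ w ≠ x) with hD2
  have hcov : Ev ⊆ (((((({R.c} : Finset U) ∪ {des p0}) ∪ {des (L.getLastD p0)}) ∪ SM) ∪ D2) ∪
      Sp (pu L)) ∪ Sp (pu1 L) := by
    intro x hx
    obtain ⟨hxA, hxe⟩ := Finset.mem_filter.1 hx
    simp only [Finset.mem_union, Finset.mem_singleton]
    by_cases hxc : x = R.c
    · simp [hxc]
    have hpo := hparodd x hxc hxe
    have hpA := hpar x hxA hxc
    have hpc := hoddne _ hpo
    by_cases hpp : R.par (R.par x) = R.c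
    · by_cases hxd : x = des (R.par x) ∧ R.par x = p0
      · obtain ⟨h1, h2⟩ := hxd
        rw [h2] at h1
        simp [← h1]
      · have : x ∈ SM := Finset.mem_filter.2 ⟨hx, hxc, Or.inl ⟨hpp, fun h1 h2 => hxd ⟨h1, h2⟩⟩⟩
        simp [this]
    · by_cases hxd : x = des (R.par x)
      · by_cases hw : ∃ w ∈ A, w ≠ R.c ∧ R.par w = R.par x ∧ w ≠ x
        · have : x ∈ D2 := Finset.mem_filter.2 ⟨hx, hxc, hpp, hxd, hw⟩
          simp [this]
        · have hw' : ∀ w ∈ A, w ≠ R.c → R.par w = R.par x → w = des (R.par x) := by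
            intro w h1 h2 h3
            by_contra h4
            exact hw ⟨w, h1, h2, h3, fun h5 => h4 (h5.trans hxd)⟩
          rcases cover L (R.par x) ((hLmem _).2 ⟨hpA, hpc, hpo, hpp⟩) with h | h | h
          · have : x ∈ Sp (pu L) := Finset.mem_filter.2 ⟨hx, hxc, h, hw'⟩
            simp [this]
          · have : x ∈ Sp (pu1 L) := Finset.mem_filter.2 ⟨hx, hxc, h, hw'⟩
            simp [this]
          · have h2 : L.getLastD p0 = R.par x := by
              rw [List.getLastD_eq_getLast?, h]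
              rfl
            have h3 : x = des (L.getLastD p0) := by rw [h2]; exact hxd
            exact Or.inl (Or.inl (Or.inl (Or.inl (Or.inr h3))))
      · have : x ∈ SM := Finset.mem_filter.2 ⟨hx, hxc, Or.inr ⟨hpp, hxd⟩⟩
        simp [this]
  have hD2le : ∑ x ∈ D2, ℓ x ≤ ∑ x ∈ SM, ℓ x := by
    have hoth : ∀ x, ∃ w, x ∈ D2 → (w ∈ A ∧ w ≠ R.c ∧ R.par w = R.par x ∧ w ≠ x) := by
      intro x
      by_cases hx : x ∈ D2
      · obtain ⟨w, h1, h2, h3, h4⟩ := (Finset.mem_filter.1 hx).2.2.2.2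
        exact ⟨w, fun _ => ⟨h1, h2, h3, h4⟩⟩
      · exact ⟨x, fun h => absurd h hx⟩
    choose oth hoth using hoth
    have hinj : Set.InjOn oth (D2 : Set U) := by
      intro x hx y hy hxy
      have h1 := (hoth x hx).2.2.1
      have h2 := (hoth y hy).2.2.1
      rw [hxy] at h1
      have h3 : R.par x = R.par y := h1.symm.trans h2
      have h4 := (Finset.mem_filter.1 (Finset.mem_coe.1 hx)).2.2.2.1
      have h5 := (Finset.mem_filter.1 (Finset.mem_coe.1 hy)).2.2.2.1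
      rw [h4, h5, h3]
    calc ∑ x ∈ D2, ℓ x ≤ ∑ x ∈ D2, ℓ (oth x) := by
          apply Finset.sum_le_sum
          intro x hx
          obtain ⟨h1, h2, h3, h4⟩ := hoth x hx
          obtain ⟨hxE, hxc, _, hxd, _⟩ := Finset.mem_filter.1 hx
          obtain ⟨hxA, hxe⟩ := Finset.mem_filter.1 hxE
          have h5 := (hdes (R.par x) ⟨hpar x hxA hxc, hparodd x hxc hxe⟩).2.2.2 (oth x) h1 h2 h3
          rw [← hxd] at h5
          exact h5
      _ = ∑ y ∈ D2.image oth, ℓ y := (Finset.sum_image hinj).symm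
      _ ≤ ∑ x ∈ SM, ℓ x := by
          apply Finset.sum_le_sum_of_subset
          intro y hy
          obtain ⟨x, hx, rfl⟩ := Finset.mem_image.1 hy
          obtain ⟨h1, h2, h3, h4⟩ := hoth x hx
          obtain ⟨hxE, hxc, hpp, hxd, _⟩ := Finset.mem_filter.1 hx
          obtain ⟨hxA, hxe⟩ := Finset.mem_filter.1 hxE
          have h6 : (R.dep (oth x) : ZMod 2) = 0 := by
            have h7 := hstep (oth x) h2
            rw [h3, hparodd x hxc hxe] at h7
            rw [h7]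
            decide
          refine Finset.mem_filter.2 ⟨Finset.mem_filter.2 ⟨h1, h6⟩, h2, Or.inr ⟨?_, ?_⟩⟩
          · rw [h3]
            exact hpp
          · rw [h3, ← hxd]
            exact h4
  have hlast : L.getLastD p0 ∈ A ∧ (R.dep (L.getLastD p0) : ZMod 2) = 1 := by
    rw [List.getLastD_eq_getLast?]
    rcases hL : L.getLast? with _ | v
    · exact ⟨hp0A, hp0o⟩
    · have := (hLmem v).1 (List.mem_of_getLast? hL)
      exact ⟨this.1, this.2.2.1⟩
  have htot : ∑ x ∈ Ev, ℓ x ≤ 3 * M + 2 * ∑ x ∈ SM, ℓ x + ∑ x ∈ Sp (pu L), ℓ x +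
      ∑ x ∈ Sp (pu1 L), ℓ x := by
    have h1 := Finset.sum_le_sum_of_subset (f := ℓ) hcov
    have h2 := sum_union_le ((((({R.c} : Finset U) ∪ {des p0}) ∪ {des (L.getLastD p0)}) ∪ SM ∪
      D2) ∪ Sp (pu L)) (Sp (pu1 L)) ℓ
    have h3 := sum_union_le (((({R.c} : Finset U) ∪ {des p0}) ∪ {des (L.getLastD p0)}) ∪ SM ∪
      D2) (Sp (pu L)) ℓ
    have h4 := sum_union_le ((({R.c} : Finset U) ∪ {des p0}) ∪ {des (L.getLastD p0)} ∪ SM) D2 ℓ
    have h5 := sum_union_le ((({R.c} : Finset U) ∪ {des p0}) ∪ {des (L.getLastD p0)}) SM ℓ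
    have h6 := sum_union_le (({R.c} : Finset U) ∪ {des p0}) {des (L.getLastD p0)} ℓ
    have h7 := sum_union_le ({R.c} : Finset U) {des p0} ℓ
    rw [Finset.sum_singleton] at h6 h7
    rw [Finset.sum_singleton] at h7
    have h8 := hM R.c hc hc0
    have h9 := hM (des p0) (hTr.des_mem p0 hp0A hp0o).1 (hdese p0 hp0A hp0o)
    have h10 := hM (des (L.getLastD p0)) (hTr.des_mem _ hlast.1 hlast.2).1
      (hdese _ hlast.1 hlast.2)
    omega
  -- the options
  have hSpS : ∀ P : List (U × Option U), flat P = L → ∑ x ∈ Ev, ℓ x ≤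
      4 * ∑ x ∈ Sp P, ℓ x + 3 * M → ∃ (des : U → U) (p0 : U) (units : List (U × Option U))
      (S : Finset U), R.Tr A des ∧ p0 ∈ A ∧
      p0 ≠ R.c ∧ R.par p0 = R.c ∧ (flat units).Nodup ∧
      (∀ v, v ∈ flat units ↔ v ∈ A ∧ v ≠ R.c ∧ (R.dep v : ZMod 2) = 1 ∧ R.par v ≠ R.c) ∧
      (flat units).Pairwise (fun u v => R.dep u ≤ R.dep v) ∧
      (∀ x ∈ S, x ∈ A ∧ x ≠ R.c ∧ (R.dep x : ZMod 2) = 0 ∧
        ((R.par (R.par x) = R.c ∧ (x = des (R.par x) → R.par x ≠ p0)) ∨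
          ((R.par x, none) ∈ units ∧ x ≠ des (R.par x)) ∨
          ((∃ v', (R.par x, some v') ∈ units) ∧
            ∀ w ∈ A, w ≠ R.c → R.par w = R.par x → w = des (R.par x)))) ∧
      ∑ x ∈ Ev, ℓ x ≤ 4 * ∑ x ∈ S, ℓ x + 3 * M := by
    intro P hP hle
    refine ⟨des, p0, P, Sp P, hTr, hp0A, hp0c, hp0p, by rw [hP]; exact hLnd,
      by rw [hP]; exact hLmem, by rw [hP]; exact hLsort, ?_, hle⟩
    intro x hx
    obtain ⟨hxE, hxc, hex, hw⟩ := Finset.mem_filter.1 hx
    obtain ⟨hxA, hxe⟩ := Finset.mem_filter.1 hxE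
    exact ⟨hxA, hxc, hxe, Or.inr (Or.inr ⟨hex, hw⟩)⟩
  by_cases h1 : ∑ x ∈ Sp (pu L), ℓ x ≤ ∑ x ∈ SM, ℓ x ∧ ∑ x ∈ Sp (pu1 L), ℓ x ≤ ∑ x ∈ SM, ℓ x
  · refine ⟨des, p0, L.map (fun v => (v, (none : Option U))), SM, hTr, hp0A, hp0c, hp0p,
      by rw [flat_single]; exact hLnd, by rw [flat_single]; exact hLmem,
      by rw [flat_single]; exact hLsort, ?_, by omega⟩
    intro x hx
    obtain ⟨hxE, hxc, hor⟩ := Finset.mem_filter.1 hx
    obtain ⟨hxA, hxe⟩ := Finset.mem_filter.1 hxE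
    refine ⟨hxA, hxc, hxe, ?_⟩
    rcases hor with h | ⟨hpp, hxd⟩
    · exact Or.inl h
    · refine Or.inr (Or.inl ⟨?_, hxd⟩)
      rw [List.mem_map]
      exact ⟨R.par x, (hLmem _).2 ⟨hpar x hxA hxc, hoddne _ (hparodd x hxc hxe),
        hparodd x hxc hxe, hpp⟩, rfl⟩
  · by_cases h2 : ∑ x ∈ Sp (pu1 L), ℓ x ≤ ∑ x ∈ Sp (pu L), ℓ x
    · exact hSpS (pu L) (flat_pu L) (by omega)
    · exact hSpS (pu1 L) (flat_pu1 L) (by omega)

end Pool.Agent.Lib.MP_c5b475_co
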