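import Mathlib

set_option autoImplicit false

/-!
# Linear law: the zones of the classes (module ZO)
-/

namespace Pool.Agent.Lib.MP_c5b475_co

open Finset

/-- The integers of the zone of class `j`. -/
noncomputable def ZO.D (J : Finset ℕ) (n : ℕ → ℕ) (j : ℕ) : Finset ℤ :=
  (Icc (-(n j / 4 : ℕ) : ℤ) (n j / 4 : ℕ)).filter
    (fun d => d ≠ 0 ∧ ∀ i ∈ J, j < i → ((n i / 4 : ℕ) : ℤ) < |d|)

theorem ZO.cast_inj {m N : ℕ} (hm : 2 * N < m) {a b : ℤ} (ha : |a| ≤ (N : ℤ))
    (hb : |b| ≤ (N : ℤ)) (h : (a : ZMod m) = (b : ZMod m)) : a = b := by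
  rw [ZMod.intCast_eq_intCast_iff_dvd_sub] at h
  rw [abs_le] at ha hb
  obtain ⟨c, hc⟩ := h
  have hm2 : (2 * N : ℤ) < m := by exact_mod_cast hm
  have hc0 : c = 0 := by
    rcases lt_trichotomy c 0 with h1 | h1 | h1
    · have : (m : ℤ) * c ≤ m * (-1) := mul_le_mul_of_nonneg_left (by omega) (by omega)
      omega
    · exact h1
    · have : (m : ℤ) * 1 ≤ m * c := mul_le_mul_of_nonneg_left (by omega) (by omega)
      omega
  rw [hc0] at hc
  omega

/-- ZO. The zones of the classes. -/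
theorem zones {m : ℕ} [NeZero m] (J : Finset ℕ) (n : ℕ → ℕ) (N : ℕ) (hN : ∀ j ∈ J, n j ≤ N)
    (h0 : ∀ j ∈ J, 20000 ≤ n j) (h400 : ∀ i ∈ J, ∀ j ∈ J, i < j → 400 * n j ≤ n i)
    (hm : 2 * N < m) :
    ∃ Λ : ℕ → Finset (ZMod m),
      (∀ j ∈ J, (0 : ZMod m) ∉ Λ j) ∧ (∀ i ∈ J, ∀ j ∈ J, i ≠ j → Disjoint (Λ i) (Λ j)) ∧
      (J.biUnion Λ).card ≤ N ∧ (∀ j ∈ J, 6656 ≤ (Λ j).card ∧ 2 * (Λ j).card ≤ n j) ∧
      ∀ j ∈ J, ∀ E : Finset (ZMod m), 512 * (Λ j \ E).card ≤ (Λ j).card →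
        32 * ((Icc (-(n j / 4 : ℕ) : ℤ) (n j / 4 : ℕ)).filter
          (fun d : ℤ => (d : ZMod m) ∉ Λ j ∨ (d : ZMod m) ∉ E)).card ≤ n j / 8 := by
  classical
  have hDabs : ∀ j ∈ J, ∀ d ∈ ZO.D J n j, |d| ≤ ((n j / 4 : ℕ) : ℤ) := by
    intro j _ d hd
    rw [ZO.D, mem_filter, mem_Icc] at hd
    exact abs_le.2 hd.1
  have hDN : ∀ j ∈ J, ∀ d ∈ ZO.D J n j, |d| ≤ ((N / 4 : ℕ) : ℤ) := by
    intro j hj d hd
    refine le_trans (hDabs j hj d hd) ?_
    have := hN j hj
    exact_mod_cast Nat.div_le_div_right this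
  have hN4 : ((N / 4 : ℕ) : ℤ) ≤ (N : ℤ) := by exact_mod_cast Nat.div_le_self N 4
  have hinj : ∀ j ∈ J, Set.InjOn (fun d : ℤ => (d : ZMod m)) (ZO.D J n j : Set ℤ) := by
    intro j hj a ha b hb hab
    exact ZO.cast_inj hm (le_trans (hDN j hj a ha) hN4) (le_trans (hDN j hj b hb) hN4) hab
  -- small elements
  have hsmall : ∀ j ∈ J, ∀ d : ℤ, d ∈ Icc (-(n j / 4 : ℕ) : ℤ) (n j / 4 : ℕ) → d ∉ ZO.D J n j →
      d ∈ Icc (-(n j / 1600 : ℕ) : ℤ) (n j / 1600 : ℕ) := by
    intro j hj d hd hnd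
    rw [ZO.D, mem_filter, not_and, not_and] at hnd
    have h1 := hnd hd
    rw [mem_Icc, ← abs_le]
    by_cases hd0 : d = 0
    · rw [hd0, abs_zero]; exact Int.natCast_nonneg _
    · have h2 := h1 hd0
      push Not at h2
      obtain ⟨i, hi, hji, hle⟩ := h2
      refine le_trans hle ?_
      have h3 := h400 j hj i hi hji
      have : n i / 4 ≤ n j / 1600 := by omega
      exact_mod_cast this
  refine ⟨fun j => (ZO.D J n j).image (fun d : ℤ => (d : ZMod m)), ?_, ?_, ?_, ?_, ?_⟩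
  · intro j hj h
    rw [mem_image] at h
    obtain ⟨d, hd, h1⟩ := h
    have h2 : d = 0 := by
      refine ZO.cast_inj hm (le_trans (hDN j hj d hd) hN4) (by simp) ?_
      rw [h1]; simp
    rw [ZO.D, mem_filter] at hd
    exact hd.2.1 h2
  · have key : ∀ i ∈ J, ∀ j ∈ J, i < j → Disjoint
        ((ZO.D J n i).image (fun d : ℤ => (d : ZMod m)))
        ((ZO.D J n j).image (fun d : ℤ => (d : ZMod m))) := by
      intro i hi j hj hij
      rw [Finset.disjoint_left]
      intro x hx hy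
      rw [mem_image] at hx hy
      obtain ⟨a, ha, rfl⟩ := hx
      obtain ⟨b, hb, hab⟩ := hy
      have h1 : b = a := ZO.cast_inj hm (le_trans (hDN j hj b hb) hN4)
        (le_trans (hDN i hi a ha) hN4) hab
      subst h1
      have h2 := hDabs j hj b hb
      rw [ZO.D, mem_filter] at ha
      have h3 := ha.2.2 j hj hij
      omega
    intro i hi j hj hij
    rcases lt_or_gt_of_ne hij with h | h
    · exact key i hi j hj h
    · exact (key j hj i hi h).symm
  · by_cases hJ : J = ∅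
    · rw [hJ]; simp
    · obtain ⟨j0, hj0⟩ := Finset.nonempty_iff_ne_empty.2 hJ
      have hNb : 20000 ≤ N := le_trans (h0 j0 hj0) (hN j0 hj0)
      have hsub : (J.biUnion fun j => (ZO.D J n j).image (fun d : ℤ => (d : ZMod m)))
          ⊆ (Icc (-(N / 4 : ℕ) : ℤ) (N / 4 : ℕ)).image (fun d : ℤ => (d : ZMod m)) := by
        intro x hx
        rw [mem_biUnion] at hx
        obtain ⟨j, hj, hx⟩ := hx
        rw [mem_image] at hx ⊢
        obtain ⟨d, hd, rfl⟩ := hx
        exact ⟨d, mem_Icc.2 (abs_le.1 (hDN j hj d hd)), rfl⟩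
      refine le_trans (card_le_card hsub) (le_trans card_image_le ?_)
      rw [Int.card_Icc]
      omega
  · intro j hj
    have hcard : ((ZO.D J n j).image (fun d : ℤ => (d : ZMod m))).card = (ZO.D J n j).card :=
      Finset.card_image_of_injOn (hinj j hj)
    show 6656 ≤ ((ZO.D J n j).image (fun d : ℤ => (d : ZMod m))).card ∧
      2 * ((ZO.D J n j).image (fun d : ℤ => (d : ZMod m))).card ≤ n j
    rw [hcard]
    have h1 := h0 j hj
    constructor
    · -- lower bound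
      have hsub : (Icc (-(n j / 4 : ℕ) : ℤ) (n j / 4 : ℕ)) \
          (Icc (-(n j / 1600 : ℕ) : ℤ) (n j / 1600 : ℕ)) ⊆ ZO.D J n j := by
        intro d hd
        rw [mem_sdiff] at hd
        by_contra hnd
        exact hd.2 (hsmall j hj d hd.1 hnd)
      have h2 := card_le_card hsub
      have h3 := Finset.le_card_sdiff (Icc (-(n j / 1600 : ℕ) : ℤ) (n j / 1600 : ℕ))
        (Icc (-(n j / 4 : ℕ) : ℤ) (n j / 4 : ℕ))
      rw [Int.card_Icc, Int.card_Icc] at h3
      omega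
    · have hsub : ZO.D J n j ⊆ (Icc (-(n j / 4 : ℕ) : ℤ) (n j / 4 : ℕ)).erase 0 := by
        intro d hd
        rw [ZO.D, mem_filter] at hd
        exact mem_erase.2 ⟨hd.2.1, hd.1⟩
      have h2 := card_le_card hsub
      rw [card_erase_of_mem (by rw [mem_Icc]; constructor <;> omega), Int.card_Icc] at h2
      omega
  · intro j hj E hE
    have hcard : ((ZO.D J n j).image (fun d : ℤ => (d : ZMod m))).card = (ZO.D J n j).card :=
      Finset.card_image_of_injOn (hinj j hj)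
    have h1 := h0 j hj
    have hup : 2 * (ZO.D J n j).card ≤ n j := by
      have hsub : ZO.D J n j ⊆ (Icc (-(n j / 4 : ℕ) : ℤ) (n j / 4 : ℕ)).erase 0 := by
        intro d hd
        rw [ZO.D, mem_filter] at hd
        exact mem_erase.2 ⟨hd.2.1, hd.1⟩
      have h2 := card_le_card hsub
      rw [card_erase_of_mem (by rw [mem_Icc]; constructor <;> omega), Int.card_Icc] at h2
      omega
    have hsub : (Icc (-(n j / 4 : ℕ) : ℤ) (n j / 4 : ℕ)).filter
        (fun d : ℤ => (d : ZMod m) ∉ (ZO.D J n j).image (fun d : ℤ => (d : ZMod m)) ∨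
          (d : ZMod m) ∉ E)
        ⊆ (Icc (-(n j / 1600 : ℕ) : ℤ) (n j / 1600 : ℕ)) ∪
          (ZO.D J n j).filter (fun d : ℤ => (d : ZMod m) ∉ E) := by
      intro d hd
      rw [mem_filter] at hd
      rw [mem_union]
      by_cases hdD : d ∈ ZO.D J n j
      · right
        rw [mem_filter]
        refine ⟨hdD, ?_⟩
        rcases hd.2 with h | h
        · exact absurd (mem_image_of_mem _ hdD) h
        · exact h
      · left
        exact hsmall j hj d hd.1 hdD
    have h2 := card_le_card hsub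
    have h3 := card_union_le (Icc (-(n j / 1600 : ℕ) : ℤ) (n j / 1600 : ℕ))
      ((ZO.D J n j).filter (fun d : ℤ => (d : ZMod m) ∉ E))
    have h4 : ((ZO.D J n j).filter (fun d : ℤ => (d : ZMod m) ∉ E)).card
        = (((ZO.D J n j).image (fun d : ℤ => (d : ZMod m))) \ E).card := by
      rw [← Finset.card_image_of_injOn (s := (ZO.D J n j).filter (fun d : ℤ => (d : ZMod m) ∉ E))
        (f := fun d : ℤ => (d : ZMod m))
        ((hinj j hj).mono (by intro x hx; exact (mem_filter.1 hx).1))]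
      congr 1
      ext x
      simp only [mem_image, mem_filter, mem_sdiff]
      constructor
      · rintro ⟨d, ⟨h5, h6⟩, rfl⟩; exact ⟨⟨d, h5, rfl⟩, h6⟩
      · rintro ⟨⟨d, h5, rfl⟩, h6⟩; exact ⟨d, ⟨h5, h6⟩, rfl⟩
    have hE' : 512 * (((ZO.D J n j).image (fun d : ℤ => (d : ZMod m))) \ E).card
        ≤ ((ZO.D J n j).image (fun d : ℤ => (d : ZMod m))).card := hE
    rw [hcard] at hE'
    rw [Int.card_Icc] at h3
    have h5 : ((Icc (-(n j / 4 : ℕ) : ℤ) (n j / 4 : ℕ)).filter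
        (fun d : ℤ => (d : ZMod m) ∉ (ZO.D J n j).image (fun d : ℤ => (d : ZMod m)) ∨
          (d : ZMod m) ∉ E)).card ≤ 2 * (n j / 1600) + 1 + n j / 1024 := by
      omega
    calc 32 * _ ≤ 32 * (2 * (n j / 1600) + 1 + n j / 1024) := Nat.mul_le_mul_left _ h5
      _ ≤ n j / 8 := by omega

end Pool.Agent.Lib.MP_c5b475_co
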