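import Pool.Agent.Lib.MP_c5b475_co.Few.LPM
import Pool.Agent.Lib.MP_c5b475_co.Few.LWT
import Pool.Agent.Lib.MP_c5b475_co.Few.LSE
import Pool.Agent.Lib.MP_c5b475_co.Few.LZO
import Pool.Agent.Lib.MP_c5b475_co.Few.LCE
import Pool.Agent.Lib.MP_c5b475_co.Few.LCL
import Pool.Agent.Lib.MP_c5b475_co.Few.FIN

set_option autoImplicit false

/-!
# Closed labellings, linear version
-/

namespace Pool.Agent.Lib.MP_c5b475_co

open Finset

theorem lc_weights (J : Finset ℕ) (P : ℕ → Prop) [DecidablePred P] (a b : ℕ → ℕ)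
    (h : 4 * ∑ j ∈ J.filter P, 2 ^ j * b j ≤ ∑ j ∈ J, 2 ^ j * a j)
    (hb : ∀ j ∈ J, P j → a j ≤ 2 * b j) :
    ∑ j ∈ J, 2 ^ j * a j ≤ 2 * ∑ j ∈ J.filter (fun j => ¬ P j), 2 ^ j * a j := by
  have h1 : ∑ j ∈ J.filter P, 2 ^ j * a j + ∑ j ∈ J.filter (fun j => ¬ P j), 2 ^ j * a j =
      ∑ j ∈ J, 2 ^ j * a j := Finset.sum_filter_add_sum_filter_not J P (fun j => 2 ^ j * a j)
  have h2 : ∑ j ∈ J.filter P, 2 ^ j * a j ≤ 2 * ∑ j ∈ J.filter P, 2 ^ j * b j := by
    rw [Finset.mul_sum]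
    apply Finset.sum_le_sum
    intro j hj
    rw [Finset.mem_filter] at hj
    have := Nat.mul_le_mul_left (2 ^ j) (hb j hj.1 hj.2)
    calc 2 ^ j * a j ≤ 2 ^ j * (2 * b j) := this
      _ = 2 * (2 ^ j * b j) := by ring
  omega

theorem lc_core {U : Type*} [Fintype U] [DecidableEq U] {T : SimpleGraph U} (R : RT T)
    (A : Finset U) (hc : R.c ∈ A) (hpar : ∀ u ∈ A, u ≠ R.c → R.par u ∈ A)
    (hch : ∀ v ∈ A, (R.dep v : ZMod 2) = 1 → ∃ w ∈ A, w ≠ R.c ∧ R.par w = v)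
    (hout : ∀ u, u ∉ A → R.par u ∈ A ∧ (R.dep u : ZMod 2) = 1) (N : ℕ) (hN : A.card ≤ N)
    (hlf : ∀ x ∈ A, (R.dep x : ZMod 2) = 0 →
      (univ.filter (fun u => u ∉ A ∧ R.par u = x)).card ≤ 10 * N)
    (hL : 2 * 10 ^ 8 * N ≤ (univ.filter (fun u => u ∉ A)).card)
    (m : ℕ) (hm : 4096 * N ≤ m) (hm2 : m ≤ 8192 * N) : ClosedMod T m := by
  obtain ⟨ℓ, hℓ⟩ : ∃ ℓ : U → ℕ, ℓ = fun x => (univ.filter (fun u => u ∉ A ∧ R.par u = x)).card :=
    ⟨_, rfl⟩
  have hℓx : ∀ x, ℓ x = (univ.filter (fun u => u ∉ A ∧ R.par u = x)).card := by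
    intro x
    rw [hℓ]
  have hN1 : 1 ≤ N := le_trans (Finset.card_pos.2 ⟨_, hc⟩) hN
  have : NeZero m := ⟨by omega⟩
  -- parities
  have hpe : ∀ u, u ≠ R.c → (R.dep u : ZMod 2) = 1 → (R.dep (R.par u) : ZMod 2) = 0 := by
    intro u hu h
    have h1 := R.dep_par_cast hu
    rw [h] at h1
    generalize (R.dep (R.par u) : ZMod 2) = b at h1
    revert b
    decide
  have hce : (R.dep R.c : ZMod 2) = 0 := by rw [R.dep_c]; simp
  have hcne : ∀ u, (R.dep u : ZMod 2) = 1 → u ≠ R.c := by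
    rintro u h rfl
    rw [hce] at h
    exact absurd h (by decide)
  -- total number of outer leaves
  have hsum : ∑ x ∈ A.filter (fun x => (R.dep x : ZMod 2) = 0), ℓ x =
      (univ.filter (fun u => u ∉ A)).card := by
    rw [Finset.card_eq_sum_card_fiberwise (f := R.par)
      (t := A.filter (fun x => (R.dep x : ZMod 2) = 0))]
    · apply Finset.sum_congr rfl
      intro x _
      rw [hℓx, Finset.filter_filter]
    · intro u hu
      have hu' : u ∉ A := by simpa using hu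
      have h1 := hout u hu'
      simp only [Finset.coe_filter, Set.mem_ofPred_eq]
      exact ⟨h1.1, hpe u (hcne u h1.2) h1.2⟩
  have hℓM : ∀ x ∈ A, (R.dep x : ZMod 2) = 0 → ℓ x ≤ 10 * N := by
    intro x hx hxe
    rw [hℓx]
    exact hlf x hx hxe
  have hAne : A ≠ {R.c} := by
    intro hA
    have h1 : ∑ x ∈ A.filter (fun x => (R.dep x : ZMod 2) = 0), ℓ x ≤ ∑ x ∈ ({R.c} : Finset U), ℓ x := by
      apply Finset.sum_le_sum_of_subset
      intro x hx
      rw [Finset.mem_filter] at hx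
      rw [← hA]
      exact hx.1
    rw [Finset.sum_singleton, hsum] at h1
    have := hℓM R.c hc hce
    omega
  obtain ⟨des, p0, units, S, hTr, hp0, hp0c, hp0p, hnd, hl, hsort, hS, hS4⟩ :=
    choice R A hc hpar hch hAne ℓ (10 * N) hℓM
  rw [hsum] at hS4
  have hSA : S ⊆ A := fun x hx => (hS x hx).1
  have hSN : S.card ≤ N := (Finset.card_le_card hSA).trans hN
  obtain ⟨J, hJ1, hJ2, hJ3⟩ := select_classes S ℓ N (10 * N) 20000 hSN
    (fun x hx => hℓM x (hS x hx).1 (hS x hx).2.2.1)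
  obtain ⟨n, hn⟩ : ∃ n : ℕ → ℕ, n = fun j => (S.filter (fun x => Nat.log 2 (ℓ x) = j)).card :=
    ⟨_, rfl⟩
  have hnj : ∀ j, n j = (S.filter (fun x => Nat.log 2 (ℓ x) = j)).card := by
    intro j
    rw [hn]
  simp only [← hnj] at hJ1 hJ2 hJ3
  have hnN : ∀ j ∈ J, n j ≤ N := by
    intro j _
    rw [hnj]
    exact (Finset.card_filter_le _ _).trans hSN
  obtain ⟨Λ, hΛ0, hΛd, hΛN, hΛ1, hΛ2⟩ := zones (m := m) J n N hnN (fun j hj => (hJ1 j hj).2)
    hJ2 (by omega)
  obtain ⟨Z, hZ⟩ : ∃ Z : Zones U m, Z = ⟨J, Λ, S, fun x => Nat.log 2 (ℓ x), hΛ0, hΛd⟩ := ⟨_, rfl⟩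
  have hZJ : Z.J = J := by rw [hZ]
  have hZΛ : Z.Λ = Λ := by rw [hZ]
  have hZS : Z.S = S := by rw [hZ]
  have hZcl : ∀ x, Z.cl x = Nat.log 2 (ℓ x) := by intro x; rw [hZ]
  have hZall : Z.all.card ≤ N := by
    unfold Zones.all
    rw [hZJ, hZΛ]
    exact hΛN
  obtain ⟨lab, hgood, hacc⟩ := placement_linear (R := R) (Z := Z) hTr hp0 hp0c hp0p N hN hm hZall
    (by rw [hZJ, hZΛ]; exact fun j hj => (hΛ1 j hj).1) units hnd hl hsort (by rw [hZS]; exact hS)
    (fun j => 2 ^ j)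
  -- weights of the filled classes
  obtain ⟨P, hP⟩ : ∃ P : ℕ → Prop, P = fun j => (Λ j).card < 512 * (Λ j \ R.evl A lab).card :=
    ⟨_, rfl⟩
  have hPj : ∀ j, P j ↔ (Λ j).card < 512 * (Λ j \ R.evl A lab).card := by
    intro j
    rw [hP]
  classical
  obtain ⟨b, hb⟩ : ∃ b : ℕ → ℕ,
    b = fun j => (A.filter (fun x => x ∈ S ∧ Nat.log 2 (ℓ x) = j ∧ lab x ∉ Λ j)).card := ⟨_, rfl⟩
  have hbj : ∀ j, b j = (A.filter (fun x => x ∈ S ∧ Nat.log 2 (ℓ x) = j ∧ lab x ∉ Λ j)).card := by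
    intro j
    rw [hb]
  have hAS : ∀ j, A.filter (fun x => x ∈ S ∧ Nat.log 2 (ℓ x) = j) =
      S.filter (fun x => Nat.log 2 (ℓ x) = j) := by
    intro j
    ext x
    rw [Finset.mem_filter, Finset.mem_filter]
    constructor
    · rintro ⟨_, h1, h2⟩
      exact ⟨h1, h2⟩
    · rintro ⟨h1, h2⟩
      exact ⟨hSA h1, h1, h2⟩
  have hacc' : 4 * ∑ j ∈ J.filter P, 2 ^ j * b j ≤ ∑ j ∈ J, 2 ^ j * n j := by
    unfold RT.Acc at hacc
    rw [hZJ, hZΛ, hZS] at hacc
    simp only [hZcl] at hacc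
    refine le_trans (le_of_eq ?_) (le_trans hacc (le_of_eq ?_))
    · congr 1
      apply Finset.sum_congr
      · ext j
        rw [Finset.mem_filter, Finset.mem_filter, hPj]
      · intro j _
        rw [hbj]
    · apply Finset.sum_congr rfl
      intro j _
      rw [hnj, hAS]
  have hnb : ∀ j ∈ J, P j → n j ≤ 2 * b j := by
    intro j hj _
    have h1 : (S.filter (fun x => Nat.log 2 (ℓ x) = j)).card ≤ (Λ j).card + b j := by
      rw [← Finset.card_filter_add_card_filter_not (s := S.filter (fun x => Nat.log 2 (ℓ x) = j))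
        (fun x => lab x ∈ Λ j)]
      apply add_le_add
      · apply Finset.card_le_card_of_injOn lab
        · intro x hx
          simp only [Finset.coe_filter, Finset.mem_filter, Set.mem_ofPred_eq] at hx
          exact hx.2
        · intro x hx y hy hxy
          simp only [Finset.coe_filter, Finset.mem_filter, Set.mem_ofPred_eq] at hx hy
          have hxS := hS x hx.1.1
          have hyS := hS y hy.1.1
          exact hgood.placed.inj x hxS.1 y hyS.1 (hxS.2.2.1.trans hyS.2.2.1.symm) hxy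
      · rw [hbj]
        apply Finset.card_le_card
        intro x hx
        simp only [Finset.mem_filter] at hx
        rw [Finset.mem_filter]
        exact ⟨hSA hx.1.1, hx.1.1, hx.1.2, hx.2⟩
    rw [← hnj] at h1
    have h2 := (hΛ1 j hj).2
    omega
  have hW := lc_weights J P n b hacc' hnb
  obtain ⟨J', hJ'⟩ : ∃ J' : Finset ℕ, J' = J.filter (fun j => ¬ P j) := ⟨_, rfl⟩
  rw [← hJ'] at hW
  have hJ'J : ∀ j ∈ J', j ∈ J := by
    intro j hj
    rw [hJ', Finset.mem_filter] at hj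
    exact hj.1
  have hcov : ∑ j ∈ J', 2 ^ j * n j ≤ 36 * ∑ j ∈ J', 2 ^ (j - 2) * (n j / 8) := by
    rw [Finset.mul_sum]
    apply Finset.sum_le_sum
    intro j hj
    obtain ⟨h1, h2⟩ := hJ1 j (hJ'J j hj)
    obtain ⟨i, rfl⟩ : ∃ i, j = i + 2 := ⟨j - 2, by omega⟩
    have h3 : n (i + 2) ≤ 9 * (n (i + 2) / 8) := by omega
    have h4 : i + 2 - 2 = i := by omega
    rw [h4]
    calc 2 ^ (i + 2) * n (i + 2) = 2 ^ i * (4 * n (i + 2)) := by ring
      _ ≤ 2 ^ i * (36 * (n (i + 2) / 8)) := Nat.mul_le_mul_left _ (by omega)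
      _ = 36 * (2 ^ i * (n (i + 2) / 8)) := by ring
  have hmsum : m ≤ ∑ j ∈ J', 2 ^ (j - 2) * (n j / 8) := by omega
  -- the columns
  obtain ⟨C, hC⟩ : ∃ C : Finset ℤ,
    C = (A.filter (fun v => (R.dep v : ZMod 2) = 1)).image (fun v => ((lab v).val : ℤ)) := ⟨_, rfl⟩
  have hC4 : ∀ x ∈ C, ∀ y ∈ C, x < y → x + 4 ≤ y := by
    intro x hx y hy hxy
    rw [hC, Finset.mem_image] at hx hy
    obtain ⟨u, hu, rfl⟩ := hx
    obtain ⟨v, hv, rfl⟩ := hy
    rw [Finset.mem_filter] at hu hv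
    by_contra hcon
    have hne : v ≠ u := by
      rintro rfl
      omega
    have h1 := hgood.sep v hv.1 u hu.1 hv.2 hu.2 hne
    apply h1
    have h2 : (lab v).val = (lab u).val + 1 ∨ (lab v).val = (lab u).val + 2 ∨
        (lab v).val = (lab u).val + 3 := by omega
    have h3 : ∀ i : ℕ, (lab v).val = (lab u).val + i → lab v - lab u = (i : ZMod m) := by
      intro i hi
      have h4 : ((lab v).val : ZMod m) = (((lab u).val + i : ℕ) : ZMod m) := by rw [hi]
      rw [ZMod.natCast_zmod_val, Nat.cast_add, ZMod.natCast_zmod_val] at h4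
      rw [h4]
      ring
    unfold near3
    rcases h2 with h2 | h2 | h2
    · rw [h3 1 h2]; simp
    · rw [h3 2 h2]; simp
    · rw [h3 3 h2]; simp
  obtain ⟨Ξ, hΞ⟩ : ∃ Ξ : ℕ → Finset ℤ, Ξ = fun j =>
    (Icc (-(n j / 4 : ℕ) : ℤ) (n j / 4 : ℕ)).filter
      (fun d : ℤ => (d : ZMod m) ∉ Λ j ∨ (d : ZMod m) ∉ R.evl A lab) := ⟨_, rfl⟩
  obtain ⟨f, κ, hf1, hf2, hf3⟩ := cells C hC4 J' (fun j => n j / 8) (fun j => 2 ^ (j - 2)) Ξ
    (by
      intro j hj
      have := (hJ1 j (hJ'J j hj)).2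
      show 8 ≤ n j / 8
      omega)
    (by
      intro j hj
      rw [hΞ]
      apply hΛ2 j (hJ'J j hj)
      rw [hJ', Finset.mem_filter, hPj] at hj
      omega) m
    (by
      intro j hj
      have := hnN j (hJ'J j hj)
      show n j / 8 ≤ m
      omega) hmsum
  have hclosed : ∀ v ∈ A, (R.dep v : ZMod 2) = 1 → lab v ∈ R.tys A lab := by
    intro v hv hvo
    obtain ⟨u, hu, huc, huv⟩ := hgood.placed.closed v hv hvo
    rw [← huv]
    exact Finset.mem_image_of_mem (fun u => lab u + lab (R.par u)) (Finset.mem_erase.2 ⟨huc, hu⟩)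
  have hzmem : ∀ t : ZMod m, t ∉ R.tys A lab → (t.val : ℤ) ∈ Ico (0 : ℤ) m \ C := by
    intro t ht
    rw [Finset.mem_sdiff, Finset.mem_Ico]
    have h1 := ZMod.val_lt t
    refine ⟨by omega, ?_⟩
    intro hmem
    rw [hC, Finset.mem_image] at hmem
    obtain ⟨v, hv, hvt⟩ := hmem
    rw [Finset.mem_filter] at hv
    have h2 : (lab v).val = t.val := by exact_mod_cast hvt
    have h3 := ZMod.val_injective m h2
    apply ht
    rw [← h3]
    exact hclosed v hv.1 hv.2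
  -- the displacement of a free type is the label of a row
  have hrowex : ∀ t : ZMod m, t ∉ R.tys A lab → ∃ x ∈ A, (R.dep x : ZMod 2) = 0 ∧
      lab x = (((t.val : ℤ) - f t.val : ℤ) : ZMod m) ∧ x ∈ S ∧ Nat.log 2 (ℓ x) = κ t.val ∧
      κ t.val ∈ J' ∧ |(t.val : ℤ) - f t.val| ≤ (n (κ t.val) / 4 : ℕ) := by
    intro t ht
    obtain ⟨h1, h2, h3, h4⟩ := hf1 _ (hzmem t ht)
    have h5 : |(t.val : ℤ) - f t.val| ≤ (n (κ t.val) / 4 : ℕ) := by
      have h6 : 2 * (n (κ t.val) / 8) ≤ n (κ t.val) / 4 := by omega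
      have h7 : ((2 * (n (κ t.val) / 8) : ℕ) : ℤ) ≤ (n (κ t.val) / 4 : ℕ) := by exact_mod_cast h6
      have h8 : |(t.val : ℤ) - f t.val| < 2 * ((n (κ t.val) / 8 : ℕ) : ℤ) := h4
      rw [Nat.cast_mul] at h7
      have h9 : ((2 : ℕ) : ℤ) = 2 := by norm_num
      rw [h9] at h7
      exact le_of_lt (lt_of_lt_of_le h8 h7)
    rw [hΞ, Finset.mem_filter, Finset.mem_Icc] at h3
    have h6 : ((((t.val : ℤ) - f t.val : ℤ) : ZMod m) ∈ Λ (κ t.val)) ∧
        ((((t.val : ℤ) - f t.val : ℤ) : ZMod m) ∈ R.evl A lab) := by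
      by_contra hcon
      apply h3
      refine ⟨abs_le.1 h5, ?_⟩
      by_contra h7
      push Not at h7
      exact hcon h7
    have h7 := h6.2
    unfold RT.evl at h7
    rw [Finset.mem_image] at h7
    obtain ⟨x, hx, hxl⟩ := h7
    rw [Finset.mem_filter] at hx
    have h8 := hgood.lam x hx.1 hx.2 (κ t.val) (by rw [hZJ]; exact hJ'J _ h2)
      (by rw [hZΛ, hxl]; exact h6.1)
    rw [hZS, hZcl] at h8
    exact ⟨x, hx.1, hx.2, hxl, h8.1, h8.2, h2, h5⟩
  obtain ⟨row, hrow⟩ : ∃ row : ZMod m → U, ∀ t, t ∉ R.tys A lab → row t ∈ A ∧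
      (R.dep (row t) : ZMod 2) = 0 ∧ lab (row t) = (((t.val : ℤ) - f t.val : ℤ) : ZMod m) ∧
      row t ∈ S ∧ Nat.log 2 (ℓ (row t)) = κ t.val ∧ κ t.val ∈ J' ∧
      |(t.val : ℤ) - f t.val| ≤ (n (κ t.val) / 4 : ℕ) := by
    refine ⟨fun t => if h : t ∉ R.tys A lab then (hrowex t h).choose else R.c, ?_⟩
    intro t ht
    have h1 := (hrowex t ht).choose_spec
    simp only [dif_pos ht]
    exact h1
  have hfval : ∀ t : ZMod m, t ∉ R.tys A lab → ∀ s : ZMod m, ((f t.val : ℤ) : ZMod m) = s →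
      f t.val = s.val := by
    intro t ht s hs
    obtain ⟨h1, _⟩ := hf1 _ (hzmem t ht)
    rw [Finset.mem_sdiff, Finset.mem_Ico] at h1
    obtain ⟨i, hi⟩ : ∃ i : ℕ, f t.val = i := ⟨(f t.val).toNat, by omega⟩
    rw [hi] at h1 hs ⊢
    rw [← hs, Int.cast_natCast, ZMod.val_natCast_of_lt (by omega)]
  refine closing R A hout m lab hgood.placed row (fun t => ((f t.val : ℤ) : ZMod m)) ?_ ?_ ?_ ?_
  · intro t ht
    obtain ⟨h1, h2, h3, _⟩ := hrow t ht
    refine ⟨h1, h2, ?_⟩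
    rw [h3]
    push_cast
    rw [ZMod.natCast_zmod_val]
    ring
  · intro t ht v hv hvo h
    have h1 := hfval t ht _ h
    obtain ⟨h2, _⟩ := hf1 _ (hzmem t ht)
    rw [Finset.mem_sdiff] at h2
    apply h2.2
    rw [hC, Finset.mem_image]
    exact ⟨v, Finset.mem_filter.2 ⟨hv, hvo⟩, h1.symm⟩
  · intro t ht t' ht' h
    have h1 := hfval t ht _ h
    have h2 := hfval t' ht' _ rfl
    rw [← h2] at h1
    have h3 := hf2 (Finset.mem_coe.2 (hzmem t ht)) (Finset.mem_coe.2 (hzmem t' ht')) h1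
    have h4 : t.val = t'.val := by exact_mod_cast h3
    exact ZMod.val_injective m h4
  · intro x hx hxe
    rw [← hℓx]
    rcases (univ.filter (fun t => t ∉ R.tys A lab ∧ row t = x)).eq_empty_or_nonempty with h0 | h0
    · rw [h0]; simp
    obtain ⟨t0, ht0⟩ := h0
    rw [Finset.mem_filter] at ht0
    obtain ⟨_, ht0, hrt0⟩ := ht0
    obtain ⟨_, _, g3, g4, g5, g6, g7⟩ := hrow t0 ht0
    rw [hrt0] at g3 g4 g5
    have hj2 := (hJ1 _ (hJ'J _ g6)).1
    have hpow : 2 ^ (κ t0.val) ≤ ℓ x := by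
      rw [← g5]
      apply Nat.pow_log_le_self
      intro h
      rw [h, Nat.log_zero_right] at g5
      omega
    have hcard := hf3 (κ t0.val) g6 ((t0.val : ℤ) - f t0.val)
    have h4q : 4 * 2 ^ (κ t0.val - 2) = 2 ^ (κ t0.val) := by
      obtain ⟨i, hi⟩ : ∃ i, κ t0.val = i + 2 := ⟨κ t0.val - 2, by omega⟩
      rw [hi]
      have : i + 2 - 2 = i := by omega
      rw [this]
      ring
    have hinj : (univ.filter (fun t => t ∉ R.tys A lab ∧ row t = x)).card ≤
        ((Ico (0 : ℤ) m \ C).filter (fun z => κ z = κ t0.val ∧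
          z - f z = (t0.val : ℤ) - f t0.val)).card := by
      apply Finset.card_le_card_of_injOn (fun t : ZMod m => (t.val : ℤ))
      · intro t ht
        simp only [Finset.coe_filter, Finset.mem_univ, true_and, Set.mem_ofPred_eq] at ht
        obtain ⟨ht, hrt⟩ := ht
        obtain ⟨_, _, e3, e4, e5, e6, e7⟩ := hrow t ht
        rw [hrt] at e3 e4 e5
        have hκ : κ t.val = κ t0.val := by rw [← e5, g5]
        rw [Finset.coe_filter]
        refine ⟨hzmem t ht, hκ, ?_⟩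
        -- the displacement is determined by its residue
        rw [hκ] at e7
        have h5 : (((t.val : ℤ) - f t.val : ℤ) : ZMod m) =
            (((t0.val : ℤ) - f t0.val : ℤ) : ZMod m) := by rw [← e3, ← g3]
        rw [ZMod.intCast_eq_intCast_iff_dvd_sub] at h5
        have h6 := hnN _ (hJ'J _ g6)
        have h7 : ((n (κ t0.val) / 4 : ℕ) : ℤ) ≤ N := by
          exact_mod_cast (Nat.div_le_self _ _).trans h6
        have h8 := abs_le.1 (e7.trans h7)
        have h9 := abs_le.1 (g7.trans h7)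
        obtain ⟨r, hr⟩ := h5
        have hmN : (4096 : ℤ) * N ≤ m := by exact_mod_cast hm
        have hN1' : (1 : ℤ) ≤ N := by exact_mod_cast hN1
        have hr0 : r = 0 := by
          by_contra hr0
          have h10 : (m : ℤ) ≤ |(m : ℤ) * r| := by
            rw [abs_mul, abs_of_nonneg (by omega : (0 : ℤ) ≤ m)]
            have : 1 ≤ |r| := Int.one_le_abs hr0
            nlinarith
          rw [← hr] at h10
          have h11 : |((t0.val : ℤ) - f t0.val) - ((t.val : ℤ) - f t.val)| ≤ 2 * N := by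
            rw [abs_le]
            constructor <;> omega
          omega
        rw [hr0, mul_zero] at hr
        show (t.val : ℤ) - f t.val = (t0.val : ℤ) - f t0.val
        omega
      · intro t _ t' _ h
        have h3 : (t.val : ℤ) = t'.val := h
        have h4 : t.val = t'.val := by exact_mod_cast h3
        exact ZMod.val_injective m h4
    calc _ ≤ _ := hinj
      _ ≤ _ := hcard
      _ = 2 ^ (κ t0.val) := h4q
      _ ≤ ℓ x := hpow

open Classical in
/-- LC. Closed labellings, linear version. -/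
theorem linear_closed {U : Type*} [Fintype U] [DecidableEq U] {T : SimpleGraph U} (_hT : T.IsTree)
    (R : RT T) (hRc : IsInner T R.c) (N : ℕ)
    (hN : (univ.filter (fun u => (R.dep u : ZMod 2) = 0)).card +
      (univ.filter (fun u => (R.dep u : ZMod 2) = 1 ∧ IsInner T u)).card ≤ N)
    (hlf : ∀ u, (R.dep u : ZMod 2) = 0 → (lf T u).card ≤ 10 * N)
    (hL : 2 * 10 ^ 8 * N ≤ (univ.filter (fun u => (R.dep u : ZMod 2) = 1 ∧ ¬ IsInner T u)).card)
    (m : ℕ) (hm : 4096 * N ≤ m) (hm2 : m ≤ 8192 * N) : ClosedMod T m := by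
  have hz1 : ∀ a : ZMod 2, a ≠ 0 → a = 1 := by decide
  obtain ⟨A, hA⟩ : ∃ A : Finset U, A = univ.filter (fun u => (R.dep u : ZMod 2) = 0) ∪
    univ.filter (fun u => (R.dep u : ZMod 2) = 1 ∧ IsInner T u) := ⟨_, rfl⟩
  have hAN : A.card ≤ N := by
    rw [hA]
    exact (Finset.card_union_le _ _).trans hN
  have hmem : ∀ u, u ∈ A ↔ ((R.dep u : ZMod 2) = 0 ∨ ((R.dep u : ZMod 2) = 1 ∧ IsInner T u)) := by
    intro u
    rw [hA, Finset.mem_union, Finset.mem_filter, Finset.mem_filter]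
    simp
  have hmem' : ∀ u, IsInner T u → u ∈ A := by
    intro u hu
    rw [hmem]
    by_cases h : (R.dep u : ZMod 2) = 0
    · exact Or.inl h
    · exact Or.inr ⟨hz1 _ h, hu⟩
  have hc : R.c ∈ A := hmem' _ hRc
  have hpar : ∀ u ∈ A, u ≠ R.c → R.par u ∈ A := fun u _ hne => hmem' _ (fin_par_inner R hRc hne)
  have hch : ∀ v ∈ A, (R.dep v : ZMod 2) = 1 → ∃ w ∈ A, w ≠ R.c ∧ R.par w = v := by
    intro v hv hd
    have hvi : IsInner T v := by
      rcases (hmem v).1 hv with h | h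
      · rw [h] at hd
        exact absurd hd (by decide)
      · exact h.2
    have key : ∀ w, T.Adj v w → w ≠ R.par v → w ∈ A ∧ w ≠ R.c ∧ R.par w = v := by
      intro w hvw hwp
      rcases (R.adj_iff v w).1 hvw with ⟨_, h2⟩ | ⟨h1, h2⟩
      · exact absurd h2 hwp
      · refine ⟨?_, h1, h2.symm⟩
        rw [hmem]
        left
        have h3 := R.dep_par_cast h1
        rw [h3, ← h2, hd]
        decide
    obtain ⟨x, y, hx, hy, hxy⟩ := hvi
    by_cases h : x = R.par v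
    · exact ⟨y, key y hy (fun h' => hxy (h.trans h'.symm))⟩
    · exact ⟨x, key x hx h⟩
  have hout : ∀ u, u ∉ A → R.par u ∈ A ∧ (R.dep u : ZMod 2) = 1 := by
    intro u hu
    have h1 : (R.dep u : ZMod 2) ≠ 0 := fun h => hu ((hmem u).2 (Or.inl h))
    have h2 : ¬ IsInner T u := fun h => hu (hmem' u h)
    exact ⟨hmem' _ (fin_leaf R hRc h2).2.2, hz1 _ h1⟩
  refine lc_core R A hc hpar hch hout N hAN ?_ ?_ m hm hm2
  · intro x _ hxe
    refine (Finset.card_le_card ?_).trans (hlf x hxe)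
    intro u hu
    rw [Finset.mem_filter] at hu
    unfold lf
    rw [Finset.mem_filter]
    refine ⟨Finset.mem_univ _, ?_, fun h => hu.2.1 (hmem' u h)⟩
    rw [R.adj_iff]
    right
    refine ⟨?_, hu.2.2.symm⟩
    rintro rfl
    exact hu.2.1 hc
  · refine hL.trans (Finset.card_le_card ?_)
    intro u hu
    rw [Finset.mem_filter] at hu ⊢
    refine ⟨Finset.mem_univ _, ?_⟩
    rw [hmem]
    rintro (h | h)
    · rw [h] at hu
      exact absurd hu.2.1 (by decide)
    · exact hu.2.2 h.2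

end Pool.Agent.Lib.MP_c5b475_co
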