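import Pool.Agent.Lib.MP_c5b475_co.Few.SQ
import Pool.Agent.Lib.MP_c5b475_co.Few.LLC

set_option autoImplicit false

/-!
# All trees with at most `k` non-leaf vertices and `n ≥ 10 ^ 10 k` edges
-/

namespace Pool.Agent.Lib.MP_c5b475_co

open Finset

theorem al_zmod {a b : ZMod 2} (h : ¬ b = a) : a + b = 1 := by
  revert a b
  decide

/-- Re-rooting at a vertex `x0` of a class with few leaves. -/
theorem al_root {n k : ℕ} {T : SimpleGraph (Fin (n + 1))}
    (hk : Nat.card {u // IsInner T u} ≤ k) (R : RT T) (a : ZMod 2)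
    (ha : Nat.card {w // (R.dep w : ZMod 2) = a ∧ ¬ IsInner T w} < 30 * k)
    (x0 : Fin (n + 1)) (hx0a : (R.dep x0 : ZMod 2) = a) (R' : RT T) (hR' : R'.c = x0) :
    (∀ w, (R'.dep w : ZMod 2) = a + R.dep w) ∧
    (open Classical in (univ.filter (fun u => (R'.dep u : ZMod 2) = 0)).card +
      (univ.filter (fun u => (R'.dep u : ZMod 2) = 1 ∧ IsInner T u)).card ≤ 31 * k) ∧
    (open Classical in n + 1 ≤ 31 * k +
      (univ.filter (fun u => (R'.dep u : ZMod 2) = 1 ∧ ¬ IsInner T u)).card) := by
  classical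
  rw [Nat.card_eq_fintype_card, Fintype.card_subtype] at hk ha
  obtain ⟨IN, hIN⟩ : ∃ s : Finset (Fin (n + 1)), s = univ.filter (fun u => IsInner T u) := ⟨_, rfl⟩
  obtain ⟨LA, hLA⟩ : ∃ s : Finset (Fin (n + 1)),
    s = univ.filter (fun w => (R.dep w : ZMod 2) = a ∧ ¬ IsInner T w) := ⟨_, rfl⟩
  obtain ⟨L, hL⟩ : ∃ s : Finset (Fin (n + 1)),
    s = univ.filter (fun w => (R'.dep w : ZMod 2) = 1 ∧ ¬ IsInner T w) := ⟨_, rfl⟩
  rw [← hIN] at hk
  rw [← hLA] at ha
  have hpar := fin_parity R R'
  have hb : (R'.dep R.c : ZMod 2) = a := by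
    have h2 := hpar x0
    rw [← hR', R'.dep_c, Nat.cast_zero, hR', hx0a] at h2
    exact (sq_zmod' h2.symm).symm
  have hpar' : ∀ w, (R'.dep w : ZMod 2) = a + R.dep w := by
    intro w
    rw [hpar w, hb]
  refine ⟨hpar', ?_, ?_⟩
  · have h2 : univ.filter (fun u => (R'.dep u : ZMod 2) = 0) ⊆
        LA ∪ IN.filter (fun x => (R.dep x : ZMod 2) = a) := by
      intro w hw
      rw [Finset.mem_filter] at hw
      have h3 : (R.dep w : ZMod 2) = a := by
        have := hw.2
        rw [hpar' w] at this
        exact sq_zmod' this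
      rw [Finset.mem_union, hLA, hIN, Finset.mem_filter, Finset.mem_filter, Finset.mem_filter]
      by_cases h4 : IsInner T w
      · exact Or.inr ⟨⟨Finset.mem_univ _, h4⟩, h3⟩
      · exact Or.inl ⟨Finset.mem_univ _, h3, h4⟩
    have h3 : univ.filter (fun u => (R'.dep u : ZMod 2) = 1 ∧ IsInner T u) ⊆
        IN.filter (fun x => ¬ (R.dep x : ZMod 2) = a) := by
      intro w hw
      rw [Finset.mem_filter] at hw
      have h3 : (R.dep w : ZMod 2) ≠ a := by
        have := hw.2.1
        rw [hpar' w] at this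
        exact sq_zmod'' this
      rw [Finset.mem_filter, hIN, Finset.mem_filter]
      exact ⟨⟨Finset.mem_univ _, hw.2.2⟩, h3⟩
    have h4 := Finset.card_le_card h2
    have h5 := Finset.card_le_card h3
    have h6 := Finset.card_union_le LA (IN.filter (fun x => (R.dep x : ZMod 2) = a))
    have h7 := Finset.card_filter_add_card_filter_not (s := IN) (fun x => (R.dep x : ZMod 2) = a)
    omega
  · have h2 : (univ : Finset (Fin (n + 1))) ⊆ (LA ∪ IN) ∪ L := by
      intro w _
      rw [Finset.mem_union, Finset.mem_union, hLA, hIN, hL, Finset.mem_filter, Finset.mem_filter,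
        Finset.mem_filter]
      by_cases h3 : IsInner T w
      · exact Or.inl (Or.inr ⟨Finset.mem_univ _, h3⟩)
      · by_cases h4 : (R.dep w : ZMod 2) = a
        · exact Or.inl (Or.inl ⟨Finset.mem_univ _, h4, h3⟩)
        · refine Or.inr ⟨Finset.mem_univ _, ?_, h3⟩
          rw [hpar' w]
          exact al_zmod h4
    have h3 := Finset.card_le_card h2
    rw [Finset.card_univ, Fintype.card_fin] at h3
    have h4 := Finset.card_union_le (LA ∪ IN) L
    have h5 := Finset.card_union_le LA IN
    rw [← hL]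
    omega

/-- AL. All trees with `n ≥ 10^10 k`. -/
theorem all_linear {n k : ℕ} {T : SimpleGraph (Fin (n + 1))} (hT : T.IsTree) (h1 : 1 ≤ k)
    (hk : Nat.card {u // IsInner T u} ≤ k) (hn : 10 ^ 10 * k ≤ n) {V : Type} [Fintype V]
    [DecidableEq V] (G : SimpleGraph V) [DecidableRel G.Adj] (hG : G.IsRegularOfDegree n) {m : ℕ}
    (hm : 200000 * k ≤ m) (hf : HasFactor G m) : Decomposes T G := by
  classical
  obtain ⟨c, hc⟩ := fin_exists_inner hT (by rw [Fintype.card_fin]; omega)
  obtain ⟨R, hRc, _⟩ := exists_RT hT c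
  have hc' : IsInner T R.c := by
    rw [hRc]
    exact hc
  by_cases hL : ∀ a : ZMod 2, 30 * k ≤ Nat.card {w // (R.dep w : ZMod 2) = a ∧ ¬ IsInner T w}
  · refine frame (bothClasses hT k h1 hk (fun u => (R.dep u : ZMod 2)) ?_ hL) G hG (by omega) hf
    intro u v huv
    rcases (R.adj_iff u v).1 huv with ⟨h2, h3⟩ | ⟨h2, h3⟩
    · have h4 := R.dep_par_cast h2
      change (R.dep v : ZMod 2) = R.dep u + 1
      rw [h4, h3, add_assoc]
      generalize (R.dep (R.par u) : ZMod 2) = b
      revert b
      decide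
    · change (R.dep v : ZMod 2) = R.dep u + 1
      rw [R.dep_par_cast h2, h3]
  · push Not at hL
    obtain ⟨a, ha⟩ := hL
    by_cases hbig : ∃ x0, (R.dep x0 : ZMod 2) = a ∧ 310 * k < (lf T x0).card
    · obtain ⟨x0, hx0a, hx0⟩ := hbig
      have hx0i : IsInner T x0 := by
        have h2 : 1 < (lf T x0).card := by omega
        obtain ⟨v, hv, w, hw, hvw⟩ := Finset.one_lt_card.1 h2
        rw [lf, Finset.mem_filter] at hv hw
        exact ⟨v, w, hv.2.1, hw.2.1, hvw⟩
      obtain ⟨R', hR', _⟩ := exists_RT hT x0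
      obtain ⟨_, hN, _⟩ := al_root hk R a ha x0 hx0a R' hR'
      refine block_frame G hG ((factor_blocks (m0 := 155 * k) (by omega) (by omega) hf).mono ?_)
      rintro μ ⟨hμ1, hμ2⟩
      refine ⟨by omega, dominated hT R' (by rw [hR']; exact hx0i) (31 * k) ?_ μ (by omega)
        (by rw [hR']; omega)⟩
      convert hN
    · push Not at hbig
      -- an inner vertex of class `a`
      obtain ⟨x0, hx0a, hx0i⟩ : ∃ x0, (R.dep x0 : ZMod 2) = a ∧ IsInner T x0 := by
        by_contra hcon
        push Not at hcon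
        have h2 : (univ : Finset (Fin (n + 1))) ⊆
            univ.filter (fun w => (R.dep w : ZMod 2) = a ∧ ¬ IsInner T w) ∪
            univ.filter (fun u => IsInner T u) := by
          intro w _
          rw [Finset.mem_union, Finset.mem_filter, Finset.mem_filter]
          by_cases h3 : IsInner T w
          · exact Or.inr ⟨Finset.mem_univ _, h3⟩
          · refine Or.inl ⟨Finset.mem_univ _, ?_, h3⟩
            by_contra h4
            obtain ⟨hwc, _, hwi⟩ := fin_leaf R hc' h3
            refine hcon (R.par w) ?_ hwi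
            have h5 := R.dep_par_cast hwc
            have h6 := sq_zmod h4
            rw [h5] at h6
            exact add_right_cancel h6
        have h3 := (Finset.card_le_card h2).trans (Finset.card_union_le _ _)
        rw [Finset.card_univ, Fintype.card_fin] at h3
        rw [Nat.card_eq_fintype_card, Fintype.card_subtype] at hk ha
        omega
      obtain ⟨R', hR', _⟩ := exists_RT hT x0
      obtain ⟨hpar, hN, hLn⟩ := al_root hk R a ha x0 hx0a R' hR'
      refine block_frame G hG ((factor_blocks (m0 := 4096 * (31 * k)) (by omega) (by omega)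
        hf).mono ?_)
      rintro μ ⟨hμ1, hμ2⟩
      refine ⟨by omega, linear_closed hT R' (by rw [hR']; exact hx0i) (31 * k) ?_ ?_ ?_ μ
        (by omega) (by omega)⟩
      · convert hN
      · intro u hu
        have h2 : (R.dep u : ZMod 2) = a := by
          rw [hpar u] at hu
          exact sq_zmod' hu
        have h3 := hbig u h2
        omega
      · have h2 : 2 * 10 ^ 8 * (31 * k) ≤
            (univ.filter (fun u => (R'.dep u : ZMod 2) = 1 ∧ ¬ IsInner T u)).card := by
          omega
        convert h2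

end Pool.Agent.Lib.MP_c5b475_co
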