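import Pool.Agent.Lib.MP_c5b475_co.Few.Frame
import Pool.Agent.Lib.MP_c5b475_co.Few.DefsB

set_option autoImplicit false

/-!
# Framed trees decompose hosts with a factor into large blocks
-/

namespace Pool.Agent.Lib.MP_c5b475_co

open Finset

/-- The side of a vertex, blocks of different sizes. -/
def sdB {B : Type} (μ : B → ℕ) : ((b : B) × Fin (μ b)) ⊕ ((b : B) × Fin (μ b)) → ZMod 2 :=
  Sum.elim (fun _ => 0) (fun _ => 1)

/-- Rotation of the left side within the blocks. -/
def rotateB {B : Type} (μ : B → ℕ) :
    Equiv.Perm (((b : B) × Fin (μ b)) ⊕ ((b : B) × Fin (μ b))) :=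
  Equiv.sumCongr (Equiv.sigmaCongrRight fun b => finRotate (μ b)) (Equiv.refl _)

theorem rotateB_pow {B : Type} (μ : B → ℕ) (i : ℕ) (β : B) (x : Fin (μ β)) :
    (rotateB μ ^ i) (Sum.inl ⟨β, x⟩) = Sum.inl ⟨β, (finRotate (μ β) ^ i) x⟩ := by
  induction i with
  | zero => rfl
  | succ i ih =>
    rw [pow_succ', Equiv.Perm.mul_apply, ih, pow_succ', Equiv.Perm.mul_apply]
    rfl

/-- **FB.** Framed trees decompose hosts with a factor into blocks of sizes at least `K`. -/
theorem frame_block {n K : ℕ} {T : SimpleGraph (Fin (n + 1))} (h : Framed T K) {V : Type}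
    [Fintype V] [DecidableEq V] (G : SimpleGraph V) [DecidableRel G.Adj]
    (hG : G.IsRegularOfDegree n) (hf : BlockFactor G (fun μ => K ≤ μ)) : Decomposes T G := by
  classical
  obtain ⟨B, μ, e, hK, hl, hr, hKe⟩ := hf
  obtain ⟨R, I, lab, hc, hpar, hout, linj, llt, lty, hdis, h01, h10⟩ := h
  let sv : V → ZMod 2 := fun v => sdB μ (e.symm v)
  have hpow : ∀ (i : ℕ) x, ((((e.symm.trans (rotateB μ)).trans e : Equiv.Perm V)) ^ i) (e x) =
      e ((rotateB μ ^ i) x) := by
    intro i
    induction i with
    | zero => intro x; rfl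
    | succ i ih =>
      intro x
      rw [pow_succ', Equiv.Perm.mul_apply, ih, pow_succ', Equiv.Perm.mul_apply]
      simp
  obtain ⟨f, hf1, hf2⟩ := R.decompose_frame (G := G) I lab K hc hpar hout linj llt lty hdis h01 h10
    (fun v => by rw [hG v, Fintype.card_fin]) sv
    (by
      intro u v huv
      simp only [sv]
      obtain ⟨x, rfl⟩ := e.surjective u
      obtain ⟨y, rfl⟩ := e.surjective v
      rw [e.symm_apply_apply, e.symm_apply_apply]
      rcases x with x | x <;> rcases y with y | y
      · exact absurd huv (hl x y)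
      · simp [sdB]
      · simp only [sdB, Sum.elim_inl, Sum.elim_inr]
        decide
      · exact absurd huv (hr x y))
    (fun v => e (Sum.swap (e.symm v))) ((e.symm.trans (rotateB μ)).trans e)
    (fun v => by simp)
    (by
      intro v
      simp only [sv]
      obtain ⟨x, rfl⟩ := e.surjective v
      rw [e.symm_apply_apply]
      rcases x with x | x
      · simp [sdB]
      · simp only [sdB, Sum.elim_inr, Sum.swap_inr, e.symm_apply_apply, Sum.elim_inl]
        decide)
    (by
      intro v
      simp only [sv]
      obtain ⟨x, rfl⟩ := e.surjective v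
      rw [Equiv.trans_apply, Equiv.trans_apply, e.symm_apply_apply, e.symm_apply_apply]
      rcases x with x | x <;> simp [sdB, rotateB])
    (by
      intro v hv i hi
      obtain ⟨x, rfl⟩ := e.surjective v
      rw [hpow]
      rcases x with ⟨β, x⟩ | x
      · rw [e.symm_apply_apply, rotateB_pow]
        exact hKe β x _
      · simp [sv, sdB] at hv)
    (by
      intro v hv i hi j hj hij
      obtain ⟨x, rfl⟩ := e.surjective v
      rw [hpow, hpow] at hij
      rcases x with ⟨β, x⟩ | x
      · rw [rotateB_pow, rotateB_pow] at hij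
        have h1 := Sum.inl_injective (e.injective hij)
        have h2 := eq_of_heq (Sigma.mk.inj h1).2
        have h3 := hK β
        exact finRotate_pow_inj (μ β) i j (by omega) (by omega) x h2
      · simp [sv, sdB] at hv)
  exact ⟨_, f, hf1, hf2⟩

end Pool.Agent.Lib.MP_c5b475_co
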