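import Pool.Agent.Lib.MP_c5b475_co.Few.HF

set_option autoImplicit false

/-!
# Splitting blocks of different sizes
-/

namespace Pool.Agent.Lib.MP_c5b475_co

open Finset

/-- Splitting blocks. -/
def splitBlocks {B : Type} (μ q : B → ℕ) (f : (b : B) → Fin (q b) → ℕ)
    (h : ∀ b, ∑ i, f b i = μ b) :
    ((x : (b : B) × Fin (q b)) × Fin (f x.1 x.2)) ≃ ((b : B) × Fin (μ b)) :=
  (Equiv.sigmaAssoc (fun b i => Fin (f b i))).trans
    (Equiv.sigmaCongrRight (fun b => finSigmaFinEquiv.trans (finCongr (h b))))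

theorem splitBlocks_fst {B : Type} (μ q : B → ℕ) (f : (b : B) → Fin (q b) → ℕ)
    (h : ∀ b, ∑ i, f b i = μ b) (x : (x : (b : B) × Fin (q b)) × Fin (f x.1 x.2)) :
    (splitBlocks μ q f h x).1 = x.1.1 := rfl

/-- SB. Blocks of sizes between `m0` and `2 m0`. -/
theorem split_blocks {V : Type} {G : SimpleGraph V} {m m0 : ℕ} (h0 : 1 ≤ m0) (h : m0 ≤ m)
    (hf : BlockFactor G (fun μ => m ≤ μ)) : BlockFactor G (fun μ => m0 ≤ μ ∧ μ < 2 * m0) := by
  obtain ⟨B, μ, e, hμ, hl, hr, hK⟩ := hf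
  have hsz := fun b => exists_sizes h0 (h.trans (hμ b))
  choose q f hs hfb using hsz
  have hK' : ∀ x y : (b : B) × Fin (μ b), x.1 = y.1 → G.Adj (e (Sum.inl x)) (e (Sum.inr y)) := by
    rintro ⟨b, i⟩ ⟨b', j⟩ hbb
    simp only at hbb
    subst hbb
    exact hK b i j
  refine ⟨(b : B) × Fin (q b), fun x => f x.1 x.2,
    (Equiv.sumCongr (splitBlocks μ q f hs) (splitBlocks μ q f hs)).trans e, ?_, ?_, ?_, ?_⟩
  · rintro ⟨b, i⟩
    exact hfb b i
  · intro x y
    exact hl _ _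
  · intro x y
    exact hr _ _
  · intro b i j
    exact hK' _ _ rfl

end Pool.Agent.Lib.MP_c5b475_co
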