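import Pool.Agent.Lib.MP_c5b475_co.Few.SQ
import Pool.Agent.Lib.MP_c5b475_co.Few.LAL
import Pool.Agent.Lib.MP_c5b475_co.Few.LSB
import Pool.Agent.Lib.MP_c5b475_co.Few.LFB

set_option autoImplicit false

/-!
# The linear law and the quadratic law for hosts with large blocks of different sizes (AB)
-/

namespace Pool.Agent.Lib.MP_c5b475_co

open Finset

/-- The parity of the depth is a proper colouring. -/
theorem lab_colour {U : Type*} {T : SimpleGraph U} (R : RT T) {u v : U} (huv : T.Adj u v) :
    (R.dep v : ZMod 2) = R.dep u + 1 := by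
  rcases (R.adj_iff u v).1 huv with ⟨h2, h3⟩ | ⟨h2, h3⟩
  · have h4 := R.dep_par_cast h2
    rw [h4, h3, add_assoc]
    generalize (R.dep (R.par u) : ZMod 2) = b
    revert b
    decide
  · rw [R.dep_par_cast h2, h3]

/-- AB. All trees with `n ≥ 10^10 k`, hosts with blocks of sizes at least `200000 k`. -/
theorem all_linear_block {n k : ℕ} {T : SimpleGraph (Fin (n + 1))} (hT : T.IsTree) (h1 : 1 ≤ k)
    (hk : Nat.card {u // IsInner T u} ≤ k) (hn : 10 ^ 10 * k ≤ n) {V : Type} [Fintype V]
    [DecidableEq V] (G : SimpleGraph V) [DecidableRel G.Adj] (hG : G.IsRegularOfDegree n) {m : ℕ}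
    (hm : 200000 * k ≤ m) (hf : BlockFactor G (fun μ => m ≤ μ)) : Decomposes T G := by
  classical
  obtain ⟨c, hc⟩ := fin_exists_inner hT (by rw [Fintype.card_fin]; omega)
  obtain ⟨R, hRc, _⟩ := exists_RT hT c
  have hc' : IsInner T R.c := by
    rw [hRc]
    exact hc
  by_cases hL : ∀ a : ZMod 2, 30 * k ≤ Nat.card {w // (R.dep w : ZMod 2) = a ∧ ¬ IsInner T w}
  · exact frame_block (bothClasses hT k h1 hk (fun u => (R.dep u : ZMod 2))
      (fun u v huv => lab_colour R huv) hL) G hG (hf.mono (fun μ hμ => by omega))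
  · push Not at hL
    obtain ⟨a, ha⟩ := hL
    by_cases hbig : ∃ x0, (R.dep x0 : ZMod 2) = a ∧ 310 * k < (lf T x0).card
    · obtain ⟨x0, hx0a, hx0⟩ := hbig
      have hx0i : IsInner T x0 := by
        have h2 : 1 < (lf T x0).card := by omega
        obtain ⟨v, hv, w, hw, hvw⟩ := Finset.one_lt_card.1 h2
        rw [lf, Finset.mem_filter] at hv hw
        exact ⟨v, w, hv.2.1, hw.2.1, hvw⟩
      obtain ⟨R', hR', _⟩ := exists_RT hT x0
      obtain ⟨_, hN, _⟩ := al_root hk R a ha x0 hx0a R' hR'
      refine block_frame G hG ((split_blocks (m0 := 155 * k) (by omega) (by omega) hf).mono ?_)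
      rintro μ ⟨hμ1, hμ2⟩
      refine ⟨by omega, dominated hT R' (by rw [hR']; exact hx0i) (31 * k) ?_ μ (by omega)
        (by rw [hR']; omega)⟩
      convert hN
    · push Not at hbig
      -- an inner vertex of class `a`
      obtain ⟨x0, hx0a, hx0i⟩ : ∃ x0, (R.dep x0 : ZMod 2) = a ∧ IsInner T x0 := by
        by_contra hcon
        push Not at hcon
        have h2 : (univ : Finset (Fin (n + 1))) ⊆
            univ.filter (fun w => (R.dep w : ZMod 2) = a ∧ ¬ IsInner T w) ∪
            univ.filter (fun u => IsInner T u) := by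
          intro w _
          rw [Finset.mem_union, Finset.mem_filter, Finset.mem_filter]
          by_cases h3 : IsInner T w
          · exact Or.inr ⟨Finset.mem_univ _, h3⟩
          · refine Or.inl ⟨Finset.mem_univ _, ?_, h3⟩
            by_contra h4
            obtain ⟨hwc, _, hwi⟩ := fin_leaf R hc' h3
            refine hcon (R.par w) ?_ hwi
            have h5 := R.dep_par_cast hwc
            have h6 := sq_zmod h4
            rw [h5] at h6
            exact add_right_cancel h6
        have h3 := (Finset.card_le_card h2).trans (Finset.card_union_le _ _)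
        rw [Finset.card_univ, Fintype.card_fin] at h3
        rw [Nat.card_eq_fintype_card, Fintype.card_subtype] at hk ha
        omega
      obtain ⟨R', hR', _⟩ := exists_RT hT x0
      obtain ⟨hpar, hN, hLn⟩ := al_root hk R a ha x0 hx0a R' hR'
      refine block_frame G hG ((split_blocks (m0 := 4096 * (31 * k)) (by omega) (by omega)
        hf).mono ?_)
      rintro μ ⟨hμ1, hμ2⟩
      refine ⟨by omega, linear_closed hT R' (by rw [hR']; exact hx0i) (31 * k) ?_ ?_ ?_ μ
        (by omega) (by omega)⟩
      · convert hN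
      · intro u hu
        have h2 : (R.dep u : ZMod 2) = a := by
          rw [hpar u] at hu
          exact sq_zmod' hu
        have h3 := hbig u h2
        omega
      · have h2 : 2 * 10 ^ 8 * (31 * k) ≤
            (univ.filter (fun u => (R'.dep u : ZMod 2) = 1 ∧ ¬ IsInner T u)).card := by
          omega
        convert h2

/-- AB. All trees with `n ≥ 400 k^2`, hosts with blocks of sizes at least `200 k`. -/
theorem all_sqrt_block {n k : ℕ} {T : SimpleGraph (Fin (n + 1))} (hT : T.IsTree) (h1 : 1 ≤ k)
    (hk : Nat.card {u // IsInner T u} ≤ k) (hn : 400 * k ^ 2 ≤ n) {V : Type} [Fintype V]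
    [DecidableEq V] (G : SimpleGraph V) [DecidableRel G.Adj] (hG : G.IsRegularOfDegree n) {m : ℕ}
    (hm : 200 * k ≤ m) (hf : BlockFactor G (fun μ => m ≤ μ)) : Decomposes T G := by
  classical
  have hk2 : k ≤ k ^ 2 := Nat.le_self_pow (by norm_num) k
  obtain ⟨c, hc⟩ := fin_exists_inner hT (by rw [Fintype.card_fin]; omega)
  obtain ⟨R, hRc, _⟩ := exists_RT hT c
  have hc' : IsInner T R.c := by
    rw [hRc]
    exact hc
  by_cases hL : ∀ a : ZMod 2, 30 * k ≤ Nat.card {w // (R.dep w : ZMod 2) = a ∧ ¬ IsInner T w}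
  · exact frame_block (bothClasses hT k h1 hk (fun u => (R.dep u : ZMod 2))
      (fun u v huv => lab_colour R huv) hL) G hG (hf.mono (fun μ hμ => by omega))
  · push Not at hL
    obtain ⟨a, ha⟩ := hL
    refine block_frame G hG ((split_blocks (m0 := 155 * k) (by omega) (by omega) hf).mono ?_)
    rintro μ ⟨hμ1, hμ2⟩
    exact ⟨by omega, sq_dominated hT h1 hk hn R hc' a ha μ hμ1 (by omega)⟩

end Pool.Agent.Lib.MP_c5b475_co
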