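import Pool.Agent.Lib.MP_c5b475_co.Few.LG3

set_option autoImplicit false

/-!
# Placing the children of a vertex of odd depth
-/

namespace Pool.Agent.Lib.MP_c5b475_co

open Finset

section steps

variable {U : Type*} [DecidableEq U] {T : SimpleGraph U} {R : RT T} {m : ℕ} [NeZero m]
  {Z : Zones U m} {B : Finset U} {lab : U → ZMod m}

omit [NeZero m] in
theorem LPK_evl {x : U} (hx : x ∉ B) (a : ZMod m) {b : ZMod m} (hb : b ∈ R.evl B lab) :
    b ∈ R.evl (insert x B) (Function.update lab x a) := by
  obtain ⟨u, hu, rfl⟩ := Finset.mem_image.mp hb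
  have hu' := Finset.mem_filter.mp hu
  refine Finset.mem_image.mpr ⟨u, Finset.mem_filter.mpr ⟨mem_insert_of_mem hu'.1, hu'.2⟩, ?_⟩
  exact Function.update_of_ne (show u ≠ x from fun h => hx (h ▸ hu'.1)) _ _

/-- PK. Placing the set `K` of children of `v`: in every zone all candidates of `K` get labels of
the zone, or all labels of the zone are used or blocked. -/
theorem place_kids (h : R.GoodL Z B lab) {v : U} (hv : v ∈ B) (hvo : (R.dep v : ZMod 2) = 1)
    (K : Finset U) (hK : ∀ x ∈ K, x ∉ B ∧ x ≠ R.c ∧ R.par x = v)
    (hm : 2 * (B.card + K.card) + Z.all.card < m) :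
    ∃ lab' : U → ZMod m, (∀ u ∈ B, lab' u = lab u) ∧ R.GoodL Z (B ∪ K) lab' ∧
      ∀ j ∈ Z.J, (∀ x ∈ K, x ∈ Z.S → Z.cl x = j → lab' x ∈ Z.Λ j) ∨
        (∀ b ∈ Z.Λ j, b ∈ R.evl (B ∪ K) lab' ∨ lab v + b ∈ R.tys B lab) := by
  classical
  induction K using Finset.induction_on with
  | empty =>
    refine ⟨lab, fun _ _ => rfl, by simpa using h, fun j _ => Or.inl ?_⟩
    intro x hx
    simp at hx
  | insert x K hxK ih =>
    have hcard : (insert x K).card = K.card + 1 := Finset.card_insert_of_notMem hxK
    obtain ⟨lab', hl', hg, halt⟩ := ih (fun y hy => hK y (mem_insert_of_mem hy)) (by omega)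
    obtain ⟨hxB, hxc, hxv⟩ := hK x (mem_insert_self _ _)
    have hxBK : x ∉ B ∪ K := by
      rw [Finset.mem_union, not_or]
      exact ⟨hxB, hxK⟩
    have hxe : (R.dep x : ZMod 2) = 0 := by
      have := R.dep_par x hxc
      rw [← this, hxv, Nat.cast_add, hvo]
      decide
    have hxp : R.par x ∈ B ∪ K := by
      rw [hxv]
      exact Finset.mem_union_left _ hv
    have hset : B ∪ insert x K = insert x (B ∪ K) := Finset.union_insert _ _ _
    rw [hset]
    by_cases hb : x ∈ Z.S ∧ Z.cl x ∈ Z.J ∧ ∃ b ∈ Z.Λ (Z.cl x), b ∉ R.evl (B ∪ K) lab' ∧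
      lab v + b ∉ R.tys B lab
    · obtain ⟨hxS, hxJ, b, hbΛ, hbe, hbt⟩ := hb
      have hbt' : lab' (R.par x) + b ∉ R.tys (B ∪ K) lab' := by
        intro hcon
        obtain ⟨u, hu, he⟩ := Finset.mem_image.mp hcon
        obtain ⟨huc, hu⟩ := Finset.mem_erase.mp hu
        rw [hxv, hl' v hv] at he
        rcases Finset.mem_union.mp hu with hu | hu
        · rw [hl' u hu, hl' _ (h.placed.par_mem u hu huc)] at he
          apply hbt
          rw [← he]
          exact Finset.mem_image.mpr ⟨u, Finset.mem_erase.mpr ⟨huc, hu⟩, rfl⟩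
        · obtain ⟨-, -, huv⟩ := hK u (mem_insert_of_mem hu)
          rw [huv, hl' v hv, add_comm] at he
          apply hbe
          have hue : (R.dep u : ZMod 2) = 0 := by
            have := R.dep_par u huc
            rw [← this, huv, Nat.cast_add, hvo]
            decide
          exact Finset.mem_image.mpr ⟨u, Finset.mem_filter.mpr
            ⟨Finset.mem_union_right _ hu, hue⟩, add_left_cancel he⟩
      have hg' := good_res hg hxBK hxc hxe hxp hxS hxJ hbΛ hbe hbt'
      refine ⟨Function.update lab' x b, ?_, hg', ?_⟩
      · intro u hu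
        rw [Function.update_of_ne (show u ≠ x from fun h => hxB (h ▸ hu)), hl' u hu]
      · intro j hj
        rcases halt j hj with h1 | h1
        · left
          intro y hy hyS hyj
          rcases mem_insert.mp hy with rfl | hy
          · rw [Function.update_self, ← hyj]
            exact hbΛ
          · rw [Function.update_of_ne (show y ≠ x from fun h => hxK (h ▸ hy))]
            exact h1 y hy hyS hyj
        · right
          intro b' hb'
          rcases h1 b' hb' with h2 | h2
          · exact Or.inl (LPK_evl hxBK _ h2)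
          · exact Or.inr h2
    · obtain ⟨bad, hbad, -, hgen⟩ := good_gen hg hxBK hxc hxe hxp
      have hlt : bad.card < m := by
        have h1 := Finset.card_union_le B K
        omega
      obtain ⟨a, ha⟩ : ∃ a, a ∉ bad := by
        by_contra hcon
        push Not at hcon
        have h1 : bad = univ := Finset.eq_univ_iff_forall.mpr hcon
        rw [h1, Finset.card_univ, ZMod.card] at hlt
        exact lt_irrefl _ hlt
      refine ⟨Function.update lab' x a, ?_, hgen a ha, ?_⟩
      · intro u hu
        rw [Function.update_of_ne (show u ≠ x from fun h => hxB (h ▸ hu)), hl' u hu]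
      · intro j hj
        rcases halt j hj with h1 | h1
        · by_cases hxj : x ∈ Z.S ∧ Z.cl x = j
          · right
            intro b' hb'
            by_contra hcon
            rw [not_or] at hcon
            apply hb
            refine ⟨hxj.1, hxj.2 ▸ hj, b', hxj.2 ▸ hb', fun h2 => hcon.1 (LPK_evl hxBK _ h2),
              hcon.2⟩
          · left
            intro y hy hyS hyj
            rcases mem_insert.mp hy with rfl | hy
            · exact absurd ⟨hyS, hyj⟩ hxj
            · rw [Function.update_of_ne (show y ≠ x from fun h => hxK (h ▸ hy))]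
              exact h1 y hy hyS hyj
        · right
          intro b' hb'
          rcases h1 b' hb' with h2 | h2
          · exact Or.inl (LPK_evl hxBK _ h2)
          · exact Or.inr h2

end steps

end Pool.Agent.Lib.MP_c5b475_co
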