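import Pool.Agent.Lib.MP_c5b475_co.Few.LAV
import Pool.Agent.Lib.MP_c5b475_co.Few.LPK

set_option autoImplicit false

/-!
# The linear law: one-parameter families and the children of a vertex (AK)
-/

namespace Pool.Agent.Lib.MP_c5b475_co

open Finset

section placement

variable {U : Type*} [DecidableEq U] {T : SimpleGraph U} {R : RT T} {m : ℕ} [NeZero m]
  {Z : Zones U m}

/-- AK. A one-parameter family of labellings of `B1`, the vertex `v` being labelled `c`, and the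
children `K` of `v`. -/
theorem avg_kids (ω : ℕ → ℕ) {B0 B1 K : Finset U} {lab : U → ZMod m} (N : ℕ)
    (hN : (B1 ∪ K).card ≤ N) (hm : 4096 * N ≤ m) (hZ : Z.all.card ≤ N) (hsub : B0 ⊆ B1)
    (hc : R.c ∈ B0) (hS : ∀ x ∈ B1, x ∈ Z.S → x ∈ B0) (hacc : R.Acc Z ω B0 lab) {v : U} (hv : v ∈ B1)
    (hvo : (R.dep v : ZMod 2) = 1) (hK : ∀ x ∈ K, x ∉ B1 ∧ x ≠ R.c ∧ R.par x = v)
    (labc : ZMod m → U → ZMod m) (bad : Finset (ZMod m)) (hbad : 2 * bad.card ≤ m)
    (hgood : ∀ c, c ∉ bad → R.GoodL Z B1 (labc c) ∧ (∀ u ∈ B0, labc c u = lab u) ∧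
      labc c v = c ∧ ∀ b, b ∉ R.evl B1 (labc c) → b ≠ 0 → c + b ∈ R.tys B1 (labc c) →
        c + b ∈ R.tys B0 lab) :
    ∃ c, c ∉ bad ∧ ∃ lab' : U → ZMod m, (∀ u ∈ B1, lab' u = labc c u) ∧
      R.GoodL Z (B1 ∪ K) lab' ∧ R.Acc Z ω (B1 ∪ K) lab' := by
  have hdisj : Disjoint B1 K := Finset.disjoint_left.mpr (fun x hx hx' => (hK x hx').1 hx)
  have hcard : (B1 ∪ K).card = B1.card + K.card := Finset.card_union_of_disjoint hdisj
  have hB1pos : 0 < B1.card := Finset.card_pos.mpr ⟨v, hv⟩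
  have hB01 : B0.card ≤ B1.card := Finset.card_le_card hsub
  have hF : (R.tys B0 lab).card ≤ N := by
    have h1 : (R.tys B0 lab).card ≤ (B0.erase R.c).card := Finset.card_image_le
    have h2 : (B0.erase R.c).card ≤ B0.card := Finset.card_le_card (Finset.erase_subset _ _)
    omega
  obtain ⟨c, hcb, hc4⟩ := avg_choice bad (R.tys B0 lab) Z.J Z.Λ
    (fun j => ω j * (K.filter (fun x => x ∈ Z.S ∧ Z.cl x = j)).card) N hF hm hbad
  obtain ⟨hg, hagree, hvc, hty⟩ := hgood c hcb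
  obtain ⟨lab', hl', hg', halt⟩ := place_kids hg hv hvo K hK (by omega)
  refine ⟨c, hcb, lab', hl', hg', ?_⟩
  have hl0 : ∀ u ∈ B0, lab' u = lab u := fun u hu => by rw [hl' u (hsub hu), hagree u hu]
  have hev0 : R.evl B0 lab ⊆ R.evl (B1 ∪ K) lab' := by
    intro b hb
    obtain ⟨u, hu, rfl⟩ := Finset.mem_image.mp hb
    obtain ⟨hu1, hu2⟩ := Finset.mem_filter.mp hu
    exact Finset.mem_image.mpr ⟨u, Finset.mem_filter.mpr
      ⟨Finset.mem_union_left _ (hsub hu1), hu2⟩, hl0 u hu1⟩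
  have hev1 : R.evl B1 (labc c) ⊆ R.evl (B1 ∪ K) lab' := by
    intro b hb
    obtain ⟨u, hu, rfl⟩ := Finset.mem_image.mp hb
    obtain ⟨hu1, hu2⟩ := Finset.mem_filter.mp hu
    exact Finset.mem_image.mpr ⟨u, Finset.mem_filter.mpr
      ⟨Finset.mem_union_left _ hu1, hu2⟩, hl' u hu1⟩
  have key1 : ∀ j, (Z.Λ j).card < 512 * (Z.Λ j \ R.evl (B1 ∪ K) lab').card →
      (Z.Λ j).card < 512 * (Z.Λ j \ R.evl B0 lab).card := by
    intro j hj
    have h1 : (Z.Λ j \ R.evl (B1 ∪ K) lab').card ≤ (Z.Λ j \ R.evl B0 lab).card :=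
      Finset.card_le_card (Finset.sdiff_subset_sdiff (le_refl _) hev0)
    omega
  have key2 : ∀ j, ((B1 ∪ K).filter (fun x => x ∈ Z.S ∧ Z.cl x = j ∧ lab' x ∉ Z.Λ j)).card ≤
      (B0.filter (fun x => x ∈ Z.S ∧ Z.cl x = j ∧ lab x ∉ Z.Λ j)).card +
        (K.filter (fun x => x ∈ Z.S ∧ Z.cl x = j ∧ lab' x ∉ Z.Λ j)).card := by
    intro j
    refine le_trans (Finset.card_le_card ?_) (Finset.card_union_le _ _)
    intro x hx
    obtain ⟨hx1, hx2, hx3, hx4⟩ := Finset.mem_filter.mp hx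
    rcases Finset.mem_union.mp hx1 with h | h
    · have h0 := hS x h hx2
      exact Finset.mem_union_left _ (Finset.mem_filter.mpr ⟨h0, hx2, hx3, by rwa [← hl0 x h0]⟩)
    · exact Finset.mem_union_right _ (Finset.mem_filter.mpr ⟨h, hx2, hx3, hx4⟩)
  have key3 : ∀ j ∈ Z.J, (Z.Λ j).card < 512 * (Z.Λ j \ R.evl (B1 ∪ K) lab').card →
      ¬ (Z.Λ j).card < 512 * ((Z.Λ j).filter (fun b => c + b ∈ R.tys B0 lab)).card →
      (K.filter (fun x => x ∈ Z.S ∧ Z.cl x = j ∧ lab' x ∉ Z.Λ j)).card = 0 := by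
    intro j hj hunf hconf
    rw [Finset.card_eq_zero, Finset.filter_eq_empty_iff]
    rintro x hx ⟨hx1, hx2, hx3⟩
    rcases halt j hj with h | h
    · exact hx3 (h x hx hx1 hx2)
    · apply hconf
      refine lt_of_lt_of_le hunf (Nat.mul_le_mul_left _ (Finset.card_le_card ?_))
      intro b hb
      obtain ⟨hb1, hb2⟩ := Finset.mem_sdiff.mp hb
      refine Finset.mem_filter.mpr ⟨hb1, ?_⟩
      rcases h b hb1 with h' | h'
      · exact absurd h' hb2
      · rw [hvc] at h'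
        refine hty b (fun hb3 => hb2 (hev1 hb3)) ?_ h'
        rintro rfl
        exact Z.zero j hj hb1
  have key4 : ∀ j, (B0.filter (fun x => x ∈ Z.S ∧ Z.cl x = j)).card +
      (K.filter (fun x => x ∈ Z.S ∧ Z.cl x = j)).card ≤
      ((B1 ∪ K).filter (fun x => x ∈ Z.S ∧ Z.cl x = j)).card := by
    intro j
    rw [← Finset.card_union_of_disjoint]
    · apply Finset.card_le_card
      intro x hx
      rcases Finset.mem_union.mp hx with h | h
      · obtain ⟨h1, h2⟩ := Finset.mem_filter.mp h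
        exact Finset.mem_filter.mpr ⟨Finset.mem_union_left _ (hsub h1), h2⟩
      · obtain ⟨h1, h2⟩ := Finset.mem_filter.mp h
        exact Finset.mem_filter.mpr ⟨Finset.mem_union_right _ h1, h2⟩
    · rw [Finset.disjoint_left]
      intro x hx hx'
      exact (hK x (Finset.mem_filter.mp hx').1).1 (hsub (Finset.mem_filter.mp hx).1)
  unfold RT.Acc at hacc ⊢
  have hA : ∑ j ∈ Z.J.filter (fun j => (Z.Λ j).card <
        512 * (Z.Λ j \ R.evl (B1 ∪ K) lab').card),
      ω j * ((B1 ∪ K).filter (fun x => x ∈ Z.S ∧ Z.cl x = j ∧ lab' x ∉ Z.Λ j)).card ≤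
      ∑ j ∈ Z.J.filter (fun j => (Z.Λ j).card < 512 * (Z.Λ j \ R.evl B0 lab).card),
        ω j * (B0.filter (fun x => x ∈ Z.S ∧ Z.cl x = j ∧ lab x ∉ Z.Λ j)).card +
      ∑ j ∈ Z.J.filter (fun j => (Z.Λ j).card <
        512 * ((Z.Λ j).filter (fun b => c + b ∈ R.tys B0 lab)).card),
        ω j * (K.filter (fun x => x ∈ Z.S ∧ Z.cl x = j)).card := by
    rw [Finset.sum_filter, Finset.sum_filter, Finset.sum_filter, ← Finset.sum_add_distrib]
    apply Finset.sum_le_sum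
    intro j hj
    by_cases hunf : (Z.Λ j).card < 512 * (Z.Λ j \ R.evl (B1 ∪ K) lab').card
    · rw [if_pos hunf, if_pos (key1 j hunf)]
      by_cases hconf : (Z.Λ j).card <
          512 * ((Z.Λ j).filter (fun b => c + b ∈ R.tys B0 lab)).card
      · rw [if_pos hconf, ← Nat.mul_add]
        apply Nat.mul_le_mul_left
        refine (key2 j).trans (Nat.add_le_add_left (Finset.card_le_card ?_) _)
        intro x hx
        obtain ⟨h1, h2, h3, -⟩ := Finset.mem_filter.mp hx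
        exact Finset.mem_filter.mpr ⟨h1, h2, h3⟩
      · rw [if_neg hconf, Nat.add_zero]
        apply Nat.mul_le_mul_left
        have h1 := key2 j
        rw [key3 j hj hunf hconf] at h1
        exact h1
    · rw [if_neg hunf]
      exact Nat.zero_le _
  have hB : ∑ j ∈ Z.J, ω j * (B0.filter (fun x => x ∈ Z.S ∧ Z.cl x = j)).card +
      ∑ j ∈ Z.J, ω j * (K.filter (fun x => x ∈ Z.S ∧ Z.cl x = j)).card ≤
      ∑ j ∈ Z.J, ω j * ((B1 ∪ K).filter (fun x => x ∈ Z.S ∧ Z.cl x = j)).card := by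
    rw [← Finset.sum_add_distrib]
    apply Finset.sum_le_sum
    intro j _
    rw [← Nat.mul_add]
    exact Nat.mul_le_mul_left _ (key4 j)
  omega

end placement

end Pool.Agent.Lib.MP_c5b475_co
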