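import Mathlib

set_option autoImplicit false

/-!
# Linear law: choice of a label by averaging (module AV)
-/

namespace Pool.Agent.Lib.MP_c5b475_co

open Finset

/-- For one zone `L` the number of conflicting labels is at most `512 |F|`. -/
theorem AV.conf_card {m : ℕ} [NeZero m] (L F : Finset (ZMod m)) :
    ((univ : Finset (ZMod m)).filter (fun c => L.card <
      512 * (L.filter (fun b => c + b ∈ F)).card)).card ≤ 512 * F.card := by
  classical
  set C := (univ : Finset (ZMod m)).filter (fun c => L.card <
      512 * (L.filter (fun b => c + b ∈ F)).card) with hC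
  by_cases hL : L.card = 0
  · have : C = ∅ := by
      rw [hC, Finset.filter_eq_empty_iff]
      intro c _
      have h1 : (L.filter (fun b => c + b ∈ F)).card ≤ L.card := Finset.card_filter_le _ _
      omega
    rw [this]; simp
  · have htot : ∑ c : ZMod m, (L.filter (fun b => c + b ∈ F)).card = L.card * F.card := by
      have h1 : ∀ c : ZMod m, (L.filter (fun b => c + b ∈ F)).card
          = ∑ b ∈ L, if c + b ∈ F then 1 else 0 := fun c => Finset.card_filter _ _
      rw [Finset.sum_congr rfl (fun c _ => h1 c), Finset.sum_comm]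
      have h2 : ∀ b ∈ L, (∑ c : ZMod m, if c + b ∈ F then 1 else 0) = F.card := by
        intro b _
        have h3 : (∑ c : ZMod m, if c + b ∈ F then 1 else 0)
            = ∑ c : ZMod m, if c ∈ F then 1 else 0 :=
          Equiv.sum_comp (Equiv.addRight b) (fun c => if c ∈ F then 1 else 0)
        rw [h3, ← Finset.card_filter]
        congr 1
        ext c; simp
      rw [Finset.sum_congr rfl h2, Finset.sum_const, smul_eq_mul]
    have h4 : C.card * L.card ≤ 512 * (L.card * F.card) := by
      calc C.card * L.card = ∑ c ∈ C, L.card := by rw [Finset.sum_const, smul_eq_mul]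
        _ ≤ ∑ c ∈ C, 512 * (L.filter (fun b => c + b ∈ F)).card := by
            refine Finset.sum_le_sum fun c hc => ?_
            rw [hC, Finset.mem_filter] at hc
            exact hc.2.le
        _ ≤ ∑ c : ZMod m, 512 * (L.filter (fun b => c + b ∈ F)).card :=
            Finset.sum_le_sum_of_subset (Finset.subset_univ _)
        _ = 512 * (L.card * F.card) := by rw [← Finset.mul_sum, htot]
    have hLp : 0 < L.card := Nat.pos_of_ne_zero hL
    have h5 : C.card * L.card ≤ (512 * F.card) * L.card := by
      calc C.card * L.card ≤ 512 * (L.card * F.card) := h4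
        _ = (512 * F.card) * L.card := by ring
    exact Nat.le_of_mul_le_mul_right h5 hLp

/-- AV. Choice of a label by averaging. -/
theorem avg_choice {m : ℕ} [NeZero m] (bad F : Finset (ZMod m)) (J : Finset ℕ)
    (Λ : ℕ → Finset (ZMod m)) (s : ℕ → ℕ) (N : ℕ) (hF : F.card ≤ N) (hm : 4096 * N ≤ m)
    (hbad : 2 * bad.card ≤ m) :
    ∃ c, c ∉ bad ∧ 4 * ∑ j ∈ J.filter (fun j => (Λ j).card <
      512 * ((Λ j).filter (fun b => c + b ∈ F)).card), s j ≤ ∑ j ∈ J, s j := by
  classical
  have hm0 : 0 < m := Nat.pos_of_ne_zero (NeZero.ne m)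
  have hcompl : (univ \ bad : Finset (ZMod m)).card = m - bad.card := by
    rw [Finset.card_sdiff_of_subset (Finset.subset_univ _), Finset.card_univ, ZMod.card]
  have hne : (univ \ bad : Finset (ZMod m)).Nonempty := by
    rw [← Finset.card_pos, hcompl]; omega
  by_contra hcon
  push Not at hcon
  have h1 : ∀ c ∈ (univ \ bad : Finset (ZMod m)), ∑ j ∈ J, s j
      < 4 * ∑ j ∈ J.filter (fun j => (Λ j).card <
        512 * ((Λ j).filter (fun b => c + b ∈ F)).card), s j := by
    intro c hc
    rw [Finset.mem_sdiff] at hc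
    exact hcon c hc.2
  have h2 : ∑ c ∈ (univ \ bad : Finset (ZMod m)), ∑ j ∈ J, s j
      < ∑ c ∈ (univ \ bad : Finset (ZMod m)), 4 * ∑ j ∈ J.filter (fun j => (Λ j).card <
        512 * ((Λ j).filter (fun b => c + b ∈ F)).card), s j :=
    Finset.sum_lt_sum_of_nonempty hne h1
  rw [Finset.sum_const, smul_eq_mul, hcompl, ← Finset.mul_sum] at h2
  have h3 : ∑ c ∈ (univ \ bad : Finset (ZMod m)), ∑ j ∈ J.filter (fun j => (Λ j).card <
        512 * ((Λ j).filter (fun b => c + b ∈ F)).card), s j
      ≤ 512 * N * ∑ j ∈ J, s j := by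
    calc _ ≤ ∑ c : ZMod m, ∑ j ∈ J.filter (fun j => (Λ j).card <
        512 * ((Λ j).filter (fun b => c + b ∈ F)).card), s j :=
          Finset.sum_le_sum_of_subset (Finset.subset_univ _)
      _ = ∑ j ∈ J, ∑ c : ZMod m, if (Λ j).card <
        512 * ((Λ j).filter (fun b => c + b ∈ F)).card then s j else 0 := by
          rw [Finset.sum_comm]
          refine Finset.sum_congr rfl fun c _ => ?_
          rw [Finset.sum_filter]
      _ ≤ ∑ j ∈ J, 512 * N * s j := by
          refine Finset.sum_le_sum fun j _ => ?_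
          rw [← Finset.sum_filter, Finset.sum_const, smul_eq_mul]
          refine Nat.mul_le_mul_right _ ?_
          exact le_trans (AV.conf_card (Λ j) F) (Nat.mul_le_mul_left _ hF)
      _ = 512 * N * ∑ j ∈ J, s j := by rw [← Finset.mul_sum]
  have h4 : (m - bad.card) * ∑ j ∈ J, s j < 2048 * N * ∑ j ∈ J, s j := by
    calc _ < _ := h2
      _ ≤ 4 * (512 * N * ∑ j ∈ J, s j) := Nat.mul_le_mul_left _ h3
      _ = 2048 * N * ∑ j ∈ J, s j := by ring
  have h5 : m - bad.card < 2048 * N := lt_of_mul_lt_mul_right h4 (Nat.zero_le _)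
  omega

end Pool.Agent.Lib.MP_c5b475_co
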