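import Pool.Agent.Lib.MP_c5b475_co.Few.HF

set_option autoImplicit false

/-!
# Nearly complete regular bipartite graphs have factors into large blocks
-/

namespace Pool.Agent.Lib.MP_c5b475_co

open Finset

/-- DH. Nearly complete regular bipartite graphs have a factor into large blocks. -/
theorem dense_blocks {V : Type} [Fintype V] [DecidableEq V] (G : SimpleGraph V)
    [DecidableRel G.Adj] {n m : ℕ} (hG : G.IsRegularOfDegree n) (hb : G.IsBipartite)
    (h1 : 1 ≤ m) (hmn : m ≤ n) (hd : 4 * m * (Fintype.card V - 2 * n) ≤ Fintype.card V) :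
    BlockFactor G (fun μ => m ≤ μ) := by
  classical
  obtain ⟨C⟩ := hb
  by_cases hV : IsEmpty V
  · refine ⟨Empty, fun b => b.elim, ⟨fun x => ?_, fun v => (hV.false v).elim, ?_, ?_⟩, ?_, ?_, ?_, ?_⟩
    · rcases x with ⟨b, _⟩ | ⟨b, _⟩ <;> exact b.elim
    · rintro (⟨b, _⟩ | ⟨b, _⟩) <;> exact b.elim
    · intro v; exact (hV.false v).elim
    · intro b; exact b.elim
    · rintro ⟨b, _⟩; exact b.elim
    · rintro ⟨b, _⟩; exact b.elim
    · intro b; exact b.elim
  rw [not_isEmpty_iff] at hV
  have hC : ∀ v, C v = 0 ∨ C v = 1 := by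
    intro v
    generalize C v = a
    revert a
    decide
  have hCadj : ∀ u v, G.Adj u v → C u ≠ C v := fun u v h => C.valid h
  obtain ⟨X, hX⟩ : ∃ X : Finset V, X = univ.filter (fun v => C v = 0) := ⟨_, rfl⟩
  obtain ⟨Y, hY⟩ : ∃ Y : Finset V, Y = univ.filter (fun v => C v = 1) := ⟨_, rfl⟩
  have hXm : ∀ v, v ∈ X ↔ C v = 0 := by intro v; rw [hX]; simp
  have hYm : ∀ v, v ∈ Y ↔ C v = 1 := by intro v; rw [hY]; simp
  have hNX : ∀ v ∈ X, G.neighborFinset v ⊆ Y := by
    intro v hv w hw
    rw [SimpleGraph.mem_neighborFinset] at hw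
    rw [hXm] at hv
    rw [hYm]
    have := hCadj v w hw
    rcases hC w with h | h
    · exact absurd (hv.trans h.symm) this
    · exact h
  have hNY : ∀ v ∈ Y, G.neighborFinset v ⊆ X := by
    intro v hv w hw
    rw [SimpleGraph.mem_neighborFinset] at hw
    rw [hYm] at hv
    rw [hXm]
    have := hCadj v w hw
    rcases hC w with h | h
    · exact h
    · exact absurd (hv.trans h.symm) this
  have hXY : X.card = Y.card := by
    have h2 : ∑ x ∈ X, ((Y.filter (fun y => G.Adj x y)).card) =
        ∑ y ∈ Y, ((X.filter (fun x => G.Adj x y)).card) :=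
      Finset.sum_card_bipartiteAbove_eq_sum_card_bipartiteBelow (fun x y => G.Adj x y)
    have h3 : ∀ x ∈ X, (Y.filter (fun y => G.Adj x y)).card = n := by
      intro x hx
      rw [← hG x, ← SimpleGraph.card_neighborFinset_eq_degree]
      congr 1
      ext w
      rw [Finset.mem_filter, SimpleGraph.mem_neighborFinset]
      refine ⟨fun h => h.2, fun h => ⟨hNX x hx ?_, h⟩⟩
      rw [SimpleGraph.mem_neighborFinset]
      exact h
    have h4 : ∀ y ∈ Y, (X.filter (fun x => G.Adj x y)).card = n := by
      intro y hy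
      rw [← hG y, ← SimpleGraph.card_neighborFinset_eq_degree]
      congr 1
      ext w
      rw [Finset.mem_filter, SimpleGraph.mem_neighborFinset]
      refine ⟨fun h => h.2.symm, fun h => ⟨hNY y hy ?_, h.symm⟩⟩
      rw [SimpleGraph.mem_neighborFinset]
      exact h
    rw [Finset.sum_congr rfl h3, Finset.sum_congr rfl h4, Finset.sum_const, Finset.sum_const,
      smul_eq_mul, smul_eq_mul] at h2
    exact Nat.eq_of_mul_eq_mul_right (by omega) h2
  have hVcard : Fintype.card V = X.card + Y.card := by
    rw [← Finset.card_univ, ← Finset.card_union_of_disjoint]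
    · congr 1
      ext v
      simp only [Finset.mem_univ, Finset.mem_union, true_iff]
      rw [hXm, hYm]
      exact hC v
    · rw [Finset.disjoint_left]
      intro v h2 h3
      rw [hXm] at h2
      rw [hYm] at h3
      rw [h2] at h3
      exact absurd h3 (by decide)
  obtain ⟨N, hN⟩ : ∃ N, N = X.card := ⟨_, rfl⟩
  have hXN : X.card = N := hN.symm
  have hYN : Y.card = N := by rw [← hXY, hXN]
  have hnN : n ≤ N := by
    obtain ⟨v⟩ := hV
    rcases hC v with h | h
    · have := Finset.card_le_card (hNX v ((hXm v).2 h))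
      rw [SimpleGraph.card_neighborFinset_eq_degree, hG v] at this
      omega
    · have := Finset.card_le_card (hNY v ((hYm v).2 h))
      rw [SimpleGraph.card_neighborFinset_eq_degree, hG v] at this
      omega
  obtain ⟨D, hD⟩ : ∃ D, N = n + D := ⟨N - n, by omega⟩
  have h4mD : 4 * m * D ≤ N := by
    have h2 : Fintype.card V - 2 * n = 2 * D := by omega
    rw [h2, hVcard] at hd
    have h3 : 4 * m * (2 * D) = 2 * (4 * m * D) := by ring
    omega
  -- non-neighbours
  have hnonY : ∀ y ∈ Y, (X.filter (fun x => ¬ G.Adj x y)).card = D := by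
    intro y hy
    have h2 := Finset.card_filter_add_card_filter_not (s := X) (fun x => G.Adj x y)
    have h3 : (X.filter (fun x => G.Adj x y)).card = n := by
      rw [← hG y, ← SimpleGraph.card_neighborFinset_eq_degree]
      congr 1
      ext w
      rw [Finset.mem_filter, SimpleGraph.mem_neighborFinset]
      refine ⟨fun h => h.2.symm, fun h => ⟨hNY y hy ?_, h.symm⟩⟩
      rw [SimpleGraph.mem_neighborFinset]
      exact h
    omega
  have hnonX : ∀ x ∈ X, (Y.filter (fun y => ¬ G.Adj x y)).card = D := by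
    intro x hx
    have h2 := Finset.card_filter_add_card_filter_not (s := Y) (fun y => G.Adj x y)
    have h3 : (Y.filter (fun y => G.Adj x y)).card = n := by
      rw [← hG x, ← SimpleGraph.card_neighborFinset_eq_degree]
      congr 1
      ext w
      rw [Finset.mem_filter, SimpleGraph.mem_neighborFinset]
      refine ⟨fun h => h.2, fun h => ⟨hNX x hx ?_, h⟩⟩
      rw [SimpleGraph.mem_neighborFinset]
      exact h
    omega
  -- groups
  obtain ⟨q, f, hs, hf⟩ := exists_sizes h1 (hmn.trans hnN)
  have hScard : Fintype.card ((i : Fin q) × Fin (f i)) = N := by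
    rw [Fintype.card_sigma]
    simp only [Fintype.card_fin]
    exact hs
  have eX : ((i : Fin q) × Fin (f i)) ≃ {v // v ∈ X} := by
    apply Fintype.equivOfCardEq
    rw [hScard, Fintype.card_coe, hXN]
  let t : {v // v ∈ Y} → Finset ((i : Fin q) × Fin (f i)) := fun y =>
    univ.filter (fun s => ∀ j, G.Adj (eX ⟨s.1, j⟩).1 y.1)
  have htdef : ∀ y s, s ∈ t y ↔ ∀ j, G.Adj (eX ⟨s.1, j⟩).1 y.1 := by
    intro y s
    simp only [t, Finset.mem_filter, Finset.mem_univ, true_and]
  -- few forbidden slots for a vertex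
  have hty : ∀ y, N ≤ (t y).card + 2 * m * D := by
    intro y
    have h2 := Finset.card_filter_add_card_filter_not (s := (univ : Finset ((i : Fin q) × Fin (f i))))
      (fun s => ∀ j, G.Adj (eX ⟨s.1, j⟩).1 y.1)
    rw [Finset.card_univ, hScard] at h2
    have h3 : (univ.filter (fun s : (i : Fin q) × Fin (f i) =>
        ¬ ∀ j, G.Adj (eX ⟨s.1, j⟩).1 y.1)).card ≤ 2 * m * D := by
      obtain ⟨Ib, hIb⟩ : ∃ Ib : Finset (Fin q), Ib = univ.filter (fun i =>
        ∃ j, ¬ G.Adj (eX ⟨i, j⟩).1 y.1) := ⟨_, rfl⟩
      have h4 : univ.filter (fun s : (i : Fin q) × Fin (f i) =>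
          ¬ ∀ j, G.Adj (eX ⟨s.1, j⟩).1 y.1) ⊆ Ib.sigma (fun i => (univ : Finset (Fin (f i)))) := by
        rintro ⟨i, j⟩ hs
        rw [Finset.mem_filter] at hs
        have h5 := hs.2
        push Not at h5
        rw [Finset.mem_sigma, hIb, Finset.mem_filter]
        exact ⟨⟨Finset.mem_univ _, h5⟩, Finset.mem_univ _⟩
      refine (Finset.card_le_card h4).trans ?_
      rw [Finset.card_sigma]
      have h5 : ∀ i ∈ Ib, (univ : Finset (Fin (f i))).card ≤ 2 * m := by
        intro i _
        rw [Finset.card_univ, Fintype.card_fin]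
        exact (hf _).2.le
      refine (Finset.sum_le_card_nsmul _ _ _ h5).trans ?_
      have h6 : Ib.card ≤ D := by
        rw [← hnonY y.1 y.2]
        have h7 : ∀ i ∈ Ib, ∃ j, ¬ G.Adj (eX ⟨i, j⟩).1 y.1 := by
          intro i hi
          rw [hIb, Finset.mem_filter] at hi
          exact hi.2
        let jj : (i : Fin q) → V := fun i => if h : i ∈ Ib then (eX ⟨i, (h7 i h).choose⟩).1 else y.1
        have hjj : ∀ i (h : i ∈ Ib), jj i = (eX ⟨i, (h7 i h).choose⟩).1 := by
          intro i h
          simp only [jj]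
          rw [dif_pos h]
        apply Finset.card_le_card_of_injOn jj
        · intro i hi
          have hi' := Finset.mem_coe.1 hi
          rw [hjj i hi']
          exact Finset.mem_coe.2 (Finset.mem_filter.2 ⟨(eX _).2, (h7 i hi').choose_spec⟩)
        · intro i hi i' hi' hii
          have hi2 := Finset.mem_coe.1 hi
          have hi2' := Finset.mem_coe.1 hi'
          rw [hjj i hi2, hjj i' hi2'] at hii
          have h8 := eX.injective (Subtype.ext hii)
          exact congrArg Sigma.fst h8
      rw [smul_eq_mul]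
      calc Ib.card * (2 * m) ≤ D * (2 * m) := Nat.mul_le_mul_right _ h6
        _ = 2 * m * D := by ring
    have h6 : (t y).card = (univ.filter (fun s : (i : Fin q) × Fin (f i) =>
        ∀ j, G.Adj (eX ⟨s.1, j⟩).1 y.1)).card := rfl
    omega
  -- few forbidden vertices for a slot
  have hts : ∀ s, (univ.filter (fun y : {v // v ∈ Y} => s ∉ t y)).card ≤ 2 * m * D := by
    intro s
    have h4 : univ.filter (fun y : {v // v ∈ Y} => s ∉ t y) ⊆
        (univ : Finset (Fin (f s.1))).biUnion (fun j =>
          univ.filter (fun y : {v // v ∈ Y} => ¬ G.Adj (eX ⟨s.1, j⟩).1 y.1)) := by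
      intro y hy
      rw [Finset.mem_filter, htdef] at hy
      have h5 := hy.2
      push Not at h5
      obtain ⟨j, hj⟩ := h5
      rw [Finset.mem_biUnion]
      exact ⟨j, Finset.mem_univ _, Finset.mem_filter.2 ⟨Finset.mem_univ _, hj⟩⟩
    refine (Finset.card_le_card h4).trans (Finset.card_biUnion_le.trans ?_)
    have h5 : ∀ j ∈ (univ : Finset (Fin (f s.1))),
        (univ.filter (fun y : {v // v ∈ Y} => ¬ G.Adj (eX ⟨s.1, j⟩).1 y.1)).card ≤ D := by
      intro j _
      rw [← hnonX _ (eX ⟨s.1, j⟩).2]
      apply Finset.card_le_card_of_injOn (fun y => y.1)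
      · intro y hy
        have hy' := (Finset.mem_filter.1 (Finset.mem_coe.1 hy)).2
        exact Finset.mem_coe.2 (Finset.mem_filter.2 ⟨y.2, hy'⟩)
      · intro a _ b _ hab
        exact Subtype.ext hab
    refine (Finset.sum_le_card_nsmul _ _ _ h5).trans ?_
    rw [Finset.card_univ, Fintype.card_fin, smul_eq_mul]
    exact Nat.mul_le_mul_right _ (hf _).2.le
  have hYc : Fintype.card {v // v ∈ Y} = N := by rw [Fintype.card_coe, hYN]
  have h2mD : 2 * (2 * m * D) ≤ N := by
    have : 2 * (2 * m * D) = 4 * m * D := by ring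
    omega
  -- Hall
  have hall : ∀ W : Finset {v // v ∈ Y}, W.card ≤ (W.biUnion t).card := by
    intro W
    rcases W.eq_empty_or_nonempty with rfl | ⟨y0, hy0⟩
    · simp
    by_cases hW : W.card ≤ 2 * m * D
    · have h2 : (t y0).card ≤ (W.biUnion t).card :=
        Finset.card_le_card (Finset.subset_biUnion_of_mem t hy0)
      have h3 := hty y0
      omega
    · have h2 : W.biUnion t = univ := by
        rw [Finset.eq_univ_iff_forall]
        intro s
        by_contra hcon
        apply hW
        refine (Finset.card_le_card ?_).trans (hts s)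
        intro y hy
        rw [Finset.mem_filter]
        exact ⟨Finset.mem_univ _, fun h => hcon (Finset.mem_biUnion.2 ⟨y, hy, h⟩)⟩
      rw [h2, Finset.card_univ, hScard, ← hYc]
      exact Finset.card_le_univ W
  obtain ⟨g, hgi, hgt⟩ := (Finset.all_card_le_biUnion_card_iff_exists_injective t).1 hall
  have hgb : Function.Bijective g :=
    (Fintype.bijective_iff_injective_and_card g).2 ⟨hgi, by rw [hYc, hScard]⟩
  let eY : ((i : Fin q) × Fin (f i)) ≃ {v // v ∈ Y} := (Equiv.ofBijective g hgb).symm
  have heY : ∀ s, g (eY s) = s := fun s => (Equiv.ofBijective g hgb).apply_symm_apply s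
  have hevb : Function.Bijective (Sum.elim (fun x : {v // v ∈ X} => x.1)
      (fun y : {v // v ∈ Y} => y.1)) := by
    constructor
    · rintro (⟨x, hx⟩ | ⟨x, hx⟩) (⟨y, hy⟩ | ⟨y, hy⟩) h
      · simp only [Sum.elim_inl] at h
        subst h
        rfl
      · simp only [Sum.elim_inl, Sum.elim_inr] at h
        subst h
        rw [hXm] at hx
        rw [hYm, hx] at hy
        exact absurd hy (by decide)
      · simp only [Sum.elim_inl, Sum.elim_inr] at h
        subst h
        rw [hXm] at hy
        rw [hYm, hy] at hx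
        exact absurd hx (by decide)
      · simp only [Sum.elim_inr] at h
        subst h
        rfl
    · intro v
      rcases hC v with h | h
      · exact ⟨Sum.inl ⟨v, (hXm v).2 h⟩, rfl⟩
      · exact ⟨Sum.inr ⟨v, (hYm v).2 h⟩, rfl⟩
  let ev : {v // v ∈ X} ⊕ {v // v ∈ Y} ≃ V := Equiv.ofBijective _ hevb
  refine ⟨Fin q, f, (Equiv.sumCongr eX eY).trans ev, fun b => (hf b).1, ?_, ?_, ?_⟩
  · intro x y h
    have h2 := hCadj _ _ h
    have h3 := (hXm _).1 (eX x).2
    have h4 := (hXm _).1 (eX y).2
    exact h2 (h3.trans h4.symm)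
  · intro x y h
    have h2 := hCadj _ _ h
    have h3 := (hYm _).1 (eY x).2
    have h4 := (hYm _).1 (eY y).2
    exact h2 (h3.trans h4.symm)
  · intro b i j
    have h2 := (htdef _ _).1 (hgt (eY ⟨b, j⟩))
    rw [heY] at h2
    exact h2 i

end Pool.Agent.Lib.MP_c5b475_co
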