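import Pool.Agent.Lib.MP_c5b475_co.Few.DefsL

set_option autoImplicit false

/-!
# The linear law: module G1 (extending good partial labellings)
-/

namespace Pool.Agent.Lib.MP_c5b475_co

open Finset

namespace LG1

theorem neg_near3 {m : ℕ} {x : ZMod m} (h : x ∈ near3 m) : -x ∈ near3 m := by
  simp only [near3, Finset.mem_insert, Finset.mem_singleton] at h ⊢
  rcases h with h | h | h | h | h | h | h <;> subst h <;> simp

theorem zero_near3 {m : ℕ} : (0 : ZMod m) ∈ near3 m := by
  simp [near3]

theorem card_near3 {m : ℕ} : (near3 m).card ≤ 7 := by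
  unfold near3
  refine le_trans (Finset.card_insert_le _ _) (Nat.succ_le_succ ?_)
  exact Finset.card_le_six

theorem card_double {m : ℕ} [NeZero m] (p : ZMod m) (S : Finset (ZMod m)) :
    (univ.filter (fun a : ZMod m => a + (a - p) ∈ S)).card ≤ 2 * S.card := by
  classical
  refine le_trans (Finset.card_le_mul_card_image (f := fun a : ZMod m => a + (a - p)) _ 2 ?_) ?_
  · intro t ht
    by_cases hne : ((univ.filter (fun a : ZMod m => a + (a - p) ∈ S)).filter
      (fun a => a + (a - p) = t)).Nonempty
    · obtain ⟨a0, ha0⟩ := hne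
      have h0 : a0 + (a0 - p) = t := (Finset.mem_filter.mp ha0).2
      have h1 := IsAddCyclic.card_nsmul_eq_zero_le (α := ZMod m) (n := 2) (by norm_num)
      refine le_trans (Finset.card_le_card_of_injOn (fun a => a - a0) ?_ ?_) h1
      · intro a ha
        have ha' : a + (a - p) = t := (Finset.mem_filter.mp ha).2
        have h2 : (2 : ℕ) • (a - a0) = 0 := by
          rw [two_nsmul]
          have : (a - a0) + (a - a0) = (a + (a - p)) - (a0 + (a0 - p)) := by ring
          rw [this, ha', h0, sub_self]
        simpa using h2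
      · intro a _ b _ hab
        simpa using hab
    · rw [Finset.not_nonempty_iff_eq_empty] at hne
      rw [hne]
      simp
  · apply Nat.mul_le_mul_left
    apply Finset.card_le_card
    intro t ht
    obtain ⟨a, ha, rfl⟩ := Finset.mem_image.mp ht
    exact (Finset.mem_filter.mp ha).2

section

variable {U : Type*} [DecidableEq U] {T : SimpleGraph U} {R : RT T} {m : ℕ}
  {Z : Zones U m} {B : Finset U} {lab : U → ZMod m}

theorem mem_tys {v : U} (hv : v ∈ B) (hvc : v ≠ R.c) :
    lab v + lab (R.par v) ∈ R.tys B lab :=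
  Finset.mem_image_of_mem _ (Finset.mem_erase.mpr ⟨hvc, hv⟩)

theorem card_tys_le : (R.tys B lab).card ≤ B.card :=
  le_trans Finset.card_image_le (Finset.card_le_card (Finset.erase_subset _ _))

omit [DecidableEq U] in
theorem card_evl_le : (R.evl B lab).card ≤ B.card :=
  le_trans Finset.card_image_le (Finset.card_le_card (Finset.filter_subset _ _))

/-- Adding one vertex of even depth. -/
theorem insert_even (h : R.GoodL Z B lab) {x : U} (hx : x ∉ B) (hxc : x ≠ R.c)
    (hxe : (R.dep x : ZMod 2) = 0) (hxp : R.par x ∈ B) {a : ZMod m} (h1 : a ∉ R.evl B lab)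
    (h2 : a + lab (R.par x) ∉ R.tys B lab)
    (h3 : ∀ j ∈ Z.J, a ∈ Z.Λ j → x ∈ Z.S ∧ Z.cl x = j) :
    R.GoodL Z (insert x B) (Function.update lab x a) := by
  have hP := h.placed
  have hl : ∀ v ∈ B, Function.update lab x a v = lab v := fun v hv =>
    Function.update_of_ne (fun (e : v = x) => hx (e ▸ hv)) _ _
  have hlu : Function.update lab x a x = a := Function.update_self _ _ _
  have hodd : ∀ v ∈ insert x B, (R.dep v : ZMod 2) = 1 → v ∈ B := by
    intro v hv hd
    rcases mem_insert.mp hv with e | hv
    · rw [e, hxe] at hd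
      exact absurd hd (by decide)
    · exact hv
  refine ⟨⟨mem_insert_of_mem hP.root_mem, ?_, ?_, ?_, ?_, ?_⟩, ?_, ?_⟩
  · intro v hv hvc
    rcases mem_insert.mp hv with rfl | hv
    · exact mem_insert_of_mem hxp
    · exact mem_insert_of_mem (hP.par_mem v hv hvc)
  · rw [hl _ hP.root_mem, hP.root_lab]
  · intro v hv' w hw' hd h
    rcases mem_insert.mp hv' with hv | hv
    · rcases mem_insert.mp hw' with hw | hw
      · rw [hv, hw]
      · rw [hv, hlu, hl w hw] at h
        refine absurd (h ▸ Finset.mem_image_of_mem lab (mem_filter.mpr ⟨hw, ?_⟩)) h1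
        rw [← hd, hv, hxe]
    · rcases mem_insert.mp hw' with hw | hw
      · rw [hw, hlu, hl v hv] at h
        refine absurd (h ▸ Finset.mem_image_of_mem lab (mem_filter.mpr ⟨hv, ?_⟩)) h1
        rw [hd, hw, hxe]
      · rw [hl v hv, hl w hw] at h
        exact hP.inj v hv w hw hd h
  · intro v hv' w hw' hvc hwc h
    rcases mem_insert.mp hv' with hv | hv
    · rcases mem_insert.mp hw' with hw | hw
      · rw [hv, hw]
      · rw [hv, hlu, hl w hw, hl _ hxp, hl _ (hP.par_mem w hw hwc)] at h
        exact absurd (h ▸ mem_tys hw hwc) h2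
    · rcases mem_insert.mp hw' with hw | hw
      · rw [hw, hlu, hl v hv, hl _ hxp, hl _ (hP.par_mem v hv hvc)] at h
        exact absurd (h ▸ mem_tys hv hvc) h2
      · rw [hl v hv, hl w hw, hl _ (hP.par_mem w hw hwc), hl _ (hP.par_mem v hv hvc)] at h
        exact hP.ty_inj v hv w hw hvc hwc h
  · intro v hv hd
    have hvB := hodd v hv hd
    obtain ⟨u, hu, huc, e⟩ := hP.closed v hvB hd
    refine ⟨u, mem_insert_of_mem hu, huc, ?_⟩
    rw [hl u hu, hl _ (hP.par_mem u hu huc), hl v hvB, e]
  · intro u hu v hv hdu hdv huv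
    rw [hl u (hodd u hu hdu), hl v (hodd v hv hdv)]
    exact h.sep u (hodd u hu hdu) v (hodd v hv hdv) hdu hdv huv
  · intro u hu hdu j hj hlam
    rcases mem_insert.mp hu with e | hu
    · rw [e, hlu] at hlam
      rw [e]
      exact h3 j hj hlam
    · rw [hl u hu] at hlam
      exact h.lam u hu hdu j hj hlam

/-- Adding one vertex of odd depth. -/
theorem insert_odd (h : R.GoodL Z B lab) {v : U} (hv : v ∉ B) (hvc : v ≠ R.c)
    (hvo : (R.dep v : ZMod 2) = 1) (hvp : R.par v ∈ B) {c : ZMod m}
    (h1 : ∀ w ∈ B, (R.dep w : ZMod 2) = 1 → c - lab w ∉ near3 m)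
    (h2 : c + lab (R.par v) ∉ R.tys B lab)
    (h3 : c ∈ R.tys B lab ∨ lab (R.par v) = 0) :
    R.GoodL Z (insert v B) (Function.update lab v c) := by
  have hP := h.placed
  have hl : ∀ w ∈ B, Function.update lab v c w = lab w := fun w hw =>
    Function.update_of_ne (fun (e : w = v) => hv (e ▸ hw)) _ _
  have hlu : Function.update lab v c v = c := Function.update_self _ _ _
  have heven : ∀ w ∈ insert v B, (R.dep w : ZMod 2) = 0 → w ∈ B := by
    intro w hw hd
    rcases mem_insert.mp hw with e | hw
    · rw [e, hvo] at hd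
      exact absurd hd (by decide)
    · exact hw
  have h1' : ∀ w ∈ B, (R.dep w : ZMod 2) = 1 → lab w - c ∉ near3 m := by
    intro w hw hd hn
    have := neg_near3 hn
    rw [neg_sub] at this
    exact h1 w hw hd this
  have h1'' : ∀ w ∈ B, (R.dep w : ZMod 2) = 1 → lab w ≠ c := by
    intro w hw hd e
    apply h1 w hw hd
    rw [e, sub_self]
    exact zero_near3
  refine ⟨⟨mem_insert_of_mem hP.root_mem, ?_, ?_, ?_, ?_, ?_⟩, ?_, ?_⟩
  · intro w hw hwc
    rcases mem_insert.mp hw with rfl | hw
    · exact mem_insert_of_mem hvp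
    · exact mem_insert_of_mem (hP.par_mem w hw hwc)
  · rw [hl _ hP.root_mem, hP.root_lab]
  · intro x hx' w hw' hd h
    rcases mem_insert.mp hx' with hx | hx
    · rcases mem_insert.mp hw' with hw | hw
      · rw [hx, hw]
      · rw [hx, hlu, hl w hw] at h
        exact absurd h.symm (h1'' w hw (by rw [← hd, hx, hvo]))
    · rcases mem_insert.mp hw' with hw | hw
      · rw [hw, hlu, hl x hx] at h
        exact absurd h (h1'' x hx (by rw [hd, hw, hvo]))
      · rw [hl x hx, hl w hw] at h
        exact hP.inj x hx w hw hd h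
  · intro x hx' w hw' hxc hwc h
    rcases mem_insert.mp hx' with hx | hx
    · rcases mem_insert.mp hw' with hw | hw
      · rw [hx, hw]
      · rw [hx, hlu, hl w hw, hl _ hvp, hl _ (hP.par_mem w hw hwc)] at h
        exact absurd (h ▸ mem_tys hw hwc) h2
    · rcases mem_insert.mp hw' with hw | hw
      · rw [hw, hlu, hl x hx, hl _ hvp, hl _ (hP.par_mem x hx hxc)] at h
        exact absurd (h ▸ mem_tys hx hxc) h2
      · rw [hl x hx, hl w hw, hl _ (hP.par_mem w hw hwc), hl _ (hP.par_mem x hx hxc)] at h
        exact hP.ty_inj x hx w hw hxc hwc h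
  · intro w hw hd
    rcases mem_insert.mp hw with e | hw
    · rw [e, hlu]
      rcases h3 with h3 | h3
      · obtain ⟨u, hu, e'⟩ := Finset.mem_image.mp h3
        obtain ⟨huc, hu⟩ := Finset.mem_erase.mp hu
        refine ⟨u, mem_insert_of_mem hu, huc, ?_⟩
        rw [hl u hu, hl _ (hP.par_mem u hu huc), e']
      · refine ⟨v, mem_insert_self _ _, hvc, ?_⟩
        rw [hlu, hl _ hvp, h3, add_zero]
    · obtain ⟨u, hu, huc, e⟩ := hP.closed w hw hd
      refine ⟨u, mem_insert_of_mem hu, huc, ?_⟩
      rw [hl u hu, hl _ (hP.par_mem u hu huc), hl w hw, e]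
  · intro u hu w hw hdu hdw huw
    rcases mem_insert.mp hu with e | hu
    · rcases mem_insert.mp hw with e' | hw
      · exact absurd (e.trans e'.symm) huw
      · rw [e, hlu, hl w hw]
        exact h1 w hw hdw
    · rcases mem_insert.mp hw with e' | hw
      · rw [e', hlu, hl u hu]
        exact h1' u hu hdu
      · rw [hl u hu, hl w hw]
        exact h.sep u hu w hw hdu hdw huw
  · intro u hu hdu j hj hlam
    have hu' := heven u hu hdu
    rw [hl u hu'] at hlam
    exact h.lam u hu' hdu j hj hlam

end

end LG1

section steps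

variable {U : Type*} [DecidableEq U] {T : SimpleGraph U} {R : RT T} {m : ℕ} [NeZero m]
  {Z : Zones U m} {B : Finset U} {lab : U → ZMod m}

/-- G1. The designated child `y` of `p` and a new vertex `v` of odd depth, labelled `c`, the label of
`y` being `c - lab p` (so that `c` is the type of the edge `y, p`). -/
theorem good_two (h : R.GoodL Z B lab) {p y v : U} (hp : p ∈ B) (hpo : (R.dep p : ZMod 2) = 1)
    (hy : y ∉ B) (hyc : y ≠ R.c) (hyp : R.par y = p) (hv : v ∉ B) (hvc : v ≠ R.c)
    (hvo : (R.dep v : ZMod 2) = 1) (hvp : R.par v ∈ B ∨ R.par v = y) (hvr : R.par v ≠ R.c) :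
    ∃ bad : Finset (ZMod m), bad.card ≤ 11 * B.card + Z.all.card ∧ ∀ c, c ∉ bad →
      R.GoodL Z (insert v (insert y B))
        (Function.update (Function.update lab y (c - lab p)) v c) := by
  classical
  have hP := h.placed
  have hye : (R.dep y : ZMod 2) = 0 := by
    have e := R.dep_par y hyc
    rw [← e, hyp, Nat.cast_add, hpo]
    decide
  have hvy : v ≠ y := by
    intro e
    rw [e, hye] at hvo
    exact absurd hvo (by decide)
  have hvB : v ∉ insert y B := by
    rw [mem_insert, not_or]
    exact ⟨hvy, hv⟩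
  have hpv : (R.dep (R.par v) : ZMod 2) = 0 := by
    have e := R.dep_par v hvc
    have e2 : ((R.dep (R.par v) + 1 : ℕ) : ZMod 2) = 1 := by rw [e, hvo]
    rw [Nat.cast_add, Nat.cast_one] at e2
    simpa using e2
  -- the bad sets
  set bad1 := (R.evl B lab).image (fun t => t + lab p) with hb1
  set bad2 := Z.all.image (fun t => t + lab p) with hb2
  set bad3 := (B ×ˢ near3 m).image (fun q => lab q.1 + q.2) with hb3
  set bad4 := R.tys B lab with hb4
  set bad5 := (if R.par v ∈ B then (R.tys B lab).image (fun t => t - lab (R.par v))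
    else univ.filter (fun a : ZMod m => a + (a - lab p) ∈ R.tys B lab)) with hb5
  have k1 : bad1.card ≤ B.card := le_trans Finset.card_image_le LG1.card_evl_le
  have k2 : bad2.card ≤ Z.all.card := Finset.card_image_le
  have k3 : bad3.card ≤ B.card * 7 := by
    refine le_trans Finset.card_image_le ?_
    rw [Finset.card_product]
    exact Nat.mul_le_mul_left _ LG1.card_near3
  have k4 : bad4.card ≤ B.card := LG1.card_tys_le
  have k5 : bad5.card ≤ 2 * B.card := by
    rw [hb5]
    split_ifs
    · refine le_trans Finset.card_image_le (le_trans LG1.card_tys_le ?_)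
      omega
    · refine le_trans (LG1.card_double _ _) ?_
      have := LG1.card_tys_le (R := R) (B := B) (lab := lab)
      omega
  refine ⟨bad1 ∪ (bad2 ∪ (bad3 ∪ (bad4 ∪ bad5))), ?_, ?_⟩
  · have u1 := Finset.card_union_le bad1 (bad2 ∪ (bad3 ∪ (bad4 ∪ bad5)))
    have u2 := Finset.card_union_le bad2 (bad3 ∪ (bad4 ∪ bad5))
    have u3 := Finset.card_union_le bad3 (bad4 ∪ bad5)
    have u4 := Finset.card_union_le bad4 bad5
    omega
  · intro c hc
    simp only [Finset.mem_union, not_or] at hc
    obtain ⟨c1, c2, c3, c4, c5⟩ := hc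
    have c1' : c - lab p ∉ R.evl B lab := fun hh =>
      c1 (Finset.mem_image.mpr ⟨_, hh, by ring⟩)
    have c2' : c - lab p ∉ Z.all := fun hh =>
      c2 (Finset.mem_image.mpr ⟨_, hh, by ring⟩)
    have c3' : ∀ w ∈ B, c - lab w ∉ near3 m := fun w hw hh =>
      c3 (Finset.mem_image.mpr ⟨(w, c - lab w), Finset.mem_product.mpr ⟨hw, hh⟩, by
        show lab w + (c - lab w) = c
        ring⟩)
    have hyl : Function.update lab y (c - lab p) y = c - lab p := Function.update_self _ _ _
    have hl : ∀ w ∈ B, Function.update lab y (c - lab p) w = lab w := fun w hw =>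
      Function.update_of_ne (fun (e : w = y) => hy (e ▸ hw)) _ _
    have G := LG1.insert_even h hy hyc hye (by rw [hyp]; exact hp) (a := c - lab p) c1'
      (by
        rw [hyp, sub_add_cancel]
        exact c4)
      (fun j hj hh => absurd (Finset.mem_biUnion.mpr ⟨j, hj, hh⟩) c2')
    have htys : ∀ t, t ∈ R.tys (insert y B) (Function.update lab y (c - lab p)) →
        t = c ∨ t ∈ R.tys B lab := by
      intro t ht
      obtain ⟨u, hu, e⟩ := Finset.mem_image.mp ht
      obtain ⟨huc, hu⟩ := Finset.mem_erase.mp hu
      rcases mem_insert.mp hu with e' | hu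
      · left
        rw [← e, e', hyl, hyp, hl p hp, sub_add_cancel]
      · right
        rw [← e, hl u hu, hl _ (hP.par_mem u hu huc)]
        exact LG1.mem_tys hu huc
    refine LG1.insert_odd G hvB hvc hvo ?_ ?_ ?_ (Or.inl ?_)
    · rcases hvp with hh | hh
      · exact mem_insert_of_mem hh
      · rw [hh]
        exact mem_insert_self _ _
    · intro w hw hdw
      rcases mem_insert.mp hw with e | hw
      · rw [e, hye] at hdw
        exact absurd hdw (by decide)
      · rw [hl w hw]
        exact c3' w hw
    · intro hh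
      rcases htys _ hh with e | hh
      · -- the label of the parent would be zero
        have e0 : Function.update lab y (c - lab p) (R.par v) = 0 := by
          rw [← add_right_inj c, add_zero]
          exact e
        rcases hvp with h5 | h5
        · rw [hl _ h5] at e0
          apply hvr
          apply hP.inj _ h5 _ hP.root_mem
          · rw [hpv, R.dep_c]
            rfl
          · rw [e0, hP.root_lab]
        · rw [h5, hyl] at e0
          apply c3' p hp
          rw [e0]
          exact LG1.zero_near3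
      · apply c5
        rw [hb5]
        split_ifs with h5
        · rw [hl _ h5] at hh
          exact Finset.mem_image.mpr ⟨_, hh, by ring⟩
        · have h6 : R.par v = y := hvp.resolve_left h5
          rw [h6, hyl] at hh
          exact Finset.mem_filter.mpr ⟨Finset.mem_univ _, hh⟩
    · have := LG1.mem_tys (R := R) (lab := Function.update lab y (c - lab p))
        (mem_insert_self y B) hyc
      rw [hyl, hyp, hl p hp, sub_add_cancel] at this
      exact this

end steps

end Pool.Agent.Lib.MP_c5b475_co
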