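import Pool.Agent.Lib.MP_c5b475_co.Few.DefsL

set_option autoImplicit false

/-!
# The linear law: a new child of the root (G2)
-/

namespace Pool.Agent.Lib.MP_c5b475_co

open Finset

private theorem near3_neg {m : ℕ} {x : ZMod m} (h : x ∈ near3 m) : -x ∈ near3 m := by
  simp only [near3, mem_insert, mem_singleton] at h ⊢
  rcases h with rfl | rfl | rfl | rfl | rfl | rfl | rfl <;> simp

private theorem near3_card (m : ℕ) : (near3 m).card ≤ 7 := by
  unfold near3
  have h1 := card_insert_le (0 : ZMod m) {1, 2, 3, -1, -2, -3}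
  have h2 := card_insert_le (1 : ZMod m) {2, 3, -1, -2, -3}
  have h3 := card_insert_le (2 : ZMod m) {3, -1, -2, -3}
  have h4 := card_insert_le (3 : ZMod m) {-1, -2, -3}
  have h5 := card_insert_le (-1 : ZMod m) {-2, -3}
  have h6 := card_insert_le (-2 : ZMod m) {-3}
  have h7 := card_singleton (-3 : ZMod m)
  omega

section step

variable {U : Type*} [DecidableEq U] {T : SimpleGraph U} {R : RT T} {m : ℕ} [NeZero m]
  {Z : Zones U m} {B : Finset U} {lab : U → ZMod m}

/-- G2. A new child `v` of the root. -/
theorem good_root (h : R.GoodL Z B lab) {v : U} (hv : v ∉ B) (hvc : v ≠ R.c)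
    (hvp : R.par v = R.c) :
    ∃ bad : Finset (ZMod m), bad.card ≤ 8 * B.card ∧ ∀ c, c ∉ bad →
      R.GoodL Z (insert v B) (Function.update lab v c) := by
  classical
  have hP := h.placed
  refine ⟨R.tys B lab ∪ B.biUnion (fun u => (near3 m).image (fun t => lab u - t)), ?_, ?_⟩
  · have h1 : (R.tys B lab).card ≤ B.card :=
      le_trans card_image_le (card_le_card (erase_subset _ _))
    have h2 : (B.biUnion (fun u => (near3 m).image (fun t => lab u - t))).card ≤ B.card * 7 :=
      card_biUnion_le_card_mul _ _ _ (fun u _ => le_trans card_image_le (near3_card m))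
    have h3 := card_union_le (R.tys B lab) (B.biUnion (fun u => (near3 m).image
      (fun t => lab u - t)))
    omega
  intro c hc
  rw [mem_union, not_or] at hc
  obtain ⟨hc1, hc2⟩ := hc
  have hsep : ∀ u ∈ B, lab u - c ∉ near3 m := by
    intro u hu hn
    apply hc2
    exact mem_biUnion.mpr ⟨u, hu, mem_image.mpr ⟨_, hn, by ring⟩⟩
  have hsep' : ∀ u ∈ B, c - lab u ∉ near3 m := by
    intro u hu hn
    apply hsep u hu
    have := near3_neg hn
    rwa [neg_sub] at this
  have hne : ∀ u ∈ B, lab u ≠ c := by
    intro u hu he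
    apply hsep u hu
    rw [he, sub_self]
    simp [near3]
  have hl : ∀ u ∈ B, Function.update lab v c u = lab u := fun u hu =>
    Function.update_of_ne (fun e : u = v => hv (e ▸ hu)) _ _
  have hlv : Function.update lab v c v = c := Function.update_self _ _ _
  have hvo : (R.dep v : ZMod 2) = 1 := by
    have := R.dep_par v hvc
    rw [hvp, R.dep_c] at this
    rw [← this]; simp
  have hvt : Function.update lab v c v + Function.update lab v c (R.par v) = c := by
    rw [hlv, hvp, hl _ hP.root_mem, hP.root_lab, add_zero]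
  have hty : ∀ u ∈ B, u ≠ R.c → Function.update lab v c u + Function.update lab v c (R.par u) ≠ c := by
    intro u hu huc he
    rw [hl u hu, hl _ (hP.par_mem u hu huc)] at he
    exact hc1 (mem_image.mpr ⟨u, mem_erase.mpr ⟨huc, hu⟩, he⟩)
  refine ⟨⟨mem_insert_of_mem hP.root_mem, ?_, ?_, ?_, ?_, ?_⟩, ?_, ?_⟩
  · intro u hu huc
    rcases mem_insert.mp hu with rfl | hu
    · rw [hvp]; exact mem_insert_of_mem hP.root_mem
    · exact mem_insert_of_mem (hP.par_mem u hu huc)
  · rw [hl _ hP.root_mem, hP.root_lab]
  · intro u hu w hw hd he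
    rcases mem_insert.mp hu with hu | hu <;> rcases mem_insert.mp hw with hw | hw
    · rw [hu, hw]
    · rw [hu, hlv, hl w hw] at he
      exact absurd he.symm (hne w hw)
    · rw [hw, hlv, hl u hu] at he
      exact absurd he (hne u hu)
    · rw [hl u hu, hl w hw] at he
      exact hP.inj u hu w hw hd he
  · intro u hu w hw huc hwc he
    rcases mem_insert.mp hu with hu | hu <;> rcases mem_insert.mp hw with hw | hw
    · rw [hu, hw]
    · rw [hu, hvt] at he
      exact absurd he.symm (hty w hw hwc)
    · rw [hw, hvt] at he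
      exact absurd he (hty u hu huc)
    · rw [hl u hu, hl w hw, hl _ (hP.par_mem u hu huc), hl _ (hP.par_mem w hw hwc)] at he
      exact hP.ty_inj u hu w hw huc hwc he
  · intro u hu huo
    rcases mem_insert.mp hu with hu | hu
    · exact ⟨v, mem_insert_self _ _, hvc, by rw [hvt, hu, hlv]⟩
    · obtain ⟨w, hw, hwc, he⟩ := hP.closed u hu huo
      refine ⟨w, mem_insert_of_mem hw, hwc, ?_⟩
      rw [hl w hw, hl _ (hP.par_mem w hw hwc), hl u hu, he]
  · intro u hu w hw huo hwo huw
    rcases mem_insert.mp hu with hu | hu <;> rcases mem_insert.mp hw with hw | hw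
    · exact absurd (hu.trans hw.symm) huw
    · rw [hu, hlv, hl w hw]; exact hsep' w hw
    · rw [hw, hlv, hl u hu]; exact hsep u hu
    · rw [hl u hu, hl w hw]; exact h.sep u hu w hw huo hwo huw
  · intro u hu hue j hj hlj
    rcases mem_insert.mp hu with hu | hu
    · rw [hu, hvo] at hue; exact absurd hue (by decide)
    · rw [hl u hu] at hlj
      exact h.lam u hu hue j hj hlj

end step

end Pool.Agent.Lib.MP_c5b475_co
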