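import Pool.Agent.Lib.MP_c5b475_co.Few.DefsL

set_option autoImplicit false

/-!
# Extending good labellings by one vertex of even depth
-/

namespace Pool.Agent.Lib.MP_c5b475_co

open Finset

section steps

variable {U : Type*} [DecidableEq U] {T : SimpleGraph U} {R : RT T} {m : ℕ}
  {Z : Zones U m} {B : Finset U} {lab : U → ZMod m}

/-- Adding one vertex of even depth. -/
theorem LG3_insert (h : R.GoodL Z B lab) {x : U} (hx : x ∉ B)
    (hxe : (R.dep x : ZMod 2) = 0) (hxp : R.par x ∈ B) {a : ZMod m} (h1 : a ∉ R.evl B lab)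
    (h2 : lab (R.par x) + a ∉ R.tys B lab)
    (h3 : ∀ j ∈ Z.J, a ∈ Z.Λ j → x ∈ Z.S ∧ Z.cl x = j) :
    R.GoodL Z (insert x B) (Function.update lab x a) := by
  have hP := h.placed
  have hne : ∀ v ∈ B, v ≠ x := fun v hv h => hx (h ▸ hv)
  have hl : ∀ v ∈ B, Function.update lab x a v = lab v := fun v hv =>
    Function.update_of_ne (hne v hv) _ _
  have hlx : Function.update lab x a x = a := Function.update_self _ _ _
  have hev : ∀ v ∈ B, (R.dep v : ZMod 2) = 0 → lab v ≠ a := fun v hv hd he =>
    h1 (Finset.mem_image.mpr ⟨v, Finset.mem_filter.mpr ⟨hv, hd⟩, he⟩)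
  have hty : ∀ v ∈ B, v ≠ R.c → lab v + lab (R.par v) ≠ a + lab (R.par x) := fun v hv hvc he =>
    h2 (Finset.mem_image.mpr ⟨v, Finset.mem_erase.mpr ⟨hvc, hv⟩, by rw [he, add_comm]⟩)
  refine ⟨⟨mem_insert_of_mem hP.root_mem, ?_, ?_, ?_, ?_, ?_⟩, ?_, ?_⟩
  · intro v hv hvc
    rcases mem_insert.mp hv with rfl | hv
    · exact mem_insert_of_mem hxp
    · exact mem_insert_of_mem (hP.par_mem v hv hvc)
  · rw [hl _ hP.root_mem, hP.root_lab]
  · intro v hv' w hw' hd he
    rcases mem_insert.mp hv' with hv | hv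
    · rcases mem_insert.mp hw' with hw | hw
      · rw [hv, hw]
      · rw [hv, hlx, hl w hw] at he
        exact absurd he.symm (hev w hw (by rw [← hd, hv, hxe]))
    · rcases mem_insert.mp hw' with hw | hw
      · rw [hw, hlx, hl v hv] at he
        exact absurd he (hev v hv (by rw [hd, hw, hxe]))
      · rw [hl v hv, hl w hw] at he
        exact hP.inj v hv w hw hd he
  · intro v hv' w hw' hvc hwc he
    rcases mem_insert.mp hv' with hv | hv
    · rcases mem_insert.mp hw' with hw | hw
      · rw [hv, hw]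
      · rw [hv, hlx, hl w hw, hl _ hxp, hl _ (hP.par_mem w hw hwc)] at he
        exact absurd he.symm (hty w hw hwc)
    · rcases mem_insert.mp hw' with hw | hw
      · rw [hw, hlx, hl v hv, hl _ hxp, hl _ (hP.par_mem v hv hvc)] at he
        exact absurd he (hty v hv hvc)
      · rw [hl v hv, hl w hw, hl _ (hP.par_mem w hw hwc), hl _ (hP.par_mem v hv hvc)] at he
        exact hP.ty_inj v hv w hw hvc hwc he
  · intro v hv hdv
    rcases mem_insert.mp hv with rfl | hv
    · rw [hxe] at hdv
      exact absurd hdv (by decide)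
    · obtain ⟨w, hw, hwc, he⟩ := hP.closed v hv hdv
      refine ⟨w, mem_insert_of_mem hw, hwc, ?_⟩
      rw [hl w hw, hl _ (hP.par_mem w hw hwc), hl v hv, he]
  · intro u hu v hv hdu hdv huv
    rcases mem_insert.mp hu with rfl | hu
    · rw [hxe] at hdu
      exact absurd hdu (by decide)
    · rcases mem_insert.mp hv with rfl | hv
      · rw [hxe] at hdv
        exact absurd hdv (by decide)
      · rw [hl u hu, hl v hv]
        exact h.sep u hu v hv hdu hdv huv
  · intro u hu hdu j hj hlj
    rcases mem_insert.mp hu with rfl | hu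
    · rw [hlx] at hlj
      exact h3 j hj hlj
    · rw [hl u hu] at hlj
      exact h.lam u hu hdu j hj hlj

/-- G3. A new vertex `x` of even depth with a generic label. -/
theorem good_gen (h : R.GoodL Z B lab) {x : U} (hx : x ∉ B) (hxc : x ≠ R.c)
    (hxe : (R.dep x : ZMod 2) = 0) (hxp : R.par x ∈ B) :
    ∃ bad : Finset (ZMod m), bad.card ≤ 2 * B.card + Z.all.card ∧ Z.all ⊆ bad ∧ ∀ a, a ∉ bad →
      R.GoodL Z (insert x B) (Function.update lab x a) := by
  classical
  refine ⟨Z.all ∪ (R.evl B lab ∪ (R.tys B lab).image (fun t => t - lab (R.par x))), ?_,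
    Finset.subset_union_left, ?_⟩
  · have h1 := Finset.card_union_le Z.all
      (R.evl B lab ∪ (R.tys B lab).image (fun t => t - lab (R.par x)))
    have h2 := Finset.card_union_le (R.evl B lab)
      ((R.tys B lab).image (fun t => t - lab (R.par x)))
    have h3 : (R.evl B lab).card ≤ B.card :=
      le_trans Finset.card_image_le (Finset.card_filter_le _ _)
    have h4 : ((R.tys B lab).image (fun t => t - lab (R.par x))).card ≤ B.card :=
      le_trans Finset.card_image_le
        (le_trans Finset.card_image_le (Finset.card_le_card (Finset.erase_subset _ _)))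
    omega
  · intro a ha
    rw [Finset.mem_union, Finset.mem_union, not_or, not_or] at ha
    obtain ⟨ha1, ha2, ha3⟩ := ha
    refine LG3_insert h hx hxe hxp ha2 (fun h' => ha3 (Finset.mem_image.mpr ⟨_, h', by ring⟩)) ?_
    intro j hj haj
    exact absurd (Finset.mem_biUnion.mpr ⟨j, hj, haj⟩) ha1

/-- G4. A new vertex `x` of even depth with a label `b` of its zone. -/
theorem good_res (h : R.GoodL Z B lab) {x : U} (hx : x ∉ B) (hxc : x ≠ R.c)
    (hxe : (R.dep x : ZMod 2) = 0) (hxp : R.par x ∈ B) (hxS : x ∈ Z.S) (hxJ : Z.cl x ∈ Z.J)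
    {b : ZMod m} (hb : b ∈ Z.Λ (Z.cl x)) (hbu : b ∉ R.evl B lab)
    (hbt : lab (R.par x) + b ∉ R.tys B lab) :
    R.GoodL Z (insert x B) (Function.update lab x b) := by
  refine LG3_insert h hx hxe hxp hbu hbt ?_
  intro j hj hbj
  refine ⟨hxS, ?_⟩
  by_contra hne
  exact (Finset.disjoint_left.mp (Z.disj _ hxJ _ hj hne)) hb hbj

end steps

end Pool.Agent.Lib.MP_c5b475_co
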