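import Pool.Agent.Lib.MP_c5b475_co.Few.DefsL

set_option autoImplicit false

/-!
# The linear law: the double step (module G5)
-/

namespace Pool.Agent.Lib.MP_c5b475_co

open Finset

namespace LG5

theorem neg_near3 {m : ℕ} {x : ZMod m} (h : -x ∈ near3 m) : x ∈ near3 m := by
  simp only [near3, mem_insert, mem_singleton] at h ⊢
  rcases h with h | h | h | h | h | h | h
  · exact Or.inl (neg_eq_zero.mp h)
  · exact Or.inr (Or.inr (Or.inr (Or.inr (Or.inl (neg_eq_iff_eq_neg.mp h)))))
  · exact Or.inr (Or.inr (Or.inr (Or.inr (Or.inr (Or.inl (neg_eq_iff_eq_neg.mp h))))))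
  · exact Or.inr (Or.inr (Or.inr (Or.inr (Or.inr (Or.inr (neg_eq_iff_eq_neg.mp h))))))
  · exact Or.inr (Or.inl (neg_injective h))
  · exact Or.inr (Or.inr (Or.inl (neg_injective h)))
  · exact Or.inr (Or.inr (Or.inr (Or.inl (neg_injective h))))

theorem zero_near3 {m : ℕ} : (0 : ZMod m) ∈ near3 m := by
  simp [near3]

theorem card_near3 {m : ℕ} : (near3 m).card ≤ 7 := by
  unfold near3
  refine (Finset.card_insert_le _ _).trans ?_
  have := Finset.card_le_six (a := (1 : ZMod m)) (b := 2) (c := 3) (d := -1) (e := -2) (f := -3)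
  omega

theorem card_two_eq {m : ℕ} [NeZero m] (t : ZMod m) :
    (univ.filter (fun a : ZMod m => a + a = t)).card ≤ 2 := by
  classical
  by_cases hne : (univ.filter (fun a : ZMod m => a + a = t)).Nonempty
  · obtain ⟨a0, ha0⟩ := hne
    have h0 : a0 + a0 = t := (Finset.mem_filter.mp ha0).2
    have h1 := IsAddCyclic.card_nsmul_eq_zero_le (α := ZMod m) (n := 2) (by norm_num)
    refine le_trans (Finset.card_le_card_of_injOn (fun a => a - a0) ?_ ?_) h1
    · intro a ha
      have ha' : a + a = t := (Finset.mem_filter.mp ha).2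
      have h2 : (2 : ℕ) • (a - a0) = 0 := by
        rw [two_nsmul]
        have : (a - a0) + (a - a0) = (a + a) - (a0 + a0) := by ring
        rw [this, ha', h0, sub_self]
      simpa using h2
    · intro a _ b _ hab
      simpa using hab
  · rw [Finset.not_nonempty_iff_eq_empty] at hne
    rw [hne]
    simp

theorem card_double {m : ℕ} [NeZero m] (c : ZMod m) (S : Finset (ZMod m)) :
    (univ.filter (fun a : ZMod m => a + a + c ∈ S)).card ≤ 2 * S.card := by
  classical
  refine le_trans (Finset.card_le_mul_card_image (f := fun a : ZMod m => a + a + c) _ 2 ?_) ?_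
  · intro t ht
    refine le_trans (Finset.card_le_card ?_) (card_two_eq (t - c))
    intro a ha
    have ha' : a + a + c = t := (Finset.mem_filter.mp ha).2
    exact Finset.mem_filter.mpr ⟨Finset.mem_univ _, by rw [← ha']; ring⟩
  · apply Nat.mul_le_mul_left
    apply Finset.card_le_card
    intro t ht
    obtain ⟨a, ha, rfl⟩ := Finset.mem_image.mp ht
    exact (Finset.mem_filter.mp ha).2

theorem exists_avoid {m : ℕ} [NeZero m] (S : Finset (ZMod m)) (h : S.card < m) :
    ∃ x, x ∉ S := by
  by_contra hcon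
  push Not at hcon
  have h1 : S = univ := Finset.eq_univ_iff_forall.mpr hcon
  rw [h1, Finset.card_univ, ZMod.card] at h
  exact lt_irrefl _ h

variable {U : Type*} [DecidableEq U] {T : SimpleGraph U} {m : ℕ}

/-- Good labelling without the closedness. -/
structure PreL (R : RT T) (Z : Zones U m) (B : Finset U) (lab : U → ZMod m) : Prop where
  root_mem : R.c ∈ B
  par_mem : ∀ u ∈ B, u ≠ R.c → R.par u ∈ B
  root_lab : lab R.c = 0
  inj : ∀ u ∈ B, ∀ v ∈ B, (R.dep u : ZMod 2) = R.dep v → lab u = lab v → u = v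
  ty_inj : ∀ u ∈ B, ∀ v ∈ B, u ≠ R.c → v ≠ R.c →
    lab u + lab (R.par u) = lab v + lab (R.par v) → u = v
  sep : ∀ u ∈ B, ∀ v ∈ B, (R.dep u : ZMod 2) = 1 → (R.dep v : ZMod 2) = 1 → u ≠ v →
    lab u - lab v ∉ near3 m
  lam : ∀ u ∈ B, (R.dep u : ZMod 2) = 0 → ∀ j ∈ Z.J, lab u ∈ Z.Λ j → u ∈ Z.S ∧ Z.cl u = j

variable {R : RT T} {Z : Zones U m} {B : Finset U} {lab lab' : U → ZMod m}

theorem PreL.of_good (h : R.GoodL Z B lab) : PreL R Z B lab :=
  ⟨h.placed.root_mem, h.placed.par_mem, h.placed.root_lab, h.placed.inj, h.placed.ty_inj, h.sep,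
    h.lam⟩

theorem PreL.congr (h : PreL R Z B lab) (hl : ∀ u ∈ B, lab' u = lab u) : PreL R Z B lab' := by
  refine ⟨h.root_mem, h.par_mem, ?_, ?_, ?_, ?_, ?_⟩
  · rw [hl _ h.root_mem, h.root_lab]
  · intro u hu v hv hd he
    rw [hl u hu, hl v hv] at he
    exact h.inj u hu v hv hd he
  · intro u hu v hv huc hvc he
    rw [hl u hu, hl v hv, hl _ (h.par_mem u hu huc), hl _ (h.par_mem v hv hvc)] at he
    exact h.ty_inj u hu v hv huc hvc he
  · intro u hu v hv hdu hdv hne
    rw [hl u hu, hl v hv]
    exact h.sep u hu v hv hdu hdv hne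
  · intro u hu hd j hj he
    rw [hl u hu] at he
    exact h.lam u hu hd j hj he

theorem mem_tys {v : U} (hv : v ∈ B) (hvc : v ≠ R.c) :
    lab v + lab (R.par v) ∈ R.tys B lab :=
  Finset.mem_image_of_mem _ (Finset.mem_erase.mpr ⟨hvc, hv⟩)

theorem card_tys_le : (R.tys B lab).card ≤ B.card :=
  le_trans Finset.card_image_le (Finset.card_le_card (Finset.erase_subset _ _))

theorem card_evl_le : (R.evl B lab).card ≤ B.card :=
  le_trans Finset.card_image_le (Finset.card_le_card (Finset.filter_subset _ _))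

theorem mem_evl {v : U} (hv : v ∈ B) (hd : (R.dep v : ZMod 2) = 0) : lab v ∈ R.evl B lab :=
  Finset.mem_image_of_mem _ (Finset.mem_filter.mpr ⟨hv, hd⟩)

theorem PreL.tys_congr (h : PreL R Z B lab) (hl : ∀ u ∈ B, lab' u = lab u) :
    R.tys B lab' = R.tys B lab := by
  apply Finset.image_congr
  intro u hu
  have hu' := Finset.mem_erase.mp (Finset.mem_coe.mp hu)
  show lab' u + lab' (R.par u) = lab u + lab (R.par u)
  rw [hl u hu'.2, hl _ (h.par_mem u hu'.2 hu'.1)]

theorem evl_congr (hl : ∀ u ∈ B, lab' u = lab u) : R.evl B lab' = R.evl B lab := by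
  apply Finset.image_congr
  intro u hu
  exact hl u (Finset.mem_filter.mp (Finset.mem_coe.mp hu)).1

theorem tys_insert {x : U} (hx : x ≠ R.c) :
    R.tys (insert x B) lab = insert (lab x + lab (R.par x)) (R.tys B lab) := by
  unfold RT.tys
  rw [Finset.erase_insert_of_ne hx, Finset.image_insert]

theorem evl_insert_even {x : U} (hd : (R.dep x : ZMod 2) = 0) :
    R.evl (insert x B) lab = insert (lab x) (R.evl B lab) := by
  unfold RT.evl
  rw [Finset.filter_insert, if_pos hd, Finset.image_insert]

theorem evl_insert_odd {x : U} (hd : (R.dep x : ZMod 2) = 1) :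
    R.evl (insert x B) lab = R.evl B lab := by
  unfold RT.evl
  rw [Finset.filter_insert, if_neg]
  rw [hd]
  decide

/-- Adding one vertex. -/
theorem PreL.insert (h : PreL R Z B lab) {x : U} (hp : R.par x ∈ B)
    (h1 : ∀ v ∈ B, (R.dep v : ZMod 2) = R.dep x → lab v ≠ lab x)
    (h2 : lab x + lab (R.par x) ∉ R.tys B lab)
    (h3 : (R.dep x : ZMod 2) = 1 → ∀ v ∈ B, (R.dep v : ZMod 2) = 1 → lab v - lab x ∉ near3 m)
    (h4 : (R.dep x : ZMod 2) = 0 → ∀ j ∈ Z.J, lab x ∈ Z.Λ j → x ∈ Z.S ∧ Z.cl x = j) :
    PreL R Z (insert x B) lab := by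
  refine ⟨mem_insert_of_mem h.root_mem, ?_, h.root_lab, ?_, ?_, ?_, ?_⟩
  · intro v hv hvc
    rcases mem_insert.mp hv with rfl | hv
    · exact mem_insert_of_mem hp
    · exact mem_insert_of_mem (h.par_mem v hv hvc)
  · intro v hv' w hw' hd he
    rcases mem_insert.mp hv' with hv | hv
    · rcases mem_insert.mp hw' with hw | hw
      · rw [hv, hw]
      · rw [hv] at he hd
        exact absurd he.symm (h1 w hw hd.symm)
    · rcases mem_insert.mp hw' with hw | hw
      · rw [hw] at he hd
        exact absurd he (h1 v hv hd)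
      · exact h.inj v hv w hw hd he
  · intro v hv' w hw' hvc hwc he
    rcases mem_insert.mp hv' with hv | hv
    · rcases mem_insert.mp hw' with hw | hw
      · rw [hv, hw]
      · rw [hv] at he
        exact absurd (he ▸ mem_tys hw hwc) h2
    · rcases mem_insert.mp hw' with hw | hw
      · rw [hw] at he
        exact absurd (he.symm ▸ mem_tys hv hvc) h2
      · exact h.ty_inj v hv w hw hvc hwc he
  · intro v hv' w hw' hdv hdw hne
    rcases mem_insert.mp hv' with hv | hv
    · rcases mem_insert.mp hw' with hw | hw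
      · exact absurd (hv.trans hw.symm) hne
      · rw [hv]
        rw [hv] at hdv
        intro hcon
        refine h3 hdv w hw hdw (neg_near3 ?_)
        rw [neg_sub]
        exact hcon
    · rcases mem_insert.mp hw' with hw | hw
      · rw [hw]
        rw [hw] at hdw
        exact h3 hdw v hv hdv
      · exact h.sep v hv w hw hdv hdw hne
  · intro v hv' hd j hj he
    rcases mem_insert.mp hv' with hv | hv
    · rw [hv] at hd he ⊢
      exact h4 hd j hj he
    · exact h.lam v hv hd j hj he

theorem PreL.insert_odd (h : PreL R Z B lab) {x : U} (hp : R.par x ∈ B)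
    (hd : (R.dep x : ZMod 2) = 1)
    (h2 : lab x + lab (R.par x) ∉ R.tys B lab)
    (h3 : ∀ v ∈ B, (R.dep v : ZMod 2) = 1 → lab v - lab x ∉ near3 m) :
    PreL R Z (Insert.insert x B) lab := by
  refine h.insert hp ?_ h2 (fun _ => h3) (fun h0 => absurd (h0.symm.trans hd) (by decide))
  intro v hv hdv he
  apply h3 v hv (hdv.trans hd)
  rw [he, sub_self]
  exact zero_near3

theorem PreL.insert_even (h : PreL R Z B lab) {x : U} (hp : R.par x ∈ B)
    (hd : (R.dep x : ZMod 2) = 0) (h1 : lab x ∉ R.evl B lab)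
    (h2 : lab x + lab (R.par x) ∉ R.tys B lab)
    (h4 : ∀ j ∈ Z.J, lab x ∈ Z.Λ j → x ∈ Z.S ∧ Z.cl x = j) :
    PreL R Z (Insert.insert x B) lab := by
  refine h.insert hp ?_ h2 (fun h0 => absurd (hd.symm.trans h0) (by decide)) (fun _ => h4)
  intro v hv hdv he
  exact h1 (he ▸ mem_evl hv (hdv.trans hd))

/-- Closedness. -/
theorem PreL.good (h : PreL R Z B lab)
    (hcl : ∀ v ∈ B, (R.dep v : ZMod 2) = 1 → lab v ∈ R.tys B lab) : R.GoodL Z B lab := by
  refine ⟨⟨h.root_mem, h.par_mem, h.root_lab, h.inj, h.ty_inj, ?_⟩, h.sep, h.lam⟩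
  intro v hv hd
  obtain ⟨u, hu, he⟩ := Finset.mem_image.mp (hcl v hv hd)
  exact ⟨u, (Finset.mem_erase.mp hu).2, (Finset.mem_erase.mp hu).1, he⟩

theorem good_closed (h : R.GoodL Z B lab) : ∀ v ∈ B, (R.dep v : ZMod 2) = 1 →
    lab v ∈ R.tys B lab := by
  intro v hv hd
  obtain ⟨u, hu, huc, he⟩ := h.placed.closed v hv hd
  rw [← he]
  exact mem_tys hu huc

theorem par_parity {x : U} (hx : x ≠ R.c) : (R.dep x : ZMod 2) = (R.dep (R.par x) : ZMod 2) + 1 := by
  rw [← R.dep_par x hx]
  push_cast
  rfl

theorem Zones.mem_all {j : ℕ} (hj : j ∈ Z.J) {b : ZMod m} (hb : b ∈ Z.Λ j) : b ∈ Z.all :=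
  Finset.mem_biUnion.mpr ⟨j, hj, hb⟩

/-- The double step with given labels. -/
theorem double_core (h : R.GoodL Z B lab) {p y v y' v' : U}
    (hp : p ∈ B) (hpo : (R.dep p : ZMod 2) = 1)
    (hyc : y ≠ R.c) (hyp : R.par y = p) (hvc : v ≠ R.c)
    (hvo : (R.dep v : ZMod 2) = 1) (hvp : R.par v ∈ B ∨ R.par v = y)
    (hyc' : y' ≠ R.c) (hyp' : R.par y' = v)
    (hvc' : v' ≠ R.c) (hvo' : (R.dep v' : ZMod 2) = 1)
    (hvp' : R.par v' ∈ B ∨ R.par v' = y ∨ R.par v' = y')
    (hS : y' ∈ Z.S) (hJ : Z.cl y' ∈ Z.J) (hl : ∀ u ∈ B, lab' u = lab u) {c b : ZMod m}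
    (hly : lab' y = c - lab p) (hlv : lab' v = c) (hly' : lab' y' = b) (hlv' : lab' v' = c + b)
    (c1 : c - lab p ∉ R.evl B lab) (c2 : c ∉ R.tys B lab) (c3 : c - lab p ∉ Z.all)
    (c4 : ∀ u ∈ B, (R.dep u : ZMod 2) = 1 → lab u - c ∉ near3 m)
    (t2 : c + lab' (R.par v) ∉ R.tys B lab) (t2' : lab' (R.par v) ≠ 0)
    (hb : b ∈ Z.Λ (Z.cl y')) (b1 : b ∉ R.evl B lab) (b2 : b + c ∉ R.tys B lab)
    (b3 : b ≠ lab' (R.par v)) (b5 : b ∉ near3 m)
    (b6 : ∀ u ∈ B, (R.dep u : ZMod 2) = 1 → lab u - (c + b) ∉ near3 m)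
    (t4 : c + b + lab' (R.par v') ∉ R.tys B lab) (t4a : b + lab' (R.par v') ≠ 0)
    (t4b : b + lab' (R.par v') ≠ lab' (R.par v)) (t4c : lab' (R.par v') ≠ 0) :
    R.GoodL Z (Insert.insert v' (Insert.insert y' (Insert.insert v (Insert.insert y B)))) lab' := by
  have hP := PreL.of_good h
  have hyd : (R.dep y : ZMod 2) = 0 := by
    rw [par_parity hyc, hyp, hpo]
    decide
  have hyd' : (R.dep y' : ZMod 2) = 0 := by
    rw [par_parity hyc', hyp', hvo]
    decide
  have b0 : b ≠ 0 := fun h0 => b5 (h0 ▸ zero_near3)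
  have hlp : lab' p = lab p := hl p hp
  have P0 : PreL R Z B lab' := hP.congr hl
  have T0 : R.tys B lab' = R.tys B lab := hP.tys_congr hl
  have E0 : R.evl B lab' = R.evl B lab := evl_congr hl
  -- the vertex y
  have P1 : PreL R Z (Insert.insert y B) lab' := by
    refine P0.insert_even (by rw [hyp]; exact hp) hyd (by rw [E0, hly]; exact c1) ?_ ?_
    · rw [T0, hly, hyp, hlp, sub_add_cancel]
      exact c2
    · intro j hj he
      rw [hly] at he
      exact absurd (Zones.mem_all hj he) c3
  have T1 : R.tys (Insert.insert y B) lab' = Insert.insert c (R.tys B lab) := by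
    rw [tys_insert hyc, T0, hly, hyp, hlp, sub_add_cancel]
  have E1 : R.evl (Insert.insert y B) lab' = Insert.insert (c - lab p) (R.evl B lab) := by
    rw [evl_insert_even hyd, E0, hly]
  -- the vertex v
  have hpv : R.par v ∈ Insert.insert y B := by
    rcases hvp with h1 | h1
    · exact mem_insert_of_mem h1
    · rw [h1]; exact mem_insert_self _ _
  have P2 : PreL R Z (Insert.insert v (Insert.insert y B)) lab' := by
    refine P1.insert_odd hpv hvo ?_ ?_
    · rw [T1, hlv, mem_insert, not_or]
      exact ⟨fun he => t2' (by rwa [add_eq_left] at he), t2⟩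
    · intro u hu hdu
      rw [hlv]
      rcases mem_insert.mp hu with h1 | h1
      · rw [h1, hyd] at hdu
        exact absurd hdu (by decide)
      · rw [hl u h1]
        exact c4 u h1 hdu
  have T2 : R.tys (Insert.insert v (Insert.insert y B)) lab' =
      Insert.insert (c + lab' (R.par v)) (Insert.insert c (R.tys B lab)) := by
    rw [tys_insert hvc, T1, hlv]
  have E2 : R.evl (Insert.insert v (Insert.insert y B)) lab' =
      Insert.insert (c - lab p) (R.evl B lab) := by
    rw [evl_insert_odd hvo, E1]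
  -- the vertex y'
  have P3 : PreL R Z (Insert.insert y' (Insert.insert v (Insert.insert y B))) lab' := by
    refine P2.insert_even (by rw [hyp']; exact mem_insert_self _ _) hyd' ?_ ?_ ?_
    · rw [E2, hly', mem_insert, not_or]
      exact ⟨fun he => c3 (he ▸ Zones.mem_all hJ hb), b1⟩
    · rw [T2, hly', hyp', hlv, mem_insert, mem_insert, not_or, not_or]
      refine ⟨fun he => b3 ?_, fun he => b0 (by rwa [add_eq_right] at he), b2⟩
      rw [add_comm] at he
      exact add_left_cancel he
    · intro j hj he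
      rw [hly'] at he
      refine ⟨hS, ?_⟩
      by_contra hne
      exact Finset.disjoint_left.mp (Z.disj _ hJ _ hj hne) hb he
  have T3 : R.tys (Insert.insert y' (Insert.insert v (Insert.insert y B))) lab' =
      Insert.insert (b + c) (Insert.insert (c + lab' (R.par v)) (Insert.insert c (R.tys B lab))) := by
    rw [tys_insert hyc', T2, hly', hyp', hlv]
  -- the vertex v'
  have hpv' : R.par v' ∈ Insert.insert y' (Insert.insert v (Insert.insert y B)) := by
    rcases hvp' with h1 | h1 | h1
    · exact mem_insert_of_mem (mem_insert_of_mem (mem_insert_of_mem h1))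
    · rw [h1]; exact mem_insert_of_mem (mem_insert_of_mem (mem_insert_self _ _))
    · rw [h1]; exact mem_insert_self _ _
  have P4 : PreL R Z
      (Insert.insert v' (Insert.insert y' (Insert.insert v (Insert.insert y B)))) lab' := by
    refine P3.insert_odd hpv' hvo' ?_ ?_
    · rw [T3, hlv', mem_insert, mem_insert, mem_insert, not_or, not_or, not_or]
      refine ⟨fun he => t4c ?_, fun he => t4b ?_, fun he => t4a ?_, t4⟩
      · rw [add_comm b c] at he
        rwa [add_eq_left] at he
      · rw [add_assoc] at he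
        exact add_left_cancel he
      · rw [add_assoc] at he
        rwa [add_eq_left] at he
    · intro u hu hdu
      rw [hlv']
      rcases mem_insert.mp hu with h1 | h1
      · rw [h1, hyd'] at hdu
        exact absurd hdu (by decide)
      rcases mem_insert.mp h1 with h1 | h1
      · rw [h1, hlv]
        intro hcon
        apply b5
        apply neg_near3
        have : -b = c - (c + b) := by ring
        rw [this]
        exact hcon
      rcases mem_insert.mp h1 with h1 | h1
      · rw [h1, hyd] at hdu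
        exact absurd hdu (by decide)
      · rw [hl u h1]
        exact b6 u h1 hdu
  have T4 : R.tys (Insert.insert v' (Insert.insert y' (Insert.insert v (Insert.insert y B)))) lab' =
      Insert.insert (c + b + lab' (R.par v')) (Insert.insert (b + c)
        (Insert.insert (c + lab' (R.par v)) (Insert.insert c (R.tys B lab)))) := by
    rw [tys_insert hvc', T3, hlv']
  refine P4.good ?_
  intro u hu hdu
  rw [T4]
  rcases mem_insert.mp hu with h1 | h1
  · rw [h1, hlv', add_comm b c]
    exact mem_insert_of_mem (mem_insert_self _ _)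
  rcases mem_insert.mp h1 with h1 | h1
  · rw [h1, hyd'] at hdu
    exact absurd hdu (by decide)
  rcases mem_insert.mp h1 with h1 | h1
  · rw [h1, hlv]
    exact mem_insert_of_mem (mem_insert_of_mem (mem_insert_of_mem (mem_insert_self _ _)))
  rcases mem_insert.mp h1 with h1 | h1
  · rw [h1, hyd] at hdu
    exact absurd hdu (by decide)
  · rw [hl u h1]
    exact mem_insert_of_mem (mem_insert_of_mem (mem_insert_of_mem (mem_insert_of_mem
      (good_closed h u h1 hdu))))

/-- The set of `c` with `s - c` near some of the labels. -/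
theorem exists_sep_bad (B : Finset U) (lab : U → ZMod m) (b : ZMod m) :
    ∃ bad : Finset (ZMod m), bad.card ≤ 7 * B.card ∧
      ∀ c, c ∉ bad → ∀ u ∈ B, lab u - (c + b) ∉ near3 m := by
  classical
  refine ⟨(B ×ˢ near3 m).image (fun q => lab q.1 - b - q.2), ?_, ?_⟩
  · refine Finset.card_image_le.trans ?_
    rw [Finset.card_product, mul_comm]
    exact Nat.mul_le_mul_right _ card_near3
  · intro c hc u hu hcon
    apply hc
    refine Finset.mem_image.mpr ⟨(u, lab u - (c + b)), Finset.mem_product.mpr ⟨hu, hcon⟩, ?_⟩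
    show lab u - b - (lab u - (c + b)) = c
    ring

theorem exists_ty_bad [NeZero m] (F : Finset (ZMod m)) (e : ZMod m) :
    ∃ bad : Finset (ZMod m), bad.card ≤ 2 * F.card ∧ ∀ c, c ∉ bad → c + e ∉ F := by
  classical
  refine ⟨F.image (fun t => t - e), ?_, ?_⟩
  · have := Finset.card_image_le (s := F) (f := fun t => t - e)
    omega
  · intro c hc hcon
    exact hc (Finset.mem_image.mpr ⟨_, hcon, by ring⟩)

theorem exists_ty_bad2 [NeZero m] (F : Finset (ZMod m)) (e : ZMod m) :
    ∃ bad : Finset (ZMod m), bad.card ≤ 2 * F.card ∧ ∀ c, c ∉ bad → c + (c + e) ∉ F := by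
  classical
  refine ⟨_, card_double e F, ?_⟩
  intro c hc hcon
  refine hc (Finset.mem_filter.mpr ⟨Finset.mem_univ _, ?_⟩)
  rw [add_assoc]
  exact hcon

end LG5

open LG5 in
/-- G5. Double step: `y`, `v` with a generic label `c`, then the child `y'` of `v` with the
prescribed label `b` of its zone, and a new vertex `v'` of odd depth labelled `c + b`. -/
theorem good_double {U : Type*} [DecidableEq U] {T : SimpleGraph U} {R : RT T} {m : ℕ} [NeZero m]
    {Z : Zones U m} {B : Finset U} {lab : U → ZMod m}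
    (h : R.GoodL Z B lab) (hm : 21 * B.card + Z.all.card + 10 < m) {p y v : U}
    (hp : p ∈ B) (hpo : (R.dep p : ZMod 2) = 1)
    (hy : y ∉ B) (hyc : y ≠ R.c) (hyp : R.par y = p) (hv : v ∉ B) (hvc : v ≠ R.c)
    (hvo : (R.dep v : ZMod 2) = 1) (hvp : R.par v ∈ B ∨ R.par v = y) (hvr : R.par v ≠ R.c)
    {y' v' : U} (hy' : y' ∉ B) (hyy' : y' ≠ y) (hyc' : y' ≠ R.c) (hyp' : R.par y' = v)
    (hv' : v' ∉ B) (hvv' : v' ≠ v) (hvc' : v' ≠ R.c) (hvo' : (R.dep v' : ZMod 2) = 1)
    (hvp' : R.par v' ∈ B ∨ R.par v' = y ∨ R.par v' = y') (hvr' : R.par v' ≠ R.c)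
    (hS : y' ∈ Z.S) (hJ : Z.cl y' ∈ Z.J) :
    ∃ exc : Finset (ZMod m), exc.card ≤ 13 ∧ ∀ b ∈ Z.Λ (Z.cl y'), b ∉ R.evl B lab → b ∉ exc →
      ∃ lab' : U → ZMod m, (∀ u ∈ B, lab' u = lab u) ∧ lab' y' = b ∧ lab' y ∉ Z.all ∧
        R.GoodL Z (insert v' (insert y' (insert v (insert y B)))) lab' := by
  classical
  have hyd : (R.dep y : ZMod 2) = 0 := by
    rw [par_parity hyc, hyp, hpo]
    decide
  have hyd' : (R.dep y' : ZMod 2) = 0 := by
    rw [par_parity hyc', hyp', hvo]
    decide
  have h01 : ∀ {u w : U}, (R.dep u : ZMod 2) = 0 → (R.dep w : ZMod 2) = 1 → u ≠ w := by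
    intro u w h0 h1 he
    rw [he, h1] at h0
    exact absurd h0 (by decide)
  -- labels of parents in `B` are not zero
  have hpar0 : ∀ {w : U}, w ≠ R.c → (R.dep w : ZMod 2) = 1 → R.par w ∈ B → R.par w ≠ R.c →
      lab (R.par w) ≠ 0 := by
    intro w hwc hwo hwB hwr h0
    apply hwr
    refine h.placed.inj _ hwB _ h.placed.root_mem ?_ (by rw [h0, h.placed.root_lab])
    have h1 := par_parity hwc
    rw [hwo] at h1
    rw [R.dep_c]
    have h2 : (R.dep (R.par w) : ZMod 2) + 1 = 0 + 1 := by rw [← h1, zero_add]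
    rw [add_right_cancel h2]
    rfl
  set κ := lab p with hκ
  set lam := lab (R.par v) with hlam
  set mu := lab (R.par v') with hmu
  refine ⟨near3 m ∪ ({-mu, lam - mu} ∪ (univ.filter (fun a : ZMod m => a + a = 0) ∪
    univ.filter (fun a : ZMod m => a + a = lam))), ?_, ?_⟩
  · have e1 := Finset.card_union_le (near3 m) ({-mu, lam - mu} ∪
      (univ.filter (fun a : ZMod m => a + a = 0) ∪ univ.filter (fun a : ZMod m => a + a = lam)))
    have e2 := Finset.card_union_le ({-mu, lam - mu} : Finset (ZMod m))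
      (univ.filter (fun a : ZMod m => a + a = 0) ∪ univ.filter (fun a : ZMod m => a + a = lam))
    have e3 := Finset.card_union_le (univ.filter (fun a : ZMod m => a + a = 0))
      (univ.filter (fun a : ZMod m => a + a = lam))
    have e4 : (near3 m).card ≤ 7 := card_near3
    have e5 : ({-mu, lam - mu} : Finset (ZMod m)).card ≤ 2 := Finset.card_le_two
    have e6 := card_two_eq (m := m) 0
    have e7 := card_two_eq (m := m) lam
    omega
  intro b hb hbu hbe
  simp only [mem_union, mem_insert, mem_singleton, mem_filter, mem_univ, true_and, not_or] at hbe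
  obtain ⟨hb5, ⟨hbmu, hblm⟩, hb20, hb2l⟩ := hbe
  have hb0 : b ≠ 0 := fun h0 => hb5 (h0 ▸ zero_near3)
  have hball : b ∈ Z.all := Zones.mem_all hJ hb
  -- bad sets
  have hcT : (R.tys B lab).card ≤ B.card := card_tys_le
  have hcE : (R.evl B lab).card ≤ B.card := card_evl_le
  set F := R.tys B lab with hF
  obtain ⟨bad3, hbad3, hprop3⟩ := exists_sep_bad B lab 0
  obtain ⟨bad6, hbad6, hprop6⟩ := exists_sep_bad B lab b
  set al : ZMod m → ZMod m := fun c => if R.par v = y then c - κ else lam with hal
  set be : ZMod m → ZMod m := fun c => if R.par v' = y then c - κ else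
    if R.par v' = y' then b else mu with hbe
  obtain ⟨bad4, hbad4, hprop4⟩ : ∃ bad : Finset (ZMod m), bad.card ≤ 2 * F.card ∧
      ∀ c, c ∉ bad → c + al c ∉ F := by
    by_cases hpy : R.par v = y
    · obtain ⟨bad, h1, h2⟩ := exists_ty_bad2 F (-κ)
      refine ⟨bad, h1, fun c hc => ?_⟩
      simp only [hal, if_pos hpy]
      rw [sub_eq_add_neg]
      exact h2 c hc
    · obtain ⟨bad, h1, h2⟩ := exists_ty_bad F lam
      refine ⟨bad, h1, fun c hc => ?_⟩
      simp only [hal, if_neg hpy]
      exact h2 c hc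
  obtain ⟨bad5, hbad5, hprop5⟩ : ∃ bad : Finset (ZMod m), bad.card ≤ F.card ∧
      ∀ c, c ∉ bad → b + c ∉ F := by
    refine ⟨F.image (fun t => t - b), Finset.card_image_le, ?_⟩
    intro c hc hcon
    exact hc (Finset.mem_image.mpr ⟨_, hcon, by ring⟩)
  obtain ⟨bad7, hbad7, hprop7⟩ : ∃ bad : Finset (ZMod m), bad.card ≤ 2 * F.card + 2 ∧
      ∀ c, c ∉ bad → c ≠ κ → c + b + be c ∉ F ∧ b + be c ≠ 0 ∧ b + be c ≠ al c ∧ be c ≠ 0 := by
    by_cases hpy' : R.par v' = y
    · obtain ⟨bad, h1, h2⟩ := exists_ty_bad2 F (b - κ)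
      refine ⟨bad ∪ {κ - b, lam + κ - b}, ?_, ?_⟩
      · have e1 := Finset.card_union_le bad {κ - b, lam + κ - b}
        have e2 : ({κ - b, lam + κ - b} : Finset (ZMod m)).card ≤ 2 := Finset.card_le_two
        omega
      · intro c hc hcκ
        simp only [mem_union, mem_insert, mem_singleton, not_or] at hc
        obtain ⟨hc1, hc2, hc3⟩ := hc
        simp only [hbe, if_pos hpy']
        refine ⟨?_, ?_, ?_, sub_ne_zero.mpr hcκ⟩
        · have : c + b + (c - κ) = c + (c + (b - κ)) := by ring
          rw [this]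
          exact h2 c hc1
        · intro he
          apply hc2
          have : c = b + (c - κ) + (κ - b) := by ring
          rw [this, he, zero_add]
        · by_cases hpy : R.par v = y
          · simp only [hal, if_pos hpy]
            intro he
            exact hb0 (by rwa [add_eq_right] at he)
          · simp only [hal, if_neg hpy]
            intro he
            apply hc3
            rw [← he]
            ring
    · by_cases hpyy : R.par v' = y'
      · obtain ⟨bad, h1, h2⟩ := exists_ty_bad F (b + b)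
        refine ⟨bad ∪ {b + b + κ}, ?_, ?_⟩
        · have e1 := Finset.card_union_le bad {b + b + κ}
          have e2 : ({b + b + κ} : Finset (ZMod m)).card = 1 := Finset.card_singleton _
          omega
        · intro c hc hcκ
          simp only [mem_union, mem_singleton, not_or] at hc
          obtain ⟨hc1, hc2⟩ := hc
          simp only [hbe, if_neg hpy', if_pos hpyy]
          refine ⟨?_, hb20, ?_, hb0⟩
          · rw [add_assoc]
            exact h2 c hc1
          · by_cases hpy : R.par v = y
            · simp only [hal, if_pos hpy]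
              intro he
              apply hc2
              rw [he]
              ring
            · simp only [hal, if_neg hpy]
              exact hb2l
      · have hpB' : R.par v' ∈ B := by
          rcases hvp' with h1 | h1 | h1
          · exact h1
          · exact absurd h1 hpy'
          · exact absurd h1 hpyy
        obtain ⟨bad, h1, h2⟩ := exists_ty_bad F (b + mu)
        refine ⟨bad ∪ {b + mu + κ}, ?_, ?_⟩
        · have e1 := Finset.card_union_le bad {b + mu + κ}
          have e2 : ({b + mu + κ} : Finset (ZMod m)).card = 1 := Finset.card_singleton _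
          omega
        · intro c hc hcκ
          simp only [mem_union, mem_singleton, not_or] at hc
          obtain ⟨hc1, hc2⟩ := hc
          simp only [hbe, if_neg hpy', if_neg hpyy]
          refine ⟨?_, ?_, ?_, hpar0 hvc' hvo' hpB' hvr'⟩
          · rw [add_assoc]
            exact h2 c hc1
          · intro he
            apply hbmu
            have : b = b + mu - mu := by ring
            rw [this, he, zero_sub]
          · by_cases hpy : R.par v = y
            · simp only [hal, if_pos hpy]
              intro he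
              apply hc2
              rw [he]
              ring
            · simp only [hal, if_neg hpy]
              intro he
              apply hblm
              rw [← he]
              ring
  -- choice of `c`
  obtain ⟨c, hc⟩ := exists_avoid ((R.evl B lab ∪ Z.all).image (fun a => a + κ) ∪
    (F ∪ (bad3 ∪ (bad4 ∪ (bad5 ∪ (bad6 ∪ bad7)))))) (by
      have e1 := Finset.card_union_le ((R.evl B lab ∪ Z.all).image (fun a => a + κ))
        (F ∪ (bad3 ∪ (bad4 ∪ (bad5 ∪ (bad6 ∪ bad7)))))
      have e2 := Finset.card_union_le F (bad3 ∪ (bad4 ∪ (bad5 ∪ (bad6 ∪ bad7))))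
      have e3 := Finset.card_union_le bad3 (bad4 ∪ (bad5 ∪ (bad6 ∪ bad7)))
      have e4 := Finset.card_union_le bad4 (bad5 ∪ (bad6 ∪ bad7))
      have e5 := Finset.card_union_le bad5 (bad6 ∪ bad7)
      have e6 := Finset.card_union_le bad6 bad7
      have e7 := Finset.card_union_le (R.evl B lab) Z.all
      have e8 := Finset.card_image_le (s := R.evl B lab ∪ Z.all) (f := fun a => a + κ)
      omega)
  simp only [mem_union, not_or] at hc
  obtain ⟨hc1, hcF, hc3, hc4, hc5, hc6, hc7⟩ := hc
  have hcE' : c - κ ∉ R.evl B lab := fun hcon =>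
    hc1 (Finset.mem_image.mpr ⟨c - κ, Finset.mem_union_left _ hcon, by ring⟩)
  have hcZ : c - κ ∉ Z.all := fun hcon =>
    hc1 (Finset.mem_image.mpr ⟨c - κ, Finset.mem_union_right _ hcon, by ring⟩)
  have hsep : ∀ u ∈ B, lab u - c ∉ near3 m := by
    intro u hu
    have := hprop3 c hc3 u hu
    rwa [add_zero] at this
  have hcκ : c ≠ κ := by
    intro he
    apply hsep p hp
    rw [← hκ, he, sub_self]
    exact zero_near3
  obtain ⟨q1, q2, q3, q4⟩ := hprop7 c hc7 hcκ
  -- the labelling
  have n1 : y ≠ v := h01 hyd hvo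
  have n2 : y ≠ v' := h01 hyd hvo'
  have n3 : y' ≠ v := h01 hyd' hvo
  have n4 : y' ≠ v' := h01 hyd' hvo'
  set lab' := Function.update (Function.update (Function.update (Function.update lab y (c - κ))
    v c) y' b) v' (c + b) with hlab'
  have hl : ∀ u ∈ B, lab' u = lab u := by
    intro u hu
    have u1 : u ≠ y := fun he => hy (he ▸ hu)
    have u2 : u ≠ v := fun he => hv (he ▸ hu)
    have u3 : u ≠ y' := fun he => hy' (he ▸ hu)
    have u4 : u ≠ v' := fun he => hv' (he ▸ hu)
    rw [hlab', Function.update_of_ne u4, Function.update_of_ne u3, Function.update_of_ne u2,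
      Function.update_of_ne u1]
  have hly : lab' y = c - κ := by
    rw [hlab', Function.update_of_ne n2, Function.update_of_ne hyy'.symm, Function.update_of_ne n1,
      Function.update_self]
  have hlv : lab' v = c := by
    rw [hlab', Function.update_of_ne hvv'.symm, Function.update_of_ne n3.symm, Function.update_self]
  have hly' : lab' y' = b := by
    rw [hlab', Function.update_of_ne n4, Function.update_self]
  have hlv' : lab' v' = c + b := by
    rw [hlab', Function.update_self]
  have hal' : lab' (R.par v) = al c := by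
    by_cases hpy : R.par v = y
    · simp only [hal, if_pos hpy]
      rw [hpy, hly]
    · simp only [hal, if_neg hpy]
      exact hl _ (hvp.resolve_right hpy)
  have hbe' : lab' (R.par v') = be c := by
    by_cases hpy' : R.par v' = y
    · simp only [hbe, if_pos hpy']
      rw [hpy', hly]
    · by_cases hpyy : R.par v' = y'
      · simp only [hbe, if_neg hpy', if_pos hpyy]
        rw [hpyy, hly']
      · simp only [hbe, if_neg hpy', if_neg hpyy]
        refine hl _ ?_
        rcases hvp' with h1 | h1 | h1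
        · exact h1
        · exact absurd h1 hpy'
        · exact absurd h1 hpyy
  have hal0 : al c ≠ 0 := by
    by_cases hpy : R.par v = y
    · simp only [hal, if_pos hpy]
      exact sub_ne_zero.mpr hcκ
    · simp only [hal, if_neg hpy]
      exact hpar0 hvc hvo (hvp.resolve_right hpy) hvr
  have hbal : b ≠ al c := by
    by_cases hpy : R.par v = y
    · simp only [hal, if_pos hpy]
      intro he
      exact hcZ (he ▸ hball)
    · simp only [hal, if_neg hpy]
      intro he
      apply hbu
      rw [he]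
      refine mem_evl (hvp.resolve_right hpy) ?_
      have h1 := par_parity hvc
      rw [hvo] at h1
      have h2 : (R.dep (R.par v) : ZMod 2) + 1 = 0 + 1 := by rw [← h1, zero_add]
      exact add_right_cancel h2
  refine ⟨lab', hl, hly', by rw [hly]; exact hcZ, ?_⟩
  refine double_core h hp hpo hyc hyp hvc hvo hvp hyc' hyp' hvc' hvo' hvp' hS hJ hl hly hlv hly'
    hlv' hcE' hcF hcZ (fun u hu _ => hsep u hu) ?_ ?_ hb hbu (hprop5 c hc5) ?_ hb5
    (fun u hu _ => hprop6 c hc6 u hu) ?_ ?_ ?_ ?_
  · rw [hal']; exact hprop4 c hc4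
  · rw [hal']; exact hal0
  · rw [hal']; exact hbal
  · rw [hbe']; exact q1
  · rw [hbe']; exact q2
  · rw [hbe', hal']; exact q3
  · rw [hbe']; exact q4

end Pool.Agent.Lib.MP_c5b475_co
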