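import Pool.Agent.Lib.MP_c5b475_co.Few.LAK
import Pool.Agent.Lib.MP_c5b475_co.Few.LG2

set_option autoImplicit false

/-!
# The linear law: the root stage (RS)
-/

namespace Pool.Agent.Lib.MP_c5b475_co

open Finset

section placement

variable {U : Type*} [DecidableEq U] {T : SimpleGraph U} {R : RT T} {m : ℕ} [NeZero m]
  {Z : Zones U m} {A : Finset U} {des : U → U}

omit [DecidableEq U] in
theorem lrs_parity {u : U} (hu : u ≠ R.c) : (R.dep u : ZMod 2) = R.dep (R.par u) + 1 := by
  rw [← R.dep_par u hu]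
  push_cast
  ring

/-- Adding a child of the root and some of its children. -/
theorem lrs_root_add (ω : ℕ → ℕ) {B K : Finset U} {lab : U → ZMod m} (N : ℕ) {v : U}
    (hN : (insert v B ∪ K).card ≤ N) (hm : 4096 * N ≤ m) (hZ : Z.all.card ≤ N)
    (hSA : ∀ x ∈ Z.S, (R.dep x : ZMod 2) = 0) (hg : R.GoodL Z B lab) (hacc : R.Acc Z ω B lab)
    (hvB : v ∉ B) (hvc : v ≠ R.c) (hvp : R.par v = R.c)
    (hK : ∀ x ∈ K, x ∉ insert v B ∧ x ≠ R.c ∧ R.par x = v) :
    ∃ lab' : U → ZMod m, R.GoodL Z (insert v B ∪ K) lab' ∧ R.Acc Z ω (insert v B ∪ K) lab' := by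
  have hvo : (R.dep v : ZMod 2) = 1 := by
    rw [lrs_parity hvc, hvp, R.dep_c]
    norm_num
  obtain ⟨bad, hbad, hgood⟩ := good_root hg hvB hvc hvp
  have hBN : B.card ≤ N := le_trans (Finset.card_le_card
    ((Finset.subset_insert v B).trans Finset.subset_union_left)) hN
  have hne : ∀ u ∈ B, u ≠ v := fun u hu h => hvB (h ▸ hu)
  obtain ⟨c, -, lab', -, h1, h2⟩ := avg_kids ω (B0 := B) (B1 := insert v B) (K := K) (lab := lab) N
    hN hm hZ (Finset.subset_insert v B) hg.placed.root_mem
    (by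
      intro x hx hxS
      rcases Finset.mem_insert.mp hx with rfl | hx
      · have := hSA x hxS
        rw [hvo] at this
        exact absurd this (by decide)
      · exact hx)
    hacc (Finset.mem_insert_self v B) hvo hK (fun c => Function.update lab v c) bad (by omega)
    (by
      intro c hc
      refine ⟨hgood c hc, fun u hu => Function.update_of_ne (hne u hu) _ _,
        Function.update_self _ _ _, ?_⟩
      intro b _ hb0 hb
      obtain ⟨u, hu, hub⟩ := Finset.mem_image.mp hb
      obtain ⟨huc, hu⟩ := Finset.mem_erase.mp hu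
      rcases Finset.mem_insert.mp hu with rfl | hu
      · exfalso
        apply hb0
        rw [Function.update_self, hvp, Function.update_of_ne (hne _ hg.placed.root_mem),
          hg.placed.root_lab] at hub
        simpa using hub.symm
      · rw [Function.update_of_ne (hne _ hu),
          Function.update_of_ne (hne _ (hg.placed.par_mem u hu huc))] at hub
        exact Finset.mem_image.mpr ⟨u, Finset.mem_erase.mpr ⟨huc, hu⟩, hub⟩)
  exact ⟨lab', h1, h2⟩

/-- RS. Root stage: the root and all its children in `A`, with their children except `des p0`. -/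
theorem root_stage (hA : R.Tr A des) {p0 : U} (hp0 : p0 ∈ A) (hp0c : p0 ≠ R.c)
    (hp0p : R.par p0 = R.c) (N : ℕ) (hN : A.card ≤ N) (hm : 4096 * N ≤ m) (hZ : Z.all.card ≤ N)
    (hSA : ∀ x ∈ Z.S, x ∈ A ∧ x ≠ R.c ∧ (R.dep x : ZMod 2) = 0) (hp0S : des p0 ∉ Z.S)
    (ω : ℕ → ℕ) (l : List U)
    (hl : ∀ v, v ∈ l ↔ v ∈ A ∧ v ≠ R.c ∧ (R.dep v : ZMod 2) = 1 ∧ R.par v ≠ R.c) :
    ∃ (B : Finset U) (lab : U → ZMod m), R.St Z A des l B p0 lab ∧ R.Acc Z ω B lab := by
  have z10 : (1 : ZMod 2) ≠ 0 := by decide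
  have z11 : (1 : ZMod 2) + 1 = 0 := by decide
  have hdc : (R.dep R.c : ZMod 2) = 0 := by rw [R.dep_c]; norm_num
  have hd1 : ∀ u, u ≠ R.c → R.par u = R.c → (R.dep u : ZMod 2) = 1 := by
    intro u hu hp
    rw [lrs_parity hu, hp, hdc, zero_add]
  have hd2 : ∀ u, u ≠ R.c → R.par u ≠ R.c → R.par (R.par u) = R.c → (R.dep u : ZMod 2) = 0 := by
    intro u hu hp hpp
    rw [lrs_parity hu, hd1 _ hp hpp, z11]
  have hp0o := hd1 p0 hp0c hp0p
  obtain ⟨hdA, hdc', hdp⟩ := hA.des_mem p0 hp0 hp0o
  have hS' : ∀ x ∈ Z.S, (R.dep x : ZMod 2) = 0 := fun x hx => (hSA x hx).2.2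
  have hcS : R.c ∉ Z.S := fun h => (hSA _ h).2.1 rfl
  -- the induction over the other children of the root
  have main : ∀ D : Finset U, (∀ x ∈ D, x ∈ A ∧ x ≠ R.c ∧ R.par x = R.c ∧ x ≠ p0) →
      ∃ (B : Finset U) (lab : U → ZMod m), (∀ x, x ∈ B ↔ x ∈ A ∧ (x = R.c ∨ x = p0 ∨
        (x ≠ R.c ∧ R.par x = p0 ∧ x ≠ des p0) ∨ x ∈ D ∨ (x ≠ R.c ∧ R.par x ∈ D))) ∧
        R.GoodL Z B lab ∧ R.Acc Z ω B lab := by
    intro D
    induction D using Finset.induction_on with
    | empty =>
      intro _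
      -- the root alone
      have hg0 : R.GoodL Z {R.c} (fun _ => (0 : ZMod m)) := by
        refine ⟨⟨Finset.mem_singleton_self _, ?_, rfl, ?_, ?_, ?_⟩, ?_, ?_⟩
        · intro u hu huc
          exact absurd (Finset.mem_singleton.mp hu) huc
        · intro u hu v hv _ _
          rw [Finset.mem_singleton.mp hu, Finset.mem_singleton.mp hv]
        · intro u hu v _ huc
          exact absurd (Finset.mem_singleton.mp hu) huc
        · intro u hu hd
          rw [Finset.mem_singleton.mp hu, hdc] at hd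
          exact absurd hd.symm z10
        · intro u hu v hv _ _ huv
          exact absurd ((Finset.mem_singleton.mp hu).trans (Finset.mem_singleton.mp hv).symm) huv
        · intro u _ _ j hj hz
          exact absurd hz (Z.zero j hj)
      have ha0 : R.Acc Z ω {R.c} (fun _ => (0 : ZMod m)) := by
        unfold RT.Acc
        have h0 : ∀ j, (({R.c} : Finset U).filter
            (fun x => x ∈ Z.S ∧ Z.cl x = j ∧ (0 : ZMod m) ∉ Z.Λ j)).card = 0 := by
          intro j
          rw [Finset.card_eq_zero, Finset.filter_eq_empty_iff]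
          rintro x hx ⟨h, -⟩
          rw [Finset.mem_singleton.mp hx] at h
          exact hcS h
        simp only [h0, Nat.mul_zero, Finset.sum_const_zero]
        exact Nat.zero_le _
      set K : Finset U := A.filter (fun x => x ≠ R.c ∧ R.par x = p0 ∧ x ≠ des p0) with hKdef
      have hKm : ∀ x, x ∈ K ↔ x ∈ A ∧ x ≠ R.c ∧ R.par x = p0 ∧ x ≠ des p0 := by
        intro x
        rw [hKdef, Finset.mem_filter]
      have hsub : insert p0 {R.c} ∪ K ⊆ A := by
        intro x hx
        rcases Finset.mem_union.mp hx with h | h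
        · rcases Finset.mem_insert.mp h with rfl | h
          · exact hp0
          · rw [Finset.mem_singleton.mp h]
            exact hA.root_mem
        · exact ((hKm x).mp h).1
      obtain ⟨lab', h1, h2⟩ := lrs_root_add ω (B := {R.c}) (K := K) N
        ((Finset.card_le_card hsub).trans hN) hm hZ hS' hg0 ha0
        (fun h => hp0c (Finset.mem_singleton.mp h)) hp0c hp0p (by
          intro x hx
          obtain ⟨-, hx1, hx2, -⟩ := (hKm x).mp hx
          refine ⟨?_, hx1, hx2⟩
          intro h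
          rcases Finset.mem_insert.mp h with rfl | h
          · exact hp0c (hx2.symm.trans hp0p)
          · exact hx1 (Finset.mem_singleton.mp h))
      refine ⟨_, lab', ?_, h1, h2⟩
      intro x
      rw [Finset.mem_union, Finset.mem_insert, Finset.mem_singleton, hKm]
      constructor
      · rintro ((rfl | rfl) | ⟨h1, h2⟩)
        · exact ⟨hp0, Or.inr (Or.inl rfl)⟩
        · exact ⟨hA.root_mem, Or.inl rfl⟩
        · exact ⟨h1, Or.inr (Or.inr (Or.inl h2))⟩
      · rintro ⟨h0, h | h | h | h | ⟨-, h⟩⟩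
        · exact Or.inl (Or.inr h)
        · exact Or.inl (Or.inl h)
        · exact Or.inr ⟨h0, h⟩
        · exact absurd h (Finset.notMem_empty _)
        · exact absurd h (Finset.notMem_empty _)
    | insert v D hvD ih =>
      intro hD
      obtain ⟨B, lab, hB, hg, hacc⟩ := ih (fun x hx => hD x (Finset.mem_insert_of_mem hx))
      obtain ⟨hvA, hvc, hvp, hvp0⟩ := hD v (Finset.mem_insert_self _ _)
      have hvB : v ∉ B := by
        intro h
        rcases ((hB v).mp h).2 with h | h | ⟨-, h, -⟩ | h | ⟨-, h⟩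
        · exact hvc h
        · exact hvp0 h
        · exact hp0c (h.symm.trans hvp)
        · exact hvD h
        · rw [hvp] at h
          exact (hD _ (Finset.mem_insert_of_mem h)).2.1 rfl
      set K : Finset U := A.filter (fun x => x ≠ R.c ∧ R.par x = v) with hKdef
      have hKm : ∀ x, x ∈ K ↔ x ∈ A ∧ x ≠ R.c ∧ R.par x = v := by
        intro x
        rw [hKdef, Finset.mem_filter]
      have hsub : insert v B ∪ K ⊆ A := by
        intro x hx
        rcases Finset.mem_union.mp hx with h | h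
        · rcases Finset.mem_insert.mp h with rfl | h
          · exact hvA
          · exact ((hB x).mp h).1
        · exact ((hKm x).mp h).1
      obtain ⟨lab', h1, h2⟩ := lrs_root_add ω (B := B) (K := K) N
        ((Finset.card_le_card hsub).trans hN) hm hZ hS' hg hacc hvB hvc hvp (by
          intro x hx
          obtain ⟨-, hx1, hx2⟩ := (hKm x).mp hx
          refine ⟨?_, hx1, hx2⟩
          intro h
          rcases Finset.mem_insert.mp h with rfl | h
          · exact hvc (hx2.symm.trans hvp)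
          · rcases ((hB x).mp h).2 with h | h | ⟨-, h, -⟩ | h | ⟨-, h⟩
            · exact hx1 h
            · rw [h, hp0p] at hx2
              exact hvc hx2.symm
            · exact hvp0 (hx2.symm.trans h)
            · have := (hD _ (Finset.mem_insert_of_mem h)).2.2.1
              exact hvc (hx2.symm.trans this)
            · rw [hx2] at h
              exact hvD h)
      refine ⟨_, lab', ?_, h1, h2⟩
      intro x
      rw [Finset.mem_union, Finset.mem_insert, hKm, hB, Finset.mem_insert, Finset.mem_insert]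
      constructor
      · rintro ((rfl | ⟨h0, h⟩) | ⟨h0, h1, h2⟩)
        · exact ⟨hvA, Or.inr (Or.inr (Or.inr (Or.inl (Or.inl rfl))))⟩
        · refine ⟨h0, ?_⟩
          rcases h with h | h | h | h | ⟨h', h⟩
          · exact Or.inl h
          · exact Or.inr (Or.inl h)
          · exact Or.inr (Or.inr (Or.inl h))
          · exact Or.inr (Or.inr (Or.inr (Or.inl (Or.inr h))))
          · exact Or.inr (Or.inr (Or.inr (Or.inr ⟨h', Or.inr h⟩)))
        · exact ⟨h0, Or.inr (Or.inr (Or.inr (Or.inr ⟨h1, Or.inl h2⟩)))⟩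
      · rintro ⟨h0, h | h | h | (h | h) | ⟨h', h | h⟩⟩
        · exact Or.inl (Or.inr ⟨h0, Or.inl h⟩)
        · exact Or.inl (Or.inr ⟨h0, Or.inr (Or.inl h)⟩)
        · exact Or.inl (Or.inr ⟨h0, Or.inr (Or.inr (Or.inl h))⟩)
        · exact Or.inl (Or.inl h)
        · exact Or.inl (Or.inr ⟨h0, Or.inr (Or.inr (Or.inr (Or.inl h)))⟩)
        · exact Or.inr ⟨h0, h', h⟩
        · exact Or.inl (Or.inr ⟨h0, Or.inr (Or.inr (Or.inr (Or.inr ⟨h', h⟩)))⟩)
  set D : Finset U := A.filter (fun x => x ≠ R.c ∧ R.par x = R.c ∧ x ≠ p0) with hDdef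
  have hDm : ∀ x, x ∈ D ↔ x ∈ A ∧ x ≠ R.c ∧ R.par x = R.c ∧ x ≠ p0 := by
    intro x
    rw [hDdef, Finset.mem_filter]
  obtain ⟨B, lab, hB, hg, hacc⟩ := main D (fun x hx => (hDm x).mp hx)
  have hpar2 : ∀ x, x ≠ R.c → (R.par x = p0 ∨ R.par x ∈ D) → (R.dep x : ZMod 2) = 0 := by
    intro x hx h
    rcases h with h | h
    · exact hd2 x hx (h ▸ hp0c) (by rw [h, hp0p])
    · obtain ⟨-, h1, h2, -⟩ := (hDm _).mp h
      exact hd2 x hx h1 h2
  refine ⟨B, lab, ⟨hg, fun x hx => ((hB x).mp hx).1, (hB p0).mpr ⟨hp0, Or.inr (Or.inl rfl)⟩,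
    hp0o, ?_, ?_, ?_, ?_⟩, hacc⟩
  · intro h
    rcases ((hB _).mp h).2 with h | h | ⟨-, -, h⟩ | h | ⟨-, h⟩
    · exact hdc' h
    · rw [h, hp0p] at hdp
      exact hp0c hdp.symm
    · exact h rfl
    · have h3 := ((hDm _).mp h).2.2.1
      exact hp0c (hdp.symm.trans h3)
    · rw [hdp] at h
      exact ((hDm _).mp h).2.2.2 rfl
  · intro w hw hwc hpw hdw
    have hodd : (R.dep (R.par w) : ZMod 2) = 1 := by
      have h1 := lrs_parity (R := R) hwc
      rw [hdw] at h1
      have h2 : (R.dep (R.par w) : ZMod 2) + 1 + 1 = 0 + 1 := by rw [← h1]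
      rwa [add_assoc, z11, add_zero, zero_add] at h2
    rcases ((hB _).mp hpw).2 with h | h | ⟨h1, h, -⟩ | h | ⟨h1, h⟩
    · rw [h, hdc] at hodd
      exact absurd hodd.symm z10
    · by_cases hd : w = des p0
      · exact Or.inr ⟨h, hd⟩
      · exact Or.inl ((hB w).mpr ⟨hw, Or.inr (Or.inr (Or.inl ⟨hwc, h, hd⟩))⟩)
    · rw [hpar2 _ h1 (Or.inl h)] at hodd
      exact absurd hodd.symm z10
    · exact Or.inl ((hB w).mpr ⟨hw, Or.inr (Or.inr (Or.inr (Or.inr ⟨hwc, h⟩)))⟩)
    · rw [hpar2 _ h1 (Or.inr h)] at hodd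
      exact absurd hodd.symm z10
  · intro w hw hwc hpw
    by_cases h : w = p0
    · exact (hB w).mpr ⟨hw, Or.inr (Or.inl h)⟩
    · exact (hB w).mpr ⟨hw, Or.inr (Or.inr (Or.inr (Or.inl ((hDm w).mpr ⟨hw, hwc, hpw, h⟩))))⟩
  · intro v hv hvc hdv hpv
    have h1 : v ∈ l := (hl v).mpr ⟨hv, hvc, hdv, hpv⟩
    have h2 : v ∉ B := by
      intro h
      rcases ((hB v).mp h).2 with h | h | ⟨h1, h, -⟩ | h | ⟨h1, h⟩
      · exact hvc h
      · rw [h, hp0p] at hpv
        exact hpv rfl
      · rw [hpar2 _ h1 (Or.inl h)] at hdv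
        exact absurd hdv.symm z10
      · exact hpv ((hDm v).mp h).2.2.1
      · rw [hpar2 _ h1 (Or.inr h)] at hdv
        exact absurd hdv.symm z10
    exact ⟨fun _ => h2, fun _ => h1⟩

end placement

end Pool.Agent.Lib.MP_c5b475_co
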