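import Pool.Agent.Lib.MP_c5b475_co.Few.LG1
import Pool.Agent.Lib.MP_c5b475_co.Few.LG5
import Pool.Agent.Lib.MP_c5b475_co.Few.LPK

/-! Module SP: pair step. -/

set_option autoImplicit false

namespace Pool.Agent.Lib.MP_c5b475_co

open Finset

namespace LSP

variable {U : Type*} [DecidableEq U] {T : SimpleGraph U} {R : RT T} {m : ℕ} [NeZero m]
  {Z : Zones U m} {A : Finset U} {des : U → U}

theorem exists_avoid {m : ℕ} [NeZero m] (S : Finset (ZMod m)) (h : S.card < m) :
    ∃ x, x ∉ S := by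
  by_contra hcon
  push Not at hcon
  have h1 : S = univ := Finset.eq_univ_iff_forall.mpr hcon
  rw [h1, Finset.card_univ, ZMod.card] at h
  exact lt_irrefl _ h

theorem dep_cast {u : U} (hu : u ≠ R.c) : (R.dep u : ZMod 2) = R.dep (R.par u) + 1 := by
  rw [← R.dep_par u hu]; push_cast; ring

theorem even_of_odd {u : U} (hu : u ≠ R.c) (h : (R.dep u : ZMod 2) = 1) :
    (R.dep (R.par u) : ZMod 2) = 0 := by
  rw [dep_cast hu] at h
  generalize (R.dep (R.par u) : ZMod 2) = a at h
  revert a; decide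

theorem odd_of_even {u : U} (hu : u ≠ R.c) (h : (R.dep u : ZMod 2) = 0) :
    (R.dep (R.par u) : ZMod 2) = 1 := by
  rw [dep_cast hu] at h
  generalize (R.dep (R.par u) : ZMod 2) = a at h
  revert a; decide

theorem even_child {u : U} (hu : u ≠ R.c) (h : (R.dep (R.par u) : ZMod 2) = 1) :
    (R.dep u : ZMod 2) = 0 := by
  rw [dep_cast hu, h]; decide

theorem odd_child {u : U} (hu : u ≠ R.c) (h : (R.dep (R.par u) : ZMod 2) = 0) :
    (R.dep u : ZMod 2) = 1 := by
  rw [dep_cast hu, h]; decide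

theorem c_even : (R.dep R.c : ZMod 2) = 0 := by rw [R.dep_c]; simp

theorem ne_c_of_odd {u : U} (h : (R.dep u : ZMod 2) = 1) : u ≠ R.c := by
  rintro rfl
  rw [c_even] at h
  exact absurd h (by decide)

theorem evl_mono {B B' : Finset U} {lab lab' : U → ZMod m} (hs : B ⊆ B')
    (hl : ∀ u ∈ B, lab' u = lab u) : R.evl B lab ⊆ R.evl B' lab' := by
  intro a ha
  unfold RT.evl at ha ⊢
  rw [mem_image] at ha ⊢
  obtain ⟨u, hu, rfl⟩ := ha
  rw [mem_filter] at hu
  exact ⟨u, mem_filter.2 ⟨hs hu.1, hu.2⟩, hl u hu.1⟩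

/-- The last part of the pair step. -/
theorem finish (hA : R.Tr A des) (N : ℕ) (hN : A.card ≤ N) (hm : 4096 * N ≤ m)
    (hZ : Z.all.card ≤ N) (hSA : ∀ x ∈ Z.S, x ∈ A ∧ x ≠ R.c ∧ (R.dep x : ZMod 2) = 0) (ω : ℕ → ℕ)
    {v v' p : U} {l : List U} {B : Finset U} {lab : U → ZMod m}
    (hSt : R.St Z A des (v :: v' :: l) B p lab) (hAcc : R.Acc Z ω B lab) (hpS : des p ∉ Z.S)
    (hvS : ∀ w ∈ A, w ≠ R.c → R.par w = v → w = des v)
    (hvS' : ∀ w ∈ A, w ≠ R.c → R.par w = v' → w ∉ Z.S) (hvl : v ∉ v' :: l) (hvl' : v' ∉ l)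
    (hmem : ∀ u ∈ v :: v' :: l, u ∈ A ∧ u ≠ R.c ∧ (R.dep u : ZMod 2) = 1 ∧ R.par u ≠ R.c)
    (lab4 : U → ZMod m) (hlab4 : ∀ u ∈ B, lab4 u = lab u)
    (hgood4 : R.GoodL Z (insert v' (insert (des v) (insert v (insert (des p) B)))) lab4)
    (hloss : ∀ j ∈ Z.J, (Z.Λ j).card < 512 * (Z.Λ j \ R.evl B lab).card →
      des v ∈ Z.S → Z.cl (des v) = j → lab4 (des v) ∈ Z.Λ j) :
    ∃ (B' : Finset U) (lab' : U → ZMod m), R.St Z A des l B' v' lab' ∧ R.Acc Z ω B' lab' := by
  have hv := hmem v (by simp)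
  have hv' := hmem v' (by simp)
  have hvB : v ∉ B := (hSt.rest_iff v hv.1 hv.2.1 hv.2.2.1 hv.2.2.2).1 (by simp)
  have hvB' : v' ∉ B := (hSt.rest_iff v' hv'.1 hv'.2.1 hv'.2.2.1 hv'.2.2.2).1 (by simp)
  have hvv : v ≠ v' := fun h => hvl (by rw [h]; simp)
  have hpA : p ∈ A := hSt.sub hSt.p_mem
  have hdp := hA.des_mem p hpA hSt.p_odd
  have hdv := hA.des_mem v hv.1 hv.2.2.1
  have hdv' := hA.des_mem v' hv'.1 hv'.2.2.1
  have hdpe : (R.dep (des p) : ZMod 2) = 0 := even_child hdp.2.1 (by rw [hdp.2.2]; exact hSt.p_odd)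
  have hdve : (R.dep (des v) : ZMod 2) = 0 := even_child hdv.2.1 (by rw [hdv.2.2]; exact hv.2.2.1)
  have hdve' : (R.dep (des v') : ZMod 2) = 0 :=
    even_child hdv'.2.1 (by rw [hdv'.2.2]; exact hv'.2.2.1)
  have hne01 : ∀ a b : U, (R.dep a : ZMod 2) = 0 → (R.dep b : ZMod 2) = 1 → a ≠ b := by
    rintro a b h0 h1 rfl
    rw [h0] at h1; exact absurd h1 (by decide)
  obtain ⟨B4, hB4⟩ : ∃ B4, B4 = insert v' (insert (des v) (insert v (insert (des p) B))) :=
    ⟨_, rfl⟩
  rw [← hB4] at hgood4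
  have hmem4 : ∀ u, u ∈ B4 ↔ u = v' ∨ u = des v ∨ u = v ∨ u = des p ∨ u ∈ B := by
    intro u; rw [hB4]; simp only [mem_insert]
  have hB4A : B4 ⊆ A := by
    intro u hu
    rcases (hmem4 u).1 hu with rfl | rfl | rfl | rfl | hu
    · exact hv'.1
    · exact hdv.1
    · exact hv.1
    · exact hdp.1
    · exact hSt.sub hu
  have hBB4 : B ⊆ B4 := fun u hu => (hmem4 u).2 (Or.inr (Or.inr (Or.inr (Or.inr hu))))
  -- no child of `v'` is in `B4`
  have hnokid : ∀ w, w ≠ R.c → R.par w = v' → w ∉ B4 := by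
    intro w hwc hwp hw
    rcases (hmem4 w).1 hw with rfl | rfl | rfl | rfl | hw
    · have := R.dep_par w hwc
      rw [hwp] at this
      omega
    · rw [hdv.2.2] at hwp; exact hvv hwp
    · have h1 := even_of_odd hv.2.1 hv.2.2.1
      rw [hwp] at h1
      exact hne01 _ _ h1 hv'.2.2.1 rfl
    · rw [hdp.2.2] at hwp
      rw [hwp] at hSt
      exact hvB' hSt.p_mem
    · have := hSt.good.placed.par_mem w hw hwc
      rw [hwp] at this
      exact hvB' this
  obtain ⟨K, hK⟩ : ∃ K : Finset U, K = A.filter (fun w => w ≠ R.c ∧ R.par w = v' ∧ w ≠ des v') :=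
    ⟨_, rfl⟩
  have hmemK : ∀ w, w ∈ K ↔ w ∈ A ∧ w ≠ R.c ∧ R.par w = v' ∧ w ≠ des v' := by
    intro w; rw [hK, mem_filter]
  have hKe : ∀ w ∈ K, (R.dep w : ZMod 2) = 0 := fun w hw => by
    have := (hmemK w).1 hw
    exact even_child this.2.1 (by rw [this.2.2.1]; exact hv'.2.2.1)
  have hcard : B4.card + K.card ≤ N := by
    rw [← card_union_of_disjoint]
    · refine (card_le_card ?_).trans hN
      apply union_subset hB4A
      intro w hw; exact ((hmemK w).1 hw).1
    · rw [disjoint_left]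
      intro w hw hwK
      have := (hmemK w).1 hwK
      exact hnokid w this.2.1 this.2.2.1 hw
  have hNpos : 1 ≤ N := by
    have : 0 < A.card := card_pos.2 ⟨_, hA.root_mem⟩
    omega
  obtain ⟨lab', h1, h2, -⟩ := place_kids hgood4 (v := v') ((hmem4 _).2 (Or.inl rfl)) hv'.2.2.1 K
    (fun x hx => by
      have := (hmemK x).1 hx
      exact ⟨hnokid x this.2.1 this.2.2.1, this.2.1, this.2.2.1⟩) (by omega)
  have hlabB : ∀ u ∈ B, lab' u = lab u := fun u hu => (h1 u (hBB4 hu)).trans (hlab4 u hu)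
  have hBsub : B ⊆ B4 ∪ K := fun u hu => mem_union_left _ (hBB4 hu)
  refine ⟨B4 ∪ K, lab', ?_, ?_⟩
  · refine ⟨h2, ?_, ?_, hv'.2.2.1, ?_, ?_, ?_, ?_⟩
    · apply union_subset hB4A
      intro w hw; exact ((hmemK w).1 hw).1
    · exact mem_union_left _ ((hmem4 _).2 (Or.inl rfl))
    · rw [mem_union, not_or]
      exact ⟨hnokid _ hdv'.2.1 hdv'.2.2, fun h => ((hmemK _).1 h).2.2.2 rfl⟩
    · intro w hwA hwc hwp hwe
      have hpo := odd_of_even hwc hwe
      rw [mem_union] at hwp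
      rcases hwp with hwp | hwp
      · rcases (hmem4 _).1 hwp with h | h | h | h | h
        · by_cases hd : w = des v'
          · exact Or.inr ⟨h, hd⟩
          · exact Or.inl (mem_union_right _ ((hmemK _).2 ⟨hwA, hwc, h, hd⟩))
        · rw [h] at hpo
          exact absurd (hdve.symm.trans hpo) (by decide)
        · left
          rw [hvS w hwA hwc h]
          exact mem_union_left _ ((hmem4 _).2 (Or.inr (Or.inl rfl)))
        · rw [h] at hpo
          exact absurd (hdpe.symm.trans hpo) (by decide)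
        · rcases hSt.kids w hwA hwc h hwe with h3 | ⟨-, h3⟩
          · exact Or.inl (hBsub h3)
          · left
            rw [h3]
            exact mem_union_left _ ((hmem4 _).2 (Or.inr (Or.inr (Or.inr (Or.inl rfl)))))
      · rw [hKe _ hwp] at hpo
        exact absurd hpo (by decide)
    · intro w hwA hwc hwp
      exact hBsub (hSt.rootkids w hwA hwc hwp)
    · intro u huA huc huo hup
      have h3 := hSt.rest_iff u huA huc huo hup
      constructor
      · intro hul hu
        have h4 : u ∉ B := h3.1 (List.mem_cons_of_mem _ (List.mem_cons_of_mem _ hul))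
        rw [mem_union] at hu
        rcases hu with hu | hu
        · rcases (hmem4 u).1 hu with h | h | h | h | h
          · exact hvl' (h ▸ hul)
          · exact hne01 _ _ hdve huo h.symm
          · exact hvl (List.mem_cons_of_mem _ (h ▸ hul))
          · exact hne01 _ _ hdpe huo h.symm
          · exact h4 h
        · exact hne01 _ _ (hKe u hu) huo rfl
      · intro hu
        have h4 : u ∈ v :: v' :: l := h3.2 (fun h => hu (hBsub h))
        rw [List.mem_cons, List.mem_cons] at h4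
        rcases h4 with rfl | rfl | h4
        · exact absurd (mem_union_left _ ((hmem4 _).2 (Or.inr (Or.inr (Or.inl rfl))))) hu
        · exact absurd (mem_union_left _ ((hmem4 _).2 (Or.inl rfl))) hu
        · exact h4
  · unfold RT.Acc at hAcc ⊢
    have hw : ∑ j ∈ Z.J, ω j * (B.filter (fun x => x ∈ Z.S ∧ Z.cl x = j)).card ≤
        ∑ j ∈ Z.J, ω j * ((B4 ∪ K).filter (fun x => x ∈ Z.S ∧ Z.cl x = j)).card := by
      apply sum_le_sum
      intro j _
      apply Nat.mul_le_mul_left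
      exact card_le_card (filter_subset_filter _ hBsub)
    refine le_trans ?_ (hAcc.trans hw)
    apply Nat.mul_le_mul_left
    have hfil : Z.J.filter (fun j => (Z.Λ j).card < 512 * (Z.Λ j \ R.evl (B4 ∪ K) lab').card) ⊆
        Z.J.filter (fun j => (Z.Λ j).card < 512 * (Z.Λ j \ R.evl B lab).card) := by
      intro j hj
      rw [mem_filter] at hj ⊢
      refine ⟨hj.1, hj.2.trans_le ?_⟩
      apply Nat.mul_le_mul_left
      exact card_le_card (sdiff_subset_sdiff (Subset.refl _) (evl_mono hBsub hlabB))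
    refine le_trans (sum_le_sum ?_) (sum_le_sum_of_subset hfil)
    intro j hj
    have hj' := mem_filter.1 (hfil hj)
    apply Nat.mul_le_mul_left
    apply card_le_card
    intro x hx
    rw [mem_filter] at hx ⊢
    obtain ⟨hx1, hxS, hxj, hxl⟩ := hx
    have hxe := (hSA x hxS).2.2
    rw [mem_union] at hx1
    rcases hx1 with hx1 | hx1
    · rcases (hmem4 x).1 hx1 with h | h | h | h | h
      · exact absurd h (hne01 _ _ hxe hv'.2.2.1)
      · exfalso
        apply hxl
        rw [h, h1 _ ((hmem4 _).2 (Or.inr (Or.inl rfl)))]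
        exact hloss j hj'.1 hj'.2 (h ▸ hxS) (h ▸ hxj)
      · exact absurd h (hne01 _ _ hxe hv.2.2.1)
      · exact absurd (h ▸ hxS) hpS
      · rw [hlabB x h] at hxl
        exact ⟨h, hxS, hxj, hxl⟩
    · have h3 := (hmemK x).1 hx1
      exact absurd hxS (hvS' x h3.1 h3.2.1 h3.2.2.1)

end LSP

open LSP in
/-- SP. Pair step: the designated child of `v` is its only child and is a candidate. -/
theorem step_pair {U : Type*} [DecidableEq U] {T : SimpleGraph U} {R : RT T} {m : ℕ} [NeZero m]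
    {Z : Zones U m} {A : Finset U} {des : U → U}
    (hA : R.Tr A des) (N : ℕ) (hN : A.card ≤ N) (hm : 4096 * N ≤ m)
    (hZ : Z.all.card ≤ N) (hSA : ∀ x ∈ Z.S, x ∈ A ∧ x ≠ R.c ∧ (R.dep x : ZMod 2) = 0) (ω : ℕ → ℕ)
    (hbig : ∀ j ∈ Z.J, 6656 ≤ (Z.Λ j).card)
    {v v' p : U} {l : List U} {B : Finset U} {lab : U → ZMod m}
    (hSt : R.St Z A des (v :: v' :: l) B p lab) (hAcc : R.Acc Z ω B lab) (hpS : des p ∉ Z.S)
    (hvS : ∀ w ∈ A, w ≠ R.c → R.par w = v → w = des v)
    (hvS' : ∀ w ∈ A, w ≠ R.c → R.par w = v' → w ∉ Z.S) (hvl : v ∉ v' :: l) (hvl' : v' ∉ l)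
    (hmem : ∀ u ∈ v :: v' :: l, u ∈ A ∧ u ≠ R.c ∧ (R.dep u : ZMod 2) = 1 ∧ R.par u ≠ R.c)
    (hsort : ∀ u ∈ v' :: l, R.dep v ≤ R.dep u) (hsort' : ∀ u ∈ l, R.dep v' ≤ R.dep u) :
    ∃ (B' : Finset U) (lab' : U → ZMod m), R.St Z A des l B' v' lab' ∧ R.Acc Z ω B' lab' := by
  have hv := hmem v (by simp)
  have hv' := hmem v' (by simp)
  have hvB : v ∉ B := (hSt.rest_iff v hv.1 hv.2.1 hv.2.2.1 hv.2.2.2).1 (by simp)
  have hvB' : v' ∉ B := (hSt.rest_iff v' hv'.1 hv'.2.1 hv'.2.2.1 hv'.2.2.2).1 (by simp)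
  have hvv : v ≠ v' := fun h => hvl (by rw [h]; simp)
  have hpA : p ∈ A := hSt.sub hSt.p_mem
  have hdp := hA.des_mem p hpA hSt.p_odd
  have hdv := hA.des_mem v hv.1 hv.2.2.1
  have hdpe : (R.dep (des p) : ZMod 2) = 0 := even_child hdp.2.1 (by rw [hdp.2.2]; exact hSt.p_odd)
  have hdve : (R.dep (des v) : ZMod 2) = 0 := even_child hdv.2.1 (by rw [hdv.2.2]; exact hv.2.2.1)
  have hne01 : ∀ a b : U, (R.dep a : ZMod 2) = 0 → (R.dep b : ZMod 2) = 1 → a ≠ b := by
    rintro a b h0 h1 rfl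
    rw [h0] at h1; exact absurd h1 (by decide)
  have hdvB : des v ∉ B := fun h => by
    have := hSt.good.placed.par_mem _ h hdv.2.1
    rw [hdv.2.2] at this
    exact hvB this
  have hdpv : des v ≠ des p := fun h => by
    have : R.par (des v) = R.par (des p) := by rw [h]
    rw [hdv.2.2, hdp.2.2] at this
    exact hvB (this ▸ hSt.p_mem)
  -- the grandparent of a vertex of the rest
  have hgp : ∀ u ∈ v :: v' :: l, (R.par (R.par u) ∈ B ∨ R.par (R.par u) ∈ v :: v' :: l) ∧
      R.par u ∈ A ∧ (R.dep (R.par u) : ZMod 2) = 0 ∧ R.dep (R.par (R.par u)) + 2 = R.dep u := by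
    intro u hu
    have h := hmem u hu
    have hwA := hA.par_mem u h.1 h.2.1
    have hwe := even_of_odd h.2.1 h.2.2.1
    have hgA := hA.par_mem _ hwA h.2.2.2
    have hgo := odd_of_even h.2.2.2 hwe
    have hgc := ne_c_of_odd (R := R) hgo
    have hd1 := R.dep_par u h.2.1
    have hd2 := R.dep_par _ h.2.2.2
    refine ⟨?_, hwA, hwe, by omega⟩
    by_cases hgr : R.par (R.par (R.par u)) = R.c
    · exact Or.inl (hSt.rootkids _ hgA hgc hgr)
    · by_cases hgB : R.par (R.par u) ∈ B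
      · exact Or.inl hgB
      · exact Or.inr ((hSt.rest_iff _ hgA hgc hgo hgr).2 hgB)
  have hkid : ∀ u ∈ v :: v' :: l, R.par (R.par u) ∈ B → R.par u ∈ B ∨ R.par u = des p := by
    intro u hu hB
    have h := hgp u hu
    rcases hSt.kids _ h.2.1 (hmem u hu).2.2.2 hB h.2.2.1 with h3 | ⟨-, h3⟩
    · exact Or.inl h3
    · exact Or.inr h3
  have hparv : R.par v ∈ B ∨ R.par v = des p := by
    have h := hgp v (by simp)
    refine hkid v (by simp) ?_
    rcases h.1 with h1 | h1
    · exact h1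
    · exfalso
      rw [List.mem_cons] at h1
      rcases h1 with h1 | h1
      · have := h.2.2.2
        rw [h1] at this
        omega
      · have := hsort _ h1
        have := h.2.2.2
        omega
  have hparv' : R.par v' ∈ B ∨ R.par v' = des p ∨ R.par v' = des v := by
    have h := hgp v' (by simp)
    rcases h.1 with h1 | h1
    · rcases hkid v' (by simp) h1 with h2 | h2
      · exact Or.inl h2
      · exact Or.inr (Or.inl h2)
    · rw [List.mem_cons, List.mem_cons] at h1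
      rcases h1 with h1 | h1 | h1
      · exact Or.inr (Or.inr (hvS _ h.2.1 hv'.2.2.2 h1))
      · exfalso
        have := h.2.2.2
        rw [h1] at this
        omega
      · exfalso
        have := hsort' _ h1
        have := h.2.2.2
        omega
  have hNpos : 1 ≤ N := by
    have : 0 < A.card := card_pos.2 ⟨_, hA.root_mem⟩
    omega
  have hBN : B.card ≤ N := (card_le_card hSt.sub).trans hN
  have hvdp : v ≠ des p := (hne01 _ _ hdpe hv.2.2.1).symm
  have hvdp' : v' ≠ des p := (hne01 _ _ hdpe hv'.2.2.1).symm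
  have hvdv : v ≠ des v := (hne01 _ _ hdve hv.2.2.1).symm
  have hvdv' : v' ≠ des v := (hne01 _ _ hdve hv'.2.2.1).symm
  -- generic step
  have hgen : (∀ j ∈ Z.J, (Z.Λ j).card < 512 * (Z.Λ j \ R.evl B lab).card →
      des v ∈ Z.S → Z.cl (des v) = j → False) →
      ∃ (B' : Finset U) (lab' : U → ZMod m), R.St Z A des l B' v' lab' ∧ R.Acc Z ω B' lab' := by
    intro hno
    obtain ⟨bad, hb1, hb2⟩ := good_two hSt.good hSt.p_mem hSt.p_odd hSt.des_notMem hdp.2.1 hdp.2.2
      hvB hv.2.1 hv.2.2.1 hparv hv.2.2.2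
    obtain ⟨c, hc⟩ := exists_avoid bad (by omega)
    have hg2 := hb2 c hc
    obtain ⟨lab2, hlab2⟩ : ∃ lab2, lab2 = Function.update (Function.update lab (des p)
      (c - lab p)) v c := ⟨_, rfl⟩
    rw [← hlab2] at hg2
    have hl2 : ∀ u ∈ B, lab2 u = lab u := by
      intro u hu
      rw [hlab2, Function.update_of_ne (fun h : u = v => hvB (h ▸ hu)),
        Function.update_of_ne (fun h : u = des p => hSt.des_notMem (h ▸ hu))]
    have hB2 : ∀ u, u ∈ insert v (insert (des p) B) ↔ u = v ∨ u = des p ∨ u ∈ B := by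
      intro u; simp only [mem_insert]
    have hcard2 : (insert v (insert (des p) B)).card ≤ N := by
      refine (card_le_card ?_).trans hN
      intro u hu
      rcases (hB2 u).1 hu with rfl | rfl | h
      · exact hv.1
      · exact hdp.1
      · exact hSt.sub h
    obtain ⟨bad', hb1', hb2'⟩ := good_two hg2 (p := v) (y := des v) (v := v')
      ((hB2 _).2 (Or.inl rfl)) hv.2.2.1
      (fun h => by
        rcases (hB2 _).1 h with h | h | h
        · exact hvdv h.symm
        · exact hdpv h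
        · exact hdvB h) hdv.2.1 hdv.2.2
      (fun h => by
        rcases (hB2 _).1 h with h | h | h
        · exact hvv h.symm
        · exact hvdp' h
        · exact hvB' h) hv'.2.1 hv'.2.2.1
      (by
        rcases hparv' with h | h | h
        · exact Or.inl ((hB2 _).2 (Or.inr (Or.inr h)))
        · exact Or.inl ((hB2 _).2 (Or.inr (Or.inl h)))
        · exact Or.inr h) hv'.2.2.2
    obtain ⟨c', hc'⟩ := exists_avoid bad' (by omega)
    refine finish hA N hN hm hZ hSA ω hSt hAcc hpS hvS hvS' hvl hvl' hmem _ ?_ (hb2' c' hc')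
      (fun j hj h1 h2 h3 => (hno j hj h1 h2 h3).elim)
    intro u hu
    rw [Function.update_of_ne (fun h : u = v' => hvB' (h ▸ hu)),
      Function.update_of_ne (fun h : u = des v => hdvB (h ▸ hu)), hl2 u hu]
  by_cases hS : des v ∈ Z.S
  · by_cases hJ : Z.cl (des v) ∈ Z.J
    · obtain ⟨exc, hexc, hdouble⟩ := good_double hSt.good (by omega) hSt.p_mem hSt.p_odd
        hSt.des_notMem hdp.2.1 hdp.2.2 hvB hv.2.1 hv.2.2.1 hparv hv.2.2.2 hdvB hdpv hdv.2.1
        hdv.2.2 hvB' (Ne.symm hvv) hv'.2.1 hv'.2.2.1 hparv' hv'.2.2.2 hS hJ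
      by_cases hex : ∃ b ∈ Z.Λ (Z.cl (des v)), b ∉ R.evl B lab ∧ b ∉ exc
      · obtain ⟨b, hb1, hb2, hb3⟩ := hex
        obtain ⟨lab', hl1, hl2, -, hl4⟩ := hdouble b hb1 hb2 hb3
        refine finish hA N hN hm hZ hSA ω hSt hAcc hpS hvS hvS' hvl hvl' hmem lab' hl1 hl4 ?_
        intro j _ _ _ hj
        rw [hl2, ← hj]
        exact hb1
      · apply hgen
        intro j hj h1 _ h3
        push Not at hex
        rw [h3] at hex
        have hsub : Z.Λ j \ R.evl B lab ⊆ exc := by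
          intro b hb
          rw [mem_sdiff] at hb
          exact hex b hb.1 hb.2
        have := card_le_card hsub
        have := hbig j hj
        omega
    · exact hgen (fun j hj _ _ h3 => hJ (h3 ▸ hj))
  · exact hgen (fun j _ _ h2 _ => hS h2)

end Pool.Agent.Lib.MP_c5b475_co
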