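import Pool.Agent.Lib.MP_c5b475_co.Few.LG1
import Pool.Agent.Lib.MP_c5b475_co.Few.LAK

set_option autoImplicit false

/-!
# The linear law: single step (SS)
-/

namespace Pool.Agent.Lib.MP_c5b475_co

open Finset

section step

variable {U : Type*} [DecidableEq U] {T : SimpleGraph U} {R : RT T} {m : ℕ} [NeZero m]
  {Z : Zones U m} {A : Finset U} {des : U → U}

omit [DecidableEq U] in
private theorem dep_par_cast {u : U} (hu : u ≠ R.c) :
    ((R.dep (R.par u) : ℕ) : ZMod 2) + 1 = (R.dep u : ZMod 2) := by
  have h := R.dep_par u hu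
  rw [← h]; push_cast; ring

omit [DecidableEq U] in
private theorem par_even_of_odd {u : U} (hu : u ≠ R.c) (ho : (R.dep u : ZMod 2) = 1) :
    (R.dep (R.par u) : ZMod 2) = 0 := by
  have h := dep_par_cast (R := R) hu
  rw [ho] at h
  simpa using h

omit [DecidableEq U] in
private theorem par_odd_of_even {u : U} (hu : u ≠ R.c) (ho : (R.dep u : ZMod 2) = 0) :
    (R.dep (R.par u) : ZMod 2) = 1 := by
  have h := dep_par_cast (R := R) hu
  rw [ho] at h
  generalize (R.dep (R.par u) : ZMod 2) = a at h
  revert a; decide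

omit [DecidableEq U] in
private theorem even_of_par_odd {u : U} (hu : u ≠ R.c) (ho : (R.dep (R.par u) : ZMod 2) = 1) :
    (R.dep u : ZMod 2) = 0 := by
  rw [← dep_par_cast (R := R) hu, ho]; decide

omit [DecidableEq U] in
private theorem ne_root_of_odd {u : U} (ho : (R.dep u : ZMod 2) = 1) : u ≠ R.c := by
  rintro rfl
  rw [R.dep_c] at ho
  simp at ho

/-- SS. Single step. -/
theorem step_single (hA : R.Tr A des) (N : ℕ) (hN : A.card ≤ N) (hm : 4096 * N ≤ m)
    (hZ : Z.all.card ≤ N) (hSA : ∀ x ∈ Z.S, x ∈ A ∧ x ≠ R.c ∧ (R.dep x : ZMod 2) = 0) (ω : ℕ → ℕ)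
    {v p : U} {l : List U} {B : Finset U} {lab : U → ZMod m}
    (hSt : R.St Z A des (v :: l) B p lab) (hAcc : R.Acc Z ω B lab) (hpS : des p ∉ Z.S)
    (hvS : des v ∉ Z.S) (hvl : v ∉ l)
    (hmem : ∀ u ∈ v :: l, u ∈ A ∧ u ≠ R.c ∧ (R.dep u : ZMod 2) = 1 ∧ R.par u ≠ R.c)
    (hsort : ∀ u ∈ l, R.dep v ≤ R.dep u) :
    ∃ (B' : Finset U) (lab' : U → ZMod m), R.St Z A des l B' v lab' ∧ R.Acc Z ω B' lab' := by
  classical
  obtain ⟨hvA, hvc, hvo, hvr⟩ := hmem v List.mem_cons_self
  have hpA : p ∈ A := hSt.sub hSt.p_mem
  obtain ⟨hyA, hyc, hyp⟩ := hA.des_mem p hpA hSt.p_odd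
  have hyB : des p ∉ B := hSt.des_notMem
  have hye : (R.dep (des p) : ZMod 2) = 0 := even_of_par_odd hyc (by rw [hyp]; exact hSt.p_odd)
  have hvB : v ∉ B := (hSt.rest_iff v hvA hvc hvo hvr).mp List.mem_cons_self
  have hparB : ∀ x ∈ B, x ≠ R.c → R.par x ∈ B := hSt.good.placed.par_mem
  have hroot : R.c ∈ B := hSt.good.placed.root_mem
  -- the parent of `v`
  have hvp : R.par v ∈ B ∨ R.par v = des p := by
    have hwA := hA.par_mem v hvA hvc
    have hwe : (R.dep (R.par v) : ZMod 2) = 0 := par_even_of_odd hvc hvo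
    have huA := hA.par_mem _ hwA hvr
    have huo : (R.dep (R.par (R.par v)) : ZMod 2) = 1 := par_odd_of_even hvr hwe
    have huc : R.par (R.par v) ≠ R.c := ne_root_of_odd huo
    have d1 := R.dep_par v hvc
    have d2 := R.dep_par (R.par v) hvr
    have huB : R.par (R.par v) ∈ B := by
      by_cases hur : R.par (R.par (R.par v)) = R.c
      · exact hSt.rootkids _ huA huc hur
      · by_contra hu
        have := (hSt.rest_iff _ huA huc huo hur).mpr hu
        rcases List.mem_cons.mp this with h | h
        · rw [h] at d2; omega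
        · have := hsort _ h
          omega
    rcases hSt.kids _ hwA hvr huB hwe with h | h
    · exact Or.inl h
    · exact Or.inr h.2
  set y := des p with hy
  have hyv : y ≠ v := by
    intro h; rw [h] at hye; rw [hye] at hvo; exact absurd hvo (by decide)
  obtain ⟨bad, hbad, hgood⟩ := good_two hSt.good hSt.p_mem hSt.p_odd hyB hyc hyp hvB hvc hvo hvp hvr
  set B1 : Finset U := insert v (insert y B) with hB1
  set K : Finset U := A.filter (fun x => x ≠ R.c ∧ R.par x = v ∧ x ≠ des v) with hK
  have hBB1 : B ⊆ B1 := fun x hx => mem_insert_of_mem (mem_insert_of_mem hx)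
  have hB1A : B1 ⊆ A := by
    intro x hx
    rcases mem_insert.mp hx with rfl | hx
    · exact hvA
    rcases mem_insert.mp hx with rfl | hx
    · exact hyA
    · exact hSt.sub hx
  have hKA : K ⊆ A := filter_subset _ _
  have hB'A : B1 ∪ K ⊆ A := union_subset hB1A hKA
  have hpv : p ≠ v := fun h => hvB (h ▸ hSt.p_mem)
  -- a vertex whose parent is `v` is not in `B1`
  have hkid : ∀ x, x ≠ R.c → R.par x = v → x ∉ B1 := by
    intro x hxc hxv hx
    rcases mem_insert.mp hx with rfl | hx
    · have := R.dep_par x hxc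
      rw [hxv] at this; omega
    rcases mem_insert.mp hx with rfl | hx
    · exact hpv (hyp.symm.trans hxv)
    · exact hvB (hxv ▸ hparB x hx hxc)
  have hBcard : B.card ≤ N := le_trans (card_le_card hSt.sub) hN
  have hcard : (B1 ∪ K).card ≤ N := le_trans (card_le_card hB'A) hN
  have hK' : ∀ x ∈ K, x ∉ B1 ∧ x ≠ R.c ∧ R.par x = v := by
    intro x hx
    obtain ⟨_, h1, h2, _⟩ := mem_filter.mp hx
    exact ⟨hkid x h1 h2, h1, h2⟩
  obtain ⟨c, hcb, lab', hlab', hg', hacc'⟩ := avg_kids ω (B0 := B) (B1 := B1) (K := K) (lab := lab)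
    (v := v) N hcard hm hZ hBB1 hroot (by
      intro x hx hxS
      rcases mem_insert.mp hx with rfl | hx
      · have := (hSA x hxS).2.2
        rw [this] at hvo; exact absurd hvo (by decide)
      rcases mem_insert.mp hx with h | hx
      · exact absurd (h ▸ hxS) hpS
      · exact hx) hAcc (mem_insert_self _ _) hvo hK'
    (fun c => Function.update (Function.update lab y (c - lab p)) v c) bad (by omega) (by
      intro c hc
      have hv' : Function.update (Function.update lab y (c - lab p)) v c v = c :=
        Function.update_self _ _ _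
      have hy' : Function.update (Function.update lab y (c - lab p)) v c y = c - lab p := by
        rw [Function.update_of_ne hyv, Function.update_self]
      have hB' : ∀ u ∈ B, Function.update (Function.update lab y (c - lab p)) v c u = lab u := by
        intro u hu
        rw [Function.update_of_ne (fun h : u = v => hvB (h ▸ hu)),
          Function.update_of_ne (fun h : u = y => hyB (h ▸ hu))]
      refine ⟨hgood c hc, hB', hv', ?_⟩
      intro b hb hb0 hcb
      obtain ⟨u, hu, huv⟩ := mem_image.mp hcb
      obtain ⟨huc, hu⟩ := mem_erase.mp hu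
      rcases mem_insert.mp hu with rfl | hu
      · exfalso
        rw [hv'] at huv
        have hbe := add_left_cancel huv
        apply hb
        refine mem_image.mpr ⟨R.par u, mem_filter.mpr ⟨?_, par_even_of_odd huc hvo⟩, hbe⟩
        rcases hvp with h | h
        · exact hBB1 h
        · rw [h]; exact mem_insert_of_mem (mem_insert_self _ _)
      rcases mem_insert.mp hu with h | hu
      · exfalso
        rw [h, hyp, hy', hB' p hSt.p_mem, sub_add_cancel] at huv
        exact hb0 (by simpa using huv.symm)
      · rw [hB' u hu, hB' _ (hparB u hu huc)] at huv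
        exact mem_image.mpr ⟨u, mem_erase.mpr ⟨huc, hu⟩, huv⟩)
  refine ⟨B1 ∪ K, lab', ⟨hg', hB'A, mem_union_left _ (mem_insert_self _ _), hvo, ?_, ?_, ?_, ?_⟩,
    hacc'⟩
  · intro h
    obtain ⟨h1, h2, h3⟩ := hA.des_mem v hvA hvo
    rcases mem_union.mp h with h | h
    · exact hkid _ h2 h3 h
    · exact (mem_filter.mp h).2.2.2 rfl
  · intro w hwA hwc hw hwe
    have hwo := par_odd_of_even hwc hwe
    rcases mem_union.mp hw with hw | hw
    · rcases mem_insert.mp hw with hw | hw
      · by_cases h : w = des v
        · exact Or.inr ⟨hw, h⟩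
        · exact Or.inl (mem_union_right _ (mem_filter.mpr ⟨hwA, hwc, hw, h⟩))
      rcases mem_insert.mp hw with hw | hw
      · exfalso
        rw [hw, hye] at hwo; exact absurd hwo (by decide)
      · rcases hSt.kids w hwA hwc hw hwe with h | h
        · exact Or.inl (mem_union_left _ (hBB1 h))
        · refine Or.inl (mem_union_left _ (mem_insert_of_mem ?_))
          rw [h.2]; exact mem_insert_self _ _
    · exfalso
      obtain ⟨_, h1, h2, _⟩ := mem_filter.mp hw
      have := even_of_par_odd h1 (by rw [h2]; exact hvo)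
      rw [this] at hwo; exact absurd hwo (by decide)
  · intro w hwA hwc hw
    exact mem_union_left _ (hBB1 (hSt.rootkids w hwA hwc hw))
  · intro u huA huc huo hur
    have hi := hSt.rest_iff u huA huc huo hur
    constructor
    · intro hul hu
      rcases mem_union.mp hu with hu | hu
      · rcases mem_insert.mp hu with rfl | hu
        · exact hvl hul
        rcases mem_insert.mp hu with h | hu
        · rw [h, hye] at huo; exact absurd huo (by decide)
        · exact hi.mp (List.mem_cons_of_mem _ hul) hu
      · obtain ⟨_, h1, h2, _⟩ := mem_filter.mp hu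
        have := even_of_par_odd h1 (by rw [h2]; exact hvo)
        rw [this] at huo; exact absurd huo (by decide)
    · intro hu
      rcases List.mem_cons.mp (hi.mpr (fun h => hu (mem_union_left _ (hBB1 h)))) with rfl | h
      · exact absurd (mem_union_left _ (mem_insert_self _ _)) hu
      · exact h

end step

end Pool.Agent.Lib.MP_c5b475_co
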