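import Pool.Agent.Lib.MP_c5b475_co.Few.LG3
import Pool.Agent.Lib.MP_c5b475_co.Few.LRS
import Pool.Agent.Lib.MP_c5b475_co.Few.LSS
import Pool.Agent.Lib.MP_c5b475_co.Few.LSP

set_option autoImplicit false

/-!
# PM: main placement theorem (linear law)
-/

namespace Pool.Agent.Lib.MP_c5b475_co

open Finset

section PM

variable {U : Type*} [DecidableEq U] {T : SimpleGraph U} {R : RT T} {m : ℕ} [NeZero m]
  {Z : Zones U m} {A : Finset U} {des : U → U}

theorem pm_zmod_zero_ne_one : (0 : ZMod 2) ≠ 1 := by decide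

theorem pm_par_odd (R : RT T) {x : U} (hx : x ≠ R.c) (he : (R.dep x : ZMod 2) = 0) :
    (R.dep (R.par x) : ZMod 2) = 1 := by
  have h := R.dep_par x hx
  have h2 : ((R.dep (R.par x) : ZMod 2)) + 1 = (R.dep x : ZMod 2) := by
    rw [← h]; push_cast; rfl
  rw [he] at h2
  generalize (R.dep (R.par x) : ZMod 2) = a at h2
  revert h2; revert a; decide

theorem pm_odd_of_par (R : RT T) {x : U} (hx : x ≠ R.c) (he : (R.dep (R.par x) : ZMod 2) = 1) :
    (R.dep x : ZMod 2) = 0 := by
  have h := R.dep_par x hx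
  have h2 : ((R.dep (R.par x) : ZMod 2)) + 1 = (R.dep x : ZMod 2) := by
    rw [← h]; push_cast; rfl
  rw [← h2, he]; decide

theorem pm_c_even (R : RT T) : (R.dep R.c : ZMod 2) = 0 := by
  rw [R.dep_c]; simp

theorem pm_zmod2 (a : ZMod 2) : a = 0 ∨ a = 1 := by
  revert a; decide

/-- the conditions on the list of units which are still to be placed -/
structure PMUnits (R : RT T) (Z : Zones U m) (A : Finset U) (des : U → U)
    (us : List (U × Option U)) : Prop where
  nodup : (flat us).Nodup
  mem : ∀ u ∈ flat us, u ∈ A ∧ u ≠ R.c ∧ (R.dep u : ZMod 2) = 1 ∧ R.par u ≠ R.c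
  sorted : (flat us).Pairwise (fun u v => R.dep u ≤ R.dep v)
  single : ∀ v, (v, none) ∈ us → des v ∉ Z.S
  pair1 : ∀ v v', (v, some v') ∈ us → des v ∈ Z.S →
    ∀ w ∈ A, w ≠ R.c → R.par w = v → w = des v
  pair2 : ∀ v v', (v, some v') ∈ us → ∀ w ∈ A, w ≠ R.c → R.par w = v' → w ∉ Z.S

theorem flat_cons {α : Type*} (x : α × Option α) (us : List (α × Option α)) :
    flat (x :: us) = x.1 :: (x.2.toList ++ flat us) := by
  simp [flat]

theorem pm_ne {α : Type*} (us : List (α × Option α)) : (flat us).Nodup → ∀ v v',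
    (v, some v') ∈ us → v ≠ v' := by
  induction us with
  | nil => intro _ v v' h; simp at h
  | cons z us ih =>
    intro hnd v v' h
    rw [flat_cons] at hnd
    rcases List.mem_cons.mp h with rfl | h
    · intro he
      apply (List.nodup_cons.mp hnd).1
      rw [List.mem_append]
      exact Or.inl (by simp [he])
    · exact ih ((List.nodup_append.mp (List.nodup_cons.mp hnd).2).2.1) v v' h

theorem pm_induction (hA : R.Tr A des) (N : ℕ) (hN : A.card ≤ N) (hm : 4096 * N ≤ m)
    (hZ : Z.all.card ≤ N) (hSA : ∀ x ∈ Z.S, x ∈ A ∧ x ≠ R.c ∧ (R.dep x : ZMod 2) = 0)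
    (hbig : ∀ j ∈ Z.J, 6656 ≤ (Z.Λ j).card) (ω : ℕ → ℕ) (us : List (U × Option U)) :
    ∀ (p : U) (B : Finset U) (lab : U → ZMod m), R.St Z A des (flat us) B p lab →
      R.Acc Z ω B lab → des p ∉ Z.S → PMUnits R Z A des us →
      ∃ (p' : U) (B' : Finset U) (lab' : U → ZMod m), R.St Z A des [] B' p' lab' ∧
        R.Acc Z ω B' lab' ∧ des p' ∉ Z.S := by
  induction us with
  | nil =>
    intro p B lab hSt hAcc hp _
    exact ⟨p, B, lab, by simpa [flat] using hSt, hAcc, hp⟩
  | cons x us ih =>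
    intro p B lab hSt hAcc hp hU
    have hU' : PMUnits R Z A des us := by
      have hsub : List.Sublist (flat us) (flat (x :: us)) := by
        rw [flat_cons]
        exact (List.sublist_append_right _ _).trans (List.sublist_cons_self _ _)
      exact ⟨hU.nodup.sublist hsub, fun u hu => hU.mem u (hsub.subset hu),
        hU.sorted.sublist hsub, fun v hv => hU.single v (List.mem_cons_of_mem _ hv),
        fun v v' hv => hU.pair1 v v' (List.mem_cons_of_mem _ hv),
        fun v v' hv => hU.pair2 v v' (List.mem_cons_of_mem _ hv)⟩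
    obtain ⟨v, o⟩ := x
    rw [flat_cons] at hSt
    have hnd := hU.nodup
    have hmem := hU.mem
    have hso := hU.sorted
    rw [flat_cons] at hnd hmem hso
    cases o with
    | none =>
      simp only [Option.toList_none, List.nil_append] at hSt hnd hmem hso
      have hvS : des v ∉ Z.S := hU.single v (List.mem_cons_self ..)
      obtain ⟨B', lab', hSt', hAcc'⟩ := step_single hA N hN hm hZ hSA ω hSt hAcc hp hvS
        (List.nodup_cons.mp hnd).1 hmem (List.pairwise_cons.mp hso).1
      exact ih v B' lab' hSt' hAcc' hvS hU'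
    | some v' =>
      simp only [Option.toList_some, List.singleton_append] at hSt hnd hmem hso
      have hv'A : v' ∈ A ∧ v' ≠ R.c ∧ (R.dep v' : ZMod 2) = 1 ∧ R.par v' ≠ R.c :=
        hmem v' (by simp)
      have hkS : ∀ w ∈ A, w ≠ R.c → R.par w = v' → w ∉ Z.S :=
        hU.pair2 v v' (List.mem_cons_self ..)
      have hv'S : des v' ∉ Z.S := by
        obtain ⟨a1, a2, a3⟩ := hA.des_mem v' hv'A.1 hv'A.2.2.1
        exact hkS _ a1 a2 a3
      by_cases hvS : des v ∈ Z.S
      · obtain ⟨B', lab', hSt', hAcc'⟩ := step_pair hA N hN hm hZ hSA ω hbig hSt hAcc hp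
          (hU.pair1 v v' (List.mem_cons_self ..) hvS) hkS
          (List.nodup_cons.mp hnd).1 (List.nodup_cons.mp (List.nodup_cons.mp hnd).2).1 hmem
          (List.pairwise_cons.mp hso).1 (List.pairwise_cons.mp (List.pairwise_cons.mp hso).2).1
        exact ih v' B' lab' hSt' hAcc' hv'S hU'
      · obtain ⟨B', lab', hSt', hAcc'⟩ := step_single hA N hN hm hZ hSA ω hSt hAcc hp hvS
          (List.nodup_cons.mp hnd).1 hmem (List.pairwise_cons.mp hso).1
        obtain ⟨B'', lab'', hSt'', hAcc''⟩ := step_single hA N hN hm hZ hSA ω hSt' hAcc' hvS hv'S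
          (List.nodup_cons.mp (List.nodup_cons.mp hnd).2).1
          (fun u hu => hmem u (List.mem_cons_of_mem _ hu))
          (List.pairwise_cons.mp (List.pairwise_cons.mp hso).2).1
        exact ih v' B'' lab'' hSt'' hAcc'' hv'S hU'

/-- PM. Main placement theorem. -/
theorem placement_linear (hA : R.Tr A des) {p0 : U} (hp0 : p0 ∈ A) (hp0c : p0 ≠ R.c)
    (hp0p : R.par p0 = R.c) (N : ℕ) (hN : A.card ≤ N) (hm : 4096 * N ≤ m) (hZ : Z.all.card ≤ N)
    (hbig : ∀ j ∈ Z.J, 6656 ≤ (Z.Λ j).card) (units : List (U × Option U))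
    (hnd : (flat units).Nodup)
    (hl : ∀ v, v ∈ flat units ↔ v ∈ A ∧ v ≠ R.c ∧ (R.dep v : ZMod 2) = 1 ∧ R.par v ≠ R.c)
    (hsort : (flat units).Pairwise (fun u v => R.dep u ≤ R.dep v))
    (hS : ∀ x ∈ Z.S, x ∈ A ∧ x ≠ R.c ∧ (R.dep x : ZMod 2) = 0 ∧
      ((R.par (R.par x) = R.c ∧ (x = des (R.par x) → R.par x ≠ p0)) ∨
        ((R.par x, none) ∈ units ∧ x ≠ des (R.par x)) ∨
        ((∃ v', (R.par x, some v') ∈ units) ∧
          ∀ w ∈ A, w ≠ R.c → R.par w = R.par x → w = des (R.par x))))
    (ω : ℕ → ℕ) :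
    ∃ lab : U → ZMod m, R.GoodL Z A lab ∧ R.Acc Z ω A lab := by
  have hSA : ∀ x ∈ Z.S, x ∈ A ∧ x ≠ R.c ∧ (R.dep x : ZMod 2) = 0 := fun x hx =>
    ⟨(hS x hx).1, (hS x hx).2.1, (hS x hx).2.2.1⟩
  have hp0o : (R.dep p0 : ZMod 2) = 1 := by
    have h := R.dep_par p0 hp0c
    rw [hp0p, R.dep_c] at h
    rw [← h]; simp
  -- membership in flat
  have hfl1 : ∀ v o, (v, o) ∈ units → v ∈ flat units := by
    intro v o h
    rw [flat, List.mem_flatMap]
    exact ⟨_, h, by simp⟩
  have hfl2 : ∀ v v', (v, some v') ∈ units → v' ∈ flat units := by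
    intro v v' h
    rw [flat, List.mem_flatMap]
    exact ⟨_, h, by simp⟩
  have hp0S : des p0 ∉ Z.S := by
    intro hmem
    obtain ⟨a1, a2, a3⟩ := hA.des_mem p0 hp0 hp0o
    obtain ⟨_, _, _, h⟩ := hS _ hmem
    rw [a3] at h
    rcases h with h | h | h
    · exact h.2 rfl rfl
    · exact h.2 rfl
    · obtain ⟨⟨v', hv'⟩, _⟩ := h
      exact ((hl p0).mp (hfl1 _ _ hv')).2.2.2 hp0p
  -- Two occurrences of a vertex in the list of units
  have huniq : ∀ (us : List (U × Option U)), (flat us).Nodup → ∀ x ∈ us, ∀ y ∈ us, ∀ v,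
      v ∈ x.1 :: x.2.toList → v ∈ y.1 :: y.2.toList → x = y := by
    intro us
    induction us with
    | nil => intro _ x hx; simp at hx
    | cons z us ih =>
      intro hnd x hx y hy v hvx hvy
      have hfc : flat (z :: us) = (z.1 :: z.2.toList) ++ flat us := by simp [flat]
      rw [hfc, List.nodup_append] at hnd
      obtain ⟨_, hnd2, hdis⟩ := hnd
      rcases List.mem_cons.mp hx with rfl | hx'
      · rcases List.mem_cons.mp hy with rfl | hy'
        · rfl
        · exact absurd rfl (hdis v hvx v (by rw [flat, List.mem_flatMap]; exact ⟨y, hy', hvy⟩))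
      · rcases List.mem_cons.mp hy with rfl | hy'
        · exact absurd rfl (hdis v hvy v (by rw [flat, List.mem_flatMap]; exact ⟨x, hx', hvx⟩))
        · exact ih hnd2 x hx' y hy' v hvx hvy
  have hU : PMUnits R Z A des units := by
    refine ⟨hnd, fun u hu => (hl u).mp hu, hsort, ?_, ?_, ?_⟩
    · intro v hv hdes
      obtain ⟨b1, b2, b3, b4⟩ := (hl v).mp (hfl1 _ _ hv)
      obtain ⟨a1, a2, a3⟩ := hA.des_mem v b1 b3
      obtain ⟨_, _, _, h⟩ := hS _ hdes
      rw [a3] at h
      rcases h with h | h | h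
      · exact b4 h.1
      · exact h.2 rfl
      · obtain ⟨⟨v', hv'⟩, _⟩ := h
        have := huniq units hnd _ hv _ hv' v (by simp) (by simp)
        simp at this
    · intro v v' hv hdes
      obtain ⟨b1, b2, b3, b4⟩ := (hl v).mp (hfl1 _ _ hv)
      obtain ⟨a1, a2, a3⟩ := hA.des_mem v b1 b3
      obtain ⟨_, _, _, h⟩ := hS _ hdes
      rw [a3] at h
      rcases h with h | h | h
      · exact absurd h.1 b4
      · exact absurd rfl h.2
      · exact h.2
    · intro v v' hv w hw hwc hwp hwS
      obtain ⟨b1, b2, b3, b4⟩ := (hl v').mp (hfl2 _ _ hv)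
      obtain ⟨_, _, _, h⟩ := hS _ hwS
      rw [hwp] at h
      have hnv : v ≠ v' := pm_ne units hnd v v' hv
      rcases h with h | h | h
      · exact b4 h.1
      · have := huniq units hnd _ hv _ h.1 v' (by simp) (by simp)
        simp at this
      · obtain ⟨⟨v'', hv''⟩, _⟩ := h
        have := huniq units hnd _ hv _ hv'' v' (by simp) (by simp)
        simp only [Prod.mk.injEq] at this
        exact hnv this.1
  obtain ⟨B0, lab0, hSt0, hAcc0⟩ := root_stage hA hp0 hp0c hp0p N hN hm hZ hSA hp0S ω (flat units) hl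
  obtain ⟨p, B, lab, hSt, hAcc, hpS⟩ := pm_induction hA N hN hm hZ hSA hbig ω units p0 B0 lab0 hSt0
    hAcc0 hp0S hU
  have hpA : p ∈ A := hSt.sub hSt.p_mem
  obtain ⟨d1, d2, d3⟩ := hA.des_mem p hpA hSt.p_odd
  have hde : (R.dep (des p) : ZMod 2) = 0 := pm_odd_of_par R d2 (by rw [d3]; exact hSt.p_odd)
  have hAB : A = insert (des p) B := by
    apply Finset.Subset.antisymm
    · have hodd : ∀ u ∈ A, (R.dep u : ZMod 2) = 1 → u ∈ B := by
        intro u hu ho
        have huc : u ≠ R.c := by
          rintro rfl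
          rw [pm_c_even R] at ho
          exact pm_zmod_zero_ne_one ho
        by_cases hpc : R.par u = R.c
        · exact hSt.rootkids u hu huc hpc
        · have := hSt.rest_iff u hu huc ho hpc
          by_contra hnot
          exact absurd (this.mpr hnot) (List.not_mem_nil)
      intro u hu
      rcases pm_zmod2 (R.dep u : ZMod 2) with he | ho
      · by_cases huc : u = R.c
        · rw [huc]; exact mem_insert_of_mem hSt.good.placed.root_mem
        · have hpu := pm_par_odd R huc he
          have hpB := hodd _ (hA.par_mem u hu huc) hpu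
          rcases hSt.kids u hu huc hpB he with h | h
          · exact mem_insert_of_mem h
          · rw [h.2]; exact mem_insert_self _ _
      · exact mem_insert_of_mem (hodd u hu ho)
    · intro u hu
      rcases mem_insert.mp hu with rfl | hu
      · exact d1
      · exact hSt.sub hu
  obtain ⟨bad, hb1, hb2, hb3⟩ := good_gen hSt.good hSt.des_notMem d2 hde (by rw [d3]; exact hSt.p_mem)
  have hBN : B.card + 1 ≤ N := by
    have : (insert (des p) B).card = B.card + 1 := card_insert_of_notMem hSt.des_notMem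
    rw [← hAB] at this
    omega
  obtain ⟨a, ha⟩ : ∃ a, a ∉ bad := by
    by_contra hcon
    push Not at hcon
    have : bad = univ := eq_univ_iff_forall.mpr hcon
    rw [this, card_univ, ZMod.card] at hb1
    omega
  refine ⟨Function.update lab (des p) a, ?_, ?_⟩
  · rw [hAB]; exact hb3 a ha
  · have hupd : ∀ u ∈ B, Function.update lab (des p) a u = lab u := by
      intro u hu
      apply Function.update_of_ne
      rintro rfl
      exact hSt.des_notMem hu
    have hev : R.evl B lab ⊆ R.evl A (Function.update lab (des p) a) := by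
      intro b hb
      rw [RT.evl, mem_image] at hb ⊢
      obtain ⟨u, hu, rfl⟩ := hb
      rw [mem_filter] at hu
      exact ⟨u, mem_filter.mpr ⟨by rw [hAB]; exact mem_insert_of_mem hu.1, hu.2⟩, hupd u hu.1⟩
    have hf1 : ∀ j, A.filter (fun x => x ∈ Z.S ∧ Z.cl x = j ∧
        Function.update lab (des p) a x ∉ Z.Λ j) =
        B.filter (fun x => x ∈ Z.S ∧ Z.cl x = j ∧ lab x ∉ Z.Λ j) := by
      intro j
      ext x
      rw [mem_filter, mem_filter, hAB, mem_insert]
      constructor
      · rintro ⟨h1, h2, h3, h4⟩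
        rcases h1 with rfl | h1
        · exact absurd h2 hpS
        · rw [hupd x h1] at h4
          exact ⟨h1, h2, h3, h4⟩
      · rintro ⟨h1, h2, h3, h4⟩
        exact ⟨Or.inr h1, h2, h3, by rw [hupd x h1]; exact h4⟩
    have hf2 : ∀ j, B.filter (fun x => x ∈ Z.S ∧ Z.cl x = j) ⊆
        A.filter (fun x => x ∈ Z.S ∧ Z.cl x = j) := by
      intro j
      apply filter_subset_filter
      rw [hAB]
      exact subset_insert _ _
    unfold RT.Acc at hAcc ⊢
    calc 4 * ∑ j ∈ Z.J.filter (fun j => (Z.Λ j).card <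
          512 * (Z.Λ j \ R.evl A (Function.update lab (des p) a)).card),
          ω j * (A.filter (fun x => x ∈ Z.S ∧ Z.cl x = j ∧
            Function.update lab (des p) a x ∉ Z.Λ j)).card
        ≤ 4 * ∑ j ∈ Z.J.filter (fun j => (Z.Λ j).card < 512 * (Z.Λ j \ R.evl B lab).card),
          ω j * (B.filter (fun x => x ∈ Z.S ∧ Z.cl x = j ∧ lab x ∉ Z.Λ j)).card := by
          apply Nat.mul_le_mul_left
          simp only [hf1]
          apply sum_le_sum_of_subset
          intro j hj
          rw [mem_filter] at hj ⊢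
          refine ⟨hj.1, hj.2.trans_le ?_⟩
          apply Nat.mul_le_mul_left
          exact card_le_card (sdiff_subset_sdiff (Subset.refl _) hev)
      _ ≤ ∑ j ∈ Z.J, ω j * (B.filter (fun x => x ∈ Z.S ∧ Z.cl x = j)).card := hAcc
      _ ≤ _ := by
          apply sum_le_sum
          intro j _
          exact Nat.mul_le_mul_left _ (card_le_card (hf2 j))

end PM

end Pool.Agent.Lib.MP_c5b475_co
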