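import Mathlib

/-! Module WL: window lemma. -/

set_option autoImplicit false

namespace Pool.Agent.Lib.MP_c5b475_co

open Finset

namespace WL

theorem count_two {g : ℕ} [NeZero g] (e : Fin g ↪o ℤ) (s : Fin g) (d : ℤ) :
    (univ.filter fun j => e j - e (s - j) = d).card ≤ 2 := by
  classical
  have hlow : ∀ j j' : Fin g, j ≤ s → j' ≤ s → j < j' → e j - e (s - j) < e j' - e (s - j') := by
    intro j j' hj hj' hlt
    have h1 : e j < e j' := e.strictMono hlt
    have h2 : s - j' < s - j := by
      rw [Fin.lt_def, Fin.sub_val_of_le hj, Fin.sub_val_of_le hj']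
      have := Fin.lt_def.1 hlt
      have := Fin.le_def.1 hj
      have := Fin.le_def.1 hj'
      omega
    have h3 : e (s - j') < e (s - j) := e.strictMono h2
    linarith
  have hval : ∀ j : Fin g, s < j → (s - j).val = g + s.val - j.val := by
    intro j hj
    rw [Fin.sub_def]
    simp only
    have h1 := Fin.lt_def.1 hj
    have h2 := j.isLt
    have h3 := s.isLt
    rw [Nat.mod_eq_of_lt (by omega)]
    omega
  have hhigh : ∀ j j' : Fin g, s < j → s < j' → j < j' → e j - e (s - j) < e j' - e (s - j') := by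
    intro j j' hj hj' hlt
    have h1 : e j < e j' := e.strictMono hlt
    have h2 : s - j' < s - j := by
      rw [Fin.lt_def, hval j hj, hval j' hj']
      have := Fin.lt_def.1 hlt
      have := j'.isLt
      omega
    have h3 : e (s - j') < e (s - j) := e.strictMono h2
    linarith
  have hA : ((univ.filter fun j => e j - e (s - j) = d).filter fun j => j ≤ s).card ≤ 1 := by
    rw [card_le_one]
    intro a ha b hb
    simp only [mem_filter, mem_univ, true_and] at ha hb
    by_contra hne
    rcases lt_or_gt_of_ne hne with hlt | hlt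
    · have := hlow a b ha.2 hb.2 hlt
      omega
    · have := hlow b a hb.2 ha.2 hlt
      omega
  have hB : ((univ.filter fun j => e j - e (s - j) = d).filter fun j => ¬ j ≤ s).card ≤ 1 := by
    rw [card_le_one]
    intro a ha b hb
    simp only [mem_filter, mem_univ, true_and, not_le] at ha hb
    by_contra hne
    rcases lt_or_gt_of_ne hne with hlt | hlt
    · have := hhigh a b ha.2 hb.2 hlt
      omega
    · have := hhigh b a hb.2 ha.2 hlt
      omega
  have := card_filter_add_card_filter_not (s := univ.filter fun j => e j - e (s - j) = d)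
    (fun j => j ≤ s)
  omega

theorem exists_shift {g : ℕ} [NeZero g] (e : Fin g ↪o ℤ) (Ξ : Finset ℤ) :
    ∃ s : Fin g, (univ.filter fun j => e j - e (s - j) ∈ Ξ).card ≤ Ξ.card := by
  classical
  have h1 : ∑ s : Fin g, (univ.filter fun j => e j - e (s - j) ∈ Ξ).card ≤
      ∑ _s : Fin g, Ξ.card := by
    have h2 : ∑ s : Fin g, (univ.filter fun j => e j - e (s - j) ∈ Ξ).card =
        ∑ j : Fin g, (univ.filter fun k : Fin g => e j - e k ∈ Ξ).card := by
      simp only [card_filter]
      rw [sum_comm]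
      refine sum_congr rfl fun j _ => ?_
      exact Fintype.sum_equiv (Equiv.subRight j) _ _ (fun s => rfl)
    rw [h2]
    refine sum_le_sum fun j _ => ?_
    refine card_le_card_of_injOn (fun k => e j - e k) ?_ ?_
    · intro k hk
      simpa using hk
    · intro a _ b _ hab
      have : e a = e b := by
        have := hab
        simp only at this
        linarith
      exact e.injective this
  obtain ⟨s, -, hs⟩ := exists_le_of_sum_le (univ_nonempty) h1
  exact ⟨s, hs⟩

theorem greedy {g : ℕ} [NeZero g] (e : Fin g ↪o ℤ) (Ξ : Finset ℤ) (hg : 16 * Ξ.card ≤ g)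
    (μ : Fin g → Fin g) (hμ : Function.Injective μ)
    (Bd : Finset (Fin g)) (hBd : Bd.card ≤ Ξ.card) (S : Finset (Fin g)) (hS : S ⊆ Bd) :
    ∃ k : Fin g → Fin g, Set.InjOn k S ∧ (∀ j ∈ S, k j ∉ Bd) ∧
      (∀ j ∈ S, e j - e (μ (k j)) ∉ Ξ ∧ e (k j) - e (μ j) ∉ Ξ) ∧
      ∀ j ∈ S, ∀ j' ∈ S, j ≠ j' → e j - e (μ (k j)) ≠ e j' - e (μ (k j')) ∧
        e j - e (μ (k j)) ≠ e (k j') - e (μ j') ∧ e (k j) - e (μ j) ≠ e (k j') - e (μ j') := by
  classical
  induction S using Finset.induction_on with
  | empty =>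
    exact ⟨id, by simp, by simp, by simp, by simp⟩
  | insert a S ha ih =>
    obtain ⟨k, h1, h2, h3, h4⟩ := ih (fun x hx => hS (mem_insert_of_mem hx))
    have haB : a ∈ Bd := hS (mem_insert_self _ _)
    have hScard : S.card + 1 ≤ Ξ.card := by
      have := card_le_card hS
      rw [card_insert_of_notMem ha] at this
      omega
    let D : Finset ℤ := S.image (fun j => e j - e (μ (k j))) ∪ S.image (fun j => e (k j) - e (μ j))
    have hD : D.card ≤ 2 * S.card := by
      have := card_union_le (S.image (fun j => e j - e (μ (k j))))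
        (S.image (fun j => e (k j) - e (μ j)))
      have h5 := card_image_le (s := S) (f := fun j => e j - e (μ (k j)))
      have h6 := card_image_le (s := S) (f := fun j => e (k j) - e (μ j))
      have : D.card ≤ _ := this
      omega
    have hf1 : ∀ X : Finset ℤ, (univ.filter fun i : Fin g => e a - e (μ i) ∈ X).card ≤ X.card := by
      intro X
      refine card_le_card_of_injOn (fun i => e a - e (μ i)) ?_ ?_
      · intro i hi; simpa using hi
      · intro i _ i' _ h
        apply hμ
        apply e.injective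
        have := h
        simp only at this
        linarith
    have hf2 : ∀ X : Finset ℤ, (univ.filter fun i : Fin g => e i - e (μ a) ∈ X).card ≤ X.card := by
      intro X
      refine card_le_card_of_injOn (fun i => e i - e (μ a)) ?_ ?_
      · intro i hi; simpa using hi
      · intro i _ i' _ h
        apply e.injective
        have := h
        simp only at this
        linarith
    let F : Finset (Fin g) := Bd ∪ S.image k ∪ (univ.filter fun i : Fin g => e a - e (μ i) ∈ Ξ ∪ D) ∪
      (univ.filter fun i : Fin g => e i - e (μ a) ∈ Ξ ∪ D)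
    have hF : F.card < g := by
      have c1 := card_union_le (Bd ∪ S.image k ∪
        (univ.filter fun i : Fin g => e a - e (μ i) ∈ Ξ ∪ D))
        (univ.filter fun i : Fin g => e i - e (μ a) ∈ Ξ ∪ D)
      have c2 := card_union_le (Bd ∪ S.image k)
        (univ.filter fun i : Fin g => e a - e (μ i) ∈ Ξ ∪ D)
      have c3 := card_union_le Bd (S.image k)
      have c4 := card_image_le (s := S) (f := k)
      have c5 := hf1 (Ξ ∪ D)
      have c6 := hf2 (Ξ ∪ D)
      have c7 := card_union_le Ξ D
      have : F.card ≤ _ := c1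
      omega
    obtain ⟨i, hi⟩ : ∃ i, i ∉ F := by
      by_contra hcon
      push Not at hcon
      have : (univ : Finset (Fin g)) ⊆ F := fun x _ => hcon x
      have := card_le_card this
      rw [card_univ, Fintype.card_fin] at this
      omega
    have hi' : i ∉ Bd ∧ i ∉ S.image k ∧ e a - e (μ i) ∉ Ξ ∪ D ∧ e i - e (μ a) ∉ Ξ ∪ D := by
      refine ⟨fun h => hi ?_, fun h => hi ?_, fun h => hi ?_, fun h => hi ?_⟩
      · exact mem_union_left _ (mem_union_left _ (mem_union_left _ h))
      · exact mem_union_left _ (mem_union_left _ (mem_union_right _ h))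
      · exact mem_union_left _ (mem_union_right _ (by simpa using h))
      · exact mem_union_right _ (by simpa using h)
    obtain ⟨i1, i2, i3, i4⟩ := hi'
    rw [mem_union, not_or] at i3 i4
    have hne : ∀ j ∈ S, j ≠ a := fun j hj h => ha (h ▸ hj)
    have hD1 : ∀ j ∈ S, e j - e (μ (k j)) ∈ D := fun j hj =>
      mem_union_left _ (mem_image_of_mem (fun j => e j - e (μ (k j))) hj)
    have hD2 : ∀ j ∈ S, e (k j) - e (μ j) ∈ D := fun j hj =>
      mem_union_right _ (mem_image_of_mem (fun j => e (k j) - e (μ j)) hj)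
    refine ⟨Function.update k a i, ?_, ?_, ?_, ?_⟩
    · intro x hx y hy hxy
      rw [mem_coe, mem_insert] at hx hy
      rcases hx with rfl | hx <;> rcases hy with rfl | hy
      · rfl
      · rw [Function.update_self, Function.update_of_ne (hne y hy)] at hxy
        exact absurd (hxy ▸ mem_image_of_mem k hy) i2
      · rw [Function.update_self, Function.update_of_ne (hne x hx)] at hxy
        exact absurd (hxy ▸ mem_image_of_mem k hx) i2
      · rw [Function.update_of_ne (hne y hy), Function.update_of_ne (hne x hx)] at hxy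
        exact h1 hx hy hxy
    · intro j hj
      rw [mem_insert] at hj
      rcases hj with rfl | hj
      · rw [Function.update_self]; exact i1
      · rw [Function.update_of_ne (hne j hj)]; exact h2 j hj
    · intro j hj
      rw [mem_insert] at hj
      rcases hj with rfl | hj
      · rw [Function.update_self]; exact ⟨i3.1, i4.1⟩
      · rw [Function.update_of_ne (hne j hj)]; exact h3 j hj
    · intro j hj j' hj' hjj
      rw [mem_insert] at hj hj'
      rcases hj with rfl | hj <;> rcases hj' with rfl | hj'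
      · exact absurd rfl hjj
      · rw [Function.update_self, Function.update_of_ne (hne j' hj')]
        refine ⟨fun h => i3.2 (h ▸ hD1 j' hj'), fun h => i3.2 (h ▸ hD2 j' hj'),
          fun h => i4.2 (h ▸ hD2 j' hj')⟩
      · rw [Function.update_self, Function.update_of_ne (hne j hj)]
        refine ⟨fun h => i3.2 (h ▸ hD1 j hj), fun h => i4.2 (h ▸ hD1 j hj),
          fun h => i4.2 (h ▸ hD2 j hj)⟩
      · rw [Function.update_of_ne (hne j hj), Function.update_of_ne (hne j' hj')]
        exact h4 j hj j' hj' hjj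

theorem index {g : ℕ} [NeZero g] (e : Fin g ↪o ℤ) (Ξ : Finset ℤ) (hg : 16 * Ξ.card ≤ g) :
    ∃ π : Fin g → Fin g, Function.Injective π ∧ (∀ j, e j - e (π j) ∉ Ξ) ∧
      ∀ d, (univ.filter fun j => e j - e (π j) = d).card ≤ 4 := by
  classical
  obtain ⟨s, hs⟩ := exists_shift e Ξ
  let μ : Fin g → Fin g := fun j => s - j
  have hμ : Function.Injective μ := fun a b h => sub_right_injective h
  let Bd := univ.filter fun j => e j - e (s - j) ∈ Ξ
  have hBd : ∀ j, j ∈ Bd ↔ e j - e (μ j) ∈ Ξ := by
    intro j; simp [Bd, μ]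
  obtain ⟨k, h1, h2, h3, h4⟩ := greedy e Ξ hg μ hμ Bd hs Bd (Subset.refl _)
  obtain ⟨τ, t1, t2, t3⟩ : ∃ τ : Fin g → Fin g, (∀ j ∈ Bd, τ j = k j) ∧
      (∀ j ∈ Bd, τ (k j) = j) ∧ ∀ j, j ∉ Bd → (∀ i ∈ Bd, k i ≠ j) → τ j = j := by
    refine ⟨fun j => if j ∈ Bd then k j else if h : ∃ i ∈ Bd, k i = j then h.choose else j,
      ?_, ?_, ?_⟩
    · intro j hj; simp only [if_pos hj]
    · intro j hj
      have hex : ∃ i ∈ Bd, k i = k j := ⟨j, hj, rfl⟩
      simp only [if_neg (h2 j hj), dif_pos hex]
      exact h1 hex.choose_spec.1 hj hex.choose_spec.2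
    · intro j hj hno
      have hex : ¬ ∃ i ∈ Bd, k i = j := fun ⟨i, hi, h⟩ => hno i hi h
      simp only [if_neg hj, dif_neg hex]
  have hcases : ∀ j, j ∈ Bd ∨ (∃ i ∈ Bd, k i = j) ∨ (j ∉ Bd ∧ ∀ i ∈ Bd, k i ≠ j) := by
    intro j
    by_cases hj : j ∈ Bd
    · exact Or.inl hj
    · by_cases hex : ∃ i ∈ Bd, k i = j
      · exact Or.inr (Or.inl hex)
      · exact Or.inr (Or.inr ⟨hj, fun i hi h => hex ⟨i, hi, h⟩⟩)
  have hinv : ∀ j, τ (τ j) = j := by
    intro j
    rcases hcases j with hj | ⟨i, hi, rfl⟩ | ⟨hj, hno⟩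
    · rw [t1 j hj, t2 j hj]
    · rw [t2 i hi, t1 i hi]
    · rw [t3 j hj hno, t3 j hj hno]
  refine ⟨fun j => μ (τ j), ?_, ?_, ?_⟩
  · intro a b hab
    have := hμ hab
    rw [← hinv a, this, hinv b]
  · intro j
    rcases hcases j with hj | ⟨i, hi, rfl⟩ | ⟨hj, hno⟩
    · simp only [t1 j hj]; exact (h3 j hj).1
    · simp only [t2 i hi]; exact (h3 i hi).2
    · simp only [t3 j hj hno]
      exact fun h => hj ((hBd j).2 h)
  · intro d
    have hc2 := count_two e s d
    let X := univ.filter fun j => (j ∈ Bd ∨ ∃ i ∈ Bd, k i = j) ∧ e j - e (μ (τ j)) = d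
    have hX : X.card ≤ 2 := by
      rcases X.eq_empty_or_nonempty with h0 | ⟨j0, hj0⟩
      · rw [h0]; simp
      · have hpair : ∀ j ∈ X, ∃ i ∈ Bd, (j = i ∧ e i - e (μ (k i)) = d) ∨
            (j = k i ∧ e (k i) - e (μ i) = d) := by
          intro j hj
          simp only [X, mem_filter, mem_univ, true_and] at hj
          obtain ⟨hj1 | ⟨i, hi, hki⟩, hj2⟩ := hj
          · refine ⟨j, hj1, Or.inl ⟨rfl, ?_⟩⟩
            rw [t1 j hj1] at hj2; exact hj2
          · refine ⟨i, hi, Or.inr ⟨hki.symm, ?_⟩⟩
            rw [← hki, t2 i hi] at hj2; exact hj2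
        obtain ⟨i0, hi0, hd0⟩ := hpair j0 hj0
        have hsub : X ⊆ {i0, k i0} := by
          intro j hj
          obtain ⟨i, hi, hd⟩ := hpair j hj
          have hii : i = i0 := by
            by_contra hne
            obtain ⟨q1, q2, q3⟩ := h4 i hi i0 hi0 hne
            obtain ⟨r1, r2, r3⟩ := h4 i0 hi0 i hi (Ne.symm hne)
            rcases hd with ⟨-, hd⟩ | ⟨-, hd⟩ <;> rcases hd0 with ⟨-, hd0⟩ | ⟨-, hd0⟩
            · exact q1 (hd.trans hd0.symm)
            · exact q2 (hd.trans hd0.symm)
            · exact r2 (hd0.trans hd.symm)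
            · exact q3 (hd.trans hd0.symm)
          rw [mem_insert, mem_singleton]
          rcases hd with ⟨hd, -⟩ | ⟨hd, -⟩
          · left; rw [hd, hii]
          · right; rw [hd, hii]
        exact (card_le_card hsub).trans card_le_two
    have hsub : (univ.filter fun j => e j - e (μ (τ j)) = d) ⊆
        (univ.filter fun j => e j - e (s - j) = d) ∪ X := by
      intro j hj
      simp only [mem_filter, mem_univ, true_and] at hj
      rw [mem_union]
      rcases hcases j with hj1 | hj1 | ⟨hj1, hno⟩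
      · right
        simp only [X, mem_filter, mem_univ, true_and]
        exact ⟨Or.inl hj1, hj⟩
      · right
        simp only [X, mem_filter, mem_univ, true_and]
        exact ⟨Or.inr hj1, hj⟩
      · left
        rw [t3 j hj1 hno] at hj
        simp only [mem_filter, mem_univ, true_and]
        exact hj
    have h5 := card_le_card hsub
    have h6 := card_union_le (univ.filter fun j => e j - e (s - j) = d) X
    show (univ.filter fun j => e j - e (μ (τ j)) = d).card ≤ 4
    omega

end WL

/-- WL. Window lemma. -/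
theorem window (Q Ξ : Finset ℤ) (h : 16 * Ξ.card ≤ Q.card) :
    ∃ f : ℤ → ℤ, (∀ z ∈ Q, f z ∈ Q) ∧ Set.InjOn f Q ∧ (∀ z ∈ Q, z - f z ∉ Ξ) ∧
      ∀ d, (Q.filter (fun z => z - f z = d)).card ≤ 4 := by
  classical
  obtain ⟨g, hg⟩ : ∃ g, Q.card = g := ⟨_, rfl⟩
  rcases Nat.eq_zero_or_pos g with h0 | hpos
  · have : Q = ∅ := Finset.card_eq_zero.1 (by omega)
    subst this
    exact ⟨id, by simp, by simp, by simp, by simp⟩
  haveI : NeZero g := ⟨by omega⟩
  obtain ⟨π, hπ, h1, h2⟩ := WL.index (Q.orderEmbOfFin hg) Ξ (by omega)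
  obtain ⟨e, he⟩ : ∃ e : Fin g ↪o ℤ, e = Q.orderEmbOfFin hg := ⟨_, rfl⟩
  rw [← he] at h1 h2
  have heQ : ∀ i, e i ∈ Q := fun i => by rw [he]; exact Q.orderEmbOfFin_mem hg i
  have hsurj : ∀ z ∈ Q, ∃ i, e i = z := by
    intro z hz
    have h3 : z ∈ Set.range (Q.orderEmbOfFin hg) := by
      rw [Finset.range_orderEmbOfFin]; exact hz
    rw [he]
    exact h3
  obtain ⟨f, hf⟩ : ∃ f : ℤ → ℤ, ∀ i, f (e i) = e (π i) := by
    refine ⟨fun z => if h : ∃ i, e i = z then e (π h.choose) else 0, ?_⟩
    intro i
    have hex : ∃ i', e i' = e i := ⟨i, rfl⟩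
    simp only [dif_pos hex]
    rw [e.injective hex.choose_spec]
  refine ⟨f, ?_, ?_, ?_, ?_⟩
  · intro z hz
    obtain ⟨i, rfl⟩ := hsurj z hz
    rw [hf]; exact heQ _
  · intro z hz z' hz' hzz
    obtain ⟨i, rfl⟩ := hsurj z hz
    obtain ⟨i', rfl⟩ := hsurj z' hz'
    rw [hf, hf] at hzz
    rw [hπ (e.injective hzz)]
  · intro z hz
    obtain ⟨i, rfl⟩ := hsurj z hz
    rw [hf]; exact h1 i
  · intro d
    refine le_trans ?_ (h2 d)
    have hsub : (Q.filter (fun z => z - f z = d)) ⊆
        (univ.filter fun j => e j - e (π j) = d).image e := by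
      intro z hz
      rw [mem_filter] at hz
      obtain ⟨i, rfl⟩ := hsurj z hz.1
      rw [hf] at hz
      exact mem_image_of_mem e (by simpa using hz.2)
    exact (card_le_card hsub).trans card_image_le

end Pool.Agent.Lib.MP_c5b475_co
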