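import Pool.Agent.Lib.MP_c5b475_co.Few.Defs

set_option autoImplicit false

/-!
# The choice of rows
-/

namespace Pool.Agent.Lib.MP_c5b475_co

open Finset

section

variable {U : Type*} {T : SimpleGraph U}

theorem sel_par (R : RT T) {u v : U} (h : T.Adj u v) : (R.dep u : ZMod 2) = R.dep v + 1 := by
  have h2 : (1 : ZMod 2) + 1 = 0 := by decide
  rcases (R.adj_iff u v).1 h with ⟨hu, rfl⟩ | ⟨hv, rfl⟩
  · rw [← R.dep_par u hu]
    push_cast
    rfl
  · rw [← R.dep_par v hv]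
    push_cast
    rw [add_assoc, h2, add_zero]

theorem sel_odd (R : RT T) {u v : U} (h : T.Adj u v) (hu : (R.dep u : ZMod 2) = 0) :
    (R.dep v : ZMod 2) = 1 := by
  rw [sel_par R h.symm, hu, zero_add]

theorem sel_even (R : RT T) {u v : U} (h : T.Adj u v) (hv : (R.dep v : ZMod 2) = 1) :
    (R.dep u : ZMod 2) = 0 := by
  rw [sel_par R h, hv]
  decide

/-- An even vertex has an inner neighbour if there is another even vertex. -/
theorem sel_nbr (hT : T.IsTree) (R : RT T) {u v : U} (huv : u ≠ v)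
    (hu : (R.dep u : ZMod 2) = 0) (hv : (R.dep v : ZMod 2) = 0) :
    ∃ y, T.Adj u y ∧ IsInner T y ∧ (R.dep y : ZMod 2) = 1 := by
  classical
  obtain ⟨p, hp⟩ := (hT.connected.preconnected u v).exists_isPath
  cases p with
  | nil => exact absurd rfl huv
  | cons h q =>
    rename_i w
    have hw : (R.dep w : ZMod 2) = 1 := sel_odd R h hu
    cases q with
    | nil =>
      rw [hv] at hw
      exact absurd hw (by decide)
    | cons h' q' =>
      rename_i x
      refine ⟨w, h, ⟨u, x, h.symm, h', ?_⟩, hw⟩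
      rintro rfl
      rw [SimpleGraph.Walk.cons_isPath_iff] at hp
      apply hp.2
      rw [SimpleGraph.Walk.support_cons]
      exact List.mem_cons_of_mem _ (SimpleGraph.Walk.start_mem_support _)

/-- an inner vertex has a neighbour different from a given vertex -/
theorem sel_other {z a : U} (hz : IsInner T z) : ∃ x, T.Adj x z ∧ x ≠ a := by
  obtain ⟨v, w, h1, h2, h3⟩ := hz
  by_cases hv : v = a
  · exact ⟨w, h2.symm, fun h => h3 (by rw [hv, h])⟩
  · exact ⟨v, h1.symm, hv⟩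

variable [DecidableEq U]

/-- The configuration needed for the choice of the rows. -/
theorem sel_conf (hT : T.IsTree) (R : RT T) (Rb : Finset U)
    (hRb : ∀ u ∈ Rb, (R.dep u : ZMod 2) = 0) (h2 : 2 ≤ Rb.card) (u₀ : U) (hu₀ : u₀ ∈ Rb) :
    ∃ u₁ y z x : U, u₁ ∈ Rb ∧ T.Adj u₁ y ∧ IsInner T y ∧ (R.dep y : ZMod 2) = 1 ∧
      IsInner T z ∧ (R.dep z : ZMod 2) = 1 ∧ T.Adj x z ∧
      (y = z → ∀ w, IsInner T w → (R.dep w : ZMod 2) = 1 → w = y) ∧
      ((Rb.card = 2 ∧ u₁ = u₀ ∧ x ≠ u₀) ∨ (3 ≤ Rb.card ∧ u₁ ≠ u₀ ∧ x ≠ u₀ ∧ x ≠ u₁)) := by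
  have hnb : ∀ u ∈ Rb, ∃ y, T.Adj u y ∧ IsInner T y ∧ (R.dep y : ZMod 2) = 1 := by
    intro u hu
    obtain ⟨v, hv, hvu⟩ := exists_mem_ne (show 1 < Rb.card by omega) u
    exact sel_nbr hT R (Ne.symm hvu) (hRb u hu) (hRb v hv)
  rcases Nat.lt_or_ge Rb.card 3 with h3 | h3
  · obtain ⟨y, h4, h5, h6⟩ := hnb u₀ hu₀
    by_cases hall : ∀ w, IsInner T w → (R.dep w : ZMod 2) = 1 → w = y
    · obtain ⟨x, hx, hx'⟩ := sel_other (a := u₀) h5
      exact ⟨u₀, y, y, x, hu₀, h4, h5, h6, h5, h6, hx, fun _ => hall,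
        Or.inl ⟨by omega, rfl, hx'⟩⟩
    · push Not at hall
      obtain ⟨z, hz, hz1, hzy⟩ := hall
      obtain ⟨x, hx, hx'⟩ := sel_other (a := u₀) hz
      exact ⟨u₀, y, z, x, hu₀, h4, h5, h6, hz, hz1, hx, fun h => absurd h.symm hzy,
        Or.inl ⟨by omega, rfl, hx'⟩⟩
  · obtain ⟨u₁, hu₁, hu₁₀⟩ := exists_mem_ne (show 1 < Rb.card by omega) u₀
    obtain ⟨y, h4, h5, h6⟩ := hnb u₁ hu₁
    obtain ⟨u₂, hu₂⟩ : ((Rb.erase u₀).erase u₁).Nonempty := by
      rw [← card_pos, card_erase_of_mem (mem_erase.2 ⟨hu₁₀, hu₁⟩), card_erase_of_mem hu₀]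
      omega
    rw [mem_erase, mem_erase] at hu₂
    obtain ⟨hu₂₁, hu₂₀, hu₂⟩ := hu₂
    obtain ⟨y₂, h7, h8, h9⟩ := hnb u₂ hu₂
    by_cases hall : ∀ w, IsInner T w → (R.dep w : ZMod 2) = 1 → w = y
    · have := hall y₂ h8 h9
      rw [this] at h7
      exact ⟨u₁, y, y, u₂, hu₁, h4, h5, h6, h5, h6, h7, fun _ => hall,
        Or.inr ⟨h3, hu₁₀, hu₂₀, hu₂₁⟩⟩
    · push Not at hall
      obtain ⟨z, hz, hz1, hzy⟩ := hall
      by_cases hB : ∃ z x, IsInner T z ∧ (R.dep z : ZMod 2) = 1 ∧ z ≠ y ∧ T.Adj x z ∧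
          x ≠ u₀ ∧ x ≠ u₁
      · obtain ⟨z, x, g1, g2, g3, g4, g5, g6⟩ := hB
        exact ⟨u₁, y, z, x, hu₁, h4, h5, h6, g1, g2, g4, fun h => absurd h.symm g3,
          Or.inr ⟨h3, hu₁₀, g5, g6⟩⟩
      · push Not at hB
        have hy₂ : y₂ = y := by
          by_contra hne
          exact hu₂₁ (hB y₂ u₂ h8 h9 hne h7 hu₂₀)
        rw [hy₂] at h7
        obtain ⟨x, hx, hx0⟩ := sel_other (a := u₀) hz
        have hx1 : x = u₁ := hB z x hz hz1 hzy hx hx0
        rw [hx1] at hx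
        exact ⟨u₂, y, z, u₁, hu₂, h7, h5, h6, hz, hz1, hx, fun h => absurd h.symm hzy,
          Or.inr ⟨h3, hu₂₀, hu₁₀, Ne.symm hu₂₁⟩⟩

variable [Fintype U]

/-- SEL. -/
theorem select (hT : T.IsTree)
    (R : RT T) (Rb : Finset U) (hRb : ∀ u ∈ Rb, (R.dep u : ZMod 2) = 0) (h2 : 2 ≤ Rb.card)
    (_hin : ∀ u ∈ Rb, IsInner T u) (u₀ : U) (hu₀ : u₀ ∈ Rb) :
    ∃ (row : U → ℕ) (y z : U),
      (∀ u v, (R.dep u : ZMod 2) = 0 → (R.dep v : ZMod 2) = 0 → row u = row v → u = v) ∧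
      (∀ u, (R.dep u : ZMod 2) = 0 → row u < (univ.filter (fun w => (R.dep w : ZMod 2) = 0)).card) ∧
      (∀ u, (R.dep u : ZMod 2) = 0 → (u ∈ Rb ↔ row u < Rb.card)) ∧
      row u₀ + 2 = Rb.card ∧
      IsInner T y ∧ IsInner T z ∧ (R.dep y : ZMod 2) = 1 ∧ (R.dep z : ZMod 2) = 1 ∧
      (∃ u, T.Adj u y ∧ row u = 0) ∧ (∃ u, T.Adj u z ∧ Rb.card ≤ row u + 1) ∧
      (y = z → ∀ w, IsInner T w → (R.dep w : ZMod 2) = 1 → w = y) := by
  classical
  obtain ⟨u₁, y, z, x, hu₁, a1, a2, a3, a4, a5, a6, a7, hconf⟩ := sel_conf hT R Rb hRb h2 u₀ hu₀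
  set r := Rb.card with hr
  set E : Finset U := univ.filter (fun w => (R.dep w : ZMod 2) = 0) with hE
  have hmemE : ∀ u, u ∈ E ↔ (R.dep u : ZMod 2) = 0 := fun u => by simp [hE]
  have hRbE : Rb ⊆ E := fun u hu => (hmemE u).2 (hRb u hu)
  -- the prescribed values
  set f₀ : U → ℕ := fun u => if u = u₁ then 0 else if u = u₀ then r - 2 else r - 1 with hf₀
  obtain ⟨g₁, hg₁⟩ := Finset.exists_equiv_extend_of_card_eq (α := {u // u ∈ Rb}) (t := range r)
    (by rw [Fintype.card_coe, card_range])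
    (s := univ.filter fun u => u.1 = u₁ ∨ u.1 = u₀ ∨ u.1 = x) (f := fun u => f₀ u.1)
    (by
      intro i hi
      obtain ⟨u, -, rfl⟩ := mem_image.1 hi
      rw [mem_range]
      simp only [hf₀]
      split_ifs <;> omega)
    (by
      rintro ⟨u, hu⟩ hu' ⟨v, hv⟩ hv' huv
      simp only [coe_filter, mem_univ, true_and, Set.mem_setOf_eq] at hu' hv'
      simp only [hf₀] at huv
      apply Subtype.ext
      show u = v
      rcases hconf with ⟨b1, b2, b3⟩ | ⟨b1, b2, b3, b4⟩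
      · subst b2
        rcases hu' with rfl | rfl | rfl <;> rcases hv' with rfl | rfl | rfl <;>
          first
            | rfl
            | (exfalso
               simp only [if_true, b3, Ne.symm b3, if_false] at huv
               omega)
      · rcases hu' with rfl | rfl | rfl <;> rcases hv' with rfl | rfl | rfl <;>
          first
            | rfl
            | (exfalso
               simp only [if_true, b2, b3, b4, Ne.symm b2, Ne.symm b3, Ne.symm b4, if_false] at huv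
               omega))
  obtain ⟨g₂, hg₂⟩ := Finset.exists_equiv_extend_of_card_eq (α := {u // u ∈ E})
    (t := range E.card) (by rw [Fintype.card_coe, card_range])
    (s := univ.filter fun u => u.1 ∈ Rb)
    (f := fun u => if h : u.1 ∈ Rb then (g₁ ⟨u.1, h⟩ : ℕ) else 0)
    (by
      intro i hi
      obtain ⟨u, hu, rfl⟩ := mem_image.1 hi
      rw [mem_filter] at hu
      rw [dif_pos hu.2, mem_range]
      exact (mem_range.1 (g₁ ⟨u.1, hu.2⟩).2).trans_le (card_le_card hRbE))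
    (by
      rintro ⟨u, hu⟩ hu' ⟨v, hv⟩ hv' huv
      simp only [coe_filter, mem_univ, true_and, Set.mem_setOf_eq] at hu' hv'
      simp only [hu', hv', dif_pos] at huv
      have := g₁.injective (Subtype.ext huv)
      exact Subtype.ext (congrArg (fun w => w.1) this))
  set row : U → ℕ := fun u => if h : u ∈ E then (g₂ ⟨u, h⟩ : ℕ) else 0 with hrow
  have hrowE : ∀ u (h : u ∈ E), row u = g₂ ⟨u, h⟩ := fun u h => by
    simp only [hrow, dif_pos h]
  have hrowRb : ∀ u (h : u ∈ Rb), row u = g₁ ⟨u, h⟩ := by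
    intro u h
    rw [hrowE u (hRbE h), hg₂ ⟨u, hRbE h⟩ (mem_filter.2 ⟨mem_univ _, h⟩), dif_pos h]
  have hpre : ∀ u ∈ Rb, (u = u₁ ∨ u = u₀ ∨ u = x) → row u = f₀ u := by
    intro u hu h
    rw [hrowRb u hu]
    exact hg₁ ⟨u, hu⟩ (mem_filter.2 ⟨mem_univ _, h⟩)
  have hinj : ∀ u v, (R.dep u : ZMod 2) = 0 → (R.dep v : ZMod 2) = 0 → row u = row v → u = v := by
    intro u v hu hv huv
    rw [hrowE u ((hmemE u).2 hu), hrowE v ((hmemE v).2 hv)] at huv
    have := g₂.injective (Subtype.ext huv)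
    exact congrArg (fun w => w.1) this
  have hlt : ∀ u, (R.dep u : ZMod 2) = 0 → (u ∈ Rb ↔ row u < r) := by
    intro u hu
    constructor
    · intro h
      rw [hrowRb u h]
      exact mem_range.1 (g₁ ⟨u, h⟩).2
    · intro h
      obtain ⟨v, hv⟩ := g₁.surjective ⟨row u, mem_range.2 h⟩
      have h4 : row v.1 = row u := by
        rw [hrowRb v.1 v.2]
        exact congrArg Subtype.val hv
      rw [← hinj v.1 u (hRb _ v.2) hu h4]
      exact v.2
  refine ⟨row, y, z, hinj, ?_, hlt, ?_, a2, a4, a3, a5, ⟨u₁, a1, ?_⟩, ⟨x, a6, ?_⟩, a7⟩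
  · intro u hu
    rw [hrowE u ((hmemE u).2 hu)]
    exact mem_range.1 (g₂ _).2
  · rw [hpre u₀ hu₀ (Or.inr (Or.inl rfl))]
    show (if u₀ = u₁ then 0 else if u₀ = u₀ then r - 2 else r - 1) + 2 = r
    rcases hconf with ⟨b1, b2, b3⟩ | ⟨b1, b2, b3, b4⟩
    · rw [if_pos b2.symm]
      omega
    · rw [if_neg (Ne.symm b2), if_pos rfl]
      omega
  · rw [hpre u₁ hu₁ (Or.inl rfl)]
    simp only [hf₀, if_true]
  · by_cases hx : x ∈ Rb
    · rw [hpre x hx (Or.inr (Or.inr rfl))]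
      simp only [hf₀]
      rcases hconf with ⟨b1, b2, b3⟩ | ⟨b1, b2, b3, b4⟩
      · rw [if_neg (by rw [b2]; exact b3), if_neg b3]
        omega
      · rw [if_neg b4, if_neg b3]
        omega
    · have := (not_congr (hlt x (sel_even R a6 a5))).1 hx
      omega

end

end Pool.Agent.Lib.MP_c5b475_co
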