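import Pool.Agent.Lib.MP_c5b475_co.Few.FIN
import Pool.Agent.Lib.MP_c5b475_co.Few.FN2
import Pool.Agent.Lib.MP_c5b475_co.Few.Frame
import Pool.Agent.Lib.MP_c5b475_co.Few.HF
import Pool.Agent.Lib.MP_c5b475_co.Few.BF
import Pool.Agent.Lib.MP_c5b475_co.Few.DO

set_option autoImplicit false

/-!
# All trees with at most `k` non-leaf vertices and `n ≥ 400 k ^ 2` edges
-/

namespace Pool.Agent.Lib.MP_c5b475_co

open Finset

theorem sq_zmod {a b : ZMod 2} (h : a ≠ b) : a = b + 1 := by
  revert a b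
  decide

theorem sq_zmod' {a b : ZMod 2} (h : a + b = 0) : b = a := by
  revert a b
  decide

theorem sq_zmod'' {a b : ZMod 2} (h : a + b = 1) : b ≠ a := by
  revert a b
  decide

theorem BlockFactor.mono {V : Type} {G : SimpleGraph V} {P Q : ℕ → Prop} (h : BlockFactor G P)
    (hPQ : ∀ μ, P μ → Q μ) : BlockFactor G Q := by
  obtain ⟨B, μ, e, h1, h2, h3, h4⟩ := h
  exact ⟨B, μ, e, fun b => hPQ _ (h1 b), h2, h3, h4⟩

/-- A tree with few leaves in one colour class has closed labellings modulo all numbers between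
`155 k` and `310 k`. -/
theorem sq_dominated {n k : ℕ} {T : SimpleGraph (Fin (n + 1))} (hT : T.IsTree) (h1 : 1 ≤ k)
    (hk : Nat.card {u // IsInner T u} ≤ k) (hn : 400 * k ^ 2 ≤ n) (R : RT T)
    (hRc : IsInner T R.c) (a : ZMod 2)
    (ha : Nat.card {w // (R.dep w : ZMod 2) = a ∧ ¬ IsInner T w} < 30 * k) (m : ℕ)
    (hm : 155 * k ≤ m) (hm' : m < 310 * k) : ClosedMod T m := by
  classical
  rw [Nat.card_eq_fintype_card, Fintype.card_subtype] at hk ha
  obtain ⟨IN, hIN⟩ : ∃ s : Finset (Fin (n + 1)), s = univ.filter (fun u => IsInner T u) := ⟨_, rfl⟩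
  obtain ⟨LA, hLA⟩ : ∃ s : Finset (Fin (n + 1)),
    s = univ.filter (fun w => (R.dep w : ZMod 2) = a ∧ ¬ IsInner T w) := ⟨_, rfl⟩
  obtain ⟨L, hL⟩ : ∃ s : Finset (Fin (n + 1)),
    s = univ.filter (fun w => (R.dep w : ZMod 2) ≠ a ∧ ¬ IsInner T w) := ⟨_, rfl⟩
  rw [← hIN] at hk
  rw [← hLA] at ha
  -- number of leaves in the other class
  have hcard : n + 1 ≤ LA.card + IN.card + L.card := by
    have h2 : (univ : Finset (Fin (n + 1))) ⊆ (LA ∪ IN) ∪ L := by
      intro w _
      rw [Finset.mem_union, Finset.mem_union, hLA, hIN, hL, Finset.mem_filter, Finset.mem_filter,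
        Finset.mem_filter]
      by_cases h3 : IsInner T w
      · exact Or.inl (Or.inr ⟨Finset.mem_univ _, h3⟩)
      · by_cases h4 : (R.dep w : ZMod 2) = a
        · exact Or.inl (Or.inl ⟨Finset.mem_univ _, h4, h3⟩)
        · exact Or.inr ⟨Finset.mem_univ _, h4, h3⟩
    have h3 := Finset.card_le_card h2
    rw [Finset.card_univ, Fintype.card_fin] at h3
    have h4 := Finset.card_union_le (LA ∪ IN) L
    have h5 := Finset.card_union_le LA IN
    omega
  -- the popular inner vertex
  have hmaps : ∀ w ∈ L, R.par w ∈ IN.filter (fun x => (R.dep x : ZMod 2) = a) := by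
    intro w hw
    rw [hL, Finset.mem_filter] at hw
    obtain ⟨_, hw1, hw2⟩ := hw
    obtain ⟨hwc, _, hwi⟩ := fin_leaf R hRc hw2
    rw [Finset.mem_filter, hIN, Finset.mem_filter]
    refine ⟨⟨Finset.mem_univ _, hwi⟩, ?_⟩
    have h2 := R.dep_par_cast hwc
    have h3 := sq_zmod hw1
    rw [h2] at h3
    exact add_right_cancel h3
  have hlt : (IN.filter (fun x => (R.dep x : ZMod 2) = a)).card * (310 * k - 1) < L.card := by
    have h2 : (IN.filter (fun x => (R.dep x : ZMod 2) = a)).card ≤ k :=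
      (Finset.card_filter_le _ _).trans hk
    have h3 : (IN.filter (fun x => (R.dep x : ZMod 2) = a)).card * (310 * k - 1) ≤
      k * (310 * k - 1) := Nat.mul_le_mul_right _ h2
    have h4 : k * (310 * k - 1) + k = 310 * k ^ 2 := by
      have : 310 * k - 1 + 1 = 310 * k := by omega
      calc k * (310 * k - 1) + k = k * (310 * k - 1 + 1) := by ring
        _ = 310 * k ^ 2 := by rw [this]; ring
    have h5 : k ≤ k ^ 2 := Nat.le_self_pow (by norm_num) k
    omega
  obtain ⟨x0, hx0, hfib⟩ := Finset.exists_lt_card_fiber_of_mul_lt_card_of_maps_to hmaps hlt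
  rw [Finset.mem_filter, hIN, Finset.mem_filter] at hx0
  obtain ⟨⟨_, hx0i⟩, hx0a⟩ := hx0
  have hlf : 310 * k ≤ (lf T x0).card := by
    have h2 : L.filter (fun w => R.par w = x0) ⊆ lf T x0 := by
      intro w hw
      rw [Finset.mem_filter, hL, Finset.mem_filter] at hw
      obtain ⟨⟨_, _, hw2⟩, hw3⟩ := hw
      rw [← hw3]
      exact (fin_leaf R hRc hw2).2.1
    have h3 := Finset.card_le_card h2
    omega
  -- root at this vertex
  obtain ⟨R', hR', _⟩ := exists_RT hT x0
  have hpar := fin_parity R R'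
  have hb : (R'.dep R.c : ZMod 2) = a := by
    have h2 := hpar x0
    rw [← hR', R'.dep_c, Nat.cast_zero, hR', hx0a] at h2
    exact (sq_zmod' h2.symm).symm
  have hpar' : ∀ w, (R'.dep w : ZMod 2) = a + R.dep w := by
    intro w
    rw [hpar w, hb]
  have hN : (univ.filter (fun u => (R'.dep u : ZMod 2) = 0)).card +
      (univ.filter (fun u => (R'.dep u : ZMod 2) = 1 ∧ IsInner T u)).card ≤ 31 * k := by
    have h2 : univ.filter (fun u => (R'.dep u : ZMod 2) = 0) ⊆
        LA ∪ IN.filter (fun x => (R.dep x : ZMod 2) = a) := by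
      intro w hw
      rw [Finset.mem_filter] at hw
      have h3 : (R.dep w : ZMod 2) = a := by
        have := hw.2
        rw [hpar' w] at this
        exact sq_zmod' this
      rw [Finset.mem_union, hLA, hIN, Finset.mem_filter, Finset.mem_filter, Finset.mem_filter]
      by_cases h4 : IsInner T w
      · exact Or.inr ⟨⟨Finset.mem_univ _, h4⟩, h3⟩
      · exact Or.inl ⟨Finset.mem_univ _, h3, h4⟩
    have h3 : univ.filter (fun u => (R'.dep u : ZMod 2) = 1 ∧ IsInner T u) ⊆
        IN.filter (fun x => ¬ (R.dep x : ZMod 2) = a) := by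
      intro w hw
      rw [Finset.mem_filter] at hw
      have h3 : (R.dep w : ZMod 2) ≠ a := by
        have := hw.2.1
        rw [hpar' w] at this
        exact sq_zmod'' this
      rw [Finset.mem_filter, hIN, Finset.mem_filter]
      exact ⟨⟨Finset.mem_univ _, hw.2.2⟩, h3⟩
    have h4 := Finset.card_le_card h2
    have h5 := Finset.card_le_card h3
    have h6 := Finset.card_union_le LA (IN.filter (fun x => (R.dep x : ZMod 2) = a))
    have h7 := Finset.card_filter_add_card_filter_not (s := IN) (fun x => (R.dep x : ZMod 2) = a)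
    omega
  refine dominated hT R' ?_ (31 * k) hN m (by omega) ?_
  · rw [hR']
    exact hx0i
  · rw [hR']
    omega

/-- SQ. All trees with `n ≥ 400 k^2`. -/
theorem all_sqrt {n k : ℕ} {T : SimpleGraph (Fin (n + 1))} (hT : T.IsTree) (h1 : 1 ≤ k)
    (hk : Nat.card {u // IsInner T u} ≤ k) (hn : 400 * k ^ 2 ≤ n) {V : Type} [Fintype V]
    [DecidableEq V] (G : SimpleGraph V) [DecidableRel G.Adj] (hG : G.IsRegularOfDegree n) {m : ℕ}
    (hm : 200 * k ≤ m) (hf : HasFactor G m) : Decomposes T G := by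
  classical
  have hk2 : k ≤ k ^ 2 := Nat.le_self_pow (by norm_num) k
  obtain ⟨c, hc⟩ := fin_exists_inner hT (by rw [Fintype.card_fin]; omega)
  obtain ⟨R, hRc, _⟩ := exists_RT hT c
  have hc' : IsInner T R.c := by
    rw [hRc]
    exact hc
  by_cases hL : ∀ a : ZMod 2, 30 * k ≤ Nat.card {w // (R.dep w : ZMod 2) = a ∧ ¬ IsInner T w}
  · refine frame (bothClasses hT k h1 hk (fun u => (R.dep u : ZMod 2)) ?_ hL) G hG (by omega) hf
    intro u v huv
    rcases (R.adj_iff u v).1 huv with ⟨h2, h3⟩ | ⟨h2, h3⟩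
    · have h4 := R.dep_par_cast h2
      change (R.dep v : ZMod 2) = R.dep u + 1
      rw [h4, h3, add_assoc]
      generalize (R.dep (R.par u) : ZMod 2) = b
      revert b
      decide
    · change (R.dep v : ZMod 2) = R.dep u + 1
      rw [R.dep_par_cast h2, h3]
  · push Not at hL
    obtain ⟨a, ha⟩ := hL
    refine block_frame G hG ((factor_blocks (m0 := 155 * k) (by omega) (by omega) hf).mono ?_)
    rintro μ ⟨hμ1, hμ2⟩
    exact ⟨by omega, sq_dominated hT h1 hk hn R hc' a ha μ hμ1 (by omega)⟩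

end Pool.Agent.Lib.MP_c5b475_co
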