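import Pool.Agent.Lib.MP_c5b475_co.Few.DefsL

set_option autoImplicit false

/-!
# Extending partial labellings modulo `m`
-/

namespace Pool.Agent.Lib.MP_c5b475_co

open Finset

/-- Partial labellings without the closedness. -/
structure RT.St1Pre {U : Type*} {T : SimpleGraph U} (R : RT T) {m : ℕ} (B : Finset U)
    (lab : U → ZMod m) : Prop where
  root_mem : R.c ∈ B
  par_mem : ∀ u ∈ B, u ≠ R.c → R.par u ∈ B
  root_lab : lab R.c = 0
  inj : ∀ u ∈ B, ∀ v ∈ B, (R.dep u : ZMod 2) = R.dep v → lab u = lab v → u = v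
  ty_inj : ∀ u ∈ B, ∀ v ∈ B, u ≠ R.c → v ≠ R.c →
    lab u + lab (R.par u) = lab v + lab (R.par v) → u = v

theorem st1_exists_avoid {m : ℕ} [NeZero m] (S : Finset (ZMod m)) (h : S.card < m) :
    ∃ x, x ∉ S := by
  by_contra hcon
  push Not at hcon
  have h1 : S = univ := Finset.eq_univ_iff_forall.mpr hcon
  rw [h1, Finset.card_univ, ZMod.card] at h
  exact lt_irrefl _ h

theorem st1_card_double {m : ℕ} [NeZero m] (c : ZMod m) (S : Finset (ZMod m)) :
    (univ.filter (fun a : ZMod m => (c + a) + a ∈ S)).card ≤ 2 * S.card := by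
  classical
  refine le_trans (Finset.card_le_mul_card_image (f := fun a : ZMod m => (c + a) + a) _ 2 ?_) ?_
  · intro t ht
    by_cases hne : ((univ.filter (fun a : ZMod m => (c + a) + a ∈ S)).filter
      (fun a => (c + a) + a = t)).Nonempty
    · obtain ⟨a0, ha0⟩ := hne
      have h0 : (c + a0) + a0 = t := (Finset.mem_filter.mp ha0).2
      have h1 := IsAddCyclic.card_nsmul_eq_zero_le (α := ZMod m) (n := 2) (by norm_num)
      refine le_trans (Finset.card_le_card_of_injOn (fun a => a - a0) ?_ ?_) h1
      · intro a ha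
        have ha' : (c + a) + a = t := (Finset.mem_filter.mp ha).2
        have h2 : (2 : ℕ) • (a - a0) = 0 := by
          rw [two_nsmul]
          have : (a - a0) + (a - a0) = ((c + a) + a) - ((c + a0) + a0) := by ring
          rw [this, ha', h0, sub_self]
        simpa using h2
      · intro a _ b _ hab
        simpa using hab
    · rw [Finset.not_nonempty_iff_eq_empty] at hne
      rw [hne]
      simp
  · apply Nat.mul_le_mul_left
    apply Finset.card_le_card
    intro t ht
    obtain ⟨a, ha, rfl⟩ := Finset.mem_image.mp ht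
    exact (Finset.mem_filter.mp ha).2

section steps

variable {U : Type*} {T : SimpleGraph U} {R : RT T} {m : ℕ} {B : Finset U} {lab : U → ZMod m}

theorem RT.Placed.st1pre (hP : R.Placed B lab) : R.St1Pre B lab :=
  ⟨hP.root_mem, hP.par_mem, hP.root_lab, hP.inj, hP.ty_inj⟩

variable [DecidableEq U]

/-- Adding one vertex. -/
theorem RT.St1Pre.insert (hP : R.St1Pre B lab) {u : U} (hu : u ∉ B) (hp : R.par u ∈ B) (x : ZMod m)
    (h1 : ∀ v ∈ B, (R.dep v : ZMod 2) = R.dep u → lab v ≠ x)
    (h2 : ∀ v ∈ B, v ≠ R.c → lab v + lab (R.par v) ≠ x + lab (R.par u)) :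
    R.St1Pre (insert u B) (Function.update lab u x) := by
  have hne : ∀ v ∈ B, v ≠ u := fun v hv h => hu (h ▸ hv)
  have hl : ∀ v ∈ B, Function.update lab u x v = lab v := fun v hv =>
    Function.update_of_ne (hne v hv) _ _
  have hlu : Function.update lab u x u = x := Function.update_self _ _ _
  refine ⟨mem_insert_of_mem hP.root_mem, ?_, ?_, ?_, ?_⟩
  · intro v hv hvc
    rcases mem_insert.mp hv with rfl | hv
    · exact mem_insert_of_mem hp
    · exact mem_insert_of_mem (hP.par_mem v hv hvc)
  · rw [hl _ hP.root_mem, hP.root_lab]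
  · intro v hv' w hw' hd h
    rcases mem_insert.mp hv' with hv | hv
    · rcases mem_insert.mp hw' with hw | hw
      · rw [hv, hw]
      · rw [hv, hlu, hl w hw] at h
        exact absurd h.symm (h1 w hw (by rw [← hd, hv]))
    · rcases mem_insert.mp hw' with hw | hw
      · rw [hw, hlu, hl v hv] at h
        exact absurd h (h1 v hv (by rw [hd, hw]))
      · rw [hl v hv, hl w hw] at h
        exact hP.inj v hv w hw hd h
  · intro v hv' w hw' hvc hwc h
    rcases mem_insert.mp hv' with hv | hv
    · rcases mem_insert.mp hw' with hw | hw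
      · rw [hv, hw]
      · rw [hv, hlu, hl w hw, hl _ hp, hl _ (hP.par_mem w hw hwc)] at h
        exact absurd h.symm (h2 w hw hwc)
    · rcases mem_insert.mp hw' with hw | hw
      · rw [hw, hlu, hl v hv, hl _ hp, hl _ (hP.par_mem v hv hvc)] at h
        exact absurd h (h2 v hv hvc)
      · rw [hl v hv, hl w hw, hl _ (hP.par_mem w hw hwc), hl _ (hP.par_mem v hv hvc)] at h
        exact hP.ty_inj v hv w hw hvc hwc h

theorem RT.st1_mem_tys {v : U} (hv : v ∈ B) (hvc : v ≠ R.c) :
    lab v + lab (R.par v) ∈ R.tys B lab :=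
  Finset.mem_image_of_mem _ (Finset.mem_erase.mpr ⟨hvc, hv⟩)

theorem RT.st1_card_tys_le : (R.tys B lab).card ≤ B.card :=
  le_trans Finset.card_image_le (Finset.card_le_card (Finset.erase_subset _ _))

theorem RT.Placed.st1_mem_tys (hP : R.Placed B lab) {v : U} (hv : v ∈ B)
    (hd : (R.dep v : ZMod 2) = 1) : lab v ∈ R.tys B lab := by
  obtain ⟨u, hu, huc, h⟩ := hP.closed v hv hd
  rw [← h]
  exact RT.st1_mem_tys hu huc

variable [NeZero m]

/-- ST. A new vertex of even depth. -/
theorem step_even (hP : R.Placed B lab) (hB : 5 * B.card < m) {u : U} (hu : u ∉ B)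
    (hp : R.par u ∈ B) (hd : (R.dep u : ZMod 2) = 0) :
    ∃ lab' : U → ZMod m, (∀ v ∈ B, lab' v = lab v) ∧ R.Placed (insert u B) lab' := by
  classical
  obtain ⟨x, hx⟩ := st1_exists_avoid (B.image lab ∪
    (R.tys B lab).image (fun t => t - lab (R.par u))) (by
      have h1 := Finset.card_union_le (B.image lab)
        ((R.tys B lab).image (fun t => t - lab (R.par u)))
      have h2 : (B.image lab).card ≤ B.card := Finset.card_image_le
      have h3 : ((R.tys B lab).image (fun t => t - lab (R.par u))).card ≤ B.card :=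
        le_trans Finset.card_image_le RT.st1_card_tys_le
      omega)
  rw [Finset.mem_union, not_or] at hx
  have hne : ∀ v ∈ B, v ≠ u := fun v hv h => hu (h ▸ hv)
  have hl : ∀ v ∈ B, Function.update lab u x v = lab v := fun v hv =>
    Function.update_of_ne (hne v hv) _ _
  have hpre := hP.st1pre.insert hu hp x (fun v hv _ h => hx.1 (h ▸ Finset.mem_image_of_mem _ hv))
    (fun v hv hvc h => hx.2 (Finset.mem_image.mpr ⟨_, RT.st1_mem_tys hv hvc, by
      rw [h]; ring⟩))
  refine ⟨Function.update lab u x, hl, hpre.root_mem, hpre.par_mem, hpre.root_lab, hpre.inj,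
    hpre.ty_inj, ?_⟩
  intro v hv hdv
  rcases mem_insert.mp hv with rfl | hv
  · rw [hd] at hdv
    exact absurd hdv (by decide)
  · obtain ⟨w, hw, hwc, h⟩ := hP.closed v hv hdv
    refine ⟨w, mem_insert_of_mem hw, hwc, ?_⟩
    rw [hl w hw, hl _ (hP.par_mem w hw hwc), hl v hv, h]

/-- ST. A new vertex `u` of even depth and its child `v`, placed at the type of the edge
`u, par u`. -/
theorem step_first (hP : R.Placed B lab) (hB : 5 * B.card < m) {u v : U} (hu : u ∉ B)
    (hp : R.par u ∈ B) (hd : (R.dep u : ZMod 2) = 0) (hv : v ∉ B) (hvu : R.par v = u)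
    (hvc : v ≠ R.c) :
    ∃ lab' : U → ZMod m, (∀ w ∈ B, lab' w = lab w) ∧ R.Placed (insert v (insert u B)) lab' := by
  classical
  set c := lab (R.par u) with hc
  obtain ⟨a, ha⟩ := st1_exists_avoid (B.image lab ∪
    ((R.tys B lab).image (fun t => t - c) ∪
      univ.filter (fun a : ZMod m => (c + a) + a ∈ R.tys B lab))) (by
      have h1 := Finset.card_union_le (B.image lab)
        ((R.tys B lab).image (fun t => t - c) ∪
          univ.filter (fun a : ZMod m => (c + a) + a ∈ R.tys B lab))
      have h1' := Finset.card_union_le ((R.tys B lab).image (fun t => t - c))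
          (univ.filter (fun a : ZMod m => (c + a) + a ∈ R.tys B lab))
      have h2 : (B.image lab).card ≤ B.card := Finset.card_image_le
      have h3 : ((R.tys B lab).image (fun t => t - c)).card ≤ B.card :=
        le_trans Finset.card_image_le RT.st1_card_tys_le
      have h4 := st1_card_double c (R.tys B lab)
      have h5 : (R.tys B lab).card ≤ B.card := RT.st1_card_tys_le
      omega)
  rw [Finset.mem_union, Finset.mem_union, not_or, not_or] at ha
  obtain ⟨ha1, ha2, ha3⟩ := ha
  have ha1' : ∀ w ∈ B, lab w ≠ a := fun w hw h => ha1 (h ▸ Finset.mem_image_of_mem _ hw)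
  have ha2' : c + a ∉ R.tys B lab := fun h => ha2 (Finset.mem_image.mpr ⟨_, h, by ring⟩)
  have ha3' : (c + a) + a ∉ R.tys B lab := fun h =>
    ha3 (Finset.mem_filter.mpr ⟨Finset.mem_univ _, h⟩)
  have ha0 : a ≠ 0 := fun h => ha1' _ hP.root_mem (by rw [hP.root_lab, h])
  have huc : u ≠ R.c := fun h => hu (h ▸ hP.root_mem)
  have hvne : v ≠ u := by
    intro h
    have := R.dep_par v hvc
    rw [hvu, h] at this
    omega
  have hdv : (R.dep v : ZMod 2) = 1 := by
    have := R.dep_par v hvc
    rw [← this, hvu, Nat.cast_add, hd]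
    simp
  have hne : ∀ w ∈ B, w ≠ u := fun w hw h => hu (h ▸ hw)
  have hne' : ∀ w ∈ B, w ≠ v := fun w hw h => hv (h ▸ hw)
  have hl : ∀ w ∈ B, Function.update lab u a w = lab w := fun w hw =>
    Function.update_of_ne (hne w hw) _ _
  have hlu : Function.update lab u a u = a := Function.update_self _ _ _
  have hpre := hP.st1pre.insert hu hp a (fun w hw _ => ha1' w hw)
    (fun w hw hwc h => ha2' (by
      have h' := RT.st1_mem_tys (R := R) (lab := lab) hw hwc
      rw [h, ← hc, add_comm] at h'
      exact h'))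
  have hpre2 := hpre.insert (u := v) (by
      rw [mem_insert, not_or]
      exact ⟨hvne, hv⟩) (by
      rw [hvu]
      exact mem_insert_self _ _) (c + a)
    (by
      intro w hw hdw
      rcases mem_insert.mp hw with rfl | hw
      · rw [hd, hdv] at hdw
        exact absurd hdw (by decide)
      · rw [hl w hw]
        intro h
        apply ha2'
        rw [← h]
        exact hP.st1_mem_tys hw (hdw.trans hdv))
    (by
      intro w hw hwc
      rw [hvu, hlu]
      rcases mem_insert.mp hw with rfl | hw
      · rw [hlu, hl _ hp, ← hc]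
        intro h
        apply ha0
        have h' : a = (c + a) + a - (a + c) := by ring
        rw [h', ← h, sub_self]
      · rw [hl w hw, hl _ (hP.par_mem w hw hwc)]
        intro h
        exact ha3' (h ▸ RT.st1_mem_tys hw hwc))
  set lab' := Function.update (Function.update lab u a) v (c + a) with hlab'
  have hl' : ∀ w ∈ B, lab' w = lab w := fun w hw => by
    rw [hlab', Function.update_of_ne (hne' w hw), hl w hw]
  have hlu' : lab' u = a := by rw [hlab', Function.update_of_ne hvne.symm, hlu]
  have hlv' : lab' v = c + a := Function.update_self _ _ _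
  refine ⟨lab', hl', hpre2.root_mem, hpre2.par_mem, hpre2.root_lab, hpre2.inj, hpre2.ty_inj, ?_⟩
  intro w hw hdw
  rcases mem_insert.mp hw with rfl | hw
  · refine ⟨u, mem_insert_of_mem (mem_insert_self _ _), huc, ?_⟩
    rw [hlu', hl' _ hp, hlv', add_comm]
  rcases mem_insert.mp hw with rfl | hw
  · rw [hd] at hdw
    exact absurd hdw (by decide)
  · obtain ⟨z, hz, hzc, h⟩ := hP.closed w hw hdw
    refine ⟨z, mem_insert_of_mem (mem_insert_of_mem hz), hzc, ?_⟩
    rw [hl' z hz, hl' _ (hP.par_mem z hz hzc), hl' w hw, h]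

end steps

end Pool.Agent.Lib.MP_c5b475_co
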