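import Pool.Agent.Lib.MP_c5b475_co.Few.Defs

set_option autoImplicit false

/-!
# Zone labelling of a par-closed set
-/

namespace Pool.Agent.Lib.MP_c5b475_co

open Finset

theorem zl_aux {U : Type*} [DecidableEq U] {T : SimpleGraph U} (R : RT T) (k : ℕ) (ζ : U → ℕ) :
    ∀ (n : ℕ) (B : Finset U), B.card = n → B.card ≤ k → R.c ∈ B →
      (∀ u ∈ B, u ≠ R.c → R.par u ∈ B) →
      ∃ lab : U → ℕ, (∀ u ∈ B, ζ u ≤ lab u ∧ lab u < ζ u + 2 * k) ∧
        (∀ u ∈ B, ∀ v ∈ B, lab u = lab v → u = v) ∧
        (∀ u ∈ B, ∀ v ∈ B, u ≠ R.c → v ≠ R.c →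
          lab u + lab (R.par u) = lab v + lab (R.par v) → u = v) := by
  intro n
  induction n with
  | zero =>
    intro B hB _ hc _
    rw [Finset.card_eq_zero] at hB
    rw [hB] at hc
    exact absurd hc (Finset.notMem_empty _)
  | succ n ih =>
    intro B hB hk hc hpar
    by_cases hn : n = 0
    · -- B = {c}
      subst hn
      obtain ⟨b, hb⟩ := Finset.card_eq_one.1 hB
      have hbc : b = R.c := by
        rw [hb] at hc; exact (Finset.mem_singleton.1 hc).symm
      subst hbc
      refine ⟨ζ, fun u _ => ⟨le_rfl, by omega⟩, ?_, ?_⟩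
      · intro u hu v hv _
        rw [hb] at hu hv
        rw [Finset.mem_singleton.1 hu, Finset.mem_singleton.1 hv]
      · intro u hu v hv h _ _
        rw [hb] at hu
        exact absurd (Finset.mem_singleton.1 hu) h
    · obtain ⟨w, hw, hmax⟩ := Finset.exists_max_image B R.dep ⟨R.c, hc⟩
      have hwc : w ≠ R.c := by
        intro h
        have h1 : B ⊆ {R.c} := by
          intro u hu
          rw [Finset.mem_singleton]
          by_contra hne
          have h2 := R.dep_par u hne
          have h3 := hmax u hu
          rw [h, R.dep_c] at h3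
          omega
        have h2 := Finset.card_le_card h1
        rw [Finset.card_singleton] at h2
        omega
      have hcard : (B.erase w).card = n := by
        rw [Finset.card_erase_of_mem hw, hB]; rfl
      have hc' : R.c ∈ B.erase w := Finset.mem_erase.2 ⟨Ne.symm hwc, hc⟩
      have hpar' : ∀ u ∈ B, u ≠ R.c → R.par u ∈ B.erase w := by
        intro u hu huc
        refine Finset.mem_erase.2 ⟨?_, hpar u hu huc⟩
        intro h
        have h1 := R.dep_par u huc
        have h2 := hmax u hu
        rw [h] at h1
        omega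
      obtain ⟨lab, hz, hinj, htyp⟩ := ih (B.erase w) hcard (by omega) hc'
        (fun u hu => hpar' u (Finset.mem_of_mem_erase hu))
      set X : Finset ℕ := (B.erase w).image lab ∪
        ((B.erase w).erase R.c).image (fun u => lab u + lab (R.par u) - lab (R.par w)) with hX
      have hXcard : X.card < 2 * k := by
        have h1 : X.card ≤ ((B.erase w).image lab).card +
          (((B.erase w).erase R.c).image
            (fun u => lab u + lab (R.par u) - lab (R.par w))).card := Finset.card_union_le _ _
        have h2 : ((B.erase w).image lab).card ≤ n := Finset.card_image_le.trans hcard.le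
        have h3 : (((B.erase w).erase R.c).image
            (fun u => lab u + lab (R.par u) - lab (R.par w))).card ≤ n - 1 :=
          Finset.card_image_le.trans (by rw [Finset.card_erase_of_mem hc', hcard])
        omega
      obtain ⟨x, hx1, hx2⟩ : ∃ x ∈ Finset.Ico (ζ w) (ζ w + 2 * k), x ∉ X := by
        by_contra hcon
        push Not at hcon
        have h1 : Finset.Ico (ζ w) (ζ w + 2 * k) ⊆ X := hcon
        have h2 := Finset.card_le_card h1
        rw [Nat.card_Ico] at h2
        omega
      rw [Finset.mem_Ico] at hx1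
      have hxl : ∀ u ∈ B.erase w, lab u ≠ x := by
        intro u hu h
        exact hx2 (Finset.mem_union_left _ (Finset.mem_image.2 ⟨u, hu, h⟩))
      have hxt : ∀ u ∈ B.erase w, u ≠ R.c → lab u + lab (R.par u) ≠ x + lab (R.par w) := by
        intro u hu huc h
        refine hx2 (Finset.mem_union_right _ (Finset.mem_image.2
          ⟨u, Finset.mem_erase.2 ⟨huc, hu⟩, ?_⟩))
        omega
      have hup : ∀ u, u ≠ w → Function.update lab w x u = lab u := fun u hu =>
        Function.update_of_ne hu _ _
      have hupw : Function.update lab w x w = x := Function.update_self _ _ _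
      have hupp : ∀ u ∈ B, u ≠ R.c → Function.update lab w x (R.par u) = lab (R.par u) :=
        fun u hu huc => hup _ (Finset.ne_of_mem_erase (hpar' u hu huc))
      refine ⟨Function.update lab w x, ?_, ?_, ?_⟩
      · intro u hu
        by_cases h : u = w
        · subst h; rw [hupw]; exact hx1
        · rw [hup u h]; exact hz u (Finset.mem_erase.2 ⟨h, hu⟩)
      · intro u hu v hv huv
        by_cases h : u = w
        · by_cases h' : v = w
          · rw [h, h']
          · rw [h, hupw, hup v h'] at huv
            exact absurd huv.symm (hxl v (Finset.mem_erase.2 ⟨h', hv⟩))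
        · by_cases h' : v = w
          · rw [h', hupw, hup u h] at huv
            exact absurd huv (hxl u (Finset.mem_erase.2 ⟨h, hu⟩))
          · rw [hup u h, hup v h'] at huv
            exact hinj u (Finset.mem_erase.2 ⟨h, hu⟩) v (Finset.mem_erase.2 ⟨h', hv⟩) huv
      · intro u hu v hv huc hvc huv
        rw [hupp u hu huc, hupp v hv hvc] at huv
        by_cases h : u = w
        · by_cases h' : v = w
          · rw [h, h']
          · subst h
            rw [hupw, hup v h'] at huv
            exact absurd huv.symm (hxt v (Finset.mem_erase.2 ⟨h', hv⟩) hvc)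
        · by_cases h' : v = w
          · subst h'
            rw [hupw, hup u h] at huv
            exact absurd huv (hxt u (Finset.mem_erase.2 ⟨h, hu⟩) huc)
          · rw [hup u h, hup v h'] at huv
            exact htyp u (Finset.mem_erase.2 ⟨h, hu⟩) v (Finset.mem_erase.2 ⟨h', hv⟩) huc hvc huv

/-- ZL. Zone labelling of a par-closed set. -/
theorem zone_labelling {U : Type*} [DecidableEq U] {T : SimpleGraph U} (R : RT T) (A : Finset U)
    (hc : R.c ∈ A) (hpar : ∀ u ∈ A, u ≠ R.c → R.par u ∈ A) (k : ℕ) (hk : A.card ≤ k)
    (ζ : U → ℕ) :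
    ∃ lab : U → ℕ, (∀ u ∈ A, ζ u ≤ lab u ∧ lab u < ζ u + 2 * k) ∧
      (∀ u ∈ A, ∀ v ∈ A, (R.dep u : ZMod 2) = R.dep v → lab u = lab v → u = v) ∧
      (∀ u ∈ A, ∀ v ∈ A, u ≠ R.c → v ≠ R.c →
        lab u + lab (R.par u) = lab v + lab (R.par v) → u = v) := by
  obtain ⟨lab, h1, h2, h3⟩ := zl_aux R k ζ A.card A rfl hk hc hpar
  exact ⟨lab, h1, fun u hu v hv _ => h2 u hu v hv, h3⟩

end Pool.Agent.Lib.MP_c5b475_co
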